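import Pool.Agent.Work.Monodromy.Interface8
import Pool.Agent.Work.Monodromy4.VA
import Pool.Agent.Work.Monodromy4.Q1
import Pool.Agent.Work.Monodromy4.Q5

/-!
# Block POL8: the poles smaller than `-(n-1)/2`
-/

set_option autoImplicit false

namespace Pool.Agent.Mono.SP

open MvPolynomial TS RO PC

namespace POL8Aux

/-- the leading coefficient is `w ^ e` -/
def QE (e : ℕ) : Set (Bool ⊕ Unit → ℂ) :=
  {v | (v (Sum.inl false) ≠ 0 ∧ v (Sum.inl true) ^ e = v (Sum.inl false)) ∧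
    v (Sum.inr ()) = v (Sum.inl false)}

theorem QU_QE (e : ℕ) : QU (QE e) := by
  refine ⟨?_, ?_⟩
  · have h1 := (Constructible.zero (X (Sum.inl false) : MvPolynomial (Bool ⊕ Unit) ℂ)).compl
    have h2 := Constructible.zero
      (X (Sum.inl true) ^ e - X (Sum.inl false) : MvPolynomial (Bool ⊕ Unit) ℂ)
    have h3 := Constructible.zero
      (X (Sum.inr ()) - X (Sum.inl false) : MvPolynomial (Bool ⊕ Unit) ℂ)
    have h := (h1.inter h2).inter h3
    convert h using 1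
    ext v
    show ((v (Sum.inl false) ≠ 0 ∧ v (Sum.inl true) ^ e = v (Sum.inl false)) ∧
      v (Sum.inr ()) = v (Sum.inl false)) ↔
      ((¬ eval v (X (Sum.inl false)) = 0 ∧ eval v (X (Sum.inl true) ^ e - X (Sum.inl false)) = 0) ∧
        eval v (X (Sum.inr ()) - X (Sum.inl false)) = 0)
    simp only [eval_X, map_sub, map_pow, sub_eq_zero, ne_eq]
  · rintro z ⟨⟨h1, _⟩, h2⟩
    rw [h2]
    exact h1

theorem ctc_eq {ι : Type} (f : MvPolynomial ι ℂ) (e m : ℕ) :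
    ctc f {z : Bool → ℂ | z false ≠ 0 ∧ z true ^ e = z false} (X false) m =
      {z : (Bool → ℂ) × (ι → PowerSeries ℂ) | Lead (QE e) m z.1 (aeval z.2 f)} := by
  ext z
  constructor
  · rintro ⟨h1, h2, h3⟩
    rw [eval_X] at h3
    exact ⟨h2, h1, h3⟩
  · rintro ⟨h1, h2, h3⟩
    refine ⟨h2, h1, ?_⟩
    rw [eval_X]
    exact h3

/-- multiplication with a power of `u` -/
theorem Bnd_X {n N : ℕ} {a : K} (hI : Stmt_I08) (h : Bnd N a) : Bnd N (RatFunc.X ^ n * a) := by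
  have h0 : Bnd 0 ((RatFunc.X : K) ^ n) := by
    have := hI.2.2.2.2.1 (Polynomial.X ^ n)
    have e : toRat (Polynomial.X ^ n) = (RatFunc.X : K) ^ n := by
      rw [map_pow]
      congr 1
      simp [toRat]
    rwa [e] at this
  have := hI.2.2.2.1 0 N _ _ h0 h
  rwa [Nat.zero_add] at this

theorem Bnd_zero (hI : Stmt_I08) (N : ℕ) : Bnd N 0 := by
  have h := hI.2.2.2.2.1 0
  rw [map_zero] at h
  exact hI.2.1 0 N 0 (Nat.zero_le _) h

/-- the core: a sequence with the volumes as coefficients -/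
theorem core (hI : Stmt_I08) (hAN : Stmt_AN8) (hM : Stmt_MAIN8) (P : HodgeMeasure) (ι : Type)
    [Fintype ι] [DecidableEq ι] (f : MvPolynomial ι ℂ) (h3 : 3 ≤ Fintype.card ι) (e : ℕ)
    (κ : ℕ → K) (R : K) (Λ : Set ℚ) (hE : ESeq Λ κ)
    (hκ : ∀ m, 1 ≤ m → κ m = P.rat.L ^ Fintype.card ι *
      vol P.rat xq {z : (Bool → ℂ) × (ι → PowerSeries ℂ) | Lead (QE e) m z.1 (aeval z.2 f)})
    (hR : IsLim (PowerSeries.mk κ) R) (s : ℂ) (hs : Polynomial.aeval s R.denom = 0)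
    (hre : s.re < -((Fintype.card ι : ℝ) - 1) / 2) : ∃ r ∈ ExpS f, s = -(r : ℂ) := by
  obtain ⟨r0, hr0, rfl⟩ := stmt_Q5 Λ κ R hE hR s hs
  set n := Fintype.card ι with hn
  have hn3 : (3 : ℚ) ≤ n := by exact_mod_cast h3
  have hr0' : ((n : ℚ) - 1) / 2 < r0 := by
    have h1 : (-(r0 : ℂ)).re = -(r0 : ℝ) := by
      rw [Complex.neg_re, ← Complex.ofReal_ratCast, Complex.ofReal_re]
    rw [h1] at hre
    have h2 : ((n : ℝ) - 1) / 2 < (r0 : ℝ) := by linarith
    have h4 : (((((n : ℚ) - 1) / 2 : ℚ)) : ℝ) < (r0 : ℝ) := by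
      push_cast
      exact h2
    exact_mod_cast h4
  obtain ⟨q, hq1, hq2⟩ := exists_between hr0'
  have hq0 : 0 < q := by linarith
  obtain ⟨a, b, hb, hab⟩ : ∃ a b : ℕ, 1 ≤ b ∧ (a : ℚ) / (b : ℚ) = q := by
    refine ⟨q.num.toNat, q.den, q.den_pos, ?_⟩
    have h1 : ((q.num.toNat : ℤ) : ℚ) = (q.num : ℚ) := by
      rw [Int.toNat_of_nonneg (Rat.num_nonneg.2 hq0.le)]
    have h2 : ((q.num.toNat : ℕ) : ℚ) = (q.num : ℚ) := by
      rw [← h1]; norm_cast
    rw [h2]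
    exact Rat.num_div_den q
  have hb0 : (0 : ℚ) < b := by exact_mod_cast hb
  have hcond : n * b < 2 * a + b := by
    have h1 : (a : ℚ) = q * b := by
      rw [← hab]; field_simp
    have h2 : ((n * b : ℕ) : ℚ) < ((2 * a + b : ℕ) : ℚ) := by
      push_cast
      rw [h1]
      nlinarith
    exact_mod_cast h2
  obtain ⟨κ₁, κ₂, e1, e2, e3⟩ := hM P ι f h3 a b hb hcond Bool (QE e) (QU_QE e)
  obtain ⟨Qmono, Qadd, Qsc, Qfin, -⟩ := stmt_Q1
  set u : K := P.rat.L ^ n with hu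
  have huX : u = RatFunc.X ^ n := by rw [hu, P.rat_L]
  -- the difference
  set Λ' : Set ℚ := Λ ∪ ({1} ∪ ExpS f) with hΛ'
  set κ₃ : ℕ → K := fun m => if m = 0 then 0 else κ m - u * κ₁ m with hκ₃
  have E1 : ESeq Λ' fun m => (-u) * κ₁ m :=
    Qsc _ _ _ (Qmono _ _ _ Set.subset_union_right e1)
  have E2 : ESeq Λ' κ := Qmono _ _ _ Set.subset_union_left hE
  have E3 : ESeq Λ' fun m => if m = 0 then -(κ m + (-u) * κ₁ m) else 0 :=
    Qfin _ _ 1 fun m hm => by rw [if_neg (by omega)]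
  have E4 : ESeq Λ' κ₃ := by
    have h := Qadd _ _ _ (Qadd _ _ _ E2 E1) E3
    convert h using 1
    funext m
    rw [hκ₃]
    by_cases hm : m = 0
    · simp only [if_pos hm]; ring
    · simp only [if_neg hm]; ring
  have B3 : Bd a b κ₃ := by
    obtain ⟨c, hc⟩ := e2
    refine ⟨c, fun m N hmN => ?_⟩
    rw [hκ₃]
    by_cases hm : m = 0
    · simp only [if_pos hm]
      exact Bnd_zero hI _
    · simp only [if_neg hm]
      have h1 : κ m - u * κ₁ m = RatFunc.X ^ n * κ₂ m := by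
        rw [hκ m (by omega), e3 m (by omega), huX.symm]
        ring
      rw [h1]
      exact Bnd_X hI (hc m N hmN)
  have E5 := hAN Λ' κ₃ a b hb E4 B3
  set Λ'' : Set ℚ := {r | r ∈ Λ' ∧ r ≤ (a : ℚ) / (b : ℚ)} ∪ ({1} ∪ ExpS f) with hΛ''
  have E6 : ESeq Λ'' κ := by
    have F1 : ESeq Λ'' κ₃ := Qmono _ _ _ Set.subset_union_left E5
    have F2 : ESeq Λ'' fun m => u * κ₁ m := Qsc _ _ _ (Qmono _ _ _ Set.subset_union_right e1)
    have F3 : ESeq Λ'' fun m => if m = 0 then κ m - u * κ₁ m else 0 :=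
      Qfin _ _ 1 fun m hm => by rw [if_neg (by omega)]
    have h := Qadd _ _ _ (Qadd _ _ _ F1 F2) F3
    convert h using 1
    funext m
    rw [hκ₃]
    by_cases hm : m = 0
    · simp only [if_pos hm]; ring
    · simp only [if_neg hm]; ring
  obtain ⟨r, hr, hsr⟩ := stmt_Q5 Λ'' κ R E6 hR _ hs
  have hrr : r = r0 := by
    have h1 : (r0 : ℂ) = (r : ℂ) := neg_injective hsr
    exact_mod_cast h1.symm
  subst hrr
  rcases hr with ⟨_, hle⟩ | hr | hr
  · rw [hab] at hle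
    linarith
  · rw [Set.mem_singleton_iff] at hr
    rw [hr] at hr0'
    linarith
  · exact ⟨r, hr, hsr⟩

end POL8Aux

open POL8Aux

theorem stmt_POL8 (hI : Stmt_I08) (hAN : Stmt_AN8) (hDL : Stmt_DL8) (hM : Stmt_MAIN8) :
    Stmt_POL8 := by
  intro P ι _ _ f h3 e R he hR s hs hre
  have hV := (stmt_VA P ι f).2.2 e
  rcases hR with hR | hR
  · obtain ⟨hL, Λ, -, hE⟩ := hDL _ _ hR
    refine core hI hAN hM P ι f h3 e _ R Λ hE ?_ ?_ s hs hre
    · intro m _
      rw [hV, PowerSeries.coeff_mk, AA, ctc_eq]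
    · convert hL using 1
      ext m
      rw [PowerSeries.coeff_mk]
  · obtain ⟨hL, Λ, -, hE⟩ := hDL _ _ hR
    refine core hI hAN hM P ι f h3 e _ R Λ hE ?_ ?_ s hs hre
    · intro m hm
      have h1 : PowerSeries.coeff m (zetaSer1 P.rat xq f e) =
          PowerSeries.coeff m (zetaSer P.rat xq f e) := by
        rw [zetaSer1, zetaSer, PowerSeries.coeff_mk, PowerSeries.coeff_mk, if_neg (by omega)]
      rw [h1, hV, PowerSeries.coeff_mk, AA, ctc_eq]
    · convert hL using 1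
      ext m
      rw [PowerSeries.coeff_mk]

end Pool.Agent.Mono.SP
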