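import Pool.Agent.Work.Monodromy.Interface8

/-!
# Phase 8, charts: common lemmas (helper75)

Families (`sp`, `fam`), chain rule, orders with respect to weights (`GE`).
-/

set_option autoImplicit false

namespace Pool.Agent.Mono.SP

open MvPolynomial TS RO PC

namespace CHX

/-! ### Specialisation of parameters -/

section fam

variable {ι κ : Type}

/-- a polynomial in `ι ⊕ κ` as a polynomial in `κ` with coefficients in the parameters -/
noncomputable def toQ (G : MvPolynomial (ι ⊕ κ) ℂ) : MvPolynomial κ (MvPolynomial ι ℂ) :=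
  aeval (Sum.elim (fun a => C (X a)) X) G

/-- the inverse -/
noncomputable def ofQ (Q : MvPolynomial κ (MvPolynomial ι ℂ)) : MvPolynomial (ι ⊕ κ) ℂ :=
  eval₂ (rename Sum.inl : MvPolynomial ι ℂ →ₐ[ℂ] MvPolynomial (ι ⊕ κ) ℂ).toRingHom
    (fun a => X (Sum.inr a)) Q

theorem sp_X_inl (p : ι → ℂ) (a : ι) : sp p (X (Sum.inl a) : MvPolynomial (ι ⊕ κ) ℂ) = C (p a) := by
  simp [sp]

theorem sp_X_inr (p : ι → ℂ) (a : κ) : sp p (X (Sum.inr a) : MvPolynomial (ι ⊕ κ) ℂ) = X a := by
  simp [sp]

theorem sp_C (p : ι → ℂ) (c : ℂ) : sp p (C c : MvPolynomial (ι ⊕ κ) ℂ) = C c := by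
  simp [sp, algebraMap_eq]

theorem sp_add (p : ι → ℂ) (G H : MvPolynomial (ι ⊕ κ) ℂ) : sp p (G + H) = sp p G + sp p H := by
  simp [sp]

theorem sp_mul (p : ι → ℂ) (G H : MvPolynomial (ι ⊕ κ) ℂ) : sp p (G * H) = sp p G * sp p H := by
  simp [sp]

theorem sp_sum (p : ι → ℂ) {T : Type*} (s : Finset T) (G : T → MvPolynomial (ι ⊕ κ) ℂ) :
    sp p (∑ t ∈ s, G t) = ∑ t ∈ s, sp p (G t) := by
  simp [sp]

theorem sp_rename (p : ι → ℂ) (A : MvPolynomial ι ℂ) :
    sp p (rename Sum.inl A : MvPolynomial (ι ⊕ κ) ℂ) = C (eval p A) := by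
  induction A using MvPolynomial.induction_on with
  | C c => rw [rename_C, sp_C, eval_C]
  | add A B hA hB => rw [map_add, sp_add, hA, hB, map_add, C_add]
  | mul_X A i hA => rw [map_mul, sp_mul, hA, rename_X, sp_X_inl, map_mul, eval_X, C_mul]

theorem sp_toQ (p : ι → ℂ) (G : MvPolynomial (ι ⊕ κ) ℂ) :
    sp p G = MvPolynomial.map (eval p) (toQ G) := by
  induction G using MvPolynomial.induction_on with
  | C c =>
    rw [sp_C, toQ, aeval_C, IsScalarTower.algebraMap_apply ℂ (MvPolynomial ι ℂ)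
      (MvPolynomial κ (MvPolynomial ι ℂ)), algebraMap_eq, algebraMap_eq, map_C, eval_C]
  | add A B hA hB =>
    rw [sp_add, hA, hB]
    simp only [toQ, map_add]
  | mul_X A i hA =>
    rw [sp_mul, hA]
    simp only [toQ, map_mul, aeval_X]
    congr 1
    cases i with
    | inl a => rw [sp_X_inl, Sum.elim_inl, map_C, eval_X]
    | inr a => rw [sp_X_inr, Sum.elim_inr, map_X]

theorem sp_ofQ (p : ι → ℂ) (Q : MvPolynomial κ (MvPolynomial ι ℂ)) :
    sp p (ofQ Q) = MvPolynomial.map (eval p) Q := by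
  induction Q using MvPolynomial.induction_on with
  | C A =>
    rw [ofQ, eval₂_C, map_C]
    exact sp_rename p A
  | add A B hA hB =>
    rw [map_add, ← hA, ← hB, ← sp_add]
    simp only [ofQ, eval₂_add]
  | mul_X A i hA =>
    rw [map_mul, ← hA, map_X]
    have : ofQ (A * X i) = ofQ A * (X (Sum.inr i) : MvPolynomial (ι ⊕ κ) ℂ) := by
      simp only [ofQ, eval₂_mul, eval₂_X]
    rw [this, sp_mul, sp_X_inr]

/-- substitution in families -/
theorem sp_bind (p : ι → ℂ) (g : κ → MvPolynomial (ι ⊕ κ) ℂ) (G : MvPolynomial (ι ⊕ κ) ℂ) :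
    sp p (bind₁ (Sum.elim (fun a => X (Sum.inl a)) g) G) =
      bind₁ (fun a => sp p (g a)) (sp p G) := by
  induction G using MvPolynomial.induction_on with
  | C c => rw [bind₁_C_right, sp_C, bind₁_C_right]
  | add A B hA hB => rw [map_add, sp_add, hA, hB, sp_add, map_add]
  | mul_X A i hA =>
    rw [map_mul, sp_mul, hA, bind₁_X_right, sp_mul, map_mul]
    congr 1
    cases i with
    | inl a => rw [Sum.elim_inl, sp_X_inl, bind₁_C_right]
    | inr a => rw [Sum.elim_inr, sp_X_inr, bind₁_X_right]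

end fam

/-! ### Chain rule -/

section chain

variable {ι κ : Type}

theorem chain [Fintype κ] (φ : κ → MvPolynomial ι ℂ) (g : MvPolynomial κ ℂ) (b : ι) :
    pderiv b (bind₁ φ g) = ∑ a, bind₁ φ (pderiv a g) * pderiv b (φ a) := by
  classical
  induction g using MvPolynomial.induction_on with
  | C c => simp
  | add p q hp hq =>
    rw [map_add, map_add, hp, hq, ← Finset.sum_add_distrib]
    refine Finset.sum_congr rfl fun a _ => ?_
    rw [map_add, map_add, add_mul]
  | mul_X p i hp =>
    rw [map_mul, pderiv_mul, hp, bind₁_X_right, Finset.sum_mul]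
    have h1 : bind₁ φ p * pderiv b (φ i) = ∑ a, (if a = i then bind₁ φ p * pderiv b (φ a) else 0) := by
      rw [Finset.sum_ite_eq' Finset.univ i, if_pos (Finset.mem_univ _)]
    rw [h1, ← Finset.sum_add_distrib]
    refine Finset.sum_congr rfl fun a _ => ?_
    rw [pderiv_mul, map_add, map_mul, map_mul, bind₁_X_right]
    by_cases h : a = i
    · subst h
      rw [if_pos rfl, pderiv_X_self, map_one, mul_one]
      ring
    · rw [if_neg h, pderiv_X_of_ne (fun hh => h hh.symm), map_zero, mul_zero, add_zero, add_zero]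
      ring

theorem eval_bind (φ : κ → MvPolynomial ι ℂ) (g : MvPolynomial κ ℂ) (x : ι → ℂ) :
    eval x (bind₁ φ g) = eval (fun a => eval x (φ a)) g := by
  induction g using MvPolynomial.induction_on with
  | C c => simp
  | add p q hp hq => rw [map_add, map_add, hp, hq, map_add]
  | mul_X p i hp => rw [map_mul, map_mul, hp, bind₁_X_right, map_mul, eval_X]

theorem eval_zero_eq (g : MvPolynomial ι ℂ) : eval (fun _ => 0) g = coeff 0 g := by
  rw [← constantCoeff_eq]
  induction g using MvPolynomial.induction_on with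
  | C c => simp
  | add p q hp hq => simp [hp, hq]
  | mul_X p i hp => simp

end chain

end CHX

end Pool.Agent.Mono.SP
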