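import Pool.Agent.Work.Monodromy.Interface8

/-!
# Block I08: rules for the order of the poles at `u = 0`
-/

set_option autoImplicit false

namespace Pool.Agent.Mono.SP

open MvPolynomial TS RO PC

namespace I08Aux

theorem add {a b : K} (ha : Int0 a) (hb : Int0 b) : Int0 (a + b) := by
  obtain ⟨p, q, hq, h⟩ := ha
  obtain ⟨p', q', hq', h'⟩ := hb
  refine ⟨p * q' + p' * q, q * q', by rw [Polynomial.mul_coeff_zero]; exact mul_ne_zero hq hq', ?_⟩
  rw [map_mul, map_add, map_mul, map_mul, ← h, ← h']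
  ring

theorem mul {a b : K} (ha : Int0 a) (hb : Int0 b) : Int0 (a * b) := by
  obtain ⟨p, q, hq, h⟩ := ha
  obtain ⟨p', q', hq', h'⟩ := hb
  refine ⟨p * p', q * q', by rw [Polynomial.mul_coeff_zero]; exact mul_ne_zero hq hq', ?_⟩
  rw [map_mul, map_mul, ← h, ← h']
  ring

theorem poly (p : Polynomial ℚ) : Int0 (algebraMap (Polynomial ℚ) K p) :=
  ⟨p, 1, by simp, by simp⟩

theorem xpow (k : ℕ) : Int0 ((RatFunc.X : K) ^ k) := by
  have h := poly (Polynomial.X ^ k)
  rwa [map_pow, RatFunc.algebraMap_X] at h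

theorem X_ne : (RatFunc.X : K) ≠ 0 := RatFunc.X_ne_zero

theorem xq_mul (k : ℕ) : (RatFunc.X : K) ^ k * xq ^ k = 1 := by
  rw [← mul_pow, xq, mul_inv_cancel₀ X_ne, one_pow]

end I08Aux

open I08Aux

theorem stmt_I08 : Stmt_I08 := by
  refine ⟨fun a b ha hb => ⟨add ha hb, mul ha hb⟩, ?_, ?_, ?_, ?_, ?_⟩
  · intro N N' a h hN
    unfold Bnd at *
    have e : (RatFunc.X : K) ^ N' * a = RatFunc.X ^ (N' - N) * (RatFunc.X ^ N * a) := by
      rw [← mul_assoc, ← pow_add, Nat.sub_add_cancel h]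
    rw [e]
    exact mul (xpow _) hN
  · intro N a b ha hb
    unfold Bnd at *
    rw [mul_add]
    exact add ha hb
  · intro N N' a b ha hb
    unfold Bnd at *
    have e : (RatFunc.X : K) ^ (N + N') * (a * b) = (RatFunc.X ^ N * a) * (RatFunc.X ^ N' * b) := by
      rw [pow_add]; ring
    rw [e]
    exact mul ha hb
  · intro p
    unfold Bnd
    rw [pow_zero, one_mul, toRat]
    exact poly _
  · intro N k a
    unfold Bnd
    have e : (RatFunc.X : K) ^ (N + k) * (xq ^ k * a) = RatFunc.X ^ N * a := by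
      rw [pow_add]
      calc (RatFunc.X : K) ^ N * RatFunc.X ^ k * (xq ^ k * a)
          = RatFunc.X ^ N * (RatFunc.X ^ k * xq ^ k) * a := by ring
        _ = RatFunc.X ^ N * a := by rw [xq_mul, mul_one]
    rw [e]

end Pool.Agent.Mono.SP
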