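import Pool.Agent.Work.Monodromy8.SQV8
import Pool.Agent.Work.Monodromy8.I08
import Pool.Agent.Work.Monodromy5.TG5D

/-!
# Block MAIN8 (helper61): partition by the start point
-/

set_option autoImplicit false
set_option linter.unusedSectionVars false

namespace Pool.Agent.Mono.SP

open MvPolynomial TS RO PC

namespace MAIN8Aux

open RO.VGAux SQV8Aux

variable {E ι : Type} [Fintype ι] [DecidableEq ι] [Finite E]

theorem cy_ZL (f : MvPolynomial ι ℂ) {S : Set (ι → ℂ)} (hS : Constructible S)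
    {Q : Set (E ⊕ Unit → ℂ)} (hQ : Constructible Q) (m : ℕ) : Cy (ZL f S Q m) :=
  Cy.and (Cy.mem hS fun a => RF.arc a 0) (cy_lead f hQ m)

theorem vol_ZL (P : HodgeMeasure) (f : MvPolynomial ι ℂ) {S T : Set (ι → ℂ)}
    (hS : Constructible S) (hT : Constructible T) (hd : Disjoint S T)
    {Q : Set (E ⊕ Unit → ℂ)} (hQ : Constructible Q) (m : ℕ) :
    vol P.rat xq (ZL f (S ∪ T) Q m) = vol P.rat xq (ZL f S Q m) + vol P.rat xq (ZL f T Q m) := by
  rw [← vol_uni P (cy_ZL f hS hQ m) (cy_ZL f hT hQ m)]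
  · congr 1
    ext z
    constructor
    · rintro ⟨h1 | h1, h2⟩
      · exact Or.inl ⟨h1, h2⟩
      · exact Or.inr ⟨h1, h2⟩
    · rintro (⟨h1, h2⟩ | ⟨h1, h2⟩)
      · exact ⟨Or.inl h1, h2⟩
      · exact ⟨Or.inr h1, h2⟩
  · rw [Set.disjoint_left]
    rintro z ⟨h1, -⟩ ⟨h2, -⟩
    exact Set.disjoint_left.1 hd h1 h2

theorem con_empty : Constructible (∅ : Set (ι → ℂ)) := by
  have h := (Constructible.zero (0 : MvPolynomial ι ℂ)).compl
  convert h using 1
  ext x
  simp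

theorem con_union {S T : Set (ι → ℂ)} (hS : Constructible S) (hT : Constructible T) :
    Constructible (S ∪ T) := by
  have h := (hS.compl.inter hT.compl).compl
  rwa [Set.compl_inter, compl_compl, compl_compl] at h

theorem con_point (p : ι → ℂ) : Constructible ({p} : Set (ι → ℂ)) := by
  have h1 : Constructible {v : ι → ℂ | ∀ a, eval v (X a - C (p a)) = 0} :=
    Constructible.all fun a => Constructible.zero _
  convert h1 using 1
  ext v
  simp only [Set.mem_singleton_iff, Set.mem_ofPred_eq, map_sub, eval_X, eval_C, sub_eq_zero]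
  exact ⟨fun h a => congrFun h a, fun h => funext h⟩

theorem con_fin {T : Set (ι → ℂ)} (hT : T.Finite) : Constructible T := by
  induction T, hT using Set.Finite.induction_on with
  | empty => exact con_empty
  | @insert p T _ _ ih =>
    rw [Set.insert_eq]
    exact con_union (con_point p) ih

theorem con_crit (f : MvPolynomial ι ℂ) : Constructible (Crit0 f) :=
  Constructible.and (Constructible.zero _) (Constructible.all fun _ => Constructible.zero _)

theorem coeff0 (f : MvPolynomial ι ℂ) (x : ι → PowerSeries ℂ) :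
    PowerSeries.coeff 0 (aeval x f) = eval (fun a => PowerSeries.coeff 0 (x a)) f := by
  induction f using MvPolynomial.induction_on with
  | C c =>
    rw [aeval_C, eval_C]
    exact PowerSeries.coeff_zero_C c
  | add p q hp hq => rw [map_add, map_add, map_add, hp, hq]
  | mul_X p i hp =>
    rw [map_mul (aeval x), aeval_X, map_mul (eval _), eval_X, ← hp]
    simp only [PowerSeries.coeff_zero_eq_constantCoeff_apply, map_mul]

/-- finitely many points -/
theorem fin_sum (P : HodgeMeasure) (f : MvPolynomial ι ℂ) {Q : Set (E ⊕ Unit → ℂ)}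
    (hQ : Constructible Q) {Λ : Set ℚ} {T : Set (ι → ℂ)} (hT : T.Finite)
    (h : ∀ p ∈ T, ESeq Λ fun m => vol P.rat xq (ZL f {p} Q m)) :
    ESeq Λ fun m => vol P.rat xq (ZL f T Q m) := by
  induction T, hT using Set.Finite.induction_on with
  | empty =>
    have e : ∀ m, vol P.rat xq (ZL f (∅ : Set (ι → ℂ)) Q m) = 0 := by
      intro m
      have h1 := vol_ZL P f con_empty con_empty (disjoint_bot_left) hQ m
      rw [Set.union_self] at h1
      exact left_eq_add.1 h1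
    simp only [e]
    exact stmt_Q1.2.2.2.1 Λ (fun _ => 0) 0 (fun _ _ => rfl)
  | @insert p T hp hT ih =>
    have e : ∀ m, vol P.rat xq (ZL f (insert p T) Q m) =
        vol P.rat xq (ZL f {p} Q m) + vol P.rat xq (ZL f T Q m) := by
      intro m
      rw [Set.insert_eq]
      exact vol_ZL P f (con_point p) (con_fin hT) (Set.disjoint_singleton_left.2 hp) hQ m
    simp only [e]
    exact stmt_Q1.2.1 Λ _ _ (h p (Set.mem_insert p T))
      (ih fun q hq => h q (Set.mem_insert_of_mem p hq))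

theorem zero_ZL (P : HodgeMeasure) (f : MvPolynomial ι ℂ) {Q : Set (E ⊕ Unit → ℂ)}
    (hQ : Constructible Q) (m : ℕ) : vol P.rat xq (ZL f (∅ : Set (ι → ℂ)) Q m) = 0 := by
  have h1 := vol_ZL P f con_empty con_empty (disjoint_bot_left) hQ m
  rw [Set.union_self] at h1
  exact left_eq_add.1 h1

end MAIN8Aux

open MAIN8Aux SQV8Aux RO.VGAux in
theorem bound_cov (hI : Stmt_I08) (hCZ : Stmt_CZC8) (hZB : Stmt_ZB8) (P : HodgeMeasure)
    {ι : Type} [Fintype ι] [DecidableEq ι] (f : MvPolynomial ι ℂ) (a b : ℕ)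
    (h3 : 3 ≤ Fintype.card ι) (hb : 1 ≤ b) (hab : Fintype.card ι * b ≤ 2 * a + b)
    (L : List ((ι → MvPolynomial (ι ⊕ ι) ℂ) × (ι → ℕ) × ℕ))
    (hL : ∀ c ∈ L, (∀ i, 1 ≤ c.2.1 i) ∧ 1 ≤ c.2.2 ∧ (∑ i, c.2.1 i) * b ≤ c.2.2 * a) :
    ∀ S : Set (ι → ℂ), Constructible S → (∀ p ∈ S, ∃ c ∈ L, p ∈ CZ f c.1 c.2.1 c.2.2) →
      ∃ c₀ : ℕ, ∀ (E : Type) [Finite E] (Q : Set (E ⊕ Unit → ℂ)), QU Q → ∀ m N : ℕ,
        a * m ≤ b * N → Bnd (N + c₀) (vol P.rat xq (ZL f S Q m)) := by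
  induction L with
  | nil =>
    intro S _ hS
    have e : S = ∅ := by
      ext p
      simp only [Set.mem_empty_iff_false, iff_false]
      intro hp
      obtain ⟨c, hc, -⟩ := hS p hp
      exact absurd hc List.not_mem_nil
    subst e
    refine ⟨0, ?_⟩
    intro E _ Q hQ m N _
    rw [zero_ZL P f hQ.1 m]
    have h1 := hI.2.2.2.2.1 0
    have h2 := hI.2.1 0 (N + 0) _ (Nat.zero_le _) h1
    simpa using h2
  | cons c L ih =>
    intro S hSc hS
    obtain ⟨w1, D1, wD⟩ := hL c List.mem_cons_self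
    have hC := hCZ ι f c.1 c.2.1 c.2.2
    have h1 : Constructible (S ∩ CZ f c.1 c.2.1 c.2.2) := hSc.inter hC
    have h2 : Constructible (S ∩ (CZ f c.1 c.2.1 c.2.2)ᶜ) := hSc.inter hC.compl
    obtain ⟨c₁, hc₁⟩ := hZB P ι f c.1 c.2.1 c.2.2 a b w1 D1 h3 hb hab wD
      (S ∩ CZ f c.1 c.2.1 c.2.2) Set.inter_subset_right h1
    obtain ⟨c₂, hc₂⟩ := ih (fun c' hc' => hL c' (List.mem_cons_of_mem c hc'))
      (S ∩ (CZ f c.1 c.2.1 c.2.2)ᶜ) h2 (by
        rintro p ⟨hp, hp'⟩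
        obtain ⟨c', hc', hpc⟩ := hS p hp
        rcases List.mem_cons.1 hc' with rfl | hc'
        · exact absurd hpc hp'
        · exact ⟨c', hc', hpc⟩)
    refine ⟨max c₁ c₂, ?_⟩
    intro E _ Q hQ m N hN
    have e : S = (S ∩ CZ f c.1 c.2.1 c.2.2) ∪ (S ∩ (CZ f c.1 c.2.1 c.2.2)ᶜ) := by
      rw [← Set.inter_union_distrib_left, Set.union_compl_self, Set.inter_univ]
    have e2 : vol P.rat xq (ZL f S Q m) =
        vol P.rat xq (ZL f (S ∩ CZ f c.1 c.2.1 c.2.2) Q m) +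
          vol P.rat xq (ZL f (S ∩ (CZ f c.1 c.2.1 c.2.2)ᶜ) Q m) := by
      rw [← vol_ZL P f h1 h2 ?_ hQ.1 m, ← e]
      rw [Set.disjoint_left]
      exact fun p hp hp' => hp'.2 hp.2
    rw [e2]
    refine hI.2.2.1 _ _ _ ?_ ?_
    · exact hI.2.1 _ _ _ (Nat.add_le_add_left (le_max_left _ _) N) (hc₁ E Q hQ m N hN)
    · exact hI.2.1 _ _ _ (Nat.add_le_add_left (le_max_right _ _) N) (hc₂ E Q hQ m N hN)

open MAIN8Aux SQV8Aux RO.VGAux in
theorem stmt_MAIN8 (hI : Stmt_I08) (hCZ : Stmt_CZC8) (hZB : Stmt_ZB8) (hSQ : Stmt_SQV8)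
    (hSM : Stmt_SMZ8) (hFIN : Stmt_FIN8) (hCOV : Stmt_COV8) : Stmt_MAIN8 := by
  intro P ι _ _ f h3 a b hb hab E _ Q hQ
  have : Nonempty ι := Fintype.card_pos_iff.1 (by omega)
  obtain ⟨L, hL, hcov⟩ := hCOV ι f a b hb hab
  obtain ⟨α, hα⟩ := hSM P ι f E Q hQ
  set T : Set (ι → ℂ) := {p | p ∈ Crit0 f ∧ Sim f p} with hT
  have hTf : T.Finite := hFIN ι f
  have cT : Constructible T := con_fin hTf
  have cC : Constructible (Crit0 f) := con_crit f
  have cR : Constructible (Crit0 f ∩ Tᶜ) := cC.inter cT.compl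
  obtain ⟨c₀, hc₀⟩ := bound_cov hI hCZ hZB P f a b h3 hb hab.le L hL (Crit0 f ∩ Tᶜ) cR (by
    rintro p ⟨hp, hp'⟩
    rcases hcov p hp with h | h
    · exact h
    · exact absurd ⟨hp, h⟩ hp')
  have hESeq : ESeq ({1} ∪ ExpS f) fun m => vol P.rat xq (ZL f T Q m) := by
    refine fin_sum P f hQ.1 hTf ?_
    rintro p ⟨hp, i, hi, hSQp⟩
    refine stmt_Q1.1 _ _ _ ?_ (hSQ P ι f p _ hp hSQp E Q hQ)
    rintro r (rfl | rfl)
    · exact Or.inl rfl
    · exact Or.inr ⟨i, hi, rfl, p, hp, hSQp⟩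
  refine ⟨fun m => α * xq ^ m + vol P.rat xq (ZL f T Q m),
    fun m => vol P.rat xq (ZL f (Crit0 f ∩ Tᶜ) Q m), ?_, ?_, ?_⟩
  · exact stmt_Q1.2.1 _ _ _ (eseq_one (Or.inl rfl) α) hESeq
  · exact ⟨c₀, fun m N hN => hc₀ E Q hQ m N hN⟩
  · intro m hm
    set R : Set (ι → ℂ) := {x | eval x f = 0 ∧ ∃ a, eval x (pderiv a f) ≠ 0} with hR
    have cRg : Constructible R := by
      have h1 : Constructible {x : ι → ℂ | ∀ a, eval x (pderiv a f) = 0} :=
        Constructible.all fun a => Constructible.zero _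
      have h2 := (Constructible.zero f).inter h1.compl
      convert h2 using 1
      ext x
      simp only [hR, Set.mem_ofPred_eq, Set.mem_inter_iff, Set.mem_compl_iff, not_forall, ne_eq]
    have e1 : vol P.rat xq (ZL f (R ∪ (T ∪ (Crit0 f ∩ Tᶜ))) Q m) =
        vol P.rat xq (ZL f R Q m) + (vol P.rat xq (ZL f T Q m) +
          vol P.rat xq (ZL f (Crit0 f ∩ Tᶜ) Q m)) := by
      rw [vol_ZL P f cRg (con_union cT cR) ?_ hQ.1 m, vol_ZL P f cT cR ?_ hQ.1 m]
      · rw [Set.disjoint_left]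
        exact fun p hp hp' => hp'.2 hp
      · rw [Set.disjoint_left]
        rintro p ⟨-, a, ha⟩ (hp' | hp')
        · exact ha (hp'.1.2 a)
        · exact ha (hp'.1.2 a)
    rw [add_assoc, ← hα m hm, ← e1]
    congr 1
    ext z
    constructor
    · intro h
      refine ⟨?_, h⟩
      have h0 : eval (fun a => PowerSeries.coeff 0 (z.2 a)) f = 0 := by
        have h4 := h.1 0 (by omega)
        rw [← h4]
        exact (coeff0 f z.2).symm
      by_cases hsm : ∃ a, eval (fun a => PowerSeries.coeff 0 (z.2 a)) (pderiv a f) ≠ 0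
      · exact Or.inl ⟨h0, hsm⟩
      · push Not at hsm
        by_cases hTz : (fun a => PowerSeries.coeff 0 (z.2 a)) ∈ T
        · exact Or.inr (Or.inl hTz)
        · exact Or.inr (Or.inr ⟨⟨h0, hsm⟩, hTz⟩)
    · exact fun h => h.2

end Pool.Agent.Mono.SP
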