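import Pool.Agent.Work.Monodromy.Interface8
import Pool.Agent.Work.Monodromy6.WE
import Pool.Agent.Work.Monodromy4.W5
import Pool.Agent.Work.Monodromy5.TM5

/-!
# Block EIG8 (helper2): the eigenvalues
-/

set_option autoImplicit false

namespace Pool.Agent.Mono.SP

open MvPolynomial TS RO PC

theorem stmt_EIG8 : Stmt_EIG8 := by
  rintro ι _ _ f htd r ⟨i, -, -, p, hp, hSQ⟩
  obtain ⟨hr0, β, k, hβ, hk, hw⟩ := stmt_WE ι f p r htd hp.2 hSQ
  rw [hp.1, C_0, sub_zero] at hw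
  have hne : ∀ n : ℕ, (β : ℂ) ≠ n := by
    intro n h
    have h1 : β = (n : ℚ) := by exact_mod_cast h
    rw [h1] at hβ
    have : (0 : ℚ) ≤ (n : ℚ) := Nat.cast_nonneg _
    linarith
  refine ⟨(β : ℂ), fun b hb => stmt_W5 ι f β hne hw b (isEvBernstein_of hb), ?_⟩
  have h1 : (β : ℂ) = -(r : ℂ) + k := by
    rw [hk]
    push_cast
    ring
  rw [h1, mul_add, Complex.exp_add]
  have h2 : Complex.exp (2 * Real.pi * Complex.I * (k : ℂ)) = 1 := by
    rw [Complex.exp_eq_one_iff]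
    exact ⟨k, by ring⟩
  rw [h2, mul_one]

end Pool.Agent.Mono.SP
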