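import Pool.Agent.Work.Monodromy8.ISO8A
import Pool.Agent.Work.Monodromy6.WE

/-!
# Block ISO8 (helper2): simple points are isolated
-/

set_option autoImplicit false
set_option linter.unusedSectionVars false

namespace Pool.Agent.Mono.SP

open MvPolynomial TS RO PC

namespace ISO8Aux

open RO.WDAux

variable {ι : Type} [Fintype ι] [DecidableEq ι]

theorem wt_sum (w : ι → ℕ) (d : ι →₀ ℕ) : Finsupp.weight w d = ∑ a, d a * w a := by
  rw [Finsupp.weight_apply, Finsupp.sum_fintype]
  · rfl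
  · intro i
    simp

theorem deg_sum (d : ι →₀ ℕ) : Finsupp.degree d = ∑ a, d a := Finsupp.degree_eq_sum d

theorem pow_le_hi {w : ι → ℕ} (hw : ∀ a, 1 ≤ w a) (N : ℕ) : mm ι ^ N ≤ hi w N := by
  intro g hg d hd
  have h1 := (mem_pow_idealOfVars_iff N g).1 hg d hd
  rw [deg_sum] at h1
  rw [wt_sum]
  exact h1.trans (Finset.sum_le_sum fun a _ => Nat.le_mul_of_pos_right _ (hw a))

theorem hi_le_pow {w : ι → ℕ} {B : ℕ} (hB0 : 1 ≤ B) (hB : ∀ a, w a ≤ B) (K : ℕ) :
    hi w (B * K) ≤ mm ι ^ K := by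
  intro g hg
  rw [mem_pow_idealOfVars_iff]
  intro d hd
  have h1 := hg d hd
  rw [wt_sum] at h1
  rw [deg_sum]
  have h2 : ∑ a, d a * w a ≤ B * ∑ a, d a := by
    rw [Finset.mul_sum]
    exact Finset.sum_le_sum fun a _ => by
      rw [mul_comm B]
      exact Nat.mul_le_mul_left _ (hB a)
  exact Nat.le_of_mul_le_mul_left (h1.trans h2) (by omega)

theorem hi_mono (w : ι → ℕ) {N M : ℕ} (h : N ≤ M) : hi w M ≤ hi w N :=
  fun _ hg d hd => h.trans (hg d hd)

theorem exists_pow_le (F : ι → MvPolynomial ι ℂ)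
    (hF : ∀ x : ι → ℂ, (∀ a, eval x (F a) = 0) ↔ x = 0) :
    ∃ L, mm ι ^ L ≤ Ideal.span (Set.range F) := by
  refine Ideal.exists_pow_le_of_le_radical_of_fg ?_ (idealOfVars_fg ι ℂ)
  rw [mm, Ideal.span_le]
  rintro _ ⟨a, rfl⟩
  show (X a : MvPolynomial ι ℂ) ∈ (Ideal.span (Set.range F)).radical
  rw [← MvPolynomial.vanishingIdeal_zeroLocus_eq_radical (K := ℂ)]
  rw [MvPolynomial.mem_vanishingIdeal_iff]
  intro x hx
  rw [MvPolynomial.mem_zeroLocus_iff] at hx
  have hx0 : x = 0 := (hF x).1 fun b => by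
    have := hx (F b) (Ideal.subset_span ⟨b, rfl⟩)
    simpa [MvPolynomial.aeval_eq_eval] using this
  simp [hx0]

/-- components of products -/
theorem whc_prod {w : ι → ℕ} {P : MvPolynomial ι ℂ} {m : ℕ} (hP : IsWeightedHomogeneous w P m)
    (W : ℕ) (c : MvPolynomial ι ℂ) :
    ∃ h ∈ hi w (W - m), weightedHomogeneousComponent w W (P * c) = P * h := by
  by_cases hm : m ≤ W
  · refine ⟨weightedHomogeneousComponent w (W - m) c, ?_, ?_⟩
    · intro d hd
      rw [mem_support_iff, coeff_weightedHomogeneousComponent] at hd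
      by_cases h1 : Finsupp.weight w d = W - m
      · exact h1.ge
      · rw [if_neg h1] at hd
        exact absurd rfl hd
    · have h1 := whc_mul hP (W - m) c
      rwa [Nat.sub_add_cancel hm] at h1
  · refine ⟨0, Submodule.zero_mem _, ?_⟩
    rw [mul_zero]
    have h1 : P ∈ hi w m := fun d hd => (hP (mem_support_iff.1 hd)).ge
    have h2 : P * c ∈ hi w m := Ideal.mul_mem_right _ _ h1
    ext d
    rw [coeff_weightedHomogeneousComponent, coeff_zero]
    by_cases h3 : Finsupp.weight w d = W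
    · rw [if_pos h3]
      by_contra h4
      have := h2 d (mem_support_iff.2 h4)
      omega
    · rw [if_neg h3]

theorem pd_homog {w : ι → ℕ} {D : ℕ} {G : MvPolynomial ι ℂ} (hG : IsWeightedHomogeneous w G D)
    (a : ι) (ha : w a ≤ D) : IsWeightedHomogeneous w (pderiv a G) (D - w a) := by
  intro d hd
  rw [coeff_pderiv] at hd
  have h1 : coeff (d + Finsupp.single a 1) G ≠ 0 := left_ne_zero_of_mul hd
  have h2 := hG h1
  rw [map_add, Finsupp.weight_single] at h2
  simp at h2
  omega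

theorem pd_zero {w : ι → ℕ} {D : ℕ} {G : MvPolynomial ι ℂ} (hG : IsWeightedHomogeneous w G D)
    (a : ι) (ha : ¬ w a ≤ D) : pderiv a G = 0 := by
  ext d
  rw [coeff_pderiv, coeff_zero]
  by_contra hd
  have h1 : coeff (d + Finsupp.single a 1) G ≠ 0 := left_ne_zero_of_mul hd
  have h2 := hG h1
  rw [map_add, Finsupp.weight_single] at h2
  simp at h2
  omega

theorem step1 {w : ι → ℕ} {D : ℕ} {F : MvPolynomial ι ℂ}
    (hF : ∀ d ∈ F.support, D ≤ Finsupp.weight w d) (W : ℕ) (g : MvPolynomial ι ℂ)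
    (hg : IsWeightedHomogeneous w g W)
    (hI : g ∈ Ideal.span (Set.range fun a => pderiv a (ini w D F))) :
    g ∈ Ideal.span (Set.range fun a => pderiv a F) ⊔ hi w (W + 1) := by
  obtain ⟨c, hc⟩ := (Ideal.mem_span_range_iff_exists_fun).1 hI
  have hG := WEAux.ini_homog w D F
  have h1 : ∀ a, ∃ h ∈ hi w (W + w a - D),
      weightedHomogeneousComponent w W (c a * pderiv a (ini w D F)) =
        h * pderiv a (ini w D F) := by
    intro a
    by_cases ha : w a ≤ D
    · obtain ⟨h, hh, he⟩ := whc_prod (pd_homog hG a ha) W (c a)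
      refine ⟨h, ?_, ?_⟩
      · have e : W - (D - w a) = W + w a - D := by omega
        rw [← e]
        exact hh
      · rw [mul_comm (c a), he, mul_comm]
    · refine ⟨0, Submodule.zero_mem _, ?_⟩
      rw [pd_zero hG a ha, mul_zero, mul_zero, map_zero]
  choose h hh he using h1
  have h2 : g = ∑ a, h a * pderiv a (ini w D F) := by
    rw [← hg.weightedHomogeneousComponent_same, ← hc, map_sum]
    exact Finset.sum_congr rfl fun a _ => he a
  have h3 : g = ∑ a, h a * pderiv a F - ∑ a, h a * pderiv a (F - ini w D F) := by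
    rw [h2, ← Finset.sum_sub_distrib]
    refine Finset.sum_congr rfl fun a _ => ?_
    rw [map_sub]
    ring
  rw [h3, sub_eq_add_neg]
  refine Submodule.add_mem_sup ?_ (neg_mem ?_)
  · exact Ideal.sum_mem _ fun a _ => Ideal.mul_mem_left _ _ (Ideal.subset_span ⟨a, rfl⟩)
  · refine Ideal.sum_mem _ fun a _ => ?_
    have h4 : F - ini w D F ∈ hi w (D + 1) := fun d hd => WEAux.rest_support hF d hd
    have h5 : pderiv a (F - ini w D F) ∈ hi w (D + 1 - w a) := by
      by_cases ha : w a ≤ D + 1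
      · exact pd_hi a (by rwa [Nat.sub_add_cancel ha])
      · have e : D + 1 - w a = 0 := by omega
        rw [e]
        exact fun d _ => Nat.zero_le _
    exact hi_mono w (by omega) (mul_hi (hh a) h5)

theorem step2 {w : ι → ℕ} {D : ℕ} {F : MvPolynomial ι ℂ}
    (hF : ∀ d ∈ F.support, D ≤ Finsupp.weight w d) {B L : ℕ} (hB0 : 1 ≤ B) (hB : ∀ a, w a ≤ B)
    (hL : mm ι ^ L ≤ Ideal.span (Set.range fun a => pderiv a (ini w D F))) {k : ℕ}
    (hk : B * L ≤ k) :
    hi w k ≤ Ideal.span (Set.range fun a => pderiv a F) ⊔ hi w (k + 1) := by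
  intro g hg
  rw [g.as_sum]
  refine Ideal.sum_mem _ fun d hd => ?_
  have h1 : k ≤ Finsupp.weight w d := hg d hd
  have h2 : monomial d (coeff d g) ∈ hi w k := by
    intro e he
    have := support_monomial_subset he
    rw [Finset.mem_singleton] at this
    rw [this]
    exact h1
  have h3 := step1 hF (Finsupp.weight w d) (monomial d (coeff d g))
    (isWeightedHomogeneous_monomial w d _ rfl) (hL (hi_le_pow hB0 hB L (hi_mono w hk h2)))
  exact (sup_le_sup_left (hi_mono w (by omega)) _) h3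

theorem step3 {w : ι → ℕ} {D : ℕ} {F : MvPolynomial ι ℂ}
    (hF : ∀ d ∈ F.support, D ≤ Finsupp.weight w d) {B L : ℕ} (hB0 : 1 ≤ B) (hB : ∀ a, w a ≤ B)
    (hL : mm ι ^ L ≤ Ideal.span (Set.range fun a => pderiv a (ini w D F))) {k : ℕ}
    (hk : B * L ≤ k) (j : ℕ) :
    hi w k ≤ Ideal.span (Set.range fun a => pderiv a F) ⊔ hi w (k + j) := by
  induction j with
  | zero => exact le_sup_right
  | succ j ih =>
    refine ih.trans (sup_le le_sup_left ?_)
    exact step2 hF hB0 hB hL (hk.trans (Nat.le_add_right _ _))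

theorem step4 {w : ι → ℕ} {D : ℕ} {F : MvPolynomial ι ℂ} (h : SQ w D F) :
    ∃ N, mm ι ^ N ≤ Ideal.span (Set.range fun a => pderiv a F) ⊔ mm ι ^ (N + 1) := by
  obtain ⟨hw, hD, hF, h0⟩ := h
  obtain ⟨L, hL⟩ := exists_pow_le (fun a => pderiv a (ini w D F)) h0
  set B := ∑ a, w a + 1 with hBd
  have hB0 : 1 ≤ B := by omega
  have hB : ∀ a, w a ≤ B := fun a => by
    have := Finset.single_le_sum (f := w) (fun _ _ => Nat.zero_le _) (Finset.mem_univ a)
    omega
  refine ⟨B * L, (pow_le_hi hw _).trans ?_⟩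
  refine (step3 hF hB0 hB hL le_rfl (B * (B * L + 1))).trans (sup_le_sup_left ?_ _)
  exact (hi_mono w (Nat.le_add_left _ _)).trans (hi_le_pow hB0 hB _)

theorem nak {J : Ideal (MvPolynomial ι ℂ)} {N : ℕ} (h : mm ι ^ N ≤ J ⊔ mm ι ^ (N + 1)) :
    ∃ r : MvPolynomial ι ℂ, r - 1 ∈ mm ι ∧ ∀ g ∈ mm ι ^ N, r * g ∈ J := by
  have h1 : Submodule.map J.mkQ (mm ι ^ N) ≤ mm ι • Submodule.map J.mkQ (mm ι ^ N) := by
    rw [← Submodule.map_smul'']
    refine (Submodule.map_mono h).trans ?_
    rw [Submodule.map_sup]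
    refine sup_le ?_ ?_
    · rw [Submodule.map_le_iff_le_comap]
      intro x hx
      rw [Submodule.mem_comap, Submodule.mkQ_apply, (Submodule.Quotient.mk_eq_zero J).2 hx]
      exact Submodule.zero_mem _
    · rw [pow_succ', smul_eq_mul]
  obtain ⟨r, hr, hr'⟩ := Submodule.exists_sub_one_mem_and_smul_eq_zero_of_fg_of_le_smul (mm ι)
    (Submodule.map J.mkQ (mm ι ^ N)) (Submodule.FG.map _ (IsNoetherian.noetherian _)) h1
  refine ⟨r, hr, fun g hg => ?_⟩
  have h2 := hr' _ (Submodule.mem_map_of_mem hg)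
  rw [Submodule.mkQ_apply, ← Submodule.Quotient.mk_smul, smul_eq_mul] at h2
  exact (Submodule.Quotient.mk_eq_zero J).1 h2

end ISO8Aux

open ISO8Aux in
theorem stmt_ISO8 : Stmt_ISO8 := by
  classical
  rintro ι _ _ f p r - ⟨w, D, φ, hφ, hJ, hSQ, -⟩
  set T : ι → MvPolynomial ι ℂ := fun a => X a + C (p a) with hT
  set ψ : ι → MvPolynomial ι ℂ := fun a => φ a - C (p a) with hψ
  have hbind : bind₁ ψ (bind₁ T f) = bind₁ φ f := by
    rw [bind₁_bind₁]
    congr 2
    funext a
    rw [hT, hψ]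
    simp
  have h0 : ∀ a, eval (fun _ => 0) (ψ a) = 0 := by
    intro a
    rw [hψ]
    simp only [map_sub, eval_C]
    rw [hφ a, sub_self]
  have hJ' : (Matrix.of fun a b => eval (fun _ => (0 : ℂ)) (pderiv b (ψ a))).det ≠ 0 := by
    have e : (Matrix.of fun a b => eval (fun _ => (0 : ℂ)) (pderiv b (ψ a))) =
        Matrix.of fun a b => eval (fun _ => (0 : ℂ)) (pderiv b (φ a)) := by
      ext a b
      rw [Matrix.of_apply, Matrix.of_apply, hψ]
      simp only [map_sub, pderiv_C, map_zero, sub_zero]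
    rw [e]
    exact hJ
  obtain ⟨N, hN⟩ := step4 hSQ
  have hpd : (fun a => pderiv a (bind₁ φ f - C (eval p f))) =
      fun b => pderiv b (bind₁ ψ (bind₁ T f)) := by
    funext a
    rw [map_sub, pderiv_C, sub_zero, hbind]
  rw [hpd] at hN
  have hN' := transfer ψ h0 hJ' (bind₁ T f) N hN
  obtain ⟨s, hs1, hs2⟩ := nak hN'
  have hev : ∀ (q : ι → ℂ) (g : MvPolynomial ι ℂ),
      eval q (bind₁ (fun a => X a - C (p a)) g) = eval (fun a => q a - p a) g := by
    intro q g
    have := eval₂Hom_bind₁ (RingHom.id ℂ) q (fun a => X a - C (p a)) g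
    simpa using this
  have hevT : ∀ (q : ι → ℂ) (g : MvPolynomial ι ℂ),
      eval q (bind₁ T g) = eval (fun a => q a + p a) g := by
    intro q g
    have := eval₂Hom_bind₁ (RingHom.id ℂ) q T g
    simpa [hT] using this
  refine ⟨bind₁ (fun a => X a - C (p a)) s, ?_, ?_⟩
  · rw [hev]
    have h1 := (mem_mm (s - 1)).1 hs1
    rw [map_sub, map_one, sub_eq_zero] at h1
    have e : (fun a => p a - p a) = fun _ : ι => (0 : ℂ) := by
      funext a
      ring
    rw [e, h1]
    exact one_ne_zero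
  · intro q hq hqs
    rw [hev] at hqs
    have hpdT : ∀ b, pderiv b (bind₁ T f) = bind₁ T (pderiv b f) := by
      intro b
      rw [WBAux.chain T f b, Finset.sum_eq_single b]
      · rw [hT]
        simp
      · intro a _ hab
        rw [hT]
        simp [pderiv_X_of_ne hab]
      · intro h
        exact absurd (Finset.mem_univ _) h
    have hvan : ∀ g ∈ Ideal.span (Set.range fun b => pderiv b (bind₁ T f)),
        eval (fun a => q a - p a) g = 0 := by
      intro g hg
      have h1 : Ideal.span (Set.range fun b => pderiv b (bind₁ T f)) ≤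
          RingHom.ker (eval fun a => q a - p a) := by
        rw [Ideal.span_le]
        rintro _ ⟨b, rfl⟩
        show pderiv b (bind₁ T f) ∈ RingHom.ker (eval fun a => q a - p a)
        rw [RingHom.mem_ker, hpdT b, hevT]
        have e : (fun a => q a - p a + p a) = q := by
          funext a
          ring
        rw [e]
        exact hq b
      exact RingHom.mem_ker.1 (h1 hg)
    funext a
    have h2 := hvan _ (hs2 (X a ^ N) (Ideal.pow_mem_pow (X_mm a) N))
    rw [map_mul, map_pow, eval_X] at h2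
    have h3 := (mul_eq_zero.1 h2).resolve_left hqs
    have h4 : q a - p a = 0 := by
      by_contra h5
      exact pow_ne_zero N h5 h3
    exact sub_eq_zero.1 h4

end Pool.Agent.Mono.SP
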