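import Pool.Agent.Work.Monodromy.Interface8
import Pool.Agent.Work.Monodromy6.VSM

/-!
# Block SMZ8 (helper73): smooth points of `f = 0`
-/

set_option autoImplicit false
set_option linter.unusedSectionVars false

namespace Pool.Agent.Mono.SP

open MvPolynomial TS RO PC VGAux O5Aux VSMAux

namespace SMZ8Aux

variable {E ι : Type}

/-- value `0`, and the leading coefficient in `Q` -/
def QZ (Q : Set (E ⊕ Unit → ℂ)) : Set (E ⊕ Bool → ℂ) :=
  {w | w (Sum.inr true) = 0 ∧
    (Sum.elim (fun e => w (Sum.inl e)) fun _ => w (Sum.inr false)) ∈ Q}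

theorem con_QZ {Q : Set (E ⊕ Unit → ℂ)} (hQ : Constructible Q) : Constructible (QZ Q) := by
  refine Constructible.and ?_ ?_
  · have h := Constructible.zero (X (Sum.inr true) : MvPolynomial (E ⊕ Bool) ℂ)
    simpa only [eval_X] using h
  · have h := Constructible.comap (Sum.elim Sum.inl fun _ => Sum.inr false : E ⊕ Unit → E ⊕ Bool) hQ
    convert h using 1
    ext w
    have h2 : (Sum.elim (fun e => w (Sum.inl e)) fun _ => w (Sum.inr false)) =
        fun s => w ((Sum.elim Sum.inl fun _ => Sum.inr false : E ⊕ Unit → E ⊕ Bool) s) := by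
      funext s
      rcases s with s | s <;> rfl
    rw [Set.mem_ofPred_eq, h2]
    exact Iff.rfl

theorem con_Z [Fintype ι] (f : MvPolynomial ι ℂ) :
    Constructible {x : ι → ℂ | eval x f = 0 ∧ ∃ a, eval x (pderiv a f) ≠ 0} :=
  Constructible.and (Constructible.zero f) (Constructible.ex fun _ => Constructible.ne _)

theorem ZL_eq (f : MvPolynomial ι ℂ) (Z : Set (ι → ℂ)) (hZ : ∀ x ∈ Z, eval x f = 0)
    (Q : Set (E ⊕ Unit → ℂ)) {m : ℕ} (hm : 1 ≤ m) : ZL f Z Q m = SDz f Z true (QZ Q) m := by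
  ext z
  have h0 : (fun a => PowerSeries.coeff 0 (z.2 a)) ∈ Z → PowerSeries.coeff 0 (aeval z.2 f) = 0 := by
    intro h
    have h1 := hZ _ h
    have h2 : PowerSeries.coeff 0 (aeval z.2 f) =
        eval (fun a => PowerSeries.coeff 0 (z.2 a)) f := by
      rw [PowerSeries.coeff_zero_eq_constantCoeff_apply]
      have h3 := MvPolynomial.eval₂_comp_left (PowerSeries.constantCoeff (R := ℂ))
        (algebraMap ℂ (PowerSeries ℂ)) z.2 f
      rw [aeval_def, h3]
      change _ = eval₂ (RingHom.id ℂ) _ f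
      congr 1
      funext a
      exact (PowerSeries.coeff_zero_eq_constantCoeff_apply _).symm
    rw [h2, h1]
  constructor
  · rintro ⟨h1, h2, h3⟩
    exact ⟨⟨fun l _ hl => h2 l hl, h0 h1, h3⟩, h1⟩
  · rintro ⟨⟨h2, h4, h3⟩, h1⟩
    refine ⟨h1, fun l hl => ?_, h3⟩
    rcases Nat.eq_zero_or_pos l with h | h
    · subst h
      exact h4
    · exact h2 l h hl

end SMZ8Aux

open SMZ8Aux

theorem stmt_SMZ8 : Stmt_SMZ8 := by
  classical
  intro P ι _ _ f E _ Q hQ
  refine ⟨xq ^ Fintype.card ι * P.rat.val (RP f (QZ Q) ∩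
    ZP {x : ι → ℂ | eval x f = 0 ∧ ∃ a, eval x (pderiv a f) ≠ 0}), fun m hm => ?_⟩
  rw [ZL_eq f _ (fun x hx => hx.1) Q hm, vol_SDz P f (con_Z f) (fun x hx => hx.2) (con_QZ hQ.1) hm,
    pow_add]
  ring

end Pool.Agent.Mono.SP
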