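import Pool.Agent.Work.Monodromy.Interface8
import Pool.Agent.Work.Monodromy6.WD
import Pool.Agent.Work.Monodromy6.WB
import Pool.Agent.Work.Monodromy6.K6

/-!
# Block ISO8 (helper2), part A: coordinates and powers of the maximal ideal
-/

set_option autoImplicit false
set_option linter.unusedSectionVars false

namespace Pool.Agent.Mono.SP

open MvPolynomial TS RO PC

namespace ISO8Aux

variable {ι : Type} [Fintype ι] [DecidableEq ι]

/-- the maximal ideal of the origin -/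
noncomputable abbrev mm (ι : Type) : Ideal (MvPolynomial ι ℂ) := idealOfVars ι ℂ

theorem X_mm (a : ι) : (X a : MvPolynomial ι ℂ) ∈ mm ι := Ideal.subset_span ⟨a, rfl⟩

theorem mem_mm (g : MvPolynomial ι ℂ) : g ∈ mm ι ↔ eval (fun _ => (0 : ℂ)) g = 0 := by
  have h := mem_pow_idealOfVars_iff' (R := ℂ) 1 g
  rw [pow_one] at h
  rw [h, MvPolynomial.eval_zero', constantCoeff_eq]
  constructor
  · intro h1
    exact h1 0 (by simp)
  · intro h1 x hx
    have : x = 0 := by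
      have h2 : Finsupp.degree x = 0 := by omega
      exact (Finsupp.degree_eq_zero_iff x).1 h2
    rw [this]
    exact h1

theorem map_mm {Φ : MvPolynomial ι ℂ →ₐ[ℂ] MvPolynomial ι ℂ} (h : ∀ a, Φ (X a) ∈ mm ι) (k : ℕ)
    {g : MvPolynomial ι ℂ} (hg : g ∈ mm ι ^ k) : Φ g ∈ mm ι ^ k := by
  have h1 : Ideal.map (Φ : MvPolynomial ι ℂ →+* MvPolynomial ι ℂ) (mm ι) ≤ mm ι := by
    rw [Ideal.map_le_iff_le_comap, mm, idealOfVars, Ideal.span_le]
    rintro _ ⟨a, rfl⟩
    exact h a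
  have h2 : Ideal.map (Φ : MvPolynomial ι ℂ →+* MvPolynomial ι ℂ) (mm ι ^ k) ≤ mm ι ^ k := by
    rw [Ideal.map_pow]
    exact Ideal.pow_right_mono h1 k
  exact h2 (Ideal.mem_map_of_mem _ hg)

theorem split (g : MvPolynomial ι ℂ) : ∃ c : ℂ, g - C c ∈ mm ι := by
  refine ⟨eval (fun _ => (0 : ℂ)) g, ?_⟩
  rw [mem_mm, map_sub, eval_C, sub_self]

theorem dif_mm {Φ Φ' : MvPolynomial ι ℂ →ₐ[ℂ] MvPolynomial ι ℂ} (h : ∀ a, Φ (X a) ∈ mm ι)
    (h' : ∀ a, Φ' (X a) ∈ mm ι) (hd : ∀ a, Φ (X a) - Φ' (X a) ∈ mm ι ^ 2) (k : ℕ) :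
    ∀ {g : MvPolynomial ι ℂ}, g ∈ mm ι ^ k → Φ g - Φ' g ∈ mm ι ^ (k + 1) := by
  have h0 : ∀ g : MvPolynomial ι ℂ, Φ g - Φ' g ∈ mm ι := by
    intro g
    obtain ⟨c, hc⟩ := split g
    have e1 : Φ g - Φ' g = Φ (g - C c) - Φ' (g - C c) := by
      rw [map_sub, map_sub, MvPolynomial.algHom_C, MvPolynomial.algHom_C]
      ring
    rw [e1]
    have h1 := map_mm h 1 (g := g - C c) (by rwa [pow_one])
    have h2 := map_mm h' 1 (g := g - C c) (by rwa [pow_one])
    rw [pow_one] at h1 h2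
    exact Ideal.sub_mem _ h1 h2
  have h1 : ∀ g ∈ mm ι, Φ g - Φ' g ∈ mm ι ^ 2 := by
    intro g hg
    rw [mm, idealOfVars] at hg
    refine Submodule.span_induction (p := fun g _ => Φ g - Φ' g ∈ mm ι ^ 2) ?_ ?_ ?_ ?_ hg
    · rintro _ ⟨a, rfl⟩
      exact hd a
    · rw [map_zero, map_zero, sub_zero]
      exact Submodule.zero_mem _
    · intro x y _ _ hx hy
      rw [map_add, map_add]
      have : Φ x + Φ y - (Φ' x + Φ' y) = (Φ x - Φ' x) + (Φ y - Φ' y) := by ring
      rw [this]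
      exact Ideal.add_mem _ hx hy
    · intro c x hx hx'
      rw [smul_eq_mul, map_mul, map_mul]
      have : Φ c * Φ x - Φ' c * Φ' x = (Φ c - Φ' c) * Φ x + Φ' c * (Φ x - Φ' x) := by ring
      rw [this]
      refine Ideal.add_mem _ ?_ (Ideal.mul_mem_left _ _ hx')
      rw [pow_two]
      have hx2 : x ∈ mm ι ^ 1 := by
        rw [pow_one]
        exact hx
      have h3 := map_mm h 1 hx2
      rw [pow_one] at h3
      exact Ideal.mul_mem_mul (h0 c) h3
  induction k with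
  | zero =>
    intro g _
    rw [zero_add, pow_one]
    exact h0 g
  | succ k ih =>
    intro g hg
    rw [pow_succ] at hg
    refine Submodule.mul_induction_on hg ?_ ?_
    · intro m hm n hn
      rw [map_mul, map_mul]
      have : Φ m * Φ n - Φ' m * Φ' n = (Φ m - Φ' m) * Φ n + Φ' m * (Φ n - Φ' n) := by ring
      rw [this]
      have hn2 : n ∈ mm ι ^ 1 := by
        rw [pow_one]
        exact hn
      have h3 := map_mm h 1 hn2
      rw [pow_one] at h3
      refine Ideal.add_mem _ ?_ ?_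
      · rw [pow_succ]
        exact Ideal.mul_mem_mul (ih hm) h3
      · have h4 := Ideal.mul_mem_mul (map_mm h' k hm) (h1 n hn)
        rw [← pow_add] at h4
        exact h4
    · intro x y hx hy
      rw [map_add, map_add]
      have : Φ x + Φ y - (Φ' x + Φ' y) = (Φ x - Φ' x) + (Φ y - Φ' y) := by ring
      rw [this]
      exact Ideal.add_mem _ hx hy

/-- the linear part -/
noncomputable def lin (J : Matrix ι ι ℂ) (a : ι) : MvPolynomial ι ℂ := ∑ b, C (J a b) * X b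

theorem lin_mm (J : Matrix ι ι ℂ) (a : ι) : lin J a ∈ mm ι :=
  Ideal.sum_mem _ fun b _ => Ideal.mul_mem_left _ _ (X_mm b)

theorem lin_comp (J J' : Matrix ι ι ℂ) (h : J * J' = 1) (a : ι) :
    bind₁ (lin J') (bind₁ (lin J) (X a)) = X a := by
  rw [bind₁_X_right, lin, map_sum]
  have : ∀ b, bind₁ (lin J') (C (J a b) * X b) = ∑ c, C (J a b * J' b c) * X c := by
    intro b
    rw [map_mul, bind₁_C_right, bind₁_X_right, lin, Finset.mul_sum]
    refine Finset.sum_congr rfl fun c _ => ?_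
    rw [C_mul]
    ring
  rw [Finset.sum_congr rfl fun b _ => this b, Finset.sum_comm]
  have h2 : ∀ c, ∑ b, C (J a b * J' b c) * (X c : MvPolynomial ι ℂ) =
      if c = a then X c else 0 := by
    intro c
    rw [← Finset.sum_mul, ← map_sum]
    have h3 : ∑ b, J a b * J' b c = (J * J') a c := by rw [Matrix.mul_apply]
    rw [h3, h, Matrix.one_apply]
    by_cases hac : a = c
    · rw [if_pos hac, if_pos hac.symm, C_1, one_mul]
    · rw [if_neg hac, if_neg (Ne.symm hac), C_0, zero_mul]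
  rw [Finset.sum_congr rfl fun c _ => h2 c, Finset.sum_ite_eq' Finset.univ a,
    if_pos (Finset.mem_univ _)]

theorem lin_comp' (J J' : Matrix ι ι ℂ) (h : J * J' = 1) (g : MvPolynomial ι ℂ) :
    bind₁ (lin J') (bind₁ (lin J) g) = g := by
  have h1 : (bind₁ (lin J')).comp (bind₁ (lin J)) = AlgHom.id ℂ (MvPolynomial ι ℂ) :=
    MvPolynomial.algHom_ext fun a => by
      rw [AlgHom.comp_apply, lin_comp J J' h a, AlgHom.id_apply]
  exact DFunLike.congr_fun h1 g

/-- a family `ψ` which vanishes at the origin and its linear part -/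
theorem sub_lin (ψ : ι → MvPolynomial ι ℂ) (h0 : ∀ a, eval (fun _ => 0) (ψ a) = 0) (a : ι) :
    ψ a - lin (Matrix.of fun a b => eval (fun _ => (0 : ℂ)) (pderiv b (ψ a))) a ∈ mm ι ^ 2 := by
  rw [mem_pow_idealOfVars_iff']
  intro x hx
  rw [coeff_sub, sub_eq_zero, lin, coeff_sum]
  simp only [Matrix.of_apply, coeff_C_mul, coeff_X']
  by_cases hx0 : x = 0
  · subst hx0
    have h1 := h0 a
    rw [MvPolynomial.eval_zero', constantCoeff_eq] at h1
    rw [h1]
    symm
    refine Finset.sum_eq_zero fun b _ => ?_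
    rw [if_neg, mul_zero]
    intro h2
    have h3 := DFunLike.congr_fun h2 b
    simp at h3
  · have h1 : Finsupp.degree x = 1 := by
      have : Finsupp.degree x ≠ 0 := fun h => hx0 ((Finsupp.degree_eq_zero_iff x).1 h)
      omega
    obtain ⟨b, hb⟩ : ∃ b, x = Finsupp.single b 1 := by
      obtain ⟨b, hb⟩ := Finsupp.ne_iff.1 hx0
      refine ⟨b, ?_⟩
      have h2 : Finsupp.single b 1 ≤ x := by
        rw [Finsupp.single_le_iff]
        have : x b ≠ 0 := hb
        omega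
      obtain ⟨y, hy⟩ := exists_add_of_le h2
      have h3 : Finsupp.degree y = 0 := by
        have h4 := congrArg Finsupp.degree hy
        rw [map_add, Finsupp.degree_single, h1] at h4
        omega
      rw [hy, (Finsupp.degree_eq_zero_iff y).1 h3, add_zero]
    subst hb
    rw [Finset.sum_eq_single b]
    · rw [if_pos rfl, mul_one, MvPolynomial.eval_zero', constantCoeff_eq, coeff_pderiv]
      simp
    · intro c _ hc
      rw [if_neg, mul_zero]
      intro h4
      exact hc (Finsupp.single_left_injective one_ne_zero h4)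
    · intro h5
      exact absurd (Finset.mem_univ _) h5

section

variable (ψ : ι → MvPolynomial ι ℂ) (h0 : ∀ a, eval (fun _ => 0) (ψ a) = 0)
  (hJ : (Matrix.of fun a b => eval (fun _ => (0 : ℂ)) (pderiv b (ψ a))).det ≠ 0)

include h0 hJ

theorem inj1 {k : ℕ} {g : MvPolynomial ι ℂ} (hg : g ∈ mm ι ^ k)
    (h : bind₁ ψ g ∈ mm ι ^ (k + 1)) : g ∈ mm ι ^ (k + 1) := by
  set J := (Matrix.of fun a b => eval (fun _ => (0 : ℂ)) (pderiv b (ψ a))) with hJd
  have h1 : bind₁ ψ g - bind₁ (lin J) g ∈ mm ι ^ (k + 1) := by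
    refine dif_mm (fun a => ?_) (fun a => ?_) (fun a => ?_) k hg
    · rw [bind₁_X_right, mem_mm]
      exact h0 a
    · rw [bind₁_X_right]
      exact lin_mm J a
    · rw [bind₁_X_right, bind₁_X_right]
      exact sub_lin ψ h0 a
  have h2 : bind₁ (lin J) g ∈ mm ι ^ (k + 1) := by
    have := Ideal.sub_mem _ h h1
    rwa [sub_sub_cancel] at this
  have h3 := map_mm (Φ := bind₁ (lin J⁻¹)) (fun a => by
    rw [bind₁_X_right]
    exact lin_mm _ a) (k + 1) h2
  rwa [lin_comp' J J⁻¹ (Matrix.mul_nonsing_inv J ((isUnit_iff_ne_zero).2 hJ))] at h3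

theorem inj (k : ℕ) {g : MvPolynomial ι ℂ} (h : bind₁ ψ g ∈ mm ι ^ k) : g ∈ mm ι ^ k := by
  induction k with
  | zero => simp
  | succ k ih =>
    exact inj1 ψ h0 hJ (ih (Ideal.pow_le_pow_right (Nat.le_succ k) h)) h

theorem sur1 {k : ℕ} {b : MvPolynomial ι ℂ} (hb : b ∈ mm ι ^ k) :
    ∃ a ∈ mm ι ^ k, b - bind₁ ψ a ∈ mm ι ^ (k + 1) := by
  set J := (Matrix.of fun a b => eval (fun _ => (0 : ℂ)) (pderiv b (ψ a))) with hJd
  have h3 := map_mm (Φ := bind₁ (lin J⁻¹)) (fun a => by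
    rw [bind₁_X_right]
    exact lin_mm _ a) k hb
  refine ⟨bind₁ (lin J⁻¹) b, h3, ?_⟩
  have h1 : bind₁ ψ (bind₁ (lin J⁻¹) b) - bind₁ (lin J) (bind₁ (lin J⁻¹) b) ∈ mm ι ^ (k + 1) := by
    refine dif_mm (fun a => ?_) (fun a => ?_) (fun a => ?_) k h3
    · rw [bind₁_X_right, mem_mm]
      exact h0 a
    · rw [bind₁_X_right]
      exact lin_mm J a
    · rw [bind₁_X_right, bind₁_X_right]
      exact sub_lin ψ h0 a
  rw [lin_comp' J⁻¹ J (Matrix.nonsing_inv_mul J ((isUnit_iff_ne_zero).2 hJ))] at h1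
  have h2 := neg_mem h1
  rwa [neg_sub] at h2

theorem sur (k : ℕ) (b : MvPolynomial ι ℂ) : ∃ a, b - bind₁ ψ a ∈ mm ι ^ k := by
  induction k with
  | zero => exact ⟨0, by simp⟩
  | succ k ih =>
    obtain ⟨a, ha⟩ := ih
    obtain ⟨a', -, ha'⟩ := sur1 ψ h0 hJ ha
    refine ⟨a + a', ?_⟩
    rw [map_add, ← sub_sub]
    exact ha'

/-- transfer of the inclusion `m^N ⊆ (partial derivatives) + m^{N+1}` -/
theorem transfer (f : MvPolynomial ι ℂ) (N : ℕ)
    (h : mm ι ^ N ≤ Ideal.span (Set.range fun b => pderiv b (bind₁ ψ f)) ⊔ mm ι ^ (N + 1)) :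
    mm ι ^ N ≤ Ideal.span (Set.range fun b => pderiv b f) ⊔ mm ι ^ (N + 1) := by
  intro g hg
  have h1 : bind₁ ψ g ∈ mm ι ^ N := map_mm (fun a => by
    rw [bind₁_X_right, mem_mm]
    exact h0 a) N hg
  obtain ⟨y, hy, z, hz, hyz⟩ := Submodule.mem_sup.1 (h h1)
  obtain ⟨c, hc⟩ := (Ideal.mem_span_range_iff_exists_fun).1 hy
  have h2 : ∃ e : ι → MvPolynomial ι ℂ, ∀ a,
      (∑ b, c b * pderiv b (ψ a)) - bind₁ ψ (e a) ∈ mm ι ^ (N + 1) :=
    ⟨fun a => (sur ψ h0 hJ (N + 1) (∑ b, c b * pderiv b (ψ a))).choose,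
      fun a => (sur ψ h0 hJ (N + 1) (∑ b, c b * pderiv b (ψ a))).choose_spec⟩
  obtain ⟨e, he⟩ := h2
  have h3 : bind₁ ψ (g - ∑ a, e a * pderiv a f) ∈ mm ι ^ (N + 1) := by
    have e1 : y = ∑ a, (∑ b, c b * pderiv b (ψ a)) * bind₁ ψ (pderiv a f) := by
      rw [← hc]
      simp only [WBAux.chain ψ f, Finset.mul_sum, Finset.sum_mul]
      rw [Finset.sum_comm]
      refine Finset.sum_congr rfl fun a _ => Finset.sum_congr rfl fun b _ => ?_
      ring
    have e2 : bind₁ ψ (g - ∑ a, e a * pderiv a f) =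
        z + ∑ a, ((∑ b, c b * pderiv b (ψ a)) - bind₁ ψ (e a)) * bind₁ ψ (pderiv a f) := by
      rw [map_sub, ← hyz, map_sum]
      simp only [sub_mul, Finset.sum_sub_distrib, map_mul]
      rw [← e1]
      ring
    rw [e2]
    exact Ideal.add_mem _ hz (Ideal.sum_mem _ fun a _ => Ideal.mul_mem_right _ _ (he a))
  have h4 := inj ψ h0 hJ (N + 1) h3
  have e3 : g = (∑ a, e a * pderiv a f) + (g - ∑ a, e a * pderiv a f) := by ring
  rw [e3]
  refine Submodule.add_mem_sup ?_ h4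
  exact Ideal.sum_mem _ fun a _ => Ideal.mul_mem_left _ _ (Ideal.subset_span ⟨a, rfl⟩)

end

end ISO8Aux

end Pool.Agent.Mono.SP
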