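import Pool.Agent.Work.Monodromy8.I08

/-!
# Block AN8: exponents and the order of the poles at `u = 0`

One factor of the denominator at a time: if `(1 - u^{-ν} T^N) κ` is a polynomial, then
`κ(m + kN) = u^{-νk} κ(m)` for large `m`, and if `ν/N > a/b` this contradicts the bound of the order
of the poles, unless `κ(m) = 0`.
-/

set_option autoImplicit false

namespace Pool.Agent.Mono.SP

open MvPolynomial TS RO PC

namespace AN8Aux

open I08Aux

theorem int0_zero {κ : K} (h : ∀ j : ℕ, Int0 (xq ^ j * κ)) : κ = 0 := by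
  obtain ⟨p, q, hq, h1⟩ := h (κ.num.natDegree + 1)
  set j := κ.num.natDegree + 1 with hj
  have hinj : Function.Injective (algebraMap (Polynomial ℚ) K) :=
    IsFractionRing.injective (Polynomial ℚ) K
  have hd : algebraMap (Polynomial ℚ) K κ.denom ≠ 0 := fun h0 =>
    κ.denom_ne_zero (hinj (h0.trans (map_zero _).symm))
  have h2 : κ * algebraMap (Polynomial ℚ) K κ.denom = algebraMap (Polynomial ℚ) K κ.num := by
    have h3 := RatFunc.num_div_denom κ
    rw [div_eq_iff hd] at h3
    exact h3.symm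
  have h3 : κ * algebraMap (Polynomial ℚ) K q =
      RatFunc.X ^ j * algebraMap (Polynomial ℚ) K p := by
    rw [← h1]
    calc κ * algebraMap (Polynomial ℚ) K q
        = (RatFunc.X ^ j * xq ^ j) * (κ * algebraMap (Polynomial ℚ) K q) := by
          rw [xq_mul, one_mul]
      _ = _ := by ring
  have h4 : algebraMap (Polynomial ℚ) K (κ.num * q) =
      algebraMap (Polynomial ℚ) K (Polynomial.X ^ j * (p * κ.denom)) := by
    rw [map_mul, ← h2, map_mul, map_pow, RatFunc.algebraMap_X, map_mul, ← mul_assoc, ← h3]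
    ring
  have h5 := hinj h4
  have h6 : (Polynomial.X : Polynomial ℚ) ^ j ∣ κ.num := by
    refine Polynomial.prime_X.pow_dvd_of_dvd_mul_right j (b := q) ?_ ⟨_, h5⟩
    intro h7
    exact hq (Polynomial.X_dvd_iff.1 h7)
  have h7 : κ.num = 0 := by
    refine Polynomial.eq_zero_of_dvd_of_natDegree_lt h6 ?_
    rw [Polynomial.natDegree_X_pow]
    omega
  exact RatFunc.num_eq_zero_iff.1 h7

/-- the factor of the denominator -/
noncomputable def fac (q : ℕ × ℕ) : Polynomial K :=
  1 - Polynomial.C (xq ^ q.2) * Polynomial.X ^ q.1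

theorem denP_cons (q : ℕ × ℕ) (l : List (ℕ × ℕ)) : denP (q :: l) = fac q * denP l := by
  rw [denP, List.map_cons, List.prod_cons]
  rfl

theorem coeff_fac (q : ℕ × ℕ) (G : PowerSeries K) (m : ℕ) :
    PowerSeries.coeff m ((fac q : PowerSeries K) * G) = PowerSeries.coeff m G -
      if q.1 ≤ m then xq ^ q.2 * PowerSeries.coeff (m - q.1) G else 0 := by
  have h1 : (fac q : PowerSeries K) = 1 - PowerSeries.C (xq ^ q.2) * PowerSeries.X ^ q.1 := by
    rw [fac]
    simp
  rw [h1, sub_mul, one_mul, map_sub, mul_assoc, PowerSeries.coeff_C_mul,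
    PowerSeries.coeff_X_pow_mul']
  split_ifs
  · rfl
  · rw [mul_zero]

/-- `Bd` for the product with a factor -/
theorem bd_fac {a b : ℕ} (q : ℕ × ℕ) {G : PowerSeries K}
    (h : Bd a b fun m => PowerSeries.coeff m G) :
    Bd a b fun m => PowerSeries.coeff m ((fac q : PowerSeries K) * G) := by
  obtain ⟨c, hc⟩ := h
  refine ⟨c + q.2, fun m N hm => ?_⟩
  have key := stmt_I08
  dsimp only
  rw [coeff_fac, sub_eq_add_neg]
  refine key.2.2.1 _ _ _ (key.2.1 (N + c) _ _ (by omega) (hc m N hm)) ?_
  have h1 : Bnd (N + (c + q.2)) (if q.1 ≤ m then xq ^ q.2 * PowerSeries.coeff (m - q.1) G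
      else 0) := by
    split_ifs with h2
    · rw [← add_assoc]
      refine (key.2.2.2.2.2 (N + c) q.2 _).2 (hc (m - q.1) N ?_)
      exact le_trans (Nat.mul_le_mul_left a (Nat.sub_le _ _)) hm
    · unfold Bnd
      rw [mul_zero]
      exact ⟨0, 1, by simp, by simp⟩
  have h3 := key.2.2.2.1 0 (N + (c + q.2)) (toRat (-1)) _ (key.2.2.2.2.1 (-1)) h1
  rw [map_neg, map_one, neg_one_mul, Nat.zero_add] at h3
  exact h3

theorem bd_denP {a b : ℕ} (l : List (ℕ × ℕ)) {G : PowerSeries K}
    (h : Bd a b fun m => PowerSeries.coeff m G) :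
    Bd a b fun m => PowerSeries.coeff m ((denP l : PowerSeries K) * G) := by
  induction l with
  | nil =>
    have h1 : ((denP [] : Polynomial K) : PowerSeries K) * G = G := by
      rw [denP, List.map_nil, List.prod_nil, Polynomial.coe_one, one_mul]
    rw [h1]
    exact h
  | cons q l ih =>
    have h1 : ((denP (q :: l) : Polynomial K) : PowerSeries K) * G =
        (fac q : PowerSeries K) * ((denP l : PowerSeries K) * G) := by
      rw [denP_cons, Polynomial.coe_mul, mul_assoc]
    rw [h1]
    exact bd_fac q ih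

/-- one factor -/
theorem one_fac {a b : ℕ} (hb : 1 ≤ b) {q : ℕ × ℕ} (hq : a * q.1 < q.2 * b)
    {G : PowerSeries K} (h : Bd a b fun m => PowerSeries.coeff m G) (num : Polynomial K)
    (hn : (fac q : PowerSeries K) * G = num) : ∃ num' : Polynomial K, G = num' := by
  obtain ⟨c, hc⟩ := h
  -- the recursion
  have h1 : ∀ m, num.natDegree < m → ∀ k, PowerSeries.coeff (m + k * q.1) G =
      xq ^ (q.2 * k) * PowerSeries.coeff m G := by
    intro m hm k
    induction k with
    | zero => simp
    | succ k ih =>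
      have h2 := coeff_fac q G (m + (k + 1) * q.1)
      rw [hn, Polynomial.coeff_coe, Polynomial.coeff_eq_zero_of_natDegree_lt (by omega),
        if_pos (by nlinarith)] at h2
      have h3 : m + (k + 1) * q.1 - q.1 = m + k * q.1 := by
        have : (k + 1) * q.1 = k * q.1 + q.1 := by ring
        omega
      rw [h3, ih] at h2
      rw [sub_eq_zero.1 h2.symm, ← mul_assoc, ← pow_add]
      congr 2
      ring
  -- vanishing
  have h2 : ∀ m, num.natDegree < m → PowerSeries.coeff m G = 0 := by
    intro m hm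
    refine int0_zero fun j => ?_
    set k' := a * m + c + j with hk'
    have h3 := hc (m + (b * k') * q.1) (a * m + a * k' * q.1) (by
      calc a * (m + b * k' * q.1) = a * m + b * (a * k' * q.1) := by ring
        _ ≤ b * (a * m) + b * (a * k' * q.1) := by
          have : 1 * (a * m) ≤ b * (a * m) := Nat.mul_le_mul_right _ hb
          omega
        _ = b * (a * m + a * k' * q.1) := by ring)
    dsimp only at h3
    rw [h1 m hm] at h3
    have h4 : a * m + a * k' * q.1 + c + j ≤ q.2 * (b * k') := by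
      have h5 : (a * q.1 + 1) * k' ≤ (q.2 * b) * k' := Nat.mul_le_mul_right _ hq
      nlinarith
    unfold Bnd at h3
    have h5 := I08Aux.mul (I08Aux.xpow (q.2 * (b * k') - (a * m + a * k' * q.1 + c + j))) h3
    have h6 : (RatFunc.X : K) ^ (q.2 * (b * k') - (a * m + a * k' * q.1 + c + j)) *
        (RatFunc.X ^ (a * m + a * k' * q.1 + c) *
          (xq ^ (q.2 * (b * k')) * PowerSeries.coeff m G)) = xq ^ j * PowerSeries.coeff m G := by
      have h7 : (RatFunc.X : K) ^ (q.2 * (b * k')) * xq ^ (q.2 * (b * k')) = 1 := xq_mul _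
      have h8 : (RatFunc.X : K) ^ (q.2 * (b * k') - (a * m + a * k' * q.1 + c + j)) *
          RatFunc.X ^ (a * m + a * k' * q.1 + c) * RatFunc.X ^ j =
          RatFunc.X ^ (q.2 * (b * k')) := by
        rw [← pow_add, ← pow_add]
        congr 1
        omega
      have h9 : (RatFunc.X : K) ^ j * xq ^ j = 1 := xq_mul _
      calc (RatFunc.X : K) ^ (q.2 * (b * k') - (a * m + a * k' * q.1 + c + j)) *
        (RatFunc.X ^ (a * m + a * k' * q.1 + c) *
          (xq ^ (q.2 * (b * k')) * PowerSeries.coeff m G))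
          = (RatFunc.X : K) ^ (q.2 * (b * k') - (a * m + a * k' * q.1 + c + j)) *
        RatFunc.X ^ (a * m + a * k' * q.1 + c) *
          (xq ^ (q.2 * (b * k')) * PowerSeries.coeff m G) * (RatFunc.X ^ j * xq ^ j) := by
            rw [h9, mul_one]
            ring
        _ = (RatFunc.X ^ (q.2 * (b * k') - (a * m + a * k' * q.1 + c + j)) *
          RatFunc.X ^ (a * m + a * k' * q.1 + c) * RatFunc.X ^ j) * xq ^ (q.2 * (b * k')) *
            (xq ^ j * PowerSeries.coeff m G) := by ring
        _ = _ := by rw [h8, h7, one_mul]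
    rw [h6] at h5
    exact h5
  refine ⟨PowerSeries.trunc (num.natDegree + 1) G, ?_⟩
  ext m
  rw [Polynomial.coeff_coe, PowerSeries.coeff_trunc]
  split_ifs with h3
  · rfl
  · exact h2 m (by omega)

theorem main {a b : ℕ} (hb : 1 ≤ b) (Λ : Set ℚ) (l : List (ℕ × ℕ)) :
    ∀ (G : PowerSeries K), (Bd a b fun m => PowerSeries.coeff m G) →
    (∀ q ∈ l, 1 ≤ q.1 ∧ ((q.2 : ℚ) / (q.1 : ℚ)) ∈ Λ) → ∀ num : Polynomial K,
    (denP l : PowerSeries K) * G = num →
    ∃ (l' : List (ℕ × ℕ)) (num' : Polynomial K),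
      (∀ q ∈ l', 1 ≤ q.1 ∧ ((q.2 : ℚ) / (q.1 : ℚ)) ∈ {r | r ∈ Λ ∧ r ≤ (a : ℚ) / (b : ℚ)}) ∧
      (denP l' : PowerSeries K) * G = num' := by
  induction l with
  | nil => exact fun G _ _ num h => ⟨[], num, by simp, h⟩
  | cons q l ih =>
    intro G hG hl num hn
    obtain ⟨l', num', h1, h2⟩ := ih ((fac q : PowerSeries K) * G) (bd_fac q hG)
      (fun q' hq' => hl q' (List.mem_cons_of_mem _ hq')) num (by
        rw [← hn, denP_cons, Polynomial.coe_mul]
        ring)
    by_cases hq : q.2 * b ≤ a * q.1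
    · refine ⟨q :: l', num', ?_, ?_⟩
      · intro q' hq'
        rcases List.mem_cons.1 hq' with h | h
        · subst h
          obtain ⟨h3, h4⟩ := hl q' List.mem_cons_self
          refine ⟨h3, h4, ?_⟩
          have h5 : (0 : ℚ) < q'.1 := by exact_mod_cast h3
          have h6 : (0 : ℚ) < b := by exact_mod_cast hb
          rw [div_le_div_iff₀ h5 h6]
          exact_mod_cast hq
        · exact h1 q' h
      · rw [← h2, denP_cons, Polynomial.coe_mul]
        ring
    · obtain ⟨num'', h3⟩ := one_fac hb (q := q) (by omega) (bd_denP l' hG) num' (by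
        rw [← h2]
        ring)
      exact ⟨l', num'', h1, h3⟩

end AN8Aux

open AN8Aux

theorem stmt_AN8 : Stmt_AN8 := by
  intro Λ κ a b hb hE hB
  obtain ⟨l, num, hl, hn⟩ := hE
  obtain ⟨l', num', h1, h2⟩ := main hb Λ l (PowerSeries.mk κ) (by simpa using hB) hl num hn
  exact ⟨l', num', h1, h2⟩

end Pool.Agent.Mono.SP
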