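import Pool.Agent.Work.Monodromy8.CHX

/-! Block CMP8 (helper75): composition of coordinates. -/

set_option autoImplicit false

namespace Pool.Agent.Mono.SP

open MvPolynomial TS RO PC

theorem stmt_CMP8 : Stmt_CMP8 := by
  intro ι _ _ f φ ψ
  refine ⟨fun a => bind₁ (Sum.elim (fun i => X (Sum.inl i)) ψ) (φ a), fun p => ?_⟩
  have h1 : (fun a => sp p (bind₁ (Sum.elim (fun i => X (Sum.inl i)) ψ) (φ a))) =
      fun a => bind₁ (fun a => sp p (ψ a)) (sp p (φ a)) := by
    funext a
    exact CHX.sp_bind p ψ (φ a)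
  rw [h1]
  refine ⟨?_, ?_⟩
  · rw [bind₁_bind₁]
  · rintro ⟨hφ0, hφ1⟩ ⟨hψ0, hψ1⟩
    refine ⟨fun a => ?_, ?_⟩
    · rw [CHX.eval_bind]
      simp only [hψ0]
      exact hφ0 a
    · have h2 : (Matrix.of fun a b => eval (fun _ => (0 : ℂ))
          (pderiv b (bind₁ (fun a => sp p (ψ a)) (sp p (φ a))))) =
          (Matrix.of fun a b => eval (fun _ => (0 : ℂ)) (pderiv b (sp p (φ a)))) *
          (Matrix.of fun a b => eval (fun _ => (0 : ℂ)) (pderiv b (sp p (ψ a)))) := by
        ext a b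
        rw [Matrix.mul_apply, Matrix.of_apply, CHX.chain, map_sum]
        refine Finset.sum_congr rfl fun c _ => ?_
        rw [map_mul, CHX.eval_bind, Matrix.of_apply, Matrix.of_apply]
        simp only [hψ0]
      rw [h2, Matrix.det_mul]
      exact mul_ne_zero hφ1 hψ1

end Pool.Agent.Mono.SP
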