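import Pool.Agent.Work.Monodromy8.CHX

/-! Block COF8 (helper75): coefficients in families. -/

set_option autoImplicit false

namespace Pool.Agent.Mono.SP

open MvPolynomial TS RO PC

theorem stmt_COF8 : Stmt_COF8 := by
  intro ι κ G d
  refine ⟨coeff d (CHX.toQ G), fun p => ?_⟩
  rw [CHX.sp_toQ, coeff_map]

end Pool.Agent.Mono.SP
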