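import Pool.Agent.Work.Monodromy.Interface8

/-!
# Block COV8: all critical points are simple or covered by charts (helper49)
-/

set_option autoImplicit false

namespace Pool.Agent.Mono.SP

open MvPolynomial TS RO PC

namespace COV8Aux

variable {ι : Type} [Fintype ι] [DecidableEq ι]

theorem mono {f : MvPolynomial ι ℂ} {a b : ℕ} {S T : Set (ι → ℂ)} (h : Cov f a b T)
    (hST : S ⊆ T) : Cov f a b S := by
  obtain ⟨L, h1, h2⟩ := h
  exact ⟨L, h1, fun p hp => h2 p (hST hp)⟩

theorem union {f : MvPolynomial ι ℂ} {a b : ℕ} {S T : Set (ι → ℂ)} (h : Cov f a b S)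
    (h' : Cov f a b T) : Cov f a b (S ∪ T) := by
  obtain ⟨L, h1, h2⟩ := h
  obtain ⟨L', h1', h2'⟩ := h'
  refine ⟨L ++ L', ?_, ?_⟩
  · intro c hc
    rcases List.mem_append.1 hc with hc | hc
    · exact h1 c hc
    · exact h1' c hc
  · intro p hp
    rcases hp with hp | hp
    · rcases h2 p hp with ⟨c, hc, hp⟩ | hp
      · exact Or.inl ⟨c, List.mem_append.2 (Or.inl hc), hp⟩
      · exact Or.inr hp
    · rcases h2' p hp with ⟨c, hc, hp⟩ | hp
      · exact Or.inl ⟨c, List.mem_append.2 (Or.inr hc), hp⟩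
      · exact Or.inr hp

theorem sim {f : MvPolynomial ι ℂ} {a b : ℕ} {S : Set (ι → ℂ)} (h : ∀ p ∈ S, Sim f p) :
    Cov f a b S := ⟨[], by simp, fun p hp => Or.inr (h p hp)⟩

theorem biUnion {J : Type} [DecidableEq J] {f : MvPolynomial ι ℂ} {a b : ℕ}
    (s : Finset J) (S : J → Set (ι → ℂ)) (h : ∀ j ∈ s, Cov f a b (S j)) :
    Cov f a b {p | ∃ j ∈ s, p ∈ S j} := by
  induction s using Finset.induction_on with
  | empty => exact sim (fun p hp => by obtain ⟨j, hj, _⟩ := hp; simp at hj)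
  | insert j s hj ih =>
    refine mono (union (h j (Finset.mem_insert_self j s))
      (ih fun i hi => h i (Finset.mem_insert_of_mem hi))) ?_
    rintro p ⟨i, hi, hp⟩
    rcases Finset.mem_insert.1 hi with rfl | hi
    · exact Or.inl hp
    · exact Or.inr ⟨i, hi, hp⟩

end COV8Aux

open COV8Aux

theorem stmt_COV8 (hRNK : Stmt_RNK8) (hT0 : Stmt_T08) (hT1 : Stmt_T18) (hT2 : Stmt_T28)
    (hT3 : Stmt_T38) : Stmt_COV8 := by
  intro ι _ _ _ f a b hb hn
  have key : ∀ Z : Finset ι, Cov f a b (Rk f Z) := by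
    intro Z
    have hZ : Z.card ≤ Fintype.card ι := Finset.card_le_univ Z
    rcases Nat.lt_or_ge (Fintype.card ι) (Z.card + 3) with h3 | h3
    · rcases Nat.lt_or_ge (Fintype.card ι) (Z.card + 2) with h2 | h2
      · rcases Nat.lt_or_ge (Fintype.card ι) (Z.card + 1) with h1 | h1
        · have hu : Z = Finset.univ := by
            rw [← Finset.card_eq_iff_eq_univ]; omega
          subst hu
          exact sim fun p hp => hT0 ι f p hp
        · exact hT1 ι f Z a b (by omega) hb hn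
      · exact hT2 ι f Z a b (by omega) hb hn
    · exact hT3 ι f Z a b h3 hb hn.le
  refine mono (biUnion (Finset.univ : Finset (Finset ι)) (fun Z => Rk f Z) fun Z _ => key Z) ?_
  intro p hp
  obtain ⟨Z, hZ1, hZ2⟩ := hRNK ι f p
  exact ⟨Z, Finset.mem_univ Z, hp, hZ1, hZ2⟩

end Pool.Agent.Mono.SP
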