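import Pool.Agent.Work.Monodromy8.EVF

/-!
# Block CZC8: chart zones are constructible
-/

set_option autoImplicit false
set_option linter.unusedSectionVars false

namespace Pool.Agent.Mono.SP

open MvPolynomial TS RO PC TS.VAAux TS.VPAux TS.VSAux RO.VGAux RO.CVSQAux EVF

namespace CZC8Aux

section

variable {ι κ : Type}

/-- the exponent of the variables `κ` -/
noncomputable def rs (e : ι ⊕ κ →₀ ℕ) : κ →₀ ℕ :=
  Finsupp.comapDomain Sum.inr e Sum.inr_injective.injOn

theorem rs_apply (e : ι ⊕ κ →₀ ℕ) (b : κ) : rs e b = e (Sum.inr b) := rfl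

theorem sp_add (p : ι → ℂ) (F G : MvPolynomial (ι ⊕ κ) ℂ) : sp p (F + G) = sp p F + sp p G :=
  map_add _ _ _

theorem sp_sub (p : ι → ℂ) (F G : MvPolynomial (ι ⊕ κ) ℂ) : sp p (F - G) = sp p F - sp p G :=
  map_sub _ _ _

theorem sp_sum {α : Type} (p : ι → ℂ) (s : Finset α) (F : α → MvPolynomial (ι ⊕ κ) ℂ) :
    sp p (∑ a ∈ s, F a) = ∑ a ∈ s, sp p (F a) := map_sum _ _ _

theorem sp_monomial [Fintype ι] [Fintype κ] (p : ι → ℂ) (e : ι ⊕ κ →₀ ℕ) (c : ℂ) :
    ∃ c' : ℂ, sp p (monomial e c) = monomial (rs e) c' := by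
  classical
  refine ⟨c * ∏ a, p a ^ e (Sum.inl a), ?_⟩
  rw [sp, aeval_monomial, Finsupp.prod_fintype _ _ (fun _ => pow_zero _), Fintype.prod_sum_type]
  simp only [Sum.elim_inl, Sum.elim_inr]
  have h1 : (∏ b : κ, (X b : MvPolynomial κ ℂ) ^ e (Sum.inr b)) = monomial (rs e) 1 := by
    rw [monomial_eq, Finsupp.prod_fintype _ _ (fun _ => pow_zero _), map_one, one_mul]
    rfl
  rw [h1, ← map_prod_pow]
  rw [MvPolynomial.algebraMap_eq, ← mul_assoc, ← map_mul, C_mul_monomial, mul_one]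
where
  map_prod_pow : C (∏ a, p a ^ e (Sum.inl a)) =
      (∏ a : ι, (C (p a) : MvPolynomial κ ℂ) ^ e (Sum.inl a)) := by
    rw [map_prod]
    exact Finset.prod_congr rfl fun a _ => by rw [map_pow]

theorem support_sp [Fintype ι] [Fintype κ] (p : ι → ℂ) (G : MvPolynomial (ι ⊕ κ) ℂ)
    (d : κ →₀ ℕ) (hd : (sp p G).coeff d ≠ 0) : ∃ e ∈ G.support, rs e = d := by
  classical
  by_contra hcon
  push Not at hcon
  apply hd
  rw [G.as_sum, sp_sum, coeff_sum]
  refine Finset.sum_eq_zero fun e he => ?_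
  obtain ⟨c', hc'⟩ := sp_monomial p e (G.coeff e)
  rw [hc', coeff_monomial, if_neg (hcon e he)]

/-- `sp p` commutes with substitutions -/
theorem sp_bind (p : ι → ℂ) {σ : Type} (φ : σ → MvPolynomial (ι ⊕ κ) ℂ)
    (f : MvPolynomial σ ℂ) : bind₁ (fun a => sp p (φ a)) f = sp p (bind₁ φ f) := by
  have h := MvPolynomial.comp_aeval (R := ℂ) φ
    (MvPolynomial.aeval (Sum.elim (fun a => C (p a)) X) :
      MvPolynomial (ι ⊕ κ) ℂ →ₐ[ℂ] MvPolynomial κ ℂ)
  exact (DFunLike.congr_fun h f).symm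

end

end CZC8Aux

open CZC8Aux

theorem stmt_CZC8 (hC : Stmt_COF8) : Stmt_CZC8 := by
  intro ι _ _ f φ w D
  classical
  set G : MvPolynomial (ι ⊕ ι) ℂ := bind₁ φ f with hG
  -- coordinates
  have h0 : ∀ a, ∃ A : MvPolynomial ι ℂ, ∀ p : ι → ℂ,
      eval p A = eval (fun _ => 0) (sp p (φ a)) := by
    intro a
    obtain ⟨A, hA⟩ := hC ι ι (φ a) 0
    refine ⟨A, fun p => ?_⟩
    rw [hA p]
    have h1 : eval (fun _ => (0 : ℂ)) (sp p (φ a)) = constantCoeff (sp p (φ a)) := by
      have h2 : (eval fun _ => (0 : ℂ) : MvPolynomial ι ℂ →+* ℂ) = constantCoeff := by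
        apply MvPolynomial.ringHom_ext
        · intro r
          simp
        · intro i
          simp
      rw [h2]
    rw [h1]
    rfl
  choose A0 hA0 using h0
  have h1 : ∀ a b, ∃ A : MvPolynomial ι ℂ, ∀ p : ι → ℂ,
      eval p A = eval (fun _ => 0) (pderiv b (sp p (φ a))) := by
    intro a b
    obtain ⟨A, hA⟩ := hC ι ι (φ a) (Finsupp.single b 1)
    exact ⟨A, fun p => by rw [hA p, coeff_single]⟩
  choose A1 hA1 using h1
  have hdet : ∀ p : ι → ℂ, eval p (Matrix.of A1).det =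
      (Matrix.of fun a b => eval (fun _ => (0 : ℂ)) (pderiv b (sp p (φ a)))).det := by
    intro p
    rw [RingHom.map_det]
    congr 1
    ext a b
    exact hA1 a b p
  have h2 : ∀ d : ι →₀ ℕ, ∃ A : MvPolynomial ι ℂ, ∀ p : ι → ℂ, eval p A = (sp p G).coeff d :=
    fun d => hC ι ι G d
  choose A2 hA2 using h2
  have key : CZ f φ w D = {p | (∀ a, eval p (A0 a - X a) = 0) ∧ eval p (Matrix.of A1).det ≠ 0 ∧
      ∀ e : G.support, (if D ≤ Finsupp.weight w (rs (e : ι ⊕ ι →₀ ℕ)) then True else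
        eval p (A2 (rs (e : ι ⊕ ι →₀ ℕ))) = 0)} := by
    ext p
    constructor
    · rintro ⟨⟨h3, h4⟩, h5⟩
      refine ⟨fun a => ?_, ?_, fun e => ?_⟩
      · rw [map_sub, eval_X, hA0, h3, sub_self]
      · rw [hdet]
        exact h4
      · by_cases h6 : D ≤ Finsupp.weight w (rs (e : ι ⊕ ι →₀ ℕ))
        · rw [if_pos h6]
          trivial
        · rw [if_neg h6, hA2]
          by_contra h7
          apply h6
          refine h5 _ ?_
          rw [mem_support_iff, sp_bind]
          exact h7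
    · rintro ⟨h3, h4, h5⟩
      refine ⟨⟨fun a => ?_, ?_⟩, fun d hd => ?_⟩
      · have h6 := h3 a
        rw [map_sub, eval_X, hA0] at h6
        exact sub_eq_zero.1 h6
      · rw [← hdet]
        exact h4
      · rw [mem_support_iff, sp_bind] at hd
        obtain ⟨e, he, rfl⟩ := support_sp p G d hd
        have h6 := h5 ⟨e, he⟩
        by_contra h7
        rw [if_neg h7, hA2] at h6
        exact hd h6
  rw [key]
  refine Constructible.and (Constructible.all fun a => Constructible.zero _)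
    (Constructible.and (Constructible.ne _) (Constructible.all fun e => ?_))
  split_ifs with h3
  · exact Constructible.univ
  · exact Constructible.zero _

end Pool.Agent.Mono.SP
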