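import Pool.Agent.Work.Monodromy.Interface8
import Pool.Agent.Work.Monodromy.Spec

/-!
# Block DL8: the topological zeta function is a limit
-/

set_option autoImplicit false

namespace Pool.Agent.Mono.SP

open MvPolynomial TS RO PC

namespace DL8Aux

/-- rational with a denominator of the form `denP l`, positive exponents -/
def EP (Z : PowerSeries K) : Prop :=
  ∃ (l : List (ℕ × ℕ)) (num : Polynomial K),
    (∀ q ∈ l, 1 ≤ q.1 ∧ ((q.2 : ℚ) / (q.1 : ℚ)) ∈ Set.Ioi (0 : ℚ)) ∧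
      (denP l : PowerSeries K) * Z = (num : PowerSeries K)

theorem denP_append (l l' : List (ℕ × ℕ)) : denP (l ++ l') = denP l * denP l' := by
  rw [denP, denP, denP, List.map_append, List.prod_append]

theorem EP.mul {Z Z' : PowerSeries K} (h : EP Z) (h' : EP Z') : EP (Z * Z') := by
  obtain ⟨l, num, h1, h2⟩ := h
  obtain ⟨l', num', h1', h2'⟩ := h'
  refine ⟨l ++ l', num * num', ?_, ?_⟩
  · intro q hq
    rcases List.mem_append.1 hq with hq | hq
    · exact h1 q hq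
    · exact h1' q hq
  · rw [denP_append]
    push_cast
    rw [← h2, ← h2']
    ring

theorem EP.add {Z Z' : PowerSeries K} (h : EP Z) (h' : EP Z') : EP (Z + Z') := by
  obtain ⟨l, num, h1, h2⟩ := h
  obtain ⟨l', num', h1', h2'⟩ := h'
  refine ⟨l ++ l', num * denP l' + num' * denP l, ?_, ?_⟩
  · intro q hq
    rcases List.mem_append.1 hq with hq | hq
    · exact h1 q hq
    · exact h1' q hq
  · rw [denP_append]
    push_cast
    rw [← h2, ← h2']
    ring

theorem EP.C (c : K) : EP (PowerSeries.C c) :=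
  ⟨[], Polynomial.C c, by simp, by simp [denP]⟩

theorem EP.zero : EP 0 := by simpa using EP.C 0

theorem EP.one : EP 1 := by simpa using EP.C 1

/-- the factor in terms of the geometric series -/
theorem dlFac_eq (q : ℕ × ℕ) (h1 : 1 ≤ q.1) : dlFac q =
    PowerSeries.C (xq ^ q.2) * PowerSeries.X ^ q.1 *
      (PowerSeries.C (RatFunc.X - 1) * geo (RatFunc.X : K)⁻¹ q) := by
  ext k
  rw [dlFac, PowerSeries.coeff_mk, mul_assoc, PowerSeries.coeff_C_mul,
    PowerSeries.coeff_X_pow_mul']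
  by_cases hk : q.1 ≤ k
  · rw [if_pos hk, PowerSeries.coeff_C_mul, geo, PowerSeries.coeff_mk]
    have h1' : q.1 ∣ k - q.1 ↔ q.1 ∣ k := by
      constructor
      · intro hd
        have := Dvd.dvd.add hd (dvd_refl q.1)
        rwa [Nat.sub_add_cancel hk] at this
      · intro hd
        exact Nat.dvd_sub hd (dvd_refl q.1)
    by_cases hd : q.1 ∣ k
    · have h2 : k / q.1 = (k - q.1) / q.1 + 1 := by
        conv_lhs => rw [← Nat.sub_add_cancel hk]
        rw [Nat.add_div_right _ (by omega)]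
      rw [if_pos ⟨by omega, hd⟩, if_pos (h1'.2 hd), h2, xq, mul_add, mul_one, pow_add]
      ring
    · rw [if_neg (fun h => hd h.2), if_neg (fun h => hd (h1'.1 h)), mul_zero, mul_zero]
  · rw [if_neg hk, mul_zero, if_neg]
    rintro ⟨hk1, hd⟩
    exact hk (Nat.le_of_dvd hk1 hd)

theorem EP.dlFac {q : ℕ × ℕ} (h1 : 1 ≤ q.1) (h2 : 1 ≤ q.2) : EP (dlFac q) := by
  refine ⟨[q], Polynomial.C (xq ^ q.2) * Polynomial.X ^ q.1 * Polynomial.C (RatFunc.X - 1),
    ?_, ?_⟩
  · intro p hp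
    rw [List.mem_singleton.1 hp]
    refine ⟨h1, ?_⟩
    rw [Set.mem_Ioi]
    have a1 : (0 : ℚ) < q.1 := by exact_mod_cast h1
    have a2 : (0 : ℚ) < q.2 := by exact_mod_cast h2
    exact div_pos a2 a1
  · rw [dlFac_eq q h1]
    have h3 := geo_mul (RatFunc.X : K)⁻¹ q h1
    rw [denP, List.map_singleton, List.prod_singleton]
    push_cast
    have e : (1 - PowerSeries.C (xq ^ q.2) * PowerSeries.X ^ q.1 : PowerSeries K) =
        1 - PowerSeries.C ((RatFunc.X : K)⁻¹ ^ q.2) * PowerSeries.X ^ q.1 := rfl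
    rw [e]
    calc (1 - PowerSeries.C ((RatFunc.X : K)⁻¹ ^ q.2) * PowerSeries.X ^ q.1 : PowerSeries K) *
          (PowerSeries.C (xq ^ q.2) * PowerSeries.X ^ q.1 *
            (PowerSeries.C (RatFunc.X - 1) * geo (RatFunc.X : K)⁻¹ q))
        = PowerSeries.C (xq ^ q.2) * PowerSeries.X ^ q.1 * PowerSeries.C (RatFunc.X - 1) *
          ((1 - PowerSeries.C ((RatFunc.X : K)⁻¹ ^ q.2) * PowerSeries.X ^ q.1) *
            geo (RatFunc.X : K)⁻¹ q) := by ring
      _ = _ := by rw [h3, mul_one]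

theorem lim_dlFac {q : ℕ × ℕ} (h1 : 1 ≤ q.1) (h2 : 1 ≤ q.2) :
    IsLim (dlFac q) ((RatFunc.C (q.1 : ℚ) * RatFunc.X + RatFunc.C (q.2 : ℚ))⁻¹) := by
  have h := ((IsLim.C (LimOne.Xinv.pow q.2)).mul (IsLim.Xpow q.1)).mul (IsLim_geo q h1 h2)
  have e : dlFac q = PowerSeries.C ((RatFunc.X : K)⁻¹ ^ q.2) * PowerSeries.X ^ q.1 *
      (PowerSeries.C (RatFunc.X - 1) * geo (RatFunc.X : K)⁻¹ q) := dlFac_eq q h1
  rw [e]
  convert h using 1
  rw [one_pow, map_one, one_mul, one_mul, map_one, one_div]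
  congr 1
  rw [linQ, map_add, map_mul, RatFunc.algebraMap_C, RatFunc.algebraMap_C, RatFunc.algebraMap_X,
    add_comm]

theorem both_prod (l : List (ℕ × ℕ)) (h : ∀ q ∈ l, 1 ≤ q.1 ∧ 1 ≤ q.2) :
    IsLim (l.map dlFac).prod
      (l.map fun q => (RatFunc.C (q.1 : ℚ) * RatFunc.X + RatFunc.C (q.2 : ℚ))⁻¹).prod ∧
      EP (l.map dlFac).prod := by
  induction l with
  | nil => exact ⟨by simpa using IsLim.one, by simpa using EP.one⟩
  | cons q l ih =>
    obtain ⟨a, b⟩ := ih (fun p hp => h p (List.mem_cons_of_mem _ hp))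
    have hq := h q List.mem_cons_self
    simp only [List.map_cons, List.prod_cons]
    exact ⟨(lim_dlFac hq.1 hq.2).mul a, (EP.dlFac hq.1 hq.2).mul b⟩

theorem both_sum (ts : List (Polynomial ℤ × List (ℕ × ℕ)))
    (h : ∀ t ∈ ts, ∀ q ∈ t.2, 1 ≤ q.1 ∧ 1 ≤ q.2) :
    IsLim ((ts.map fun t => PowerSeries.C (toRat t.1) * (t.2.map dlFac).prod).sum)
      (ts.map fun t => RatFunc.C ((t.1.eval 1 : ℤ) : ℚ) *
        (t.2.map fun q => (RatFunc.C (q.1 : ℚ) * RatFunc.X + RatFunc.C (q.2 : ℚ))⁻¹).prod).sum ∧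
      EP ((ts.map fun t => PowerSeries.C (toRat t.1) * (t.2.map dlFac).prod).sum) := by
  induction ts with
  | nil => exact ⟨by simpa using IsLim.zero, by simpa using EP.zero⟩
  | cons t ts ih =>
    obtain ⟨a, b⟩ := ih (fun p hp => h p (List.mem_cons_of_mem _ hp))
    obtain ⟨a', b'⟩ := both_prod t.2 (h t List.mem_cons_self)
    simp only [List.map_cons, List.sum_cons]
    exact ⟨((IsLim.C (LimOne.toRat t.1)).mul a').add a, ((EP.C _).mul b').add b⟩

end DL8Aux

open DL8Aux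

theorem stmt_DL8 : Stmt_DL8 := by
  rintro Z R ⟨ts, h, rfl, rfl⟩
  obtain ⟨a, b⟩ := both_sum ts h
  refine ⟨a, Set.Ioi 0, subset_rfl, ?_⟩
  obtain ⟨l, num, h1, h2⟩ := b
  refine ⟨l, num, h1, ?_⟩
  rw [← h2]
  congr 1
  ext m
  rw [PowerSeries.coeff_mk]

end Pool.Agent.Mono.SP
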