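import Pool.Agent.Work.Monodromy.Interface8
import Pool.Agent.Work.Monodromy6.WE
import Pool.Agent.Work.Monodromy4.W5
import Pool.Agent.Work.Monodromy5.TM5

/-!
# The smallest poles are roots of the Bernstein-Sato polynomial (strong form of EIG8)
-/

set_option autoImplicit false

namespace Pool.Agent.Mono.SP

open MvPolynomial TS RO PC

open WEAux in
/-- `stmt_WE` with the exact exponent (proof of helper2) -/
theorem wit_of_SQAt {ι : Type} [Fintype ι] [DecidableEq ι] (f : MvPolynomial ι ℂ) (p : ι → ℂ)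
    (r : ℚ) (htd : f.totalDegree ≠ 0) (hcrit : ∀ a, eval p (pderiv a f) = 0)
    (h : SQAt f p r) : 0 < r ∧ Wit (f - C (eval p f)) (-(r : ℂ)) := by
  classical
  obtain ⟨w, D, φ, hφ, hJ, hSQ, hr⟩ := h
  obtain ⟨a0⟩ := nonempty_of_td htd
  have hSQ' := hSQ
  obtain ⟨hw, hD, hsup, hini⟩ := hSQ'
  have hD' : (0 : ℚ) < (D : ℚ) := by exact_mod_cast hD
  have hS : 1 ≤ ∑ a, w a := le_trans (hw a0)
    (Finset.single_le_sum (f := w) (fun _ _ => Nat.zero_le _) (Finset.mem_univ a0))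
  have hS' : (0 : ℚ) < ((∑ a, w a : ℕ) : ℚ) := by exact_mod_cast hS
  have hr0 : 0 < r := by
    rw [hr]
    exact div_pos hS' hD'
  refine ⟨hr0, ?_⟩
  have hbg : bind₁ φ (f - C (eval p f)) = bind₁ φ f - C (eval p f) := by
    rw [map_sub, bind₁_C_right]
  have he0 : eval (fun _ => (0 : ℂ)) (bind₁ φ f - C (eval p f)) = 0 := by
    rw [map_sub, WBAux.eval_bind φ f p hφ, eval_C, sub_self]
  have hg0 : ∀ b, eval (fun _ => (0 : ℂ)) (pderiv b (bind₁ φ f - C (eval p f))) = 0 := by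
    intro b
    rw [map_sub, pderiv_C, sub_zero, WBAux.chain φ f b, map_sum]
    refine Finset.sum_eq_zero fun a _ => ?_
    rw [map_mul, WBAux.eval_bind φ _ p hφ, hcrit a, zero_mul]
  obtain ⟨v, h0, h1, h2, h3⟩ := stmt_WD stmt_K6 ι w D _ (SQ_ini hSQ) (ini_homog w D _)
  have hFW0 := stmt_WC ι w D _ _ _ hw hD (ini_homog w D _) (rest_support hsup) he0 hg0 v h0 h1 h2 h3
  have hFW : FW p (f - C (eval p f)) (-((∑ a, w a : ℕ) : ℂ) / (D : ℂ)) := by
    refine stmt_WB ι p φ _ _ hφ hJ ?_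
    rw [hbg]
    exact hFW0
  have hW := stmt_WA ι p _ _ hFW
  have hβ : -(r : ℂ) = -((∑ a, w a : ℕ) : ℂ) / (D : ℂ) := by
    rw [hr]
    push_cast
    ring
  rw [hβ]
  exact hW

theorem root_of_ExpS {ι : Type} [Fintype ι] [DecidableEq ι] (f : MvPolynomial ι ℂ)
    (htd : f.totalDegree ≠ 0) (r : ℚ) (hr : r ∈ ExpS f) (b : Polynomial ℂ)
    (hb : IsBernstein f b) : b.eval (-(r : ℂ)) = 0 := by
  obtain ⟨i, -, -, p, hp, hSQ⟩ := hr
  obtain ⟨hr0, hw⟩ := wit_of_SQAt f p r htd hp.2 hSQ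
  rw [hp.1, C_0, sub_zero] at hw
  refine stmt_W5 ι f _ ?_ hw b (isEvBernstein_of hb)
  intro n h
  have h1 : -r = (n : ℚ) := by exact_mod_cast h
  have : (0 : ℚ) ≤ (n : ℚ) := Nat.cast_nonneg _
  linarith

end Pool.Agent.Mono.SP
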