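import Pool.Agent.Work.Monodromy.Interface8

/-!
# Block FIN8 (helper2): there are finitely many simple points
-/

set_option autoImplicit false

namespace Pool.Agent.Mono.SP

open MvPolynomial TS RO PC

namespace FIN8Aux

/-- polynomials which vanish at all `p j`, `k ≤ j` -/
def idl {ι : Type} (p : ℕ → ι → ℂ) (k : ℕ) : Ideal (MvPolynomial ι ℂ) where
  carrier := {g | ∀ j, k ≤ j → eval (p j) g = 0}
  add_mem' := by
    intro a b ha hb j hj
    rw [map_add, ha j hj, hb j hj, add_zero]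
  zero_mem' := fun j _ => map_zero _
  smul_mem' := by
    intro c x hx j hj
    rw [smul_eq_mul, map_mul, hx j hj, mul_zero]

theorem mem_idl {ι : Type} (p : ℕ → ι → ℂ) (k : ℕ) (g : MvPolynomial ι ℂ) :
    g ∈ idl p k ↔ ∀ j, k ≤ j → eval (p j) g = 0 := Iff.rfl

end FIN8Aux

open FIN8Aux in
theorem stmt_FIN8 (hI : Stmt_ISO8) : Stmt_FIN8 := by
  classical
  intro ι _ _ f
  by_contra h
  have hinf : Set.Infinite {p | p ∈ Crit0 f ∧ Sim f p} := h
  obtain ⟨e⟩ : Nonempty (ℕ ↪ {p | p ∈ Crit0 f ∧ Sim f p}) := ⟨hinf.natEmbedding _⟩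
  set p : ℕ → ι → ℂ := fun k => (e k : ι → ℂ) with hp
  have hinj : Function.Injective p := fun a b hab => e.injective (Subtype.ext hab)
  have hmem : ∀ k, p k ∈ Crit0 f ∧ Sim f (p k) := fun k => (e k).2
  have hmono : Monotone (idl p) := by
    intro a b hab g hg j hj
    exact hg j (hab.trans hj)
  obtain ⟨n, hn⟩ := (monotone_stabilizes_iff_noetherian (R := MvPolynomial ι ℂ)
    (M := MvPolynomial ι ℂ)).2 inferInstance ⟨idl p, hmono⟩
  obtain ⟨hc, i, -, hS⟩ := hmem n
  obtain ⟨s, hs0, hs⟩ := hI ι f (p n) _ hc.2 hS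
  have h1 : s ∈ idl p (n + 1) := by
    intro j hj
    by_contra h2
    have h3 := hs (p j) (hmem j).1.2 h2
    have h4 := hinj h3
    omega
  have h2 : s ∈ idl p n := by
    have h3 := hn (n + 1) (Nat.le_succ n)
    change idl p n = idl p (n + 1) at h3
    rw [h3]
    exact h1
  exact hs0 (h2 n le_rfl)

end Pool.Agent.Mono.SP
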