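import Pool.Agent.Work.Monodromy.Interface8

/-!
# Block LDF8: leading forms with an isolated critical point
-/

set_option autoImplicit false
set_option linter.unusedSectionVars false

namespace Pool.Agent.Mono.SP

open MvPolynomial TS RO PC

namespace LDF8Aux

variable {ι : Type} [Fintype ι] [DecidableEq ι]

theorem weight_eq (w : ι → ℕ) (d : ι →₀ ℕ) : Finsupp.weight w d = ∑ i, d i * w i := by
  rw [Finsupp.weight_apply, Finsupp.sum_fintype _ _ (fun i => by simp)]
  simp [smul_eq_mul]

theorem weight_split (w : ι → ℕ) (Z : Finset ι) (d : ι →₀ ℕ) :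
    Finsupp.weight w d = ∑ i ∈ Z, d i * w i + ∑ i ∈ Zᶜ, d i * w i := by
  rw [weight_eq, Finset.sum_add_sum_compl]

/-- weights which are constant on `Z` and on its complement -/
theorem weight_two (α β : ℕ) (Z : Finset ι) (d : ι →₀ ℕ) :
    Finsupp.weight (fun i => if i ∈ Z then α else β) d = α * dZ Z d + β * dZ Zᶜ d := by
  rw [weight_split _ Z, dZ, dZ, Finset.mul_sum, Finset.mul_sum]
  congr 1
  · refine Finset.sum_congr rfl fun i hi => ?_
    rw [if_pos hi, mul_comm]
  · refine Finset.sum_congr rfl fun i hi => ?_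
    rw [if_neg (by simpa using hi), mul_comm]

theorem dZ_add (Z : Finset ι) (d e : ι →₀ ℕ) : dZ Z (d + e) = dZ Z d + dZ Z e := by
  simp [dZ, Finset.sum_add_distrib]

theorem dZ_single_mem (Z : Finset ι) {b : ι} (hb : b ∈ Z) (k : ℕ) :
    dZ Z (Finsupp.single b k) = k := by
  rw [dZ, Finset.sum_eq_single b]
  · simp
  · intro c _ hc
    simp [hc.symm]
  · intro h
    exact absurd hb h

theorem dZ_single_notMem (Z : Finset ι) {b : ι} (hb : b ∉ Z) (k : ℕ) :
    dZ Z (Finsupp.single b k) = 0 := by
  rw [dZ]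
  refine Finset.sum_eq_zero fun c hc => ?_
  have : b ≠ c := fun h => hb (h ▸ hc)
  simp [this]

theorem dZ_compl_single_mem (Z : Finset ι) {b : ι} (hb : b ∈ Z) (k : ℕ) :
    dZ Zᶜ (Finsupp.single b k) = 0 := dZ_single_notMem _ (by simpa using hb) k

theorem dZ_compl_single_notMem (Z : Finset ι) {b : ι} (hb : b ∉ Z) (k : ℕ) :
    dZ Zᶜ (Finsupp.single b k) = k := dZ_single_mem _ (by simpa using hb) k

/-- total degree `1` on `Z`, nothing outside -/
theorem eq_single {Z : Finset ι} {d : ι →₀ ℕ} (h1 : dZ Z d = 1) (h0 : dZ Zᶜ d = 0) :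
    ∃ c ∈ Z, d = Finsupp.single c 1 := by
  have : ∃ c ∈ Z, d c ≠ 0 := by
    by_contra h
    push Not at h
    rw [dZ, Finset.sum_eq_zero h] at h1
    exact absurd h1 (by norm_num)
  obtain ⟨c, hc, hd⟩ := this
  refine ⟨c, hc, ?_⟩
  have hs : d c + ∑ b ∈ Z.erase c, d b = 1 := by rw [Finset.add_sum_erase _ _ hc]; exact h1
  have hr : ∑ b ∈ Z.erase c, d b = 0 := by omega
  have hc1 : d c = 1 := by omega
  rw [Finset.sum_eq_zero_iff] at hr
  rw [dZ, Finset.sum_eq_zero_iff] at h0
  ext b
  by_cases hb : b = c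
  · subst hb
    simp [hc1]
  · rw [Finsupp.single_apply, if_neg (fun h => hb h.symm)]
    by_cases hbZ : b ∈ Z
    · exact hr b (Finset.mem_erase.2 ⟨hb, hbZ⟩)
    · exact h0 b (by simpa using hbZ)

theorem eval_zero_eq (G : MvPolynomial ι ℂ) : eval (fun _ => (0 : ℂ)) G = coeff 0 G := by
  rw [← MvPolynomial.constantCoeff_eq, ← MvPolynomial.eval_zero']

theorem hess_entry (F : MvPolynomial ι ℂ) (a b : ι) :
    Hs F (fun _ => 0) a b = coeff (Finsupp.single a 1) (pderiv b F) := by
  rw [Hs, Matrix.of_apply, eval_zero_eq, coeff_pderiv, zero_add]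
  simp

theorem main {Z : Finset ι} {K' : ℕ} {F : MvPolynomial ι ℂ} {w : ι → ℕ} {D : ℕ}
    (hS : Spl Z K' F) (hw : ∀ b, 1 ≤ w b) (hD : 1 ≤ D) (hZ : ∀ b ∈ Z, 2 * w b = D)
    (hF : ∀ d ∈ F.support, D ≤ Finsupp.weight w d ∧ (dZ Z d = 1 → D < Finsupp.weight w d))
    (hx : ∀ x : ι → ℂ, (∀ b ∈ Z, x b = 0) →
      (∀ a, eval x (pderiv a (ini w D F)) = 0) → x = 0) : SQ w D F := by
  obtain ⟨hS1, hdet⟩ := hS
  -- weights
  have hwt : ∀ d : ι →₀ ℕ, 2 * Finsupp.weight w d = D * dZ Z d + 2 * ∑ i ∈ Zᶜ, d i * w i := by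
    intro d
    have hs : 2 * ∑ i ∈ Z, d i * w i = D * dZ Z d := by
      rw [dZ, Finset.mul_sum, Finset.mul_sum]
      refine Finset.sum_congr rfl fun i hi => ?_
      rw [← hZ i hi]
      ring
    rw [weight_split w Z, mul_add, hs]
  -- monomials of the leading form
  have hmon : ∀ d : ι →₀ ℕ, coeff d (ini w D F) ≠ 0 →
      dZ Z d = 0 ∨ (dZ Z d = 2 ∧ dZ Zᶜ d = 0) := by
    intro d hd
    rw [ini, coeff_weightedHomogeneousComponent] at hd
    split_ifs at hd with hwd
    · have hs : d ∈ F.support := mem_support_iff.2 hd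
      obtain ⟨-, h1⟩ := hF d hs
      have h2 := hwt d
      rw [hwd] at h1 h2
      have h1' : dZ Z d ≠ 1 := fun h => absurd (h1 h) (lt_irrefl _)
      have hle : dZ Z d ≤ 2 := by
        by_contra hlt
        push Not at hlt
        have : D * 3 ≤ D * dZ Z d := Nat.mul_le_mul_left _ hlt
        omega
      rcases Nat.lt_or_ge (dZ Z d) 2 with h | h
      · left; omega
      · right
        have h22 : dZ Z d = 2 := le_antisymm hle h
        refine ⟨h22, ?_⟩
        rw [h22] at h2
        have h0 : ∑ i ∈ Zᶜ, d i * w i = 0 := by omega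
        rw [Finset.sum_eq_zero_iff] at h0
        rw [dZ, Finset.sum_eq_zero_iff]
        intro i hi
        have := h0 i hi
        have hwi := hw i
        rcases Nat.mul_eq_zero.1 this with h | h
        · exact h
        · omega
    · exact absurd rfl hd
  -- quadratic monomials
  have hquad : ∀ b ∈ Z, ∀ c ∈ Z, coeff (Finsupp.single c 1) (pderiv b (ini w D F)) =
      Hs F (fun _ => 0) c b := by
    intro b hb c hc
    rw [hess_entry, coeff_pderiv, coeff_pderiv, ini, coeff_weightedHomogeneousComponent, if_pos]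
    rw [map_add, Finsupp.weight_single, Finsupp.weight_single]
    have h1 := hZ b hb
    have h2 := hZ c hc
    simp only [one_smul]
    omega
  have hpd : ∀ b ∈ Z, pderiv b (ini w D F) = ∑ c : Z, C (Hs F (fun _ => 0) c b) * X (c : ι) := by
    intro b hb
    ext e
    rw [coeff_sum]
    simp only [coeff_C_mul, coeff_X]
    by_cases he : ∃ c ∈ Z, e = Finsupp.single c 1
    · obtain ⟨c, hc, rfl⟩ := he
      rw [hquad b hb c hc, Finset.sum_eq_single ⟨c, hc⟩]
      · simp
      · intro c' _ hc'
        rw [if_neg, mul_zero]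
        intro h
        apply hc'
        ext
        exact (Finsupp.single_left_inj one_ne_zero).1 h
      · intro h
        exact absurd (Finset.mem_univ _) h
    · rw [Finset.sum_eq_zero]
      · rw [coeff_pderiv]
        by_cases h0 : coeff (e + Finsupp.single b 1) (ini w D F) = 0
        · rw [h0, zero_mul]
        · exfalso
          rcases hmon _ h0 with h | ⟨h, h'⟩
          · rw [dZ_add, dZ_single_mem _ hb] at h
            omega
          · rw [dZ_add, dZ_single_mem _ hb] at h
            rw [dZ_add, dZ_compl_single_mem _ hb] at h'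
            exact he (eq_single (by omega) (by omega))
      · rintro ⟨c, hc⟩ _
        rw [if_neg, mul_zero]
        intro h
        exact he ⟨c, hc, h.symm⟩
  refine ⟨hw, hD, fun d hd => (hF d hd).1, fun x => ⟨fun h => ?_, ?_⟩⟩
  · -- critical points of the leading form
    refine hx x ?_ h
    have hmul : Matrix.vecMul (fun c : Z => x c) (HZ F Z fun _ => 0) = 0 := by
      ext b
      have hb := h b
      rw [hpd b b.2, map_sum] at hb
      simp only [map_mul, eval_C, eval_X] at hb
      rw [Matrix.vecMul, dotProduct, Pi.zero_apply]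
      refine Eq.trans ?_ hb
      refine Finset.sum_congr rfl fun c _ => ?_
      rw [HZ, Matrix.submatrix_apply, mul_comm]
    have := Matrix.eq_zero_of_vecMul_eq_zero hdet hmul
    intro b hb
    exact congrFun this ⟨b, hb⟩
  · rintro rfl a
    have : eval (0 : ι → ℂ) (pderiv a (ini w D F)) = coeff 0 (pderiv a (ini w D F)) :=
      eval_zero_eq _
    rw [this, coeff_pderiv, zero_add]
    by_cases h0 : coeff (Finsupp.single a 1) (ini w D F) = 0
    · rw [h0, zero_mul]
    · exfalso
      by_cases ha : a ∈ Z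
      · rcases hmon _ h0 with h | ⟨h, -⟩
        · rw [dZ_single_mem _ ha] at h
          omega
        · rw [dZ_single_mem _ ha] at h
          omega
      · rw [ini, coeff_weightedHomogeneousComponent] at h0
        split_ifs at h0 with hwd
        · have := (hS1 _ (mem_support_iff.2 h0)).1 (dZ_single_notMem _ ha 1)
          rw [dZ_compl_single_notMem _ ha] at this
          omega
        · exact absurd rfl h0

end LDF8Aux

theorem stmt_LDF8 : Stmt_LDF8 := by
  intro ι _ _ Z K' F w D hS hw hD hZ hF hx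
  exact LDF8Aux.main hS hw hD hZ hF hx

end Pool.Agent.Mono.SP
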