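import Pool.Agent.Work.Monodromy.Interface8
import Pool.Agent.Work.Monodromy6.VREP
import Pool.Agent.Work.Monodromy6.PL

/-!
# Block REP8 (helper61): reparametrisation to `y_a = c t^k`
-/

set_option autoImplicit false
set_option linter.unusedSectionVars false

namespace Pool.Agent.Mono.SP

open MvPolynomial TS RO PC TS.VAAux TS.VPAux TS.VSAux RO.WS5Aux RO.UA RO.VGAux

namespace REP8Aux

open VREPAux

variable {E ι : Type}

theorem evF_sp (F : MvPolynomial (E ⊕ ι) ℂ) (p : E → ℂ) (y : ι → PowerSeries ℂ) :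
    evF F p y = aeval y (aeval (Sum.elim (fun e => C (p e)) X) F : MvPolynomial ι ℂ) := by
  unfold evF
  rw [← AlgHom.comp_apply]
  congr 1
  apply MvPolynomial.algHom_ext
  intro j
  rcases j with j | j
  · rw [AlgHom.comp_apply, aeval_X, aeval_X, Sum.elim_inl, Sum.elim_inl]
    exact (MvPolynomial.aeval_C y (p j)).symm
  · rw [AlgHom.comp_apply, aeval_X, aeval_X, Sum.elim_inr, Sum.elim_inr, aeval_X]

/-- the invariant set -/
def DR8 (F : MvPolynomial (E ⊕ ι) ℂ) (Q : Set (E ⊕ Unit → ℂ)) (L : ι → ℕ) (m : ℕ) :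
    Set ((E → ℂ) × (ι → PowerSeries ℂ)) :=
  {z | (∀ b, ∀ j < L b, PowerSeries.coeff j (z.2 b) = 0) ∧ Lead Q m z.1 (evF F z.1 z.2)}

theorem DR8_inv [Fintype ι] (F : MvPolynomial (E ⊕ ι) ℂ) (Q : Set (E ⊕ Unit → ℂ)) (L : ι → ℕ)
    (m : ℕ) (r : ℕ) (hr : 1 ≤ r) (t : ℂ) (p : E → ℂ) (x : ι → PowerSeries ℂ) :
    (p, UA.act r t x) ∈ DR8 F Q L m ↔ (p, x) ∈ DR8 F Q L m := by
  change ((∀ b, ∀ j < L b, PowerSeries.coeff j (sb r t (x b)) = 0) ∧
    Lead Q m p (evF F p (UA.act r t x))) ↔ ((∀ b, ∀ j < L b, PowerSeries.coeff j (x b) = 0) ∧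
      Lead Q m p (evF F p x))
  rw [evF_sp, evF_sp, UA.f_act, lead_iff Q m p r hr t]
  refine and_congr (forall_congr' fun b => van_iff r hr t (L b) (x b)) Iff.rfl

theorem RF_evF (F : MvPolynomial (E ⊕ ι) ℂ) (j : ℕ) :
    RF fun z : (E → ℂ) × (ι → PowerSeries ℂ) => PowerSeries.coeff j (evF F z.1 z.2) := by
  have h := PL.RF.aeval (E := E) (ι := ι) (u := fun i z => Sum.elim
    (fun e => PowerSeries.C (z.1 e)) z.2 i) ?_ F j
  · exact h
  · rintro (e | b) l
    · simp only [Sum.elim_inl, PowerSeries.coeff_C]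
      exact RF.ite _ (RF.par e) (RF.const 0)
    · exact RF.arc b l

theorem Cy_all [Fintype ι] {S : ι → (E → ℂ) × (ι → PowerSeries ℂ) → Prop}
    (h : ∀ b, Cy {z | S b z}) : Cy {z : (E → ℂ) × (ι → PowerSeries ℂ) | ∀ b, S b z} := by
  classical
  have h1 : ∀ s : Finset ι, Cy {z : (E → ℂ) × (ι → PowerSeries ℂ) | ∀ b ∈ s, S b z} := by
    intro s
    induction s using Finset.induction_on with
    | empty =>
      have e : {z : (E → ℂ) × (ι → PowerSeries ℂ) | ∀ b ∈ (∅ : Finset ι), S b z} = Set.univ := by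
        ext z
        simp
      rw [e]
      exact Cy.univ
    | insert b s hb ih =>
      have e : {z : (E → ℂ) × (ι → PowerSeries ℂ) | ∀ c ∈ insert b s, S c z} =
          {z | S b z ∧ ∀ c ∈ s, S c z} := by
        ext z
        simp only [Set.mem_ofPred_eq, Finset.forall_mem_insert]
      rw [e]
      exact Cy.and (h b) ih
  have h2 := h1 Finset.univ
  simpa using h2

theorem Cy_DR8 [Finite E] [Fintype ι] (F : MvPolynomial (E ⊕ ι) ℂ) {Q : Set (E ⊕ Unit → ℂ)}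
    (hQ : Constructible Q) (L : ι → ℕ) (m : ℕ) : Cy (DR8 F Q L m) := by
  refine Cy.and (Cy_all fun b => Cy.all_lt (L b) fun j _ => Cy.zero (RF.arc b j))
    (Cy.and (Cy.all_lt m fun j _ => Cy.zero (RF_evF F j)) (Cy.mem hQ fun s => ?_))
  rcases s with s | s
  · exact RF.par s
  · exact RF_evF F m

section

variable [DecidableEq ι] (a : ι)

/-- the second set -/
def NS8 (F : MvPolynomial (E ⊕ ι) ℂ) (Q : Set (E ⊕ Unit → ℂ)) (L : ι → ℕ) (k m : ℕ) :
    Set ((E ⊕ Unit → ℂ) × ({b : ι // b ≠ a} → PowerSeries ℂ)) :=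
  {z | z.1 (Sum.inr ()) ≠ 0 ∧
    (∀ b : {b : ι // b ≠ a}, ∀ j < L b, PowerSeries.coeff j (z.2 b) = 0) ∧
    Lead Q m (fun e => z.1 (Sum.inl e))
      (evF F (fun e => z.1 (Sum.inl e)) (ext1 a (z.1 (Sum.inr ())) k z.2))}

/-- `((p, c), w) ↦ (p, (c t^k, w))` -/
noncomputable def tN8 (k : ℕ) (z : (E ⊕ Unit → ℂ) × ({b : ι // b ≠ a} → PowerSeries ℂ)) :
    (E → ℂ) × (ι → PowerSeries ℂ) :=
  (fun e => z.1 (Sum.inl e), ext1 a (z.1 (Sum.inr ())) k z.2)

/-- the polynomials for `tN8` -/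
noncomputable def pN8 (E : Type) (k N : ℕ) : E ⊕ (Σ _ : ι, Fin N) →
    MvPolynomial ((E ⊕ Unit) ⊕ (Σ _ : {b : ι // b ≠ a}, Fin N)) ℂ :=
  Sum.elim (fun e => X (Sum.inl (Sum.inl e))) fun s => if h : s.1 = a then
    (if (s.2 : ℕ) = k then X (Sum.inl (Sum.inr ())) else 0) else X (Sum.inr ⟨⟨s.1, h⟩, s.2⟩)

theorem ext1_a (c : ℂ) (k : ℕ) (y : {b : ι // b ≠ a} → PowerSeries ℂ) :
    ext1 a c k y a = PowerSeries.C c * PowerSeries.X ^ k := by
  unfold ext1
  rw [dif_pos rfl]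

theorem ext1_b (c : ℂ) (k : ℕ) (y : {b : ι // b ≠ a} → PowerSeries ℂ) (b : ι) (h : b ≠ a) :
    ext1 a c k y b = y ⟨b, h⟩ := by
  unfold ext1
  rw [dif_neg h]

theorem trd_tN8 [Fintype ι] (k N : ℕ)
    (z : (E ⊕ Unit → ℂ) × ({b : ι // b ≠ a} → PowerSeries ℂ)) :
    CV.trd (fun _ => N) (tN8 a k z).1 (tN8 a k z).2 =
      fun j => eval (CV.trd (fun _ => N) z.1 z.2) (pN8 a E k N j) := by
  funext j
  rcases j with e | ⟨i, j⟩
  · simp only [pN8, Sum.elim_inl, eval_X]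
    rfl
  · by_cases hi : i = a
    · subst hi
      simp only [pN8, Sum.elim_inr, dif_pos]
      change PowerSeries.coeff (j : ℕ) (ext1 i (z.1 (Sum.inr ())) k z.2 i) = _
      rw [ext1_a, coeff_CX]
      split_ifs
      · rw [eval_X]
        rfl
      · rw [map_zero]
    · simp only [pN8, Sum.elim_inr, dif_neg hi, eval_X]
      change PowerSeries.coeff (j : ℕ) (ext1 a (z.1 (Sum.inr ())) k z.2 i) = _
      rw [ext1_b a _ _ _ i hi]
      rfl

theorem tN8_mem (F : MvPolynomial (E ⊕ ι) ℂ) (Q : Set (E ⊕ Unit → ℂ)) (L : ι → ℕ) (k m : ℕ)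
    (hL : L a ≤ k) (z : (E ⊕ Unit → ℂ) × ({b : ι // b ≠ a} → PowerSeries ℂ)) :
    z ∈ NS8 a F Q L k m ↔ z.1 (Sum.inr ()) ≠ 0 ∧ tN8 a k z ∈ DR8 F Q L m := by
  refine and_congr Iff.rfl (and_congr ?_ Iff.rfl)
  constructor
  · intro h b j hj
    by_cases hb : b = a
    · subst hb
      change PowerSeries.coeff j (ext1 b (z.1 (Sum.inr ())) k z.2 b) = 0
      rw [ext1_a, coeff_CX, if_neg (by omega)]
    · change PowerSeries.coeff j (ext1 a (z.1 (Sum.inr ())) k z.2 b) = 0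
      rw [ext1_b a _ _ _ b hb]
      exact h ⟨b, hb⟩ j hj
  · intro h b j hj
    have h1 := h b j hj
    change PowerSeries.coeff j (ext1 a (z.1 (Sum.inr ())) k z.2 b) = 0 at h1
    rw [ext1_b a _ _ _ b.1 b.2] at h1
    exact h1

theorem Cy_NS8 [Finite E] [Fintype ι] (F : MvPolynomial (E ⊕ ι) ℂ) {Q : Set (E ⊕ Unit → ℂ)}
    (L : ι → ℕ) (k m N : ℕ) (hL : L a ≤ k) (hD : IsCyl (fun _ => N) (DR8 F Q L m)) :
    IsCyl (fun _ => N) (NS8 a F Q L k m) := by
  have hmem := tN8_mem a F Q L k m hL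
  constructor
  · intro p x y h
    rw [hmem, hmem]
    refine and_congr Iff.rfl (CV.mem_trd hD ?_)
    rw [trd_tN8, trd_tN8]
    have : CV.trd (fun _ => N) p x = CV.trd (fun _ => N) p y := by
      funext j
      rcases j with e | s
      · rfl
      · exact h s.1 s.2 s.2.2
    rw [this]
  · have h1 : sec (fun _ => N) (NS8 a F Q L k m) =
        {v | eval v (X (Sum.inl (Sum.inr ())) :
          MvPolynomial ((E ⊕ Unit) ⊕ (Σ _ : {b : ι // b ≠ a}, Fin N)) ℂ)
          ≠ 0 ∧ (fun j => eval v (pN8 a E k N j)) ∈ sec (fun _ => N) (DR8 F Q L m)} := by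
      ext v
      change _ ∈ NS8 a F Q L k m ↔ _
      rw [hmem]
      have h2 := trd_tN8 a k N ((fun p => v (Sum.inl p)), toArc (fun _ => N) fun s => v (Sum.inr s))
      rw [CV.trd_toArc] at h2
      simp only [Set.mem_ofPred_eq, eval_X, ← h2]
      rw [mem_sec_trd hD]
    rw [h1]
    exact Constructible.and (Constructible.ne _) (Constructible.preimage _ hD.2)

end

end REP8Aux

open REP8Aux VREPAux

theorem stmt_REP8 : Stmt_REP8 := by
  intro P E ι _ _ _ F Q hQ a L k m hk hLa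
  have hD := Cy_DR8 F hQ.1 L m
  have hD' := hD
  obtain ⟨N0, hN0⟩ := hD'
  set N := k + 1 + N0 with hN
  have hDN := hN0 N (by omega)
  -- the set with `e = N0` further coefficients zero
  have hs := steps (f := (X a : MvPolynomial ι ℂ)) P (QX_ok (E := E)) hk N0 (fun _ => 0) hD
    (DR8_inv F Q L m)
  have e0 : PD (X a : MvPolynomial ι ℂ) (QX E) k 0 (fun _ => 0) ∩ DR8 F Q L m =
      {z : (E → ℂ) × (ι → PowerSeries ℂ) |
        (∀ b, ∀ j < L b, PowerSeries.coeff j (z.2 b) = 0) ∧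
        (∀ j < k, PowerSeries.coeff j (z.2 a) = 0) ∧ PowerSeries.coeff k (z.2 a) ≠ 0 ∧
        Lead Q m z.1 (evF F z.1 z.2)} := by
    ext z
    simp only [PD, SD, Set.mem_inter_iff, Set.mem_ofPred_eq, aeval_X, QX, DR8, dat, ldc, cut,
      Sum.elim_inr, if_true, Bool.false_eq_true, if_false]
    constructor
    · rintro ⟨⟨⟨h1, h2, h3⟩, -⟩, h4, h5⟩
      refine ⟨h4, fun j hj => ?_, h3, h5⟩
      rcases Nat.eq_zero_or_pos j with h6 | h6
      · rw [h6]
        exact h2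
      · exact h1 j h6 hj
    · rintro ⟨h4, h1, h3, h5⟩
      exact ⟨⟨⟨fun l _ hl => h1 l hl, h1 0 (by omega), h3⟩, fun l hl => absurd hl
        (Nat.not_lt_zero l)⟩, h4, h5⟩
  rw [e0] at hs
  set S := PD (X a : MvPolynomial ι ℂ) (QX E) k N0 (fun _ => 0) ∩ DR8 F Q L m with hS
  have hcS : IsCyl (fun _ => N) S :=
    (cyl_PD (X a : MvPolynomial ι ℂ) (QX_ok (E := E)).1 k N0 (fun _ => 0) N (by omega)).inter hDN
  have hcN := Cy_NS8 a F L k m N hLa hDN
  have hmemS : ∀ z : (E → ℂ) × (ι → PowerSeries ℂ), z ∈ S ↔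
      (∀ j < N, j ≠ k → PowerSeries.coeff j (z.2 a) = 0) ∧ PowerSeries.coeff k (z.2 a) ≠ 0 ∧
        z ∈ DR8 F Q L m := by
    intro z
    simp only [hS, PD, SD, Set.mem_inter_iff, Set.mem_ofPred_eq, aeval_X, QX, dat, ldc, cut,
      Sum.elim_inr, if_true, Bool.false_eq_true, if_false, map_zero]
    constructor
    · rintro ⟨⟨⟨h1, h2, h3⟩, h6⟩, h4⟩
      refine ⟨fun j hj hjk => ?_, h3, h4⟩
      rcases Nat.eq_zero_or_pos j with h7 | h7
      · rw [h7]
        exact h2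
      · rcases Nat.lt_or_ge j k with h8 | h8
        · exact h1 j h7 h8
        · have h9 := h6 (j - (k + 1)) (by omega)
          rw [show k + 1 + (j - (k + 1)) = j by omega] at h9
          exact h9
    · rintro ⟨h1, h3, h4⟩
      exact ⟨⟨⟨fun l _ hl => h1 l (by omega) (by omega), h1 0 (by omega) (by omega), h3⟩,
        fun l hl => h1 (k + 1 + l) (by omega) (by omega)⟩, h4⟩
  have key := CV.vol_cvp P hcS hcN (tN8 a k) (pN8 a E k N) (fun z _ => trd_tN8 a k N z) ?_ ?_ ?_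
  · have hcard : Fintype.card ι = Fintype.card {b : ι // b ≠ a} + 1 := by
      rw [← Fintype.card_congr (Equiv.optionSubtypeNe a), Fintype.card_option]
    simp only [Finset.sum_const, Finset.card_univ, smul_eq_mul] at key
    have hx : xq ≠ 0 := by
      rw [xq]
      exact inv_ne_zero RatFunc.X_ne_zero
    rw [hs] at key
    change _ = xq ^ (k + 1) * vol P.rat xq (NS8 a F Q L k m)
    set M := Fintype.card {b : ι // b ≠ a} with hM
    have h1 : xq ^ N0 * xq ^ (M * N) ≠ 0 := mul_ne_zero (pow_ne_zero _ hx) (pow_ne_zero _ hx)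
    refine mul_left_cancel₀ h1 ?_
    have h2 : xq ^ (Fintype.card ι * N) = xq ^ N0 * xq ^ (M * N) * xq ^ (k + 1) := by
      rw [← pow_add, ← pow_add, hcard]
      congr 1
      rw [add_mul, one_mul]
      omega
    rw [h2] at key
    linear_combination key
  · intro z hz
    rw [hmemS]
    have hz' := (tN8_mem a F Q L k m hLa z).1 hz
    refine ⟨fun j _ hjk => ?_, ?_, hz'.2⟩
    · change PowerSeries.coeff j (ext1 a (z.1 (Sum.inr ())) k z.2 a) = 0
      rw [ext1_a, coeff_CX, if_neg hjk]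
    · change PowerSeries.coeff k (ext1 a (z.1 (Sum.inr ())) k z.2 a) ≠ 0
      rw [ext1_a, coeff_CX, if_pos rfl]
      exact hz.1
  · intro z hz z' hz' h
    funext j
    rcases j with (e | ⟨⟩) | ⟨⟨b, hb⟩, j⟩
    · exact congrFun h (Sum.inl e)
    · have h1 := congrFun h (Sum.inr ⟨a, ⟨k, by omega⟩⟩)
      change PowerSeries.coeff k (ext1 a (z.1 (Sum.inr ())) k z.2 a) =
        PowerSeries.coeff k (ext1 a (z'.1 (Sum.inr ())) k z'.2 a) at h1
      rw [ext1_a, ext1_a, coeff_CX, coeff_CX, if_pos rfl, if_pos rfl] at h1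
      exact h1
    · have h1 := congrFun h (Sum.inr ⟨b, j⟩)
      change PowerSeries.coeff (j : ℕ) (ext1 a (z.1 (Sum.inr ())) k z.2 b) =
        PowerSeries.coeff (j : ℕ) (ext1 a (z'.1 (Sum.inr ())) k z'.2 b) at h1
      rw [ext1_b a _ _ _ b hb, ext1_b a _ _ _ b hb] at h1
      exact h1
  · intro y hy
    obtain ⟨h1, h2, h3⟩ := (hmemS y).1 hy
    set z : (E ⊕ Unit → ℂ) × ({b : ι // b ≠ a} → PowerSeries ℂ) :=
      (Sum.elim y.1 (fun _ => PowerSeries.coeff k (y.2 a)), fun b => y.2 b) with hz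
    have e1 : CV.trd (fun _ => N) (tN8 a k z).1 (tN8 a k z).2 =
        CV.trd (fun _ => N) y.1 y.2 := by
      funext j
      rcases j with e | ⟨i, j⟩
      · rfl
      · change PowerSeries.coeff (j : ℕ) (ext1 a (z.1 (Sum.inr ())) k z.2 i) =
          PowerSeries.coeff (j : ℕ) (y.2 i)
        by_cases hi : i = a
        · subst hi
          rw [ext1_a, coeff_CX]
          split_ifs with hj
          · rw [hj]
            rfl
          · exact (h1 j j.2 hj).symm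
        · rw [ext1_b a _ _ _ i hi]
    refine ⟨z, ?_, e1⟩
    rw [tN8_mem a F Q L k m hLa]
    exact ⟨h2, (CV.mem_trd hDN e1).2 h3⟩

end Pool.Agent.Mono.SP
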