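import Pool.Agent.Work.Monodromy.Interface8

/-!
# Monodromy, phase 8: block RNK8 (helper45)

A symmetric matrix over a field has an invertible principal submatrix of the size of its rank.
-/

set_option autoImplicit false

namespace Pool.Agent.Mono.SP
namespace RNK8Aux

open MvPolynomial

theorem pderiv_comm' {ι : Type} (g : MvPolynomial ι ℂ) (i j : ι) :
    pderiv i (pderiv j g) = pderiv j (pderiv i g) := by
  classical
  have h : ⁅(pderiv i : Derivation ℂ (MvPolynomial ι ℂ) (MvPolynomial ι ℂ)),
      (pderiv j : Derivation ℂ (MvPolynomial ι ℂ) (MvPolynomial ι ℂ))⁆ = 0 := by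
    apply MvPolynomial.derivation_ext
    intro l
    rw [Derivation.commutator_apply]
    simp [pderiv_X, Pi.single_apply]
    split_ifs <;> simp
  have h1 := DFunLike.congr_fun h g
  rw [Derivation.commutator_apply, Derivation.zero_apply, sub_eq_zero] at h1
  exact h1

/-- symmetric matrices -/
theorem sym_rank {ι : Type} [Fintype ι] [DecidableEq ι] (H : Matrix ι ι ℂ)
    (hs : ∀ i j, H i j = H j i) :
    ∃ Z : Finset ι, (H.submatrix (fun a : Z => (a : ι)) fun a : Z => (a : ι)).det ≠ 0 ∧
      H.rank = Z.card := by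
  classical
  obtain ⟨κ, a, ainj, hspan, hli⟩ := exists_linearIndependent' ℂ (fun i => H i)
  haveI : Finite κ := Finite.of_injective a ainj
  haveI := Fintype.ofFinite κ
  have hmem : ∀ k : κ, a k ∈ Finset.univ.image a :=
    fun k => Finset.mem_image_of_mem a (Finset.mem_univ k)
  have hrank : H.rank = (Finset.univ.image a).card := by
    rw [Matrix.rank_eq_finrank_span_row, Finset.card_image_of_injective _ ainj, Finset.card_univ,
      ← finrank_span_eq_card hli, hspan]
    rfl
  refine ⟨Finset.univ.image a, ?_, hrank⟩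
  let e : κ ≃ (Finset.univ.image a : Finset ι) :=
    Equiv.ofBijective (fun k => ⟨a k, hmem k⟩)
      ⟨fun k l h => ainj (congrArg (fun x : (Finset.univ.image a : Finset ι) => (x : ι)) h), by
        rintro ⟨x, hx⟩
        obtain ⟨k, -, rfl⟩ := Finset.mem_image.1 hx
        exact ⟨k, rfl⟩⟩
  rw [← Matrix.det_submatrix_equiv_self e]
  have hM : ((H.submatrix (fun a : (Finset.univ.image a : Finset ι) => (a : ι))
      fun a : (Finset.univ.image a : Finset ι) => (a : ι)).submatrix e e) =
      H.submatrix a a := by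
    ext i j; rfl
  rw [hM]
  intro hdet
  obtain ⟨c, hc0, hc⟩ := Matrix.exists_mulVec_eq_zero_iff.2 hdet
  apply hc0
  -- the functional
  let L : (ι → ℂ) →ₗ[ℂ] ℂ := ∑ l, c l • LinearMap.proj (a l)
  have hL : ∀ x : ι → ℂ, L x = ∑ l, c l * x (a l) := by
    intro x; simp [L, LinearMap.sum_apply]
  have h1 : ∀ i, L (H i) = 0 := by
    intro i
    have hi : H i ∈ Submodule.span ℂ (Set.range (fun i => H i)) :=
      Submodule.subset_span ⟨i, rfl⟩
    rw [← hspan] at hi
    have hle : Submodule.span ℂ (Set.range ((fun i => H i) ∘ a)) ≤ LinearMap.ker L := by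
      rw [Submodule.span_le]
      rintro _ ⟨k, rfl⟩
      change L (H (a k)) = 0
      rw [hL]
      have := congrFun hc k
      simp only [Matrix.mulVec, dotProduct, Matrix.submatrix_apply, Pi.zero_apply] at this
      rw [← this]
      exact Finset.sum_congr rfl fun l _ => mul_comm _ _
    exact hle hi
  have h2 : ∑ l, c l • H (a l) = 0 := by
    funext i
    rw [Finset.sum_apply]
    simp only [Pi.smul_apply, smul_eq_mul, Pi.zero_apply]
    rw [← h1 i, hL]
    exact Finset.sum_congr rfl fun l _ => by rw [hs]
  have h3 := Fintype.linearIndependent_iff.1 hli c h2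
  funext k
  exact h3 k

end RNK8Aux

theorem stmt_RNK8 : Stmt_RNK8 := by
  intro ι _ _ f p
  exact RNK8Aux.sym_rank (Hs f p) fun i j => by
    simp only [Hs, Matrix.of_apply]
    rw [RNK8Aux.pderiv_comm']

end Pool.Agent.Mono.SP
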