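import Pool.Agent.Work.Monodromy.Interface8
import Pool.Agent.Work.Monodromy6.CVSQ

/-!
# Block SCL8 (helper73): `y_b = t^{L_b} y'_b`
-/

set_option autoImplicit false
set_option linter.unusedSectionVars false

namespace Pool.Agent.Mono.SP

open MvPolynomial TS RO PC TS.VAAux TS.VPAux TS.VSAux VGAux

namespace SCL8Aux

section

variable {E ι : Type}

/-- `y_b = t^{L_b} y'_b` -/
noncomputable def tau (L : ι → ℕ) (z : (E → ℂ) × (ι → PowerSeries ℂ)) :
    (E → ℂ) × (ι → PowerSeries ℂ) :=
  (z.1, fun b => PowerSeries.X ^ L b * z.2 b)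

/-- the same map on jets -/
noncomputable def phi (E : Type) (L : ι → ℕ) (n : ℕ) :
    E ⊕ (Σ b : ι, Fin (L b + n)) → MvPolynomial (E ⊕ (Σ _ : ι, Fin n)) ℂ :=
  Sum.elim (fun e => X (Sum.inl e)) fun s =>
    if h : (s.2 : ℕ) < L s.1 then 0 else X (Sum.inr ⟨s.1, ⟨s.2 - L s.1, by omega⟩⟩)

theorem trd_tau (L : ι → ℕ) (n : ℕ) (z : (E → ℂ) × (ι → PowerSeries ℂ)) :
    CV.trd (fun b => L b + n) (tau L z).1 (tau L z).2 =
      fun a => eval (CV.trd (fun _ => n) z.1 z.2) (phi E L n a) := by
  funext a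
  rcases a with a | ⟨i, l⟩
  · simp only [phi, Sum.elim_inl, eval_X]
    rfl
  · change PowerSeries.coeff (l : ℕ) (PowerSeries.X ^ L i * z.2 i) = _
    rw [PowerSeries.coeff_X_pow_mul']
    by_cases h : (l : ℕ) < L i
    · rw [if_neg (by omega)]
      simp only [phi, Sum.elim_inr, dif_pos h, map_zero]
    · rw [if_pos (by omega)]
      simp only [phi, Sum.elim_inr, dif_neg h, eval_X]
      rfl

theorem isCyl_tau {n : ℕ} (L : ι → ℕ) {C : Set ((E → ℂ) × (ι → PowerSeries ℂ))}
    (hC : IsCyl (fun b => L b + n) C) :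
    IsCyl (fun _ => n) {z : (E → ℂ) × (ι → PowerSeries ℂ) | tau L z ∈ C} := by
  constructor
  · intro p x y h
    refine hC.1 _ _ _ ?_
    intro i l hl
    change PowerSeries.coeff l (PowerSeries.X ^ L i * x i) =
      PowerSeries.coeff l (PowerSeries.X ^ L i * y i)
    rw [PowerSeries.coeff_X_pow_mul', PowerSeries.coeff_X_pow_mul']
    have hl' : l < L i + n := hl
    split_ifs with h2
    · exact h i (l - L i) (show l - L i < n by omega)
    · rfl
  · have h1 : sec (fun _ => n) {z : (E → ℂ) × (ι → PowerSeries ℂ) | tau L z ∈ C} =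
        {v | (fun a => eval v (phi E L n a)) ∈ sec (fun b => L b + n) C} := by
      ext v
      change tau L ((fun p => v (Sum.inl p)), toArc (fun _ => n) fun s => v (Sum.inr s)) ∈ C ↔ _
      rw [← PC.VREPAux.mem_sec_trd hC]
      have h2 := trd_tau L n
        ((fun p => v (Sum.inl p)), toArc (fun _ : ι => n) fun s => v (Sum.inr s))
      rw [CV.trd_toArc] at h2
      change CV.trd (fun b => L b + n) (tau L ((fun p => v (Sum.inl p)),
        toArc (fun _ : ι => n) fun s => v (Sum.inr s))).1 _ ∈ _ ↔ _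
      rw [h2]
      exact Iff.rfl
    rw [h1]
    exact Constructible.preimage _ hC.2

theorem isCyl_ord [Fintype ι] {n : ℕ} (L : ι → ℕ) {C : Set ((E → ℂ) × (ι → PowerSeries ℂ))}
    (hC : IsCyl (fun b => L b + n) C) :
    IsCyl (fun b => L b + n) {z : (E → ℂ) × (ι → PowerSeries ℂ) |
      (∀ b, ∀ j < L b, PowerSeries.coeff j (z.2 b) = 0) ∧ z ∈ C} := by
  constructor
  · intro p x y h
    refine and_congr ?_ (hC.1 p x y h)
    refine forall_congr' fun b => forall_congr' fun j => forall_congr' fun hj => ?_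
    change PowerSeries.coeff j (x b) = 0 ↔ PowerSeries.coeff j (y b) = 0
    rw [h b j (Nat.lt_add_right n hj)]
  · have h1 : sec (fun b => L b + n) {z : (E → ℂ) × (ι → PowerSeries ℂ) |
        (∀ b, ∀ j < L b, PowerSeries.coeff j (z.2 b) = 0) ∧ z ∈ C} =
        {v | (∀ s : (Σ b : ι, Fin (L b)), eval v
          (X (Sum.inr ⟨s.1, ⟨s.2, by omega⟩⟩) : MvPolynomial (E ⊕ (Σ b : ι, Fin (L b + n))) ℂ) =
            0) ∧ v ∈ sec (fun b => L b + n) C} := by
      ext v
      refine and_congr ?_ Iff.rfl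
      constructor
      · intro h s
        have h2 := h s.1 s.2 s.2.2
        rw [eval_X]
        change PowerSeries.coeff (s.2 : ℕ) (toArc (fun b => L b + n) (fun s => v (Sum.inr s)) s.1) =
          0 at h2
        rw [coeff_toArc, dif_pos (show (s.2 : ℕ) < L s.1 + n by omega)] at h2
        exact h2
      · intro h b j hj
        have h2 := h ⟨b, ⟨j, hj⟩⟩
        rw [eval_X] at h2
        change PowerSeries.coeff j (toArc (fun b => L b + n) (fun s => v (Sum.inr s)) b) = 0
        rw [coeff_toArc, dif_pos (show j < L b + n by omega)]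
        exact h2
    rw [h1]
    exact Constructible.and (Constructible.all fun s => Constructible.zero _) hC.2

end

end SCL8Aux

open SCL8Aux

theorem stmt_SCL8 : Stmt_SCL8 := by
  classical
  intro P E ι _ _ C n L hC
  have hC1 : IsCyl (fun b : ι => L b + n) C :=
    stmt_YK E ι _ _ C (fun b => Nat.le_add_left n (L b)) hC
  have h := CV.vol_cvp P (isCyl_ord L hC1) (isCyl_tau L hC1) (tau L) (phi E L n)
    (fun z _ => trd_tau L n z) ?_ ?_ ?_
  · rw [Finset.sum_const, Finset.sum_add_distrib, Finset.sum_const, smul_eq_mul, pow_add] at h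
    have hx : (xq : K) ^ (Finset.card (Finset.univ : Finset ι) * n) ≠ 0 :=
      pow_ne_zero _ (inv_ne_zero RatFunc.X_ne_zero)
    apply mul_right_cancel₀ hx
    rw [h]
    change vol P.rat xq {z : (E → ℂ) × (ι → PowerSeries ℂ) | tau L z ∈ C} * _ = _ *
      vol P.rat xq {z : (E → ℂ) × (ι → PowerSeries ℂ) | tau L z ∈ C} * _
    ring
  · intro z hz
    refine ⟨fun b j hj => ?_, hz⟩
    change PowerSeries.coeff j (PowerSeries.X ^ L b * z.2 b) = 0
    rw [PowerSeries.coeff_X_pow_mul', if_neg (by omega)]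
  · intro z _ z' _ hzz
    funext s
    rcases s with s | ⟨i, l⟩
    · exact congrFun hzz (Sum.inl s)
    · have h2 := congrFun hzz (Sum.inr ⟨i, ⟨L i + l, by omega⟩⟩)
      change PowerSeries.coeff (L i + (l : ℕ)) (PowerSeries.X ^ L i * z.2 i) =
        PowerSeries.coeff (L i + (l : ℕ)) (PowerSeries.X ^ L i * z'.2 i) at h2
      rw [PowerSeries.coeff_X_pow_mul', PowerSeries.coeff_X_pow_mul', if_pos (by omega),
        if_pos (by omega), Nat.add_sub_cancel_left] at h2
      exact h2
  · rintro y ⟨hy0, hy⟩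
    have h1 : tau L (y.1, fun i =>
        PowerSeries.mk fun l => PowerSeries.coeff (L i + l) (y.2 i)) = y := by
      refine Prod.ext rfl ?_
      funext i
      ext l
      change PowerSeries.coeff l (PowerSeries.X ^ L i * _) = _
      rw [PowerSeries.coeff_X_pow_mul']
      split_ifs with h2
      · rw [PowerSeries.coeff_mk, Nat.add_sub_cancel' h2]
      · exact (hy0 i l (by omega)).symm
    refine ⟨(y.1, fun i =>
      PowerSeries.mk fun l => PowerSeries.coeff (L i + l) (y.2 i)), ?_, ?_⟩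
    · change tau L _ ∈ C
      rw [h1]
      exact hy
    · rw [h1]

end Pool.Agent.Mono.SP
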