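import Pool.Agent.Work.Monodromy.Interface8
import Pool.Agent.Work.Monodromy6.CVSQ

/-!
# Block SHF8 (helper73): `y = q + t y'`
-/

set_option autoImplicit false
set_option linter.unusedSectionVars false

namespace Pool.Agent.Mono.SP

open MvPolynomial TS RO PC TS.VAAux TS.VPAux TS.VSAux VGAux

namespace SHF8Aux

section

variable {E ι : Type}

/-- `y = q + t y'` -/
noncomputable def tau (z : (E ⊕ ι → ℂ) × (ι → PowerSeries ℂ)) : (E → ℂ) × (ι → PowerSeries ℂ) :=
  ((fun e => z.1 (Sum.inl e)), fun b => PowerSeries.C (z.1 (Sum.inr b)) + PowerSeries.X * z.2 b)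

/-- the same map on jets -/
noncomputable def phi (E ι : Type) (n : ℕ) :
    E ⊕ (Σ _ : ι, Fin (n + 1)) → MvPolynomial ((E ⊕ ι) ⊕ (Σ _ : ι, Fin n)) ℂ :=
  Sum.elim (fun e => X (Sum.inl (Sum.inl e))) fun s =>
    Fin.cases (X (Sum.inl (Sum.inr s.1))) (fun l => X (Sum.inr ⟨s.1, l⟩)) s.2

theorem trd_tau (n : ℕ) (z : (E ⊕ ι → ℂ) × (ι → PowerSeries ℂ)) :
    CV.trd (fun _ => n + 1) (tau z).1 (tau z).2 =
      fun a => eval (CV.trd (fun _ => n) z.1 z.2) (phi E ι n a) := by
  funext a
  rcases a with a | ⟨i, l⟩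
  · simp only [phi, Sum.elim_inl, eval_X]
    rfl
  · refine Fin.cases ?_ (fun l => ?_) l
    · simp only [phi, Sum.elim_inr, Fin.cases_zero, eval_X, CV.trd, Sum.elim_inl, tau,
        Fin.val_zero, map_add, PowerSeries.coeff_zero_eq_constantCoeff_apply,
        PowerSeries.constantCoeff_C, map_mul, PowerSeries.constantCoeff_X, zero_mul, add_zero]
    · simp only [phi, Sum.elim_inr, Fin.cases_succ, eval_X, CV.trd, tau, Fin.val_succ, map_add,
        PowerSeries.coeff_succ_X_mul, PowerSeries.coeff_C, if_neg (Nat.succ_ne_zero _), zero_add]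

theorem isCyl_tau {n : ℕ} {C : Set ((E → ℂ) × (ι → PowerSeries ℂ))}
    (hC : IsCyl (fun _ => n + 1) C) :
    IsCyl (fun _ => n) {z : (E ⊕ ι → ℂ) × (ι → PowerSeries ℂ) | tau z ∈ C} := by
  constructor
  · intro p x y h
    refine hC.1 _ _ _ ?_
    intro i l hl
    rcases l with _ | l
    · simp
    · simp only [map_add, PowerSeries.coeff_succ_X_mul]
      rw [h i l (Nat.lt_of_succ_lt_succ hl)]
  · have h1 : sec (fun _ => n) {z : (E ⊕ ι → ℂ) × (ι → PowerSeries ℂ) | tau z ∈ C} =
        {v | (fun a => eval v (phi E ι n a)) ∈ sec (fun _ => n + 1) C} := by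
      ext v
      change tau ((fun p => v (Sum.inl p)), toArc (fun _ => n) fun s => v (Sum.inr s)) ∈ C ↔ _
      rw [← PC.VREPAux.mem_sec_trd hC]
      have h2 := trd_tau n ((fun p => v (Sum.inl p)), toArc (fun _ : ι => n) fun s => v (Sum.inr s))
      rw [CV.trd_toArc] at h2
      change CV.trd (fun _ => n + 1) (tau ((fun p => v (Sum.inl p)),
        toArc (fun _ : ι => n) fun s => v (Sum.inr s))).1 _ ∈ _ ↔ _
      rw [h2]
      exact Iff.rfl
    rw [h1]
    exact Constructible.preimage _ hC.2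

end

end SHF8Aux

open SHF8Aux

theorem stmt_SHF8 : Stmt_SHF8 := by
  classical
  intro P E ι _ _ C n hC
  have hC1 : IsCyl (fun _ : ι => n + 1) C := stmt_YK E ι _ _ C (fun _ => Nat.le_succ n) hC
  have h := CV.vol_cvp P hC1 (isCyl_tau hC1) tau (phi E ι n) (fun z _ => trd_tau n z)
    (fun z hz => hz) ?_ ?_
  · rw [Finset.sum_const, Finset.sum_const, smul_eq_mul, smul_eq_mul, Finset.card_univ, mul_add,
      mul_one, pow_add] at h
    have hx : (xq : K) ^ (Fintype.card ι * n) ≠ 0 := pow_ne_zero _ (inv_ne_zero RatFunc.X_ne_zero)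
    apply mul_right_cancel₀ hx
    rw [h]
    change vol P.rat xq {z : (E ⊕ ι → ℂ) × (ι → PowerSeries ℂ) | tau z ∈ C} * _ = _ *
      vol P.rat xq {z : (E ⊕ ι → ℂ) × (ι → PowerSeries ℂ) | tau z ∈ C} * _
    ring
  · intro z _ z' _ hzz
    funext s
    rcases s with s | ⟨i, l⟩
    · rcases s with e | i
      · exact congrFun hzz (Sum.inl e)
      · have h2 := congrFun hzz (Sum.inr ⟨i, 0⟩)
        rw [trd_tau, trd_tau] at h2
        simpa only [phi, Sum.elim_inr, Fin.cases_zero, eval_X] using h2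
    · have h2 := congrFun hzz (Sum.inr ⟨i, l.succ⟩)
      rw [trd_tau, trd_tau] at h2
      simpa only [phi, Sum.elim_inr, Fin.cases_succ, eval_X] using h2
  · intro y hy
    have h1 : tau (Sum.elim y.1 fun i => PowerSeries.coeff 0 (y.2 i), fun i =>
        PowerSeries.mk fun l => PowerSeries.coeff (l + 1) (y.2 i)) = y := by
      refine Prod.ext rfl ?_
      funext i
      ext l
      rcases l with _ | l
      · simp [tau]
      · simp [tau, PowerSeries.coeff_succ_X_mul]
    refine ⟨(Sum.elim y.1 fun i => PowerSeries.coeff 0 (y.2 i), fun i =>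
      PowerSeries.mk fun l => PowerSeries.coeff (l + 1) (y.2 i)), ?_, ?_⟩
    · change tau _ ∈ C
      rw [h1]
      exact hy
    · rw [h1]

end Pool.Agent.Mono.SP
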