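import Pool.Agent.Work.Monodromy8.VOAux
import Pool.Agent.Work.Monodromy8.I08

/-!
# Block WB8: all arcs at the origin
-/

set_option autoImplicit false
set_option linter.unusedSectionVars false

namespace Pool.Agent.Mono.SP

open MvPolynomial TS RO PC RO.VGAux BV.TAAux

namespace WB8Aux

open VOAux

variable {E ι : Type}

theorem cy_all [Finite E] [Fintype ι] {α : Type} [Fintype α]
    {S : α → (E → ℂ) × (ι → PowerSeries ℂ) → Prop} (hS : ∀ b, Cy {z | S b z}) :
    Cy {z | ∀ b, S b z} := by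
  classical
  have h1 : ∀ s : Finset α, Cy {z | ∀ b ∈ s, S b z} := by
    intro s
    induction s using Finset.induction_on with
    | empty => simpa using Cy.univ (E := E) (ι := ι)
    | insert a s ha ih =>
      have h2 := Cy.and (hS a) ih
      convert h2 using 2
      ext z
      simp
  have h2 := h1 Finset.univ
  simpa using h2

/-- high weights -/
theorem van [Finite E] [Fintype ι] {F : MvPolynomial (E ⊕ ι) ℂ} {w : ι → ℕ} {D : ℕ}
    (hF : HiW w D F) (κ : ℕ) (p : E → ℂ) (y : ι → PowerSeries ℂ)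
    (hy : ∀ b, ∀ j < w b * κ, PowerSeries.coeff j (y b) = 0) :
    ∃ G : PowerSeries ℂ, evF F p y = PowerSeries.X ^ (D * κ) * G := by
  obtain ⟨G, hG⟩ := mono_sub F (fun b => w b * κ) (D * κ) (by
    intro d hd
    have h1 := Nat.mul_le_mul_left κ (hF d hd)
    rw [mul_comm, Finset.mul_sum] at h1
    refine h1.trans (Finset.sum_le_sum fun b _ => ?_)
    rw [← mul_assoc, mul_comm κ])
  have h2 : ∀ b, ∃ u : PowerSeries ℂ, y b = PowerSeries.X ^ (w b * κ) * u := fun b =>
    PowerSeries.X_pow_dvd_iff.2 (hy b)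
  choose u hu using h2
  have h3 := hG (PowerSeries ℂ) (fun e => PowerSeries.C (p e)) PowerSeries.X u
  have e : y = fun b => PowerSeries.X ^ (w b * κ) * u b := funext hu
  refine ⟨aeval (Sum.elim (fun e => PowerSeries.C (p e))
    (Sum.elim (fun _ => PowerSeries.X) u)) G, ?_⟩
  rw [evF, e]
  exact h3

theorem num {n m N W D κ : ℕ} (hn : 1 ≤ n) (hD : 1 ≤ D) (h1 : W * m ≤ D * N)
    (h2 : n * m ≤ 2 * N + m) (h3 : D * κ ≤ m) :
    W * κ + ((n - 1) * (m - D * κ) + 1) / 2 ≤ N + 1 := by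
  obtain ⟨n, rfl⟩ : ∃ n', n = n' + 1 := ⟨n - 1, by omega⟩
  obtain ⟨r, rfl⟩ : ∃ r, m = D * κ + r := ⟨m - D * κ, by omega⟩
  rw [Nat.add_sub_cancel, Nat.add_sub_cancel_left]
  have h4 : n * (D * κ + r) ≤ 2 * N := by
    have : (n + 1) * (D * κ + r) = n * (D * κ + r) + (D * κ + r) := by ring
    omega
  set N₁ := (n * r + 1) / 2 with hN₁
  have h5 : 2 * N₁ ≤ n * r + 1 := by omega
  rcases Nat.eq_zero_or_pos (D * κ + r) with h0 | h0
  · have hr : r = 0 := by omega
    have hκ : κ = 0 := by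
      have : D * κ = 0 := by omega
      rcases Nat.mul_eq_zero.1 this with h | h
      · omega
      · exact h
    subst hκ
    rw [hr, mul_zero] at h5
    omega
  · have h6 : W * (D * κ + r) * κ ≤ D * N * κ := Nat.mul_le_mul_right _ h1
    have h7 : n * (D * κ + r) * r ≤ 2 * N * r := Nat.mul_le_mul_right _ h4
    have h8 : (D * κ + r) * (2 * (W * κ + N₁)) < (D * κ + r) * (2 * (N + 1)) := by
      have h9 : (D * κ + r) * (2 * N₁) ≤ (D * κ + r) * (n * r + 1) := Nat.mul_le_mul_left _ h5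
      nlinarith
    have h9 := Nat.lt_of_mul_lt_mul_left h8
    omega

end WB8Aux

open WB8Aux VOAux

theorem stmt_WB8_of (hWP : Stmt_WP8) : Stmt_WB8 := by
  classical
  intro P E ι _ _ _ F w D hw hD hF hn Q hQ m N hm1 hm2
  obtain ⟨-, r2, r3, -, -, -⟩ := stmt_I08
  set e := Fintype.equivFin ι with he
  -- the lower bounds
  set Lf : ℕ → ι → ι → ℕ := fun κ a b =>
    if e b < e a then w b * (κ + 1) else max 1 (w b * κ) with hLf
  have Lf1 : ∀ κ a b, w b * κ ≤ Lf κ a b ∧ Lf κ a b ≤ w b * (κ + 1) ∧ 1 ≤ Lf κ a b := by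
    intro κ a b
    have h1 := hw b
    have h2 : w b * (κ + 1) = w b * κ + w b := by ring
    simp only [hLf]
    split_ifs
    · omega
    · omega
  set W : ℕ × ι × ℕ → Set ((E → ℂ) × (ι → PowerSeries ℂ)) := fun t =>
    {z | (∀ b, ∀ j < Lf t.1 t.2.1 b, PowerSeries.coeff j (z.2 b) = 0) ∧
      (∀ j < t.2.2, PowerSeries.coeff j (z.2 t.2.1) = 0) ∧
      PowerSeries.coeff t.2.2 (z.2 t.2.1) ≠ 0 ∧ Lead Q m z.1 (evF F z.1 z.2)} with hW
  set T : Finset (ℕ × ι × ℕ) := (Finset.range (m + 1) ×ˢ (Finset.univ ×ˢ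
    Finset.range ((∑ b, w b) * (m + 1) + 1))).filter fun t =>
      Lf t.1 t.2.1 t.2.1 ≤ t.2.2 ∧ t.2.2 < w t.2.1 * (t.1 + 1) with hT
  have hTm : ∀ t, t ∈ T ↔ t.1 ≤ m ∧ Lf t.1 t.2.1 t.2.1 ≤ t.2.2 ∧
      t.2.2 < w t.2.1 * (t.1 + 1) := by
    intro t
    rw [hT, Finset.mem_filter, Finset.mem_product, Finset.mem_product, Finset.mem_range,
      Finset.mem_range]
    constructor
    · rintro ⟨⟨h1, -⟩, h2⟩
      exact ⟨by omega, h2⟩
    · rintro ⟨h1, h2, h3⟩
      refine ⟨⟨by omega, Finset.mem_univ _, ?_⟩, h2, h3⟩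
      have h4 : w t.2.1 ≤ ∑ b, w b := Finset.single_le_sum (fun _ _ => Nat.zero_le _)
        (Finset.mem_univ _)
      have h5 : w t.2.1 * (t.1 + 1) ≤ (∑ b, w b) * (m + 1) := Nat.mul_le_mul h4 (by omega)
      omega
  have cyL : Cy {z : (E → ℂ) × (ι → PowerSeries ℂ) | Lead Q m z.1 (evF F z.1 z.2)} := by
    refine cy_lead hQ.1 m (φ := fun e z => z.1 e) (fun e => RF.par _) ?_
    exact rs_evF F (φ := fun e (z : (E → ℂ) × (ι → PowerSeries ℂ)) => z.1 e)
      (fun e => RF.par _) (y := fun b z => z.2 b) (fun b => RS.arc _)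
  have cyW : ∀ t ∈ T, Cy (W t) := by
    intro t _
    refine Cy.and ?_ (Cy.and (Cy.all_lt _ fun j _ => Cy.zero (RF.arc _ _))
      (Cy.and (Cy.not (Cy.zero (RF.arc _ _))) cyL))
    exact cy_all fun b => Cy.all_lt _ fun j _ => Cy.zero (RF.arc _ _)
  -- the partition
  have hpart : {z : (E → ℂ) × (ι → PowerSeries ℂ) | (∀ b, PowerSeries.coeff 0 (z.2 b) = 0) ∧
      Lead Q m z.1 (evF F z.1 z.2)} = ⋃ t ∈ T, W t := by
    ext z
    simp only [Set.mem_ofPred_eq, Set.mem_iUnion, exists_prop]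
    constructor
    · rintro ⟨h0, hl⟩
      have hA0 : ∀ b, ∀ j < w b * 0, PowerSeries.coeff j (z.2 b) = 0 := by
        intro b j hj
        omega
      have hAm : ¬ ∀ b, ∀ j < w b * (m + 1), PowerSeries.coeff j (z.2 b) = 0 := by
        intro h
        obtain ⟨G, hG⟩ := van hF (m + 1) z.1 z.2 h
        rw [hG, lead_X hQ] at hl
        have h1 : 1 * (m + 1) ≤ D * (m + 1) := Nat.mul_le_mul_right _ hD
        omega
      obtain ⟨κ, hκm, hκ1, hκ2⟩ : ∃ κ ≤ m, (∀ b, ∀ j < w b * κ,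
          PowerSeries.coeff j (z.2 b) = 0) ∧
          ¬ ∀ b, ∀ j < w b * (κ + 1), PowerSeries.coeff j (z.2 b) = 0 := by
        by_contra hcon
        push Not at hcon
        have h1 : ∀ κ ≤ m + 1, ∀ b, ∀ j < w b * κ, PowerSeries.coeff j (z.2 b) = 0 := by
          intro κ
          induction κ with
          | zero => exact fun _ => hA0
          | succ κ ih => exact fun h => hcon κ (by omega) (ih (by omega))
        exact hAm (h1 (m + 1) le_rfl)
      -- the first variable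
      set B : Finset ι := Finset.univ.filter fun b =>
        ∃ j < w b * (κ + 1), PowerSeries.coeff j (z.2 b) ≠ 0 with hB
      have hBne : B.Nonempty := by
        push Not at hκ2
        obtain ⟨b, j, hj, hne⟩ := hκ2
        exact ⟨b, by rw [hB, Finset.mem_filter]; exact ⟨Finset.mem_univ _, j, hj, hne⟩⟩
      obtain ⟨a, haB, hmin⟩ := Finset.exists_min_image B e hBne
      rw [hB, Finset.mem_filter] at haB
      obtain ⟨-, j0, hj0, hne0⟩ := haB
      have hex : ∃ j, PowerSeries.coeff j (z.2 a) ≠ 0 := ⟨j0, hne0⟩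
      set k := Nat.find hex with hk
      have hk1 : PowerSeries.coeff k (z.2 a) ≠ 0 := Nat.find_spec hex
      have hk2 : ∀ j < k, PowerSeries.coeff j (z.2 a) = 0 := fun j hj => by
        have := Nat.find_min hex hj
        push Not at this
        exact this
      have hk3 : k ≤ j0 := Nat.find_min' hex hne0
      have hvan : ∀ b, ∀ j < Lf κ a b, PowerSeries.coeff j (z.2 b) = 0 := by
        intro b j hj
        simp only [hLf] at hj
        split_ifs at hj with hlt
        · by_contra hne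
          have hbB : b ∈ B := by
            rw [hB, Finset.mem_filter]
            exact ⟨Finset.mem_univ _, j, hj, hne⟩
          exact absurd (hmin b hbB) (not_le.2 hlt)
        · rcases lt_max_iff.1 hj with h | h
          · have : j = 0 := by omega
            rw [this]
            exact h0 b
          · exact hκ1 b j h
      refine ⟨(κ, a, k), ?_, hvan, hk2, hk1, hl⟩
      rw [hTm]
      refine ⟨hκm, ?_, lt_of_le_of_lt hk3 hj0⟩
      by_contra hlt
      exact hk1 (hvan a k (not_le.1 hlt))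
    · rintro ⟨t, -, h1, -, -, hl⟩
      refine ⟨fun b => h1 b 0 ?_, hl⟩
      exact (Lf1 t.1 t.2.1 b).2.2
  have hdis : ∀ t ∈ T, ∀ t' ∈ T, t ≠ t' → Disjoint (W t) (W t') := by
    intro t ht t' ht' htt
    rw [Set.disjoint_left]
    intro z hz hz'
    rw [hTm] at ht ht'
    obtain ⟨a1, a2, a3, -⟩ := hz
    obtain ⟨b1, b2, b3, -⟩ := hz'
    apply htt
    have hlt : ∀ u v : ℕ × ι × ℕ, u.2.2 < w u.2.1 * (u.1 + 1) →
        PowerSeries.coeff u.2.2 (z.2 u.2.1) ≠ 0 →
        (∀ b, ∀ j < Lf v.1 v.2.1 b, PowerSeries.coeff j (z.2 b) = 0) → v.1 ≤ u.1 := by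
      intro u v h1 h2 h3
      by_contra hcon
      push Not at hcon
      apply h2
      apply h3
      have h4 : w u.2.1 * (u.1 + 1) ≤ w u.2.1 * v.1 := Nat.mul_le_mul_left _ hcon
      exact lt_of_lt_of_le h1 (h4.trans (Lf1 v.1 v.2.1 u.2.1).1)
    have hκ : t.1 = t'.1 := le_antisymm (hlt t' t ht'.2.2 b3 a1) (hlt t t' ht.2.2 a3 b1)
    have hle : ∀ u v : ℕ × ι × ℕ, u.1 = v.1 → u.2.2 < w u.2.1 * (u.1 + 1) →
        PowerSeries.coeff u.2.2 (z.2 u.2.1) ≠ 0 →
        (∀ b, ∀ j < Lf v.1 v.2.1 b, PowerSeries.coeff j (z.2 b) = 0) → e v.2.1 ≤ e u.2.1 := by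
      intro u v h0 h1 h2 h3
      by_contra hcon
      push Not at hcon
      apply h2
      apply h3
      simp only [hLf]
      rw [if_pos hcon, ← h0]
      exact h1
    have ha : t.2.1 = t'.2.1 := e.injective (le_antisymm (hle t' t hκ.symm ht'.2.2 b3 a1)
      (hle t t' hκ ht.2.2 a3 b1))
    have hk : t.2.2 = t'.2.2 := by
      rcases lt_trichotomy t.2.2 t'.2.2 with h | h | h
      · exact absurd (b2 _ h) (by rw [← ha]; exact a3)
      · exact h
      · exact absurd (a2 _ h) (by rw [ha]; exact b3)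
    exact Prod.ext hκ (Prod.ext ha hk)
  rw [hpart, vol_biU P T cyW hdis]
  refine Finset.sum_induction _ (Bnd (N + (∑ b, w b) + Fintype.card ι + 1)) (r3 _) ?_ ?_
  · exact ⟨0, 1, by simp, by simp⟩
  · intro t ht
    rw [hTm] at ht
    have h1 := hWP P E ι F w D hw hD hF hn Q hQ t.2.1 (Lf t.1 t.2.1) t.1 t.2.2 m
      (Lf1 t.1 t.2.1) ht.2.1 ht.2.2
    rcases Nat.lt_or_ge m (D * t.1) with h2 | h2
    · have h3 : vol P.rat xq (W t) = 0 := h1.1 h2
      rw [h3]
      exact ⟨0, 1, by simp, by simp⟩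
    · have h3 := h1.2 (((Fintype.card ι - 1) * (m - D * t.1) + 1) / 2) h2 (by
        have h4 : Fintype.card ι * (m - D * t.1) =
            (Fintype.card ι - 1) * (m - D * t.1) + (m - D * t.1) := by
          rw [Nat.sub_mul, one_mul]
          refine (Nat.sub_add_cancel ?_).symm
          exact Nat.le_mul_of_pos_left _ (by omega)
        omega)
      have h5 := num (n := Fintype.card ι) (by omega) hD hm1 hm2 h2
      refine r2 _ _ _ ?_ h3
      rw [mul_add, mul_one]
      omega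

end Pool.Agent.Mono.SP
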