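import Pool.Agent.Work.Monodromy8.VOBux
import Pool.Agent.Work.Monodromy8.WB8
import Pool.Agent.Work.Monodromy.Tor

/-!
# Block SM8: the bound `O(u^{-M m / 2})`
-/

set_option autoImplicit false
set_option linter.unusedSectionVars false

namespace Pool.Agent.Mono.SP

open MvPolynomial TS RO PC RO.VGAux BV.TAAux

namespace VOAux

section

variable {E ι : Type}

theorem cy_union {S T : Set ((E → ℂ) × (ι → PowerSeries ℂ))} (hS : Cy S) (hT : Cy T) :
    Cy (S ∪ T) := by
  have h1 := Cy.not (Cy.and (S := fun z => ¬ z ∈ S) (T := fun z => ¬ z ∈ T) (Cy.not hS)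
    (Cy.not hT))
  convert h1 using 2
  ext z
  rw [Set.mem_union, Set.mem_ofPred_eq]
  tauto

theorem cy_HS [Finite E] (H : MvPolynomial (E ⊕ (Unit ⊕ ι)) ℂ) {Q : Set (E ⊕ Unit → ℂ)}
    (hQ : QU Q) (m : ℕ) : Cy (HS H Q m) := by
  refine cy_lead hQ.1 m (φ := fun e z => z.1 e) (fun e => RF.par _) ?_
  exact rs_evH H (φ := fun e (z : (E → ℂ) × (ι → PowerSeries ℂ)) => z.1 e)
    (fun e => RF.par _) (y := fun b z => z.2 b) (fun b => RS.arc _)

theorem rf_ev0 (G : MvPolynomial (E ⊕ (Unit ⊕ ι)) ℂ) :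
    RF fun z : (E → ℂ) × (ι → PowerSeries ℂ) =>
      ev0 G z.1 fun b => PowerSeries.coeff 0 (z.2 b) := by
  have h1 := RF.eval (σ := E ⊕ (Unit ⊕ ι)) (φ := Sum.elim (fun e (z : (E → ℂ) ×
    (ι → PowerSeries ℂ)) => z.1 e) (Sum.elim (fun _ _ => 0)
      fun b z => PowerSeries.coeff 0 (z.2 b))) (by
    rintro (e | u | b)
    · exact RF.par e
    · exact RF.const 0
    · exact RF.arc b 0) G
  have e : (fun z : (E → ℂ) × (ι → PowerSeries ℂ) =>
      ev0 G z.1 fun b => PowerSeries.coeff 0 (z.2 b)) = fun z =>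
        MvPolynomial.eval (fun s => (Sum.elim (fun e (z : (E → ℂ) ×
    (ι → PowerSeries ℂ)) => z.1 e) (Sum.elim (fun _ _ => 0)
      fun b z => PowerSeries.coeff 0 (z.2 b)) : E ⊕ (Unit ⊕ ι) → (E → ℂ) ×
    (ι → PowerSeries ℂ) → ℂ) s z) G := by
    funext z
    unfold ev0
    congr 2
    funext s
    rcases s with s | s | s <;> rfl
  rw [e]
  exact h1

theorem cy_nSm [Finite E] [Fintype ι] (H : MvPolynomial (E ⊕ (Unit ⊕ ι)) ℂ) :
    Cy {z : (E → ℂ) × (ι → PowerSeries ℂ) |
      ¬ Sm H z.1 fun b => PowerSeries.coeff 0 (z.2 b)} := by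
  have h1 := WB8Aux.cy_all (E := E) (ι := ι) (S := fun (b : ι) z =>
    ev0 (pderiv (Sum.inr (Sum.inr b)) H) z.1 (fun b => PowerSeries.coeff 0 (z.2 b)) = 0)
    fun b => Cy.zero (rf_ev0 _)
  convert h1 using 2
  ext z
  rw [sm_iff]
  push Not
  rfl

theorem con_ev0 (G : MvPolynomial (E ⊕ (Unit ⊕ ι)) ℂ) :
    Constructible {u : (E ⊕ ι) ⊕ Unit → ℂ | ev0 G (fun e => u (Sum.inl (Sum.inl e)))
      (fun b => u (Sum.inl (Sum.inr b))) = 0} := by
  have h1 := Constructible.preimage (Sum.elim (fun e => X (Sum.inl (Sum.inl e)))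
    (Sum.elim (fun _ => 0) fun b => X (Sum.inl (Sum.inr b))) :
      E ⊕ (Unit ⊕ ι) → MvPolynomial ((E ⊕ ι) ⊕ Unit) ℂ) (Constructible.zero G)
  convert h1 using 2
  ext u
  have e : (Sum.elim (fun e => u (Sum.inl (Sum.inl e))) (Sum.elim (fun _ => 0)
      fun b => u (Sum.inl (Sum.inr b))) : E ⊕ (Unit ⊕ ι) → ℂ) = fun s => eval u
      ((Sum.elim (fun e => X (Sum.inl (Sum.inl e)))
    (Sum.elim (fun _ => 0) fun b => X (Sum.inl (Sum.inr b))) :
      E ⊕ (Unit ⊕ ι) → MvPolynomial ((E ⊕ ι) ⊕ Unit) ℂ) s) := by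
    funext s
    rcases s with s | s | s <;> simp
  change ev0 G _ _ = 0 ↔ eval _ G = 0
  rw [ev0, e]

end

end VOAux

open VOAux

theorem stmt_SM8_of (hSMS : Stmt_SMS8) (hSHF : Stmt_SHF8) : Stmt_SM8 := by
  classical
  intro P E0 ι _ _ _ H0 Q0 hQ0 hM m0 N0 hN0
  obtain ⟨-, r2, r3, -, -, r6⟩ := stmt_I08
  have hVB := stmt_VB8
  suffices key : ∀ m, ∀ (E : Type) [Finite E] (H : MvPolynomial (E ⊕ (Unit ⊕ ι)) ℂ)
      (Q : Set (E ⊕ Unit → ℂ)), QU Q → ∀ N, Fintype.card ι * m ≤ 2 * N →
        Bnd (N + Fintype.card ι) (vol P.rat xq (HS H Q m)) from key m0 E0 H0 Q0 hQ0 N0 hN0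
  intro m
  induction m using Nat.strong_induction_on with | _ m ih
  intro E _ H Q hQ N hN
  have b0 : ∀ k : ℕ, Bnd k (0 : K) := fun k => ⟨0, 1, by simp, by simp⟩
  -- cylinders of level one
  have lev1 : ∀ S : Set ((E → ℂ) × (ι → PowerSeries ℂ)), Cy S →
      (∀ p x y, (∀ b, PowerSeries.coeff 0 (x b) = PowerSeries.coeff 0 (y b)) →
        ((p, x) ∈ S ↔ (p, y) ∈ S)) → Bnd (N + Fintype.card ι) (vol P.rat xq S) := by
    intro S hS h
    have h1 := hVB P E ι (fun _ => 1) S (isCyl_of hS fun p x y hxy =>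
      h p x y fun b => hxy b 0 Nat.zero_lt_one)
    rw [Finset.sum_const, Finset.card_univ, smul_eq_mul, mul_one] at h1
    exact r2 _ _ _ (Nat.le_add_left _ _) h1
  have hc01 := fun (p : E → ℂ) (y : ι → PowerSeries ℂ) => coeff01 H p y
  have cyH := cy_HS H hQ m
  rcases Nat.eq_zero_or_pos m with hm0 | hm0
  · subst hm0
    refine lev1 _ cyH fun p x y h => ?_
    refine lead_congr fun j hj => ?_
    have : j = 0 := by omega
    subst this
    rw [(hc01 p x).1, (hc01 p y).1]
    congr 1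
    funext b
    exact h b
  -- the three parts
  set A : Set ((E → ℂ) × (ι → PowerSeries ℂ)) := {z | z ∈ HS H Q m ∧
    Sm H z.1 fun b => PowerSeries.coeff 0 (z.2 b)} with hA
  set B : Set ((E → ℂ) × (ι → PowerSeries ℂ)) := {z | z ∈ HS H Q m ∧
    (¬ Sm H z.1 fun b => PowerSeries.coeff 0 (z.2 b)) ∧
    ev0 (pderiv (Sum.inr (Sum.inl ())) H) z.1 (fun b => PowerSeries.coeff 0 (z.2 b)) ≠ 0} with hB
  set C : Set ((E → ℂ) × (ι → PowerSeries ℂ)) := {z | z ∈ HS H Q m ∧
    (¬ Sm H z.1 fun b => PowerSeries.coeff 0 (z.2 b)) ∧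
    ev0 (pderiv (Sum.inr (Sum.inl ())) H) z.1 (fun b => PowerSeries.coeff 0 (z.2 b)) = 0} with hC
  have cyN := cy_nSm (E := E) H
  have cyS : Cy {z : (E → ℂ) × (ι → PowerSeries ℂ) |
      Sm H z.1 fun b => PowerSeries.coeff 0 (z.2 b)} := by
    have h1 := Cy.not cyN
    simpa using h1
  have cyT : Cy {z : (E → ℂ) × (ι → PowerSeries ℂ) |
      ev0 (pderiv (Sum.inr (Sum.inl ())) H) z.1 (fun b => PowerSeries.coeff 0 (z.2 b)) = 0} :=
    Cy.zero (rf_ev0 _)
  have cyA : Cy A := Cy.and cyH cyS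
  have cyB : Cy B := Cy.and cyH (Cy.and cyN (Cy.not cyT))
  have cyC : Cy C := Cy.and cyH (Cy.and cyN cyT)
  have hun : HS H Q m = A ∪ (B ∪ C) := by
    ext z
    simp only [hA, hB, hC, Set.mem_union, Set.mem_ofPred_eq]
    tauto
  have cyBC : Cy (B ∪ C) := cy_union cyB cyC
  have hd1 : Disjoint A (B ∪ C) := by
    rw [Set.disjoint_left]
    rintro z ⟨-, h1⟩ (⟨-, h2, -⟩ | ⟨-, h2, -⟩)
    · exact h2 h1
    · exact h2 h1
  have hd2 : Disjoint B C := by
    rw [Set.disjoint_left]
    rintro z ⟨-, -, h1⟩ ⟨-, -, h2⟩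
    exact h1 h2
  rw [hun, vol_uni P cyA cyBC hd1, vol_uni P cyB cyC hd2]
  -- smooth points
  have hmN : m ≤ N := by
    have h1 := Nat.mul_le_mul_right m hM
    omega
  have bA : Bnd (N + Fintype.card ι) (vol P.rat xq A) :=
    r2 _ _ _ (by omega) (hSMS P E ι H Q hQ m hm0)
  -- the coefficient of order one at the other points
  have hc1 : ∀ (p : E → ℂ) (y : ι → PowerSeries ℂ),
      (¬ Sm H p fun b => PowerSeries.coeff 0 (y b)) → PowerSeries.coeff 1 (evH H p y) =
        ev0 (pderiv (Sum.inr (Sum.inl ())) H) p fun b => PowerSeries.coeff 0 (y b) := by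
    intro p y h
    rw [sm_iff] at h
    push Not at h
    rw [(hc01 p y).2, Finset.sum_eq_zero, add_zero]
    intro b _
    rw [h b, zero_mul]
  have bB : Bnd (N + Fintype.card ι) (vol P.rat xq B) := by
    rcases Nat.lt_or_ge 1 m with h1 | h1
    · have hB0 : B = ∅ := by
        rw [Set.eq_empty_iff_forall_notMem]
        rintro z ⟨h2, h3, h4⟩
        exact h4 ((hc1 z.1 z.2 h3).symm.trans (h2.1 1 h1))
      rw [hB0, vol_empty]
      · exact b0 _
      · exact TS.VAAux.L_mul P
    · have hm1 : m = 1 := by omega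
      refine lev1 _ cyB fun p x y h => ?_
      have hq : (fun b => PowerSeries.coeff 0 (x b)) = fun b => PowerSeries.coeff 0 (y b) :=
        funext h
      simp only [hB, Set.mem_ofPred_eq]
      rw [hq]
      constructor
      · rintro ⟨g1, g2, g3⟩
        refine ⟨(lead_congr ?_).1 g1, g2, g3⟩
        intro j hj
        rcases Nat.eq_zero_or_pos j with h0 | h0
        · subst h0
          rw [(hc01 p x).1, (hc01 p y).1, hq]
        · have : j = 1 := by omega
          subst this
          rw [hc1 p x (by rw [hq]; exact g2), hc1 p y g2, hq]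
      · rintro ⟨g1, g2, g3⟩
        refine ⟨(lead_congr ?_).2 g1, g2, g3⟩
        intro j hj
        rcases Nat.eq_zero_or_pos j with h0 | h0
        · subst h0
          rw [(hc01 p x).1, (hc01 p y).1, hq]
        · have : j = 1 := by omega
          subst this
          rw [hc1 p x (by rw [hq]; exact g2), hc1 p y g2, hq]
  have bC : Bnd (N + Fintype.card ι) (vol P.rat xq C) := by
    rcases Nat.lt_or_ge 1 m with h1 | h1
    · obtain ⟨R, hR⟩ := expH H
      -- the new leading coefficients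
      set Q' : Set ((E ⊕ ι) ⊕ Unit → ℂ) := {u |
        (ev0 H (fun e => u (Sum.inl (Sum.inl e))) (fun b => u (Sum.inl (Sum.inr b))) = 0 ∧
          (∀ b, ev0 (pderiv (Sum.inr (Sum.inr b)) H) (fun e => u (Sum.inl (Sum.inl e)))
            (fun b => u (Sum.inl (Sum.inr b))) = 0) ∧
          ev0 (pderiv (Sum.inr (Sum.inl ())) H) (fun e => u (Sum.inl (Sum.inl e)))
            (fun b => u (Sum.inl (Sum.inr b))) = 0) ∧
        (Sum.elim (fun e => u (Sum.inl (Sum.inl e))) fun _ => u (Sum.inr ())) ∈ Q} with hQ'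
      have quQ' : QU Q' := by
        constructor
        · refine Constructible.and (Constructible.and (con_ev0 _) (Constructible.and ?_
            (con_ev0 _))) ?_
          · exact Mono.TorX.cons_forall (fun b => {u : (E ⊕ ι) ⊕ Unit → ℂ |
              ev0 (pderiv (Sum.inr (Sum.inr b)) H) (fun e => u (Sum.inl (Sum.inl e)))
                (fun b => u (Sum.inl (Sum.inr b))) = 0}) fun b => con_ev0 _
          · have h2 := Constructible.comap (fun s : E ⊕ Unit =>
              (Sum.elim (fun e => Sum.inl (Sum.inl e)) (fun _ => Sum.inr ()) s :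
                (E ⊕ ι) ⊕ Unit)) hQ.1
            convert h2 using 2
            ext u
            have e : (Sum.elim (fun e => u (Sum.inl (Sum.inl e))) (fun _ => u (Sum.inr ())) :
                E ⊕ Unit → ℂ) = fun s => u (Sum.elim (fun e => Sum.inl (Sum.inl e))
                  (fun _ => Sum.inr ()) s) := by
              funext s
              rcases s with s | s <;> rfl
            rw [e]
        · rintro u ⟨-, hu⟩
          exact hQ.2 _ hu
      obtain ⟨n0, hn0⟩ := cyC
      have h2 := hSHF P E ι C n0 (hn0 n0 le_rfl)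
      have h3 : {z : (E ⊕ ι → ℂ) × (ι → PowerSeries ℂ) | ((fun e => z.1 (Sum.inl e)), fun b =>
          PowerSeries.C (z.1 (Sum.inr b)) + PowerSeries.X * z.2 b) ∈ C} =
          HS R Q' (m - 2) := by
        ext z
        have hz0 : (fun b => PowerSeries.coeff 0 (PowerSeries.C (z.1 (Sum.inr b)) +
            PowerSeries.X * z.2 b)) = fun b => z.1 (Sum.inr b) := by
          funext b
          simp
        have hz1 : (Sum.elim (fun e => z.1 (Sum.inl e)) fun b => z.1 (Sum.inr b)) = z.1 :=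
          Sum.elim_comp_inl_inr z.1
        have hev := hR (fun e => z.1 (Sum.inl e)) (fun b => z.1 (Sum.inr b)) z.2
        rw [hz1] at hev
        have hlead : Lead Q' (m - 2) z.1 (evH R z.1 z.2) ↔
            (ev0 H (fun e => z.1 (Sum.inl e)) (fun b => z.1 (Sum.inr b)) = 0 ∧
              (∀ b, ev0 (pderiv (Sum.inr (Sum.inr b)) H) (fun e => z.1 (Sum.inl e))
                (fun b => z.1 (Sum.inr b)) = 0) ∧
              ev0 (pderiv (Sum.inr (Sum.inl ())) H) (fun e => z.1 (Sum.inl e))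
                (fun b => z.1 (Sum.inr b)) = 0) ∧
            Lead Q (m - 2) (fun e => z.1 (Sum.inl e)) (evH R z.1 z.2) := by
          unfold Lead
          simp only [hQ', Set.mem_ofPred_eq, Sum.elim_inl, Sum.elim_inr]
          tauto
        change ((fun e => z.1 (Sum.inl e)), fun b => PowerSeries.C (z.1 (Sum.inr b)) +
            PowerSeries.X * z.2 b) ∈ C ↔ Lead Q' (m - 2) z.1 (evH R z.1 z.2)
        rw [hlead]
        simp only [hC, Set.mem_ofPred_eq]
        rw [hz0, sm_iff]
        push Not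
        constructor
        · rintro ⟨g1, g2, g3⟩
          have g0 : ev0 H (fun e => z.1 (Sum.inl e)) (fun b => z.1 (Sum.inr b)) = 0 := by
            have g4 := g1.1 0 (by omega)
            change PowerSeries.coeff 0 (evH H (fun e => z.1 (Sum.inl e)) fun b =>
              PowerSeries.C (z.1 (Sum.inr b)) + PowerSeries.X * z.2 b) = 0 at g4
            rw [(hc01 _ _).1, hz0] at g4
            exact g4
          refine ⟨⟨g0, g2, g3⟩, ?_⟩
          change Lead Q m (fun e => z.1 (Sum.inl e)) (evH H (fun e => z.1 (Sum.inl e)) fun b =>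
              PowerSeries.C (z.1 (Sum.inr b)) + PowerSeries.X * z.2 b) at g1
          rw [hev, g0, g3] at g1
          simp only [g2, map_zero, zero_mul, Finset.sum_const_zero, add_zero, mul_zero,
            zero_add] at g1
          exact ((lead_X hQ 2 m _ _).1 g1).2
        · rintro ⟨⟨g0, g2, g3⟩, g1⟩
          refine ⟨?_, g2, g3⟩
          change Lead Q m (fun e => z.1 (Sum.inl e)) (evH H (fun e => z.1 (Sum.inl e)) fun b =>
              PowerSeries.C (z.1 (Sum.inr b)) + PowerSeries.X * z.2 b)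
          rw [hev, g0, g3]
          simp only [g2, map_zero, zero_mul, Finset.sum_const_zero, add_zero, mul_zero,
            zero_add]
          exact (lead_X hQ 2 m _ _).2 ⟨h1, g1⟩
      rw [h3] at h2
      rw [h2]
      have hNM : Fintype.card ι ≤ N := by
        have h4 := Nat.mul_le_mul_left (Fintype.card ι) h1
        omega
      have h4 := ih (m - 2) (by omega) (E ⊕ ι) R Q' quQ' (N - Fintype.card ι) (by
        rw [Nat.mul_sub]
        omega)
      have h5 := (r6 (N - Fintype.card ι + Fintype.card ι) (Fintype.card ι)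
        (vol P.rat xq (HS R Q' (m - 2)))).2 h4
      refine r2 _ _ _ ?_ h5
      omega
    · have hm1 : m = 1 := by omega
      have hC0 : C = ∅ := by
        rw [Set.eq_empty_iff_forall_notMem]
        rintro z ⟨h2, h3, h4⟩
        have h5 := h2.2
        rw [hm1, hc1 z.1 z.2 h3, h4] at h5
        exact hQ.2 _ h5 rfl
      rw [hC0, vol_empty]
      · exact b0 _
      · exact TS.VAAux.L_mul P
  exact r3 _ _ _ bA (r3 _ _ _ bB bC)

end Pool.Agent.Mono.SP
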