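import Pool.Agent.Work.Monodromy8.SM8

/-!
# Block SMS8: smooth points
-/

set_option autoImplicit false
set_option linter.unusedSectionVars false

namespace Pool.Agent.Mono.SP

open MvPolynomial TS RO PC RO.VGAux BV.TAAux

namespace SMS8Aux

open VOAux

/-- a contraction has a fixed point -/
theorem fixpoint (Φ : PowerSeries ℂ → PowerSeries ℂ) (h : ∀ (l : ℕ) (x y : PowerSeries ℂ),
    (∀ j < l, PowerSeries.coeff j x = PowerSeries.coeff j y) →
      PowerSeries.coeff l (Φ x) = PowerSeries.coeff l (Φ y)) : ∃ w, Φ w = w := by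
  set u : ℕ → PowerSeries ℂ := fun n => Φ^[n] 0 with hu
  have hs : ∀ n, u (n + 1) = Φ (u n) := fun n => Function.iterate_succ_apply' Φ n 0
  set w : PowerSeries ℂ := PowerSeries.mk fun l => PowerSeries.coeff l (u (l + 1)) with hw
  have hwl : ∀ l, PowerSeries.coeff l w = PowerSeries.coeff l (u (l + 1)) := fun l =>
    PowerSeries.coeff_mk _ _
  have key : ∀ l, ∀ n, l < n → PowerSeries.coeff l (u n) = PowerSeries.coeff l w := by
    intro l
    induction l using Nat.strong_induction_on with | _ l ih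
    intro n hn
    obtain ⟨n, rfl⟩ : ∃ n', n = n' + 1 := ⟨n - 1, by omega⟩
    rw [hwl, hs, hs]
    refine h l _ _ fun j hj => ?_
    rw [ih j hj n (by omega), ih j hj l hj]
  refine ⟨w, ?_⟩
  ext l
  rw [hwl, hs]
  exact h l _ _ fun j hj => (key j l hj).symm

variable {E ι : Type}

/-- values at `(p, 0, q)` as polynomials -/
noncomputable def gg (G : MvPolynomial (E ⊕ (Unit ⊕ ι)) ℂ) :
    MvPolynomial ((E ⊕ ι) ⊕ (Unit ⊕ ι)) ℂ :=
  bind₁ (Sum.elim (fun e => X (Sum.inl (Sum.inl e)))
    (Sum.elim (fun _ => 0) fun b => X (Sum.inl (Sum.inr b)))) G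

theorem evH_gg (G : MvPolynomial (E ⊕ (Unit ⊕ ι)) ℂ) (u : E ⊕ ι → ℂ)
    (y : ι → PowerSeries ℂ) : evH (gg G) u y =
      PowerSeries.C (ev0 G (fun e => u (Sum.inl e)) fun b => u (Sum.inr b)) := by
  rw [evH, gg, aeval_bind₁, ev0, ← aeval_const]
  congr 2
  funext s
  rcases s with s | s | s <;> simp

theorem con_ev {G : MvPolynomial (E ⊕ (Unit ⊕ ι)) ℂ} :
    Constructible {u : E ⊕ ι → ℂ | ev0 G (fun e => u (Sum.inl e)) (fun b => u (Sum.inr b)) = 0} := by
  have h1 := Constructible.preimage (Sum.elim (fun e => X (Sum.inl e))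
    (Sum.elim (fun _ => 0) fun b => X (Sum.inr b)) :
      E ⊕ (Unit ⊕ ι) → MvPolynomial (E ⊕ ι) ℂ) (Constructible.zero G)
  convert h1 using 2
  ext u
  have e : (Sum.elim (fun e => u (Sum.inl e)) (Sum.elim (fun _ => 0)
      fun b => u (Sum.inr b)) : E ⊕ (Unit ⊕ ι) → ℂ) = fun s => eval u
      ((Sum.elim (fun e => X (Sum.inl e))
    (Sum.elim (fun _ => 0) fun b => X (Sum.inr b)) :
      E ⊕ (Unit ⊕ ι) → MvPolynomial (E ⊕ ι) ℂ) s) := by
    funext s
    rcases s with s | s | s <;> simp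
  change ev0 G _ _ = 0 ↔ eval _ G = 0
  rw [ev0, e]

theorem lead_C {Q : Set (E ⊕ Unit → ℂ)} (hQ : QU Q) {m : ℕ} (hm : 1 ≤ m) (p : E → ℂ) (c : ℂ)
    (G : PowerSeries ℂ) : Lead Q m p (PowerSeries.C c + PowerSeries.X * G) ↔
      c = 0 ∧ Lead Q (m - 1) p G := by
  constructor
  · intro h
    have h0 := h.1 0 (by omega)
    have hc : c = 0 := by simpa using h0
    subst hc
    rw [map_zero, zero_add] at h
    have h1 := (lead_X hQ 1 m p G).1 (by rw [pow_one]; exact h)
    exact ⟨rfl, h1.2⟩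
  · rintro ⟨rfl, h⟩
    rw [map_zero, zero_add]
    have h1 := (lead_X hQ 1 m p G).2 ⟨hm, h⟩
    rwa [pow_one] at h1

/-- one direction -/
theorem one (hSHF : Stmt_SHF8) (P : HodgeMeasure) [Finite E] [Fintype ι] [DecidableEq ι]
    (H : MvPolynomial (E ⊕ (Unit ⊕ ι)) ℂ) {Q : Set (E ⊕ Unit → ℂ)} (hQ : QU Q) {m : ℕ}
    (hm : 1 ≤ m) (b : ι) {B : Set (E ⊕ ι → ℂ)} (hB : Constructible B)
    (hBb : ∀ u ∈ B, ev0 (pderiv (Sum.inr (Sum.inr b)) H) (fun e => u (Sum.inl e))
      (fun b => u (Sum.inr b)) ≠ 0) :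
    Bnd (m + Fintype.card ι) (vol P.rat xq {z : (E → ℂ) × (ι → PowerSeries ℂ) |
      z ∈ HS H Q m ∧ (Sum.elim z.1 fun b => PowerSeries.coeff 0 (z.2 b)) ∈ B}) := by
  classical
  obtain ⟨-, r2, r3, -, -, r6⟩ := stmt_I08
  obtain ⟨R, hR⟩ := expH H
  set S : Set ((E → ℂ) × (ι → PowerSeries ℂ)) := {z |
      z ∈ HS H Q m ∧ (Sum.elim z.1 fun b => PowerSeries.coeff 0 (z.2 b)) ∈ B} with hS
  have cyS : Cy S := by
    refine Cy.and (cy_HS H hQ m) ?_
    have h1 := Cy.mem hB (φ := (Sum.elim (fun e z => z.1 e)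
      fun b z => PowerSeries.coeff 0 (z.2 b) : E ⊕ ι → (E → ℂ) × (ι → PowerSeries ℂ) → ℂ)) (by
        rintro (e | b)
        · exact RF.par e
        · exact RF.arc b 0)
    convert h1 using 2
    ext z
    have e : (Sum.elim z.1 fun b => PowerSeries.coeff 0 (z.2 b)) = fun s => (Sum.elim
        (fun e z => z.1 e) (fun b z => PowerSeries.coeff 0 (z.2 b)) :
          E ⊕ ι → (E → ℂ) × (ι → PowerSeries ℂ) → ℂ) s z := by
      funext s
      rcases s with s | s <;> rfl
    rw [e]
  obtain ⟨n0, hn0⟩ := cyS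
  have h1 := hSHF P E ι S n0 (hn0 n0 le_rfl)
  -- the series `h`
  set Hh : MvPolynomial ((E ⊕ ι) ⊕ (Unit ⊕ ι)) ℂ := gg (pderiv (Sum.inr (Sum.inl ())) H) +
    (∑ i, gg (pderiv (Sum.inr (Sum.inr i)) H) * X (Sum.inr (Sum.inr i))) +
    X (Sum.inr (Sum.inl ())) * R with hHh
  set δ : ι → (E ⊕ ι → ℂ) → ℂ := fun i u => ev0 (pderiv (Sum.inr (Sum.inr i)) H)
    (fun e => u (Sum.inl e)) (fun b => u (Sum.inr b)) with hδ
  set ct : (E ⊕ ι → ℂ) → ℂ := fun u => ev0 (pderiv (Sum.inr (Sum.inl ())) H)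
    (fun e => u (Sum.inl e)) (fun b => u (Sum.inr b)) with hct
  have evHh : ∀ (u : E ⊕ ι → ℂ) (y : ι → PowerSeries ℂ), evH Hh u y =
      PowerSeries.C (ct u) + ∑ i, PowerSeries.C (δ i u) * y i +
        PowerSeries.X * evH R u y := by
    intro u y
    have g1 := evH_gg (pderiv (Sum.inr (Sum.inl ())) H) u y
    have g2 := fun i => evH_gg (pderiv (Sum.inr (Sum.inr i)) H) u y
    unfold evH at g1 g2 ⊢
    rw [hHh]
    simp only [map_add, map_mul, map_sum, aeval_X, Sum.elim_inr, Sum.elim_inl, g1, g2]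
    rfl
  set S' : Set ((E ⊕ ι → ℂ) × (ι → PowerSeries ℂ)) := {z | z.1 ∈ B ∧
    ev0 H (fun e => z.1 (Sum.inl e)) (fun b => z.1 (Sum.inr b)) = 0 ∧
    Lead Q (m - 1) (fun e => z.1 (Sum.inl e)) (evH Hh z.1 z.2)} with hS'
  set S'' : Set ((E ⊕ ι → ℂ) × (ι → PowerSeries ℂ)) := {z | z.1 ∈ B ∧
    ev0 H (fun e => z.1 (Sum.inl e)) (fun b => z.1 (Sum.inr b)) = 0 ∧
    Lead Q (m - 1) (fun e => z.1 (Sum.inl e)) (z.2 b)} with hS''
  have e1 : {z : (E ⊕ ι → ℂ) × (ι → PowerSeries ℂ) | ((fun e => z.1 (Sum.inl e)), fun b =>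
      PowerSeries.C (z.1 (Sum.inr b)) + PowerSeries.X * z.2 b) ∈ S} = S' := by
    ext z
    have hz0 : (fun b => PowerSeries.coeff 0 (PowerSeries.C (z.1 (Sum.inr b)) +
        PowerSeries.X * z.2 b)) = fun b => z.1 (Sum.inr b) := by
      funext b
      simp
    have hz1 : (Sum.elim (fun e => z.1 (Sum.inl e)) fun b => z.1 (Sum.inr b)) = z.1 :=
      Sum.elim_comp_inl_inr z.1
    have hev := hR (fun e => z.1 (Sum.inl e)) (fun b => z.1 (Sum.inr b)) z.2
    rw [hz1] at hev
    have hev2 : evH H (fun e => z.1 (Sum.inl e)) (fun b => PowerSeries.C (z.1 (Sum.inr b)) +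
        PowerSeries.X * z.2 b) = PowerSeries.C (ev0 H (fun e => z.1 (Sum.inl e))
          fun b => z.1 (Sum.inr b)) + PowerSeries.X * evH Hh z.1 z.2 := by
      rw [hev, evHh]
      ring
    simp only [hS, hS', HS, Set.mem_ofPred_eq]
    rw [hev2, lead_C hQ hm, hz0, hz1]
    tauto
  have rsH : RS fun z : (E ⊕ ι → ℂ) × (ι → PowerSeries ℂ) => evH Hh z.1 z.2 :=
    rs_evH Hh (φ := fun e (z : (E ⊕ ι → ℂ) × (ι → PowerSeries ℂ)) => z.1 e)
      (fun e => RF.par _) (y := fun b z => z.2 b) (fun b => RS.arc _)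
  have cyP : Cy {z : (E ⊕ ι → ℂ) × (ι → PowerSeries ℂ) | z.1 ∈ B} := Cy.param hB
  have cyE : Cy {z : (E ⊕ ι → ℂ) × (ι → PowerSeries ℂ) |
      ev0 H (fun e => z.1 (Sum.inl e)) (fun b => z.1 (Sum.inr b)) = 0} :=
    Cy.param (B := {u : E ⊕ ι → ℂ | ev0 H (fun e => u (Sum.inl e))
      (fun b => u (Sum.inr b)) = 0}) con_ev
  have cyS' : Cy S' := Cy.and cyP (Cy.and cyE (cy_lead hQ.1 (m - 1)
    (φ := fun e z => z.1 (Sum.inl e)) (fun e => RF.par _) rsH))
  have cyS'' : Cy S'' := Cy.and cyP (Cy.and cyE (cy_lead hQ.1 (m - 1)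
    (φ := fun e z => z.1 (Sum.inl e)) (fun e => RF.par _) (RS.arc b)))
  -- the coefficients of `h`
  have coefH : ∀ (u : E ⊕ ι → ℂ) (x y : ι → PowerSeries ℂ) (l : ℕ),
      (∀ i, ∀ j < l, PowerSeries.coeff j (x i) = PowerSeries.coeff j (y i)) →
      PowerSeries.coeff l (PowerSeries.X * evH R u x) =
        PowerSeries.coeff l (PowerSeries.X * evH R u y) := by
    intro u x y l h
    rcases l with _ | l
    · simp
    · rw [PowerSeries.coeff_succ_X_mul, PowerSeries.coeff_succ_X_mul]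
      exact evH_congr R u (l + 1) x y h l (Nat.lt_succ_self l)
  have key := vol_cvr P cyS'' cyS' (fun _ => 0) rfl
    (fun z => (z.1, Function.update z.2 b (evH Hh z.1 z.2))) (fun e => RF.par e)
    (fun _ _ _ => rfl) ?_ ?_ ?_ ?_ ?_
  · rw [Finset.sum_const_zero, pow_zero, one_mul] at key
    have cyl : IsCyl (fun i => if i = b then m else 0) S'' := by
      refine isCyl_of cyS'' fun p x y hxy => ?_
      have hb : ∀ l < m, PowerSeries.coeff l (x b) = PowerSeries.coeff l (y b) := fun l hl =>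
        hxy b l (by rw [if_pos rfl]; exact hl)
      simp only [hS'', Set.mem_ofPred_eq]
      rw [lead_congr (fun j hj => hb j (by omega))]
    have h2 := stmt_VB8 P (E ⊕ ι) ι _ S'' cyl
    rw [Finset.sum_ite_eq' Finset.univ b, if_pos (Finset.mem_univ _)] at h2
    rw [h1, e1, ← key]
    exact (r6 m (Fintype.card ι) _).2 h2
  · intro i l
    by_cases hi : i = b
    · subst hi
      simp only [Function.update_self]
      exact rsH l
    · simp only [Function.update_of_ne hi]
      exact RF.arc i l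
  · intro N p x y h i l hl
    by_cases hi : i = b
    · subst hi
      simp only [Function.update_self]
      exact evH_congr Hh p N x y h l (by simpa using hl)
    · simp only [Function.update_of_ne hi]
      exact h i l (by simpa using hl)
  · intro N z hz z' hz' h0 h
    have h0' : z.1 = z'.1 := h0
    refine ⟨h0', ?_⟩
    have hne : ∀ i, i ≠ b → ∀ l < N, PowerSeries.coeff l (z.2 i) = PowerSeries.coeff l (z'.2 i) := by
      intro i hi l hl
      have h2 := h i l (by simpa using hl)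
      simp only [Function.update_of_ne hi] at h2
      exact h2
    have hall : ∀ l, l < N → ∀ i, PowerSeries.coeff l (z.2 i) = PowerSeries.coeff l (z'.2 i) := by
      intro l
      induction l using Nat.strong_induction_on with | _ l ih
      intro hl i
      by_cases hi : i = b
      · subst hi
        have h2 := h i l (by simpa using hl)
        simp only [Function.update_self] at h2
        rw [evHh, evHh, ← h0', map_add, map_add, map_add, map_add, map_sum, map_sum,
          coefH z.1 z.2 z'.2 l (fun i j hj => ih j hj (by omega) i), add_left_inj, add_right_inj,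
          ← Finset.add_sum_erase _ _ (Finset.mem_univ i),
          ← Finset.add_sum_erase _ (fun x => PowerSeries.coeff l (PowerSeries.C (δ x z.1) *
            z'.2 x)) (Finset.mem_univ i)] at h2
        have h3 : ∑ x ∈ Finset.univ.erase i, PowerSeries.coeff l (PowerSeries.C (δ x z.1) *
            z.2 x) = ∑ x ∈ Finset.univ.erase i, PowerSeries.coeff l (PowerSeries.C (δ x z.1) *
            z'.2 x) := by
          refine Finset.sum_congr rfl fun x hx => ?_
          rw [PowerSeries.coeff_C_mul, PowerSeries.coeff_C_mul,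
            hne x (Finset.ne_of_mem_erase hx) l hl]
        rw [h3, add_left_inj, PowerSeries.coeff_C_mul, PowerSeries.coeff_C_mul] at h2
        exact mul_left_cancel₀ (hBb z.1 hz.1) h2
      · exact hne i hi l hl
    exact fun j l hl => hall l hl j
  · rintro z ⟨g1, g2, g3⟩
    refine ⟨g1, g2, ?_⟩
    simp only [Function.update_self]
    exact g3
  · rintro y ⟨g1, g2, g3⟩
    have hδb : δ b y.1 ≠ 0 := hBb y.1 g1
    obtain ⟨w, hw⟩ := fixpoint (fun w => PowerSeries.C (δ b y.1)⁻¹ * (y.2 b -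
      PowerSeries.C (ct y.1) - (∑ i ∈ Finset.univ.erase b, PowerSeries.C (δ i y.1) * y.2 i) -
      PowerSeries.X * evH R y.1 (Function.update y.2 b w))) (by
        intro l x x' h
        have h5 := coefH y.1 (Function.update y.2 b x) (Function.update y.2 b x') l (by
          intro i j hj
          by_cases hi : i = b
          · subst hi
            simp only [Function.update_self]
            exact h j hj
          · simp only [Function.update_of_ne hi])
        simp only [PowerSeries.coeff_C_mul, map_sub, h5])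
    have hC : PowerSeries.C (δ b y.1) * PowerSeries.C (δ b y.1)⁻¹ = (1 : PowerSeries ℂ) := by
      rw [← map_mul, mul_inv_cancel₀ hδb, map_one]
    have hh : evH Hh y.1 (Function.update y.2 b w) = y.2 b := by
      rw [evHh, ← Finset.add_sum_erase _ _ (Finset.mem_univ b), Function.update_self]
      have h3 : ∑ x ∈ Finset.univ.erase b, PowerSeries.C (δ x y.1) *
          Function.update y.2 b w x = ∑ x ∈ Finset.univ.erase b, PowerSeries.C (δ x y.1) *
            y.2 x := by
        refine Finset.sum_congr rfl fun x hx => ?_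
        rw [Function.update_of_ne (Finset.ne_of_mem_erase hx)]
      rw [h3]
      have h4 : PowerSeries.C (δ b y.1) * w = y.2 b - PowerSeries.C (ct y.1) -
          (∑ i ∈ Finset.univ.erase b, PowerSeries.C (δ i y.1) * y.2 i) -
          PowerSeries.X * evH R y.1 (Function.update y.2 b w) := by
        nth_rewrite 1 [← hw]
        rw [← mul_assoc, hC, one_mul]
      rw [h4]
      ring
    refine ⟨(y.1, Function.update y.2 b w), ⟨g1, g2, ?_⟩, ?_⟩
    · change Lead Q (m - 1) (fun e => y.1 (Sum.inl e)) (evH Hh y.1 (Function.update y.2 b w))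
      rw [hh]
      exact g3
    · refine Prod.ext rfl ?_
      change Function.update (Function.update y.2 b w) b
        (evH Hh y.1 (Function.update y.2 b w)) = y.2
      rw [hh, Function.update_idem, Function.update_eq_self]

end SMS8Aux

open SMS8Aux VOAux

theorem stmt_SMS8_of (hSHF : Stmt_SHF8) : Stmt_SMS8 := by
  classical
  intro P E ι _ _ _ H Q hQ m hm
  obtain ⟨-, r2, r3, -, -, r6⟩ := stmt_I08
  set e := Fintype.equivFin ι with he
  set D : ι → (E ⊕ ι → ℂ) → ℂ := fun i u => ev0 (pderiv (Sum.inr (Sum.inr i)) H)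
    (fun e => u (Sum.inl e)) (fun b => u (Sum.inr b)) with hD
  set B : ι → Set (E ⊕ ι → ℂ) := fun b => {u | D b u ≠ 0 ∧ ∀ b', e b' < e b → D b' u = 0} with hB
  have conB : ∀ b, Constructible (B b) := by
    intro b
    refine Constructible.and (Constructible.not con_ev) ?_
    refine Mono.TorX.cons_forall (fun b' => {u : E ⊕ ι → ℂ | e b' < e b → D b' u = 0}) fun b' => ?_
    by_cases h : e b' < e b
    · simp only [h, true_imp_iff]
      exact con_ev
    · simp only [h, false_imp_iff, Set.ofPred_true]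
      exact Mono.TorX.cons_univ
  set S : ι → Set ((E → ℂ) × (ι → PowerSeries ℂ)) := fun b => {z |
    z ∈ HS H Q m ∧ (Sum.elim z.1 fun b => PowerSeries.coeff 0 (z.2 b)) ∈ B b} with hS
  have cyS : ∀ b ∈ (Finset.univ : Finset ι), Cy (S b) := by
    intro b _
    refine Cy.and (cy_HS H hQ m) ?_
    have h1 := Cy.mem (conB b) (φ := (Sum.elim (fun e z => z.1 e)
      fun b z => PowerSeries.coeff 0 (z.2 b) : E ⊕ ι → (E → ℂ) × (ι → PowerSeries ℂ) → ℂ)) (by
        rintro (e | b)
        · exact RF.par e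
        · exact RF.arc b 0)
    convert h1 using 2
    ext z
    have e : (Sum.elim z.1 fun b => PowerSeries.coeff 0 (z.2 b)) = fun s => (Sum.elim
        (fun e z => z.1 e) (fun b z => PowerSeries.coeff 0 (z.2 b)) :
          E ⊕ ι → (E → ℂ) × (ι → PowerSeries ℂ) → ℂ) s z := by
      funext s
      rcases s with s | s <;> rfl
    rw [e]
  have hun : {z : (E → ℂ) × (ι → PowerSeries ℂ) |
      z ∈ HS H Q m ∧ Sm H z.1 fun b => PowerSeries.coeff 0 (z.2 b)} =
      ⋃ b ∈ (Finset.univ : Finset ι), S b := by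
    ext z
    simp only [Set.mem_ofPred_eq, Set.mem_iUnion, exists_prop, Finset.mem_univ, true_and]
    constructor
    · rintro ⟨h1, h2⟩
      obtain ⟨b0, hb0⟩ := (sm_iff _ _ _).1 h2
      set F : Finset ι := Finset.univ.filter fun b =>
        D b (Sum.elim z.1 fun b => PowerSeries.coeff 0 (z.2 b)) ≠ 0 with hF
      have hne : F.Nonempty := ⟨b0, by
        rw [hF, Finset.mem_filter]
        exact ⟨Finset.mem_univ _, hb0⟩⟩
      obtain ⟨b, hbF, hmin⟩ := Finset.exists_min_image F e hne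
      rw [hF, Finset.mem_filter] at hbF
      refine ⟨b, h1, hbF.2, fun b' hb' => ?_⟩
      by_contra hcon
      have hb'F : b' ∈ F := by
        rw [hF, Finset.mem_filter]
        exact ⟨Finset.mem_univ _, hcon⟩
      exact absurd (hmin b' hb'F) (not_le.2 hb')
    · rintro ⟨b, h1, h2, -⟩
      exact ⟨h1, (sm_iff _ _ _).2 ⟨b, h2⟩⟩
  have hdis : ∀ b ∈ (Finset.univ : Finset ι), ∀ b' ∈ (Finset.univ : Finset ι), b ≠ b' →
      Disjoint (S b) (S b') := by
    intro b _ b' _ hbb
    rw [Set.disjoint_left]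
    rintro z ⟨-, h1, h2⟩ ⟨-, h3, h4⟩
    rcases lt_trichotomy (e b) (e b') with h | h | h
    · exact h1 (h4 b h)
    · exact hbb (e.injective h)
    · exact h3 (h2 b' h)
  rw [hun, vol_biU P Finset.univ cyS hdis]
  refine Finset.sum_induction _ (Bnd (m + Fintype.card ι)) (r3 _) ?_ ?_
  · exact ⟨0, 1, by simp, by simp⟩
  · intro b _
    exact one hSHF P H hQ hm b (conB b) fun u hu => hu.1

end Pool.Agent.Mono.SP
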