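import Pool.Agent.Work.Monodromy8.CHY
import Pool.Agent.Work.Monodromy8.RNK8

/-! Block SPA8 (helper63): the splitting lemma in families, the quadratic part. -/

set_option autoImplicit false

namespace Pool.Agent.Mono.SP

open MvPolynomial TS RO PC

namespace SPA8Aux

open CHX CHY

/-! ### The matrix of the coordinate change -/

section mat

variable {R : Type} [CommRing R] {ι : Type} [Fintype ι] [DecidableEq ι]

/-- the principal block -/
def blk (H : Matrix ι ι R) (Z : Finset ι) : Matrix Z Z R :=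
  H.submatrix (fun a => (a : ι)) fun a => (a : ι)

/-- the matrix of the coordinate change -/
noncomputable def Bm (H : Matrix ι ι R) (Z : Finset ι) (a b : ι) : R :=
  if ha : a ∈ Z then
    if b ∈ Z then (if a = b then 1 else 0) else -∑ j : Z, (blk H Z).adjugate ⟨a, ha⟩ j * H j b
  else if a = b then (blk H Z).det else 0

theorem Bm_map {S : Type} [CommRing S] (g : R →+* S) (H : Matrix ι ι R) (Z : Finset ι) (a b : ι) :
    g (Bm H Z a b) = Bm (g.mapMatrix H) Z a b := by
  have h0 : g.mapMatrix (blk H Z) = blk (g.mapMatrix H) Z := by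
    ext i j; rfl
  have h1 : g (blk H Z).det = (blk (g.mapMatrix H) Z).det := by
    rw [RingHom.map_det, h0]
  have h2 : ∀ i j, g ((blk H Z).adjugate i j) = (blk (g.mapMatrix H) Z).adjugate i j := by
    intro i j
    rw [← h0, ← RingHom.map_adjugate]
    rfl
  unfold Bm
  by_cases ha : a ∈ Z
  · rw [dif_pos ha, dif_pos ha]
    by_cases hb : b ∈ Z
    · rw [if_pos hb, if_pos hb]
      split_ifs
      · exact map_one g
      · exact map_zero g
    · rw [if_neg hb, if_neg hb, map_neg, map_sum]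
      congr 1
      refine Finset.sum_congr rfl fun j _ => ?_
      rw [map_mul, h2]
      rfl
  · rw [dif_neg ha, dif_neg ha]
    split_ifs
    · exact h1
    · exact map_zero g

end mat

section cx

variable {ι : Type} [Fintype ι] [DecidableEq ι] {H : Matrix ι ι ℂ} {Z : Finset ι}

theorem Bm_det (hd : (blk H Z).det ≠ 0) : (Matrix.of fun a b => Bm H Z a b).det ≠ 0 := by
  intro h0
  obtain ⟨v, hv, hM⟩ := Matrix.exists_mulVec_eq_zero_iff.2 h0
  have h1 : ∀ a, ∑ b, Bm H Z a b * v b = 0 := by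
    intro a
    have := congrFun hM a
    simpa [Matrix.mulVec, dotProduct] using this
  have h2 : ∀ a, a ∉ Z → v a = 0 := by
    intro a ha
    have h3 := h1 a
    rw [Finset.sum_eq_single a] at h3
    · unfold Bm at h3
      rw [dif_neg ha, if_pos rfl] at h3
      exact (mul_eq_zero.1 h3).resolve_left hd
    · intro b _ hb
      unfold Bm
      rw [dif_neg ha, if_neg (fun h => hb h.symm), zero_mul]
    · intro h
      exact absurd (Finset.mem_univ _) h
  apply hv
  funext a
  by_cases ha : a ∈ Z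
  · have h3 := h1 a
    rw [Finset.sum_eq_single a] at h3
    · unfold Bm at h3
      rw [dif_pos ha, if_pos ha, if_pos rfl, one_mul] at h3
      exact h3
    · intro b _ hb
      by_cases hbZ : b ∈ Z
      · unfold Bm
        rw [dif_pos ha, if_pos hbZ, if_neg (fun h => hb h.symm), zero_mul]
      · rw [h2 b hbZ, mul_zero]
    · intro h
      exact absurd (Finset.mem_univ _) h
  · exact h2 a ha

/-- the `Z`-rows -/
theorem HB_Z {a : ι} (ha : a ∉ Z) {z : ι} (hz : z ∈ Z) : ∑ c, H z c * Bm H Z c a = 0 := by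
  rw [← Finset.sum_add_sum_compl Z]
  have h1 : ∑ c ∈ Zᶜ, H z c * Bm H Z c a = H z a * (blk H Z).det := by
    rw [Finset.sum_eq_single a]
    · unfold Bm
      rw [dif_neg ha, if_pos rfl]
    · intro b hb hba
      unfold Bm
      rw [dif_neg (Finset.mem_compl.1 hb), if_neg hba, mul_zero]
    · intro h
      exact absurd (Finset.mem_compl.2 ha) h
  have h2 : ∑ c ∈ Z, H z c * Bm H Z c a =
      ∑ c : Z, H z c * -∑ j : Z, (blk H Z).adjugate c j * H j a := by
    rw [← Finset.sum_coe_sort Z (fun c => H z c * Bm H Z c a)]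
    refine Finset.sum_congr rfl fun c _ => ?_
    unfold Bm
    rw [dif_pos c.2, if_neg ha]
  have h3 : ∑ c : Z, H z c * -∑ j : Z, (blk H Z).adjugate c j * H j a =
      -∑ j : Z, (∑ c : Z, blk H Z ⟨z, hz⟩ c * (blk H Z).adjugate c j) * H j a := by
    rw [← Finset.sum_neg_distrib]
    simp_rw [Finset.sum_mul, ← Finset.sum_neg_distrib, Finset.mul_sum]
    rw [Finset.sum_comm]
    refine Finset.sum_congr rfl fun j _ => Finset.sum_congr rfl fun c _ => ?_
    change H z c * -(_) = -(H z c * _ * _)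
    ring
  have h4 : ∀ j : Z, ∑ c : Z, blk H Z ⟨z, hz⟩ c * (blk H Z).adjugate c j =
      if (⟨z, hz⟩ : Z) = j then (blk H Z).det else 0 := by
    intro j
    rw [← Matrix.mul_apply, Matrix.mul_adjugate, Matrix.smul_apply, Matrix.one_apply]
    split_ifs
    · rw [smul_eq_mul, mul_one]
    · rw [smul_zero]
  rw [h1, h2, h3]
  simp_rw [h4, ite_mul, zero_mul]
  rw [Finset.sum_ite_eq, if_pos (Finset.mem_univ _)]
  ring

/-- all rows -/
theorem row_zero (hd : (blk H Z).det ≠ 0) (hr : H.rank = Z.card) (v : ι → ℂ)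
    (hv : ∀ z ∈ Z, ∑ c, H z c * v c = 0) (b : ι) : ∑ c, H b c * v c = 0 := by
  have hli : LinearIndependent ℂ (fun z : Z => H z) := by
    rw [Fintype.linearIndependent_iff]
    intro c hc
    have h1 : Matrix.vecMul c (blk H Z) = 0 := by
      funext j
      have := congrFun hc j
      rw [Finset.sum_apply] at this
      simpa [Matrix.vecMul, dotProduct, blk] using this
    exact fun i => congrFun (Matrix.eq_zero_of_vecMul_eq_zero hd h1) i
  have hspan : Submodule.span ℂ (Set.range fun z : Z => H z) =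
      Submodule.span ℂ (Set.range fun i => H i) := by
    refine Submodule.eq_of_le_of_finrank_eq (Submodule.span_mono ?_) ?_
    · rintro _ ⟨z, rfl⟩
      exact ⟨z, rfl⟩
    · rw [finrank_span_eq_card hli, Fintype.card_coe, ← hr, Matrix.rank_eq_finrank_span_row]
      rfl
  let L : (ι → ℂ) →ₗ[ℂ] ℂ := ∑ l, v l • LinearMap.proj l
  have hL : ∀ x : ι → ℂ, L x = ∑ l, x l * v l := by
    intro x
    simp [L, LinearMap.sum_apply, mul_comm]
  have hle : Submodule.span ℂ (Set.range fun z : Z => H z) ≤ LinearMap.ker L := by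
    rw [Submodule.span_le]
    rintro _ ⟨k, rfl⟩
    change L (H k) = 0
    rw [hL]
    exact hv k k.2
  have hb : H b ∈ Submodule.span ℂ (Set.range fun i => H i) := Submodule.subset_span ⟨b, rfl⟩
  rw [← hspan] at hb
  have := hle hb
  rw [LinearMap.mem_ker, hL] at this
  exact this

theorem HB_all (hd : (blk H Z).det ≠ 0) (hr : H.rank = Z.card) {a : ι} (ha : a ∉ Z) (b : ι) :
    ∑ c, H b c * Bm H Z c a = 0 :=
  row_zero hd hr (fun c => Bm H Z c a) (fun _ hz => HB_Z ha hz) b

/-- the block `ZZ` does not change -/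
theorem BHB_Z {i j : ι} (hi : i ∈ Z) (hj : j ∈ Z) :
    ∑ c, ∑ d, Bm H Z c i * Bm H Z d j * H c d = H i j := by
  have h1 : ∀ c k, k ∈ Z → Bm H Z c k = if c = k then 1 else 0 := by
    intro c k hk
    unfold Bm
    by_cases hc : c ∈ Z
    · rw [dif_pos hc, if_pos hk]
    · have h : ¬ c = k := fun h => hc (by rw [h]; exact hk)
      rw [dif_neg hc, if_neg h, if_neg h]
  simp_rw [h1 _ i hi, h1 _ j hj]
  simp

end cx

/-! ### Affine substitutions -/

section aff

variable {ι : Type} [Fintype ι] [DecidableEq ι] (p : ι → ℂ) (M : ι → ι → ℂ)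
  (f : MvPolynomial ι ℂ)

/-- the affine coordinates `p + M x` -/
noncomputable def af (a : ι) : MvPolynomial ι ℂ := C (p a) + ∑ b, C (M a b) * X b

omit [DecidableEq ι] in
theorem af_zero (a : ι) : eval (fun _ => 0) (af p M a) = p a := by
  simp [af]

omit [DecidableEq ι] in
theorem af_pd (a b : ι) : pderiv b (af p M a) = C (M a b) := by
  unfold af
  rw [map_add, pderiv_C, zero_add, map_sum, Finset.sum_eq_single b]
  · rw [pderiv_C_mul, pderiv_X_self, mul_one]
  · intro c _ hc
    rw [pderiv_C_mul, pderiv_X_of_ne hc, mul_zero]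
  · intro h
    exact absurd (Finset.mem_univ _) h

omit [DecidableEq ι] in
theorem af_eval (g : MvPolynomial ι ℂ) :
    eval (fun _ => 0) (bind₁ (af p M) g) = eval p g := by
  rw [eval_bind]
  simp_rw [af_zero]

omit [DecidableEq ι] in
theorem af_grad (b : ι) : pderiv b (bind₁ (af p M) f) =
    ∑ a, C (M a b) * bind₁ (af p M) (pderiv a f) := by
  rw [chain]
  refine Finset.sum_congr rfl fun a _ => ?_
  rw [af_pd, mul_comm]

omit [DecidableEq ι] in
theorem af_grad0 (b : ι) : eval (fun _ => 0) (pderiv b (bind₁ (af p M) f)) =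
    ∑ a, M a b * eval p (pderiv a f) := by
  rw [af_grad, map_sum]
  refine Finset.sum_congr rfl fun a _ => ?_
  rw [map_mul, eval_C, af_eval]

omit [DecidableEq ι] in
theorem af_hess (c b : ι) : eval (fun _ => 0) (pderiv c (pderiv b (bind₁ (af p M) f))) =
    ∑ d, ∑ a, M d c * M a b * Hs f p d a := by
  rw [af_grad, map_sum, map_sum]
  simp_rw [pderiv_C_mul, map_mul, eval_C, af_grad0, Finset.mul_sum]
  rw [Finset.sum_comm]
  refine Finset.sum_congr rfl fun d _ => Finset.sum_congr rfl fun a _ => ?_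
  rw [Hs, Matrix.of_apply]
  ring

end aff

/-! ### Exponents of degree at most two -/

section ex

variable {ι : Type} [Fintype ι] [DecidableEq ι]

omit [DecidableEq ι] in
theorem one_step {d : ι →₀ ℕ} {n : ℕ} (h : ∑ a, d a ≤ n + 1) (h0 : d ≠ 0) :
    ∃ a, ∃ e : ι →₀ ℕ, d = Finsupp.single a 1 + e ∧ ∑ a, e a ≤ n := by
  obtain ⟨a, ha⟩ : ∃ a, d a ≠ 0 := by
    by_contra hh
    push Not at hh
    exact h0 (Finsupp.ext hh)
  have h1 : d = Finsupp.single a 1 + (d - Finsupp.single a 1) := by
    rw [add_comm, tsub_add_cancel_of_le]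
    rw [Finsupp.single_le_iff]
    omega
  refine ⟨a, _, h1, ?_⟩
  set e := d - Finsupp.single a 1
  have h2 : ∑ b, d b = 1 + ∑ b, e b := by
    rw [h1]
    simp only [Finsupp.add_apply, Finset.sum_add_distrib]
    congr 1
    rw [Finset.sum_eq_single a]
    · rw [Finsupp.single_eq_same]
    · intro b _ hb
      rw [Finsupp.single_eq_of_ne hb]
    · intro h
      exact absurd (Finset.mem_univ _) h
  omega

omit [DecidableEq ι] in
theorem zero_step {d : ι →₀ ℕ} (h : ∑ a, d a ≤ 0) : d = 0 := by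
  ext a
  have h1 := (Finset.sum_eq_zero_iff.1 (Nat.le_zero.1 h)) a (Finset.mem_univ a)
  simpa using h1

theorem two_step {d : ι →₀ ℕ} (h : ∑ a, d a ≤ 2) :
    d = 0 ∨ (∃ a, d = Finsupp.single a 1) ∨
      ∃ a b, d = Finsupp.single a 1 + Finsupp.single b 1 := by
  by_cases h0 : d = 0
  · exact Or.inl h0
  · obtain ⟨a, e, h1, h2⟩ := one_step (n := 1) h h0
    by_cases h3 : e = 0
    · right; left
      exact ⟨a, by rw [h1, h3, add_zero]⟩
    · obtain ⟨b, e', h4, h5⟩ := one_step (n := 0) h2 h3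
      right; right
      exact ⟨a, b, by rw [h1, h4, zero_step h5, add_zero]⟩

end ex

/-! ### The family -/

section fam

variable {ι : Type} [Fintype ι] [DecidableEq ι] (f : MvPolynomial ι ℂ) (Z : Finset ι)

/-- the Hessian matrix -/
noncomputable def HP : Matrix ι ι (MvPolynomial ι ℂ) :=
  Matrix.of fun a b => pderiv a (pderiv b f)

/-- the family of coordinates -/
noncomputable def phi (a : ι) : MvPolynomial (ι ⊕ ι) ℂ :=
  X (Sum.inl a) + ∑ b, rename Sum.inl (Bm (HP f) Z a b) * X (Sum.inr b)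

theorem sp_phi (p : ι → ℂ) (a : ι) : sp p (phi f Z a) = af p (Bm (Hs f p) Z) a := by
  unfold phi af
  rw [sp_add, sp_X_inl, sp_sum]
  congr 1
  refine Finset.sum_congr rfl fun b _ => ?_
  rw [sp_mul, sp_rename, sp_X_inr, Bm_map (eval p)]
  rfl

theorem coeff_zero' {p : ι → ℂ} (hp : p ∈ Rk f Z) {d : ι →₀ ℕ} (hd : ∑ a, d a ≤ 2)
    (hZ : dZ Z d ≤ 1) : coeff d (bind₁ (af p (Bm (Hs f p) Z)) f) = 0 := by
  obtain ⟨⟨hp0, hp1⟩, hdet, hrank⟩ := hp
  have hsym : ∀ a b, Hs f p a b = Hs f p b a := by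
    intro a b
    simp only [Hs, Matrix.of_apply]
    rw [RNK8Aux.pderiv_comm']
  have key : ∀ a b, b ∉ Z → eval (fun _ => 0)
      (pderiv a (pderiv b (bind₁ (af p (Bm (Hs f p) Z)) f))) = 0 := by
    intro a b hb
    rw [af_hess]
    refine Finset.sum_eq_zero fun d _ => ?_
    have h1 := HB_all (H := Hs f p) hdet hrank hb d
    have h2 : ∑ c, Bm (Hs f p) Z d a * Bm (Hs f p) Z c b * Hs f p d c =
        Bm (Hs f p) Z d a * ∑ c, Hs f p d c * Bm (Hs f p) Z c b := by
      rw [Finset.mul_sum]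
      refine Finset.sum_congr rfl fun c _ => ?_
      ring
    rw [h2, h1, mul_zero]
  have hz : ∀ a b, b ∉ Z → coeff (Finsupp.single a 1 + Finsupp.single b 1)
      (bind₁ (af p (Bm (Hs f p) Z)) f) = 0 := by
    intro a b hb
    have h1 := key a b hb
    rw [hess_coeff] at h1
    rcases mul_eq_zero.1 h1 with h2 | h2
    · exact h2
    · exfalso
      have h3 : (((Finsupp.single a 1 : ι →₀ ℕ) b : ℕ) : ℂ) + 1 =
          (((Finsupp.single a 1 : ι →₀ ℕ) b + 1 : ℕ) : ℂ) := by push_cast; ring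
      rw [h3, Nat.cast_eq_zero] at h2
      omega
  rcases two_step hd with rfl | ⟨a, rfl⟩ | ⟨a, b, rfl⟩
  · rw [← eval_zero_eq, af_eval, hp0]
  · rw [← grad_coeff, af_grad0]
    refine Finset.sum_eq_zero fun c _ => ?_
    rw [hp1, mul_zero]
  · by_cases hb : b ∈ Z
    · by_cases ha : a ∈ Z
      · exfalso
        rw [dZ_add, dZ_single, dZ_single, if_pos ha, if_pos hb] at hZ
        omega
      · rw [add_comm]
        exact hz b a ha
    · exact hz a b hb

end fam

end SPA8Aux

open SPA8Aux CHX CHY in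
/-- the quadratic part of the splitting lemma -/
theorem stmt_SPA8 : Stmt_SPA8 := by
  intro ι _ _ f Z
  refine ⟨phi f Z, fun p hp => ?_⟩
  have h0 : (fun a => sp p (phi f Z a)) = af p (Bm (Hs f p) Z) := by
    funext a
    exact sp_phi f Z p a
  rw [h0]
  have hdet : (blk (Hs f p) Z).det ≠ 0 := hp.2.1
  refine ⟨⟨af_zero p _, ?_⟩, ⟨fun d hd => ?_, ?_⟩⟩
  · have h1 : (Matrix.of fun a b => eval (fun _ => (0 : ℂ)) (pderiv b (af p (Bm (Hs f p) Z) a))) =
        Matrix.of fun a b => Bm (Hs f p) Z a b := by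
      ext a b
      rw [Matrix.of_apply, Matrix.of_apply, af_pd, eval_C]
    rw [h1]
    exact Bm_det hdet
  · rw [mem_support_iff] at hd
    have h1 : ∑ a, d a = dZ Z d + dZ Zᶜ d := by
      unfold dZ
      rw [Finset.sum_add_sum_compl]
    refine ⟨fun h2 => ?_, fun h2 => ?_⟩
    · by_contra h3
      exact hd (coeff_zero' f Z hp (by omega) (by omega))
    · by_contra h3
      exact hd (coeff_zero' f Z hp (by omega) (by omega))
  · have h1 : HZ (bind₁ (af p (Bm (Hs f p) Z)) f) Z (fun _ => 0) = blk (Hs f p) Z := by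
      ext i j
      change eval (fun _ => (0 : ℂ)) (pderiv (i : ι) (pderiv (j : ι)
        (bind₁ (af p (Bm (Hs f p) Z)) f))) = Hs f p i j
      rw [af_hess, BHB_Z i.2 j.2]
    rw [h1]
    exact hdet

end Pool.Agent.Mono.SP
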