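import Pool.Agent.Work.Monodromy8.CHY

/-! Block SPB8 (helper75): the splitting lemma in families, one step. -/

set_option autoImplicit false

namespace Pool.Agent.Mono.SP

open MvPolynomial TS RO PC

namespace SPB8Aux

open CHX CHY

section
variable {ι : Type} [Fintype ι] [DecidableEq ι] (Z : Finset ι)

/-- weight counting the variables outside `Z` -/
def w1 (a : ι) : ℕ := if a ∈ Z then 0 else 1

/-- weight `k` on `Z`, `1` outside -/
def v2 (k : ℕ) (a : ι) : ℕ := if a ∈ Z then k else 1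

theorem wt_w1 (d : ι →₀ ℕ) : wt (w1 Z) d = dZ Zᶜ d := by
  unfold wt dZ w1
  rw [← Finset.sum_add_sum_compl Z]
  have h1 : ∑ a ∈ Z, (if a ∈ Z then 0 else 1) * d a = 0 :=
    Finset.sum_eq_zero fun a ha => by rw [if_pos ha, zero_mul]
  rw [h1, zero_add]
  refine Finset.sum_congr rfl fun a ha => ?_
  rw [if_neg (Finset.mem_compl.1 ha), one_mul]

theorem wt_v2 (k : ℕ) (d : ι →₀ ℕ) : wt (v2 Z k) d = k * dZ Z d + dZ Zᶜ d := by
  unfold wt dZ v2
  rw [← Finset.sum_add_sum_compl Z, Finset.mul_sum]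
  congr 1
  · exact Finset.sum_congr rfl fun a ha => by rw [if_pos ha]
  · exact Finset.sum_congr rfl fun a ha => by rw [if_neg (Finset.mem_compl.1 ha), one_mul]

variable {Z} {K' : ℕ} (hK : 2 ≤ K') {F : MvPolynomial ι ℂ} (hS : Spl Z K' F)
  {c : ι → MvPolynomial ι ℂ}
  (hc : ∀ i ∈ Z, ∀ α, coeff α (c i) =
    if dZ Z α = 0 ∧ dZ Zᶜ α = K' then coeff (α + Finsupp.single i 1) F else 0)

/-- the shift of the variables in `Z` -/
noncomputable def eta (K' : ℕ) (F : MvPolynomial ι ℂ) (c : ι → MvPolynomial ι ℂ) (i : Z) :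
    MvPolynomial ι ℂ :=
  -∑ j : Z, C ((HZ F Z fun _ => 0).det ^ (K' - 1) * (HZ F Z fun _ => 0).adjugate i j) * c j

/-- the new coordinates -/
noncomputable def psi (Z : Finset ι) (K' : ℕ) (F : MvPolynomial ι ℂ)
    (c : ι → MvPolynomial ι ℂ) (a : ι) : MvPolynomial ι ℂ :=
  if h : a ∈ Z then X a + eta K' F c ⟨a, h⟩ else C (HZ F Z fun _ => 0).det * X a

include hc

theorem c_pd {i j : ι} (hi : i ∈ Z) (hj : j ∈ Z) : pderiv i (c j) = 0 := by
  ext m
  rw [coeff_pderiv, hc j hj, if_neg, zero_mul, coeff_zero]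
  rintro ⟨h, _⟩
  rw [dZ_add, dZ_single, if_pos hi] at h
  omega

theorem eta_pd {i : ι} (hi : i ∈ Z) (j : Z) : pderiv i (eta K' F c j) = 0 := by
  unfold eta
  rw [map_neg, map_sum, neg_eq_zero]
  refine Finset.sum_eq_zero fun l _ => ?_
  rw [pderiv_C_mul, c_pd hc hi l.2, mul_zero]

theorem psi_pd {i : ι} (hi : i ∈ Z) (a : ι) :
    pderiv i (psi Z K' F c a) = if a = i then 1 else 0 := by
  unfold psi
  by_cases h : a ∈ Z
  · rw [dif_pos h, map_add, eta_pd hc hi, add_zero, pderiv_X, Pi.single_apply]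
  · rw [dif_neg h, pderiv_C_mul, pderiv_X_of_ne (fun hh => h (by rw [hh]; exact hi)), mul_zero,
      if_neg (fun hh => h (by rw [hh]; exact hi))]

theorem bind_pd {i : ι} (hi : i ∈ Z) (G : MvPolynomial ι ℂ) :
    pderiv i (bind₁ (psi Z K' F c) G) = bind₁ (psi Z K' F c) (pderiv i G) := by
  rw [chain]
  simp_rw [psi_pd hc hi]
  rw [Finset.sum_eq_single i]
  · rw [if_pos rfl, mul_one]
  · intro b _ hb
    rw [if_neg hb, mul_zero]
  · intro h
    exact absurd (Finset.mem_univ i) h

theorem rho_c {j : ι} (hj : j ∈ Z) : rho Z (c j) = c j := by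
  ext m
  rw [coeff_rho]
  split_ifs with h
  · rfl
  · rw [hc j hj, if_neg (fun hh => h hh.1)]

theorem rho_eta (j : Z) : rho Z (eta K' F c j) = eta K' F c j := by
  unfold eta
  rw [map_neg, map_sum]
  congr 1
  refine Finset.sum_congr rfl fun l _ => ?_
  rw [map_mul, rho_c hc l.2]
  congr 1
  exact bind₁_C_right _ _

omit hc in
theorem rho_X (a : ι) : rho Z (X a : MvPolynomial ι ℂ) = if a ∈ Z then 0 else X a := by
  rw [rho, bind₁_X_right]

theorem rho_psi (a : ι) : rho Z (psi Z K' F c a) =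
    if h : a ∈ Z then eta K' F c ⟨a, h⟩ else C (HZ F Z fun _ => 0).det * X a := by
  unfold psi
  by_cases h : a ∈ Z
  · rw [dif_pos h, dif_pos h, map_add, rho_X, if_pos h, zero_add, rho_eta hc]
  · rw [dif_neg h, dif_neg h, map_mul, rho_X, if_neg h]
    congr 1
    exact bind₁_C_right _ _

theorem c_GE {j : ι} (hj : j ∈ Z) : GE (w1 Z) K' (c j) := by
  intro d hd
  rw [hc j hj] at hd
  split_ifs at hd with h
  · rw [wt_w1, h.2]
  · exact absurd rfl hd

theorem eta_GE (j : Z) : GE (w1 Z) K' (eta K' F c j) := by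
  unfold eta
  exact (GE.sum _ fun l _ => (c_GE hc l.2).C_mul _).neg

include hK

theorem psi_zero (a : ι) : eval (fun _ => 0) (psi Z K' F c a) = 0 := by
  have h1 : ∀ j ∈ Z, eval (fun _ => 0) (c j) = 0 := by
    intro j hj
    rw [eval_zero_eq, hc j hj, if_neg]
    rintro ⟨_, h⟩
    rw [dZ_zero] at h
    omega
  unfold psi
  by_cases h : a ∈ Z
  · rw [dif_pos h, map_add, eval_X, zero_add]
    unfold eta
    rw [map_neg, map_sum, neg_eq_zero]
    refine Finset.sum_eq_zero fun l _ => ?_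
    rw [map_mul, h1 l l.2, mul_zero]
  · rw [dif_neg h, map_mul, eval_X, mul_zero]

include hS

theorem psi_co : IsCo (fun _ => 0) (psi Z K' F c) := by
  refine ⟨psi_zero hK hc, ?_⟩
  have h1 : ∀ j ∈ Z, ∀ b, eval (fun _ => 0) (pderiv b (c j)) = 0 := by
    intro j hj b
    rw [grad_coeff, hc j hj, if_neg]
    rintro ⟨_, h⟩
    rw [dZ_single] at h
    split_ifs at h <;> omega
  have h2 : (Matrix.of fun a b => eval (fun _ => (0 : ℂ)) (pderiv b (psi Z K' F c a))) =
      Matrix.diagonal (fun a => if a ∈ Z then 1 else (HZ F Z fun _ => 0).det) := by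
    ext a b
    rw [Matrix.of_apply, Matrix.diagonal_apply]
    unfold psi
    by_cases h : a ∈ Z
    · rw [dif_pos h, map_add, map_add, if_pos h]
      have h3 : eval (fun _ => (0 : ℂ)) (pderiv b (eta K' F c ⟨a, h⟩)) = 0 := by
        unfold eta
        rw [map_neg, map_neg, map_sum, map_sum, neg_eq_zero]
        refine Finset.sum_eq_zero fun l _ => ?_
        rw [pderiv_C_mul, map_mul, h1 l l.2, mul_zero]
      rw [h3, add_zero, pderiv_X, Pi.single_apply]
      by_cases hab : a = b
      · rw [if_pos hab, if_pos hab, map_one]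
      · rw [if_neg hab, if_neg hab, map_zero]
    · rw [dif_neg h, pderiv_C_mul, map_mul, eval_C, pderiv_X, Pi.single_apply, if_neg h]
      by_cases hab : a = b
      · rw [if_pos hab, if_pos hab, map_one, mul_one]
      · rw [if_neg hab, if_neg hab, map_zero, mul_zero]
  rw [h2, Matrix.det_diagonal]
  refine Finset.prod_ne_zero_iff.2 fun a _ => ?_
  split_ifs
  · exact one_ne_zero
  · exact hS.2

theorem psi_hess : HZ (bind₁ (psi Z K' F c) F) Z (fun _ => 0) = HZ F Z (fun _ => 0) := by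
  ext i j
  simp only [HZ, Hs, Matrix.submatrix_apply, Matrix.of_apply]
  rw [bind_pd hc j.2, bind_pd hc i.2, eval_bind]
  simp only [psi_zero hK hc]

theorem lin_zero {i : ι} (hi : i ∈ Z) :
    bind₁ (fun a => rho Z (psi Z K' F c a))
      (∑ j : Z, C (HZ F Z (fun _ => 0) ⟨i, hi⟩ j) * X (j : ι) + c i) = 0 := by
  set δ := (HZ F Z fun _ => 0).det with hδ
  have h1 : bind₁ (fun a => rho Z (psi Z K' F c a)) (c i) = C (δ ^ K') * c i := by
    conv_lhs => rw [← (c i).support_sum_monomial_coeff, map_sum]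
    conv_rhs => rw [← (c i).support_sum_monomial_coeff, Finset.mul_sum]
    refine Finset.sum_congr rfl fun d hd => ?_
    rw [mem_support_iff, hc i hi] at hd
    have hd' : dZ Z d = 0 ∧ dZ Zᶜ d = K' := by
      by_contra hh
      rw [if_neg hh] at hd
      exact hd rfl
    obtain ⟨hd1, hd2⟩ := hd'
    rw [dZ_eq_zero] at hd1
    rw [bind₁_monomial]
    have h2 : ∏ a ∈ d.support, rho Z (psi Z K' F c a) ^ d a =
        C (δ ^ K') * ∏ a ∈ d.support, (X a : MvPolynomial ι ℂ) ^ d a := by
      have h3 : ∀ a ∈ d.support, rho Z (psi Z K' F c a) ^ d a = C (δ ^ d a) * X a ^ d a := by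
        intro a ha
        have haZ : a ∉ Z := fun h => (Finsupp.mem_support_iff.1 ha) (hd1 a h)
        rw [rho_psi hc, dif_neg haZ, mul_pow, ← C_pow]
      rw [Finset.prod_congr rfl h3, Finset.prod_mul_distrib, ← map_prod, Finset.prod_pow_eq_pow_sum]
      congr 3
      rw [← hd2]
      unfold dZ
      symm
      refine (Finset.sum_subset ?_ ?_).symm
      · intro a ha
        exact Finset.mem_compl.2 fun h => (Finsupp.mem_support_iff.1 ha) (hd1 a h)
      · intro a _ ha
        exact Finsupp.notMem_support_iff.1 ha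
    rw [h2, monomial_eq, Finsupp.prod]
    ring
  rw [map_add, h1, map_sum]
  have h4 : ∀ j : Z, bind₁ (fun a => rho Z (psi Z K' F c a))
      (C (HZ F Z (fun _ => 0) ⟨i, hi⟩ j) * X (j : ι)) =
      -∑ l : Z, C (δ ^ (K' - 1) * (HZ F Z (fun _ => 0) ⟨i, hi⟩ j *
        (HZ F Z fun _ => 0).adjugate j l)) * c l := by
    intro j
    rw [map_mul, bind₁_C_right, bind₁_X_right, rho_psi hc, dif_pos j.2]
    unfold eta
    rw [mul_neg, Finset.mul_sum]
    congr 1
    refine Finset.sum_congr rfl fun l _ => ?_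
    rw [← mul_assoc, ← C_mul]
    congr 2
    ring
  rw [Finset.sum_congr rfl fun j _ => h4 j, Finset.sum_neg_distrib, Finset.sum_comm]
  have h5 : ∀ l : Z, ∑ j : Z, C (δ ^ (K' - 1) * (HZ F Z (fun _ => 0) ⟨i, hi⟩ j *
        (HZ F Z fun _ => 0).adjugate j l)) * c l =
      if (⟨i, hi⟩ : Z) = l then C (δ ^ K') * c i else 0 := by
    intro l
    rw [← Finset.sum_mul, ← map_sum, ← Finset.mul_sum, ← Matrix.mul_apply,
      Matrix.mul_adjugate, Matrix.smul_apply, Matrix.one_apply, ← hδ]
    split_ifs with h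
    · rw [smul_eq_mul, mul_one, ← pow_succ, Nat.sub_add_cancel (by omega), ← h]
    · rw [smul_zero, mul_zero, C_0, zero_mul]
  rw [Finset.sum_congr rfl fun l _ => h5 l, Finset.sum_ite_eq, if_pos (Finset.mem_univ _)]
  ring

theorem rest_GE {i : ι} (hi : i ∈ Z) :
    GE (v2 Z K') (K' + 1) (pderiv i F -
      (∑ j : Z, C (HZ F Z (fun _ => 0) ⟨i, hi⟩ j) * X (j : ι) + c i)) := by
  intro d hd
  rw [wt_v2]
  by_contra hlt
  apply hd
  clear hd
  rw [not_le] at hlt
  rw [coeff_sub, coeff_add, coeff_pderiv, coeff_sum]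
  simp only [coeff_C_mul, coeff_X']
  by_cases h0 : dZ Z d = 0
  · have hdi : d i = 0 := (dZ_eq_zero Z).1 h0 i hi
    have h1 : ∀ j : Z, (HZ F Z (fun _ => 0) ⟨i, hi⟩ j *
        if Finsupp.single (j : ι) 1 = d then (1 : ℂ) else 0) = 0 := by
      intro j
      rw [if_neg, mul_zero]
      intro h
      rw [← h, dZ_single, if_pos j.2] at h0
      omega
    rw [Finset.sum_eq_zero fun j _ => h1 j, hdi, zero_add, hc i hi]
    have h2 : ((0 : ℕ) : ℂ) + 1 = 1 := by norm_num
    rw [h2, mul_one]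
    by_cases h3 : dZ Zᶜ d = K'
    · rw [if_pos ⟨h0, h3⟩, sub_self]
    · rw [if_neg (fun hh => h3 hh.2), sub_zero]
      by_contra h4
      have h5 := (hS.1 _ (mem_support_iff.2 h4)).2 (by
        rw [dZ_add, h0, dZ_single, if_pos hi])
      rw [dZ_add, dZ_single, if_neg (by simp [hi])] at h5
      omega
  · have h1 : dZ Z d = 1 ∧ dZ Zᶜ d = 0 := by
      have h2 : 1 ≤ dZ Z d := Nat.one_le_iff_ne_zero.2 h0
      have h3 : ¬ 2 ≤ dZ Z d := by
        intro h
        have : K' * 2 ≤ K' * dZ Z d := Nat.mul_le_mul_left _ h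
        omega
      have h4 : dZ Z d = 1 := by omega
      rw [h4, mul_one] at hlt
      exact ⟨h4, by omega⟩
    obtain ⟨j, hj, hdj⟩ : ∃ j ∈ Z, d = Finsupp.single j 1 := by
      have h2 : ∃ j ∈ Z, d j ≠ 0 := by
        by_contra hh
        push Not at hh
        exact h0 ((dZ_eq_zero Z).2 hh)
      obtain ⟨j, hj, hdj⟩ := h2
      refine ⟨j, hj, ?_⟩
      ext a
      have h3 : ∀ b ∈ Z.erase j, d b = 0 := by
        intro b hb
        have h4 : d j + ∑ b ∈ Z.erase j, d b = 1 := by
          rw [Finset.add_sum_erase _ _ hj]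
          exact h1.1
        have h5 : ∑ b ∈ Z.erase j, d b = 0 := by omega
        exact (Finset.sum_eq_zero_iff.1 h5) b hb
      have h4 : d j = 1 := by
        have h5 : d j + ∑ b ∈ Z.erase j, d b = 1 := by
          rw [Finset.add_sum_erase _ _ hj]
          exact h1.1
        rw [Finset.sum_eq_zero h3] at h5
        omega
      by_cases haj : a = j
      · rw [haj, Finsupp.single_eq_same, h4]
      · rw [Finsupp.single_eq_of_ne haj]
        by_cases haZ : a ∈ Z
        · exact h3 a (Finset.mem_erase.2 ⟨haj, haZ⟩)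
        · exact (dZ_eq_zero _).1 h1.2 a (Finset.mem_compl.2 haZ)
    rw [hc i hi, if_neg (fun hh => h0 hh.1), add_zero, Finset.sum_eq_single ⟨j, hj⟩]
    · rw [hdj, if_pos rfl, mul_one]
      simp only [HZ, Hs, Matrix.submatrix_apply, Matrix.of_apply]
      rw [hess_coeff, add_comm (Finsupp.single j 1)]
      have h2 : (Finsupp.single j 1 : ι →₀ ℕ) i = (Finsupp.single i 1 : ι →₀ ℕ) j := by
        rw [Finsupp.single_apply, Finsupp.single_apply]
        by_cases h : j = i
        · rw [if_pos h, if_pos h.symm]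
        · rw [if_neg h, if_neg fun hh => h hh.symm]
      rw [h2, sub_self]
    · intro b _ hb
      rw [if_neg, mul_zero]
      intro h
      rw [hdj] at h
      apply hb
      apply Subtype.ext
      exact Finsupp.single_left_injective one_ne_zero h
    · intro h
      exact absurd (Finset.mem_univ _) h

theorem psi_spl : Spl Z (K' + 1) (bind₁ (psi Z K' F c) F) := by
  refine ⟨fun d hd => ?_, ?_⟩
  swap
  · rw [psi_hess hK hS hc]
    exact hS.2
  rw [mem_support_iff] at hd
  refine ⟨fun h0 => ?_, fun h1 => ?_⟩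
  · have h2 : GE (w1 Z) 3 (rho Z (bind₁ (psi Z K' F c) F)) := by
      rw [rho, bind₁_bind₁]
      have h3 : GE (v2 Z 2) 3 F := by
        intro e he
        rw [wt_v2]
        have h4 := hS.1 e (mem_support_iff.2 he)
        rcases Nat.lt_or_ge (dZ Z e) 2 with h5 | h5
        · rcases Nat.lt_or_ge (dZ Z e) 1 with h6 | h6
          · have := h4.1 (by omega)
            omega
          · have := h4.2 (by omega)
            omega
        · omega
      refine h3.bind fun a => ?_
      have h4 := rho_psi (K' := K') (F := F) hc a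
      rw [rho] at h4
      rw [h4]
      unfold v2
      by_cases haZ : a ∈ Z
      · rw [if_pos haZ, dif_pos haZ]
        exact (eta_GE hc _).mono hK
      · rw [if_neg haZ, dif_neg haZ]
        refine GE.C_mul ?_ _
        have := GE_X (w1 Z) a
        rwa [w1, if_neg haZ] at this
    have h3 := h2 d (by rw [coeff_rho, if_pos h0]; exact hd)
    rwa [wt_w1] at h3
  · obtain ⟨i, hi, hdi⟩ : ∃ i ∈ Z, d i ≠ 0 := by
      by_contra hh
      push Not at hh
      rw [(dZ_eq_zero Z).2 hh] at h1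
      omega
    set α := d - Finsupp.single i 1 with hα
    have hd2 : d = α + Finsupp.single i 1 := by
      rw [hα, tsub_add_cancel_of_le]
      rw [Finsupp.single_le_iff]
      omega
    have hα0 : dZ Z α = 0 := by
      rw [hd2, dZ_add, dZ_single, if_pos hi] at h1
      omega
    have hαi : α i = 0 := (dZ_eq_zero Z).1 hα0 i hi
    have h2 : coeff α (rho Z (pderiv i (bind₁ (psi Z K' F c) F))) ≠ 0 := by
      rw [coeff_rho, if_pos hα0, coeff_pderiv, ← hd2, hαi]
      simpa using hd
    have h3 : GE (w1 Z) (K' + 1) (rho Z (pderiv i (bind₁ (psi Z K' F c) F))) := by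
      rw [bind_pd hc hi, rho, bind₁_bind₁]
      have h4 : pderiv i F = (pderiv i F - (∑ j : Z, C (HZ F Z (fun _ => 0) ⟨i, hi⟩ j) *
          X (j : ι) + c i)) + (∑ j : Z, C (HZ F Z (fun _ => 0) ⟨i, hi⟩ j) *
          X (j : ι) + c i) := by ring
      have h5 := lin_zero hK hS hc hi
      rw [rho] at h5
      rw [h4, map_add, h5, add_zero]
      refine (rest_GE hK hS hc hi).bind fun a => ?_
      have h6 := rho_psi (K' := K') (F := F) hc a
      rw [rho] at h6
      rw [h6]
      unfold v2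
      by_cases haZ : a ∈ Z
      · rw [if_pos haZ, dif_pos haZ]
        exact eta_GE hc _
      · rw [if_neg haZ, dif_neg haZ]
        refine GE.C_mul ?_ _
        have := GE_X (w1 Z) a
        rwa [w1, if_neg haZ] at this
    have h4 := h3 α h2
    rw [wt_w1] at h4
    rw [hd2, dZ_add]
    omega

end

section fam

variable {ι : Type} [Fintype ι] [DecidableEq ι] (Z : Finset ι) (K' : ℕ)
  (Q : MvPolynomial ι (MvPolynomial ι ℂ))

/-- the Hessian block at the origin, in families -/
noncomputable def hR : Matrix Z Z (MvPolynomial ι ℂ) :=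
  Matrix.of fun i j => constantCoeff (pderiv (i : ι) (pderiv (j : ι) Q))

/-- the exponents of `c i` -/
noncomputable def cS (i : ι) : Finset (ι →₀ ℕ) :=
  (Q.support.image fun d => d - Finsupp.single i 1).filter
    fun α => dZ Z α = 0 ∧ dZ Zᶜ α = K'

/-- `c i`, in families -/
noncomputable def cR (i : ι) : MvPolynomial ι (MvPolynomial ι ℂ) :=
  ∑ α ∈ cS Z K' Q i, monomial α (coeff (α + Finsupp.single i 1) Q)

/-- the new coordinates, in families -/
noncomputable def psiR (a : ι) : MvPolynomial ι (MvPolynomial ι ℂ) :=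
  if h : a ∈ Z then X a + -∑ j : Z, C ((hR Z Q).det ^ (K' - 1) * (hR Z Q).adjugate ⟨a, h⟩ j) *
    cR Z K' Q j else C (hR Z Q).det * X a

variable {Z K' Q} (p : ι → ℂ)

theorem map_hR : (eval p).mapMatrix (hR Z Q) =
    HZ (MvPolynomial.map (eval p) Q) Z fun _ => 0 := by
  ext i j
  simp only [hR, HZ, Hs, Matrix.submatrix_apply, Matrix.of_apply, RingHom.mapMatrix_apply,
    Matrix.map_apply]
  rw [pderiv_map, pderiv_map, eval_zero_eq, coeff_map, constantCoeff_eq]

theorem map_cR (i : ι) (α : ι →₀ ℕ) : coeff α (MvPolynomial.map (eval p) (cR Z K' Q i)) =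
    if dZ Z α = 0 ∧ dZ Zᶜ α = K' then
      coeff (α + Finsupp.single i 1) (MvPolynomial.map (eval p) Q) else 0 := by
  rw [coeff_map, coeff_map, cR, coeff_sum]
  simp only [coeff_monomial]
  rw [Finset.sum_ite_eq']
  by_cases h : dZ Z α = 0 ∧ dZ Zᶜ α = K'
  · rw [if_pos h]
    by_cases h1 : coeff (α + Finsupp.single i 1) Q = 0
    · rw [h1, map_zero]
      split_ifs
      · rw [map_zero]
      · rw [map_zero]
    · rw [if_pos]
      refine Finset.mem_filter.2 ⟨Finset.mem_image.2 ⟨_, mem_support_iff.2 h1, ?_⟩, h⟩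
      rw [add_tsub_cancel_right]
  · rw [if_neg h, if_neg, map_zero]
    intro h1
    exact h (Finset.mem_filter.1 h1).2

theorem map_psiR (a : ι) : MvPolynomial.map (eval p) (psiR Z K' Q a) =
    psi Z K' (MvPolynomial.map (eval p) Q) (fun i => MvPolynomial.map (eval p) (cR Z K' Q i)) a := by
  have h1 : eval p (hR Z Q).det = (HZ (MvPolynomial.map (eval p) Q) Z fun _ => 0).det := by
    rw [RingHom.map_det, map_hR]
  have h2 : ∀ i j, eval p ((hR Z Q).adjugate i j) =
      (HZ (MvPolynomial.map (eval p) Q) Z fun _ => 0).adjugate i j := by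
    intro i j
    rw [← map_hR, ← RingHom.map_adjugate]
    rfl
  unfold psiR psi
  by_cases h : a ∈ Z
  · rw [dif_pos h, dif_pos h, map_add, map_X, map_neg, map_sum]
    unfold eta
    congr 2
    refine Finset.sum_congr rfl fun j _ => ?_
    rw [map_mul, map_C, map_mul, map_pow, h1, h2]
  · rw [dif_neg h, dif_neg h, map_mul, map_C, map_X, h1]

end fam

end SPB8Aux

open SPB8Aux CHX in
/-- one step of the splitting lemma -/
theorem stmt_SPB8 : Stmt_SPB8 := by
  intro ι _ _ G Z K' hK
  refine ⟨fun a => ofQ (psiR Z K' (toQ G) a), fun p hS => ?_⟩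
  have h1 : (fun a => sp p (ofQ (psiR Z K' (toQ G) a))) = psi Z K' (sp p G)
      (fun i => MvPolynomial.map (eval p) (cR Z K' (toQ G) i)) := by
    funext a
    rw [sp_ofQ, map_psiR, sp_toQ]
  have hc : ∀ i ∈ Z, ∀ α, coeff α (MvPolynomial.map (eval p) (cR Z K' (toQ G) i)) =
      if dZ Z α = 0 ∧ dZ Zᶜ α = K' then coeff (α + Finsupp.single i 1) (sp p G) else 0 := by
    intro i _ α
    rw [map_cR, sp_toQ]
  rw [h1]
  exact ⟨psi_co hK hS hc, psi_spl hK hS hc⟩

end Pool.Agent.Mono.SP
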