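import Pool.Agent.Work.Monodromy.Interface8

/-! # Phase 8, block SPL8 : the splitting lemma in families (helper94) -/

set_option autoImplicit false

namespace Pool.Agent.Mono.SP

open MvPolynomial TS RO PC

namespace SPL8Aux

variable {ι κ : Type}

theorem sp_bind (p : ι → ℂ) (φ : ι → MvPolynomial (ι ⊕ κ) ℂ) (f : MvPolynomial ι ℂ) :
    sp p (bind₁ φ f) = bind₁ (fun a => sp p (φ a)) f := by
  unfold sp
  rw [aeval_bind₁]
  rfl

/-- one more change of coordinates -/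
theorem step [Fintype ι] [DecidableEq ι] (hCMP : Stmt_CMP8) {f : MvPolynomial ι ℂ}
    {S T : Set (ι → ℂ)} {Φ Ψ : (ι → ℂ) → MvPolynomial ι ℂ → Prop} (hTS : T ⊆ S)
    (h : FamC f S Φ)
    (hst : ∀ G : MvPolynomial (ι ⊕ ι) ℂ, ∃ ψ : ι → MvPolynomial (ι ⊕ ι) ℂ, ∀ p ∈ T,
      Φ p (sp p G) → (IsCo (fun _ => 0) fun a => sp p (ψ a)) ∧
        Ψ p (bind₁ (fun a => sp p (ψ a)) (sp p G))) : FamC f T Ψ := by
  obtain ⟨φ, hφ⟩ := h
  obtain ⟨ψ, hψ⟩ := hst (bind₁ φ f)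
  obtain ⟨χ, hχ⟩ := hCMP ι f φ ψ
  refine ⟨χ, fun p hp => ?_⟩
  obtain ⟨h1, h2⟩ := hφ p (hTS hp)
  have h3 := hψ p hp
  rw [sp_bind] at h3
  obtain ⟨h4, h5⟩ := h3 h2
  refine ⟨(hχ p).2 h1 h4, ?_⟩
  rw [(hχ p).1]
  exact h5

end SPL8Aux

open SPL8Aux

theorem stmt_SPL8 (hA : Stmt_SPA8) (hB : Stmt_SPB8) (hCMP : Stmt_CMP8) : Stmt_SPL8 := by
  intro ι _ _ f Z K' hK
  induction K', hK using Nat.le_induction with
  | base => exact hA ι f Z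
  | succ K' hK ih =>
    refine step hCMP (Set.Subset.refl _) ih fun G => ?_
    obtain ⟨ψ, hψ⟩ := hB ι G Z K' hK
    exact ⟨ψ, fun p _ h => hψ p h⟩

end Pool.Agent.Mono.SP
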