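import Pool.Agent.Work.Monodromy8.CHA8

/-!
# Block T08: nondegenerate critical points
-/

set_option autoImplicit false

namespace Pool.Agent.Mono.SP

open MvPolynomial TS RO PC LDF8Aux CHA8

theorem stmt_T08 : Stmt_T08 := by
  intro ι _ _ _ f p hp
  obtain ⟨hc, hdet, -⟩ := hp
  have hφ := isCo_tr p
  have h0 := coeff_zero_of hφ hc
  have h1 := coeff_single_of hφ hc
  have hH : Hs (bind₁ (tr p) f) (fun _ => 0) = Hs f p := by
    ext a b
    rw [Hs, Hs, Matrix.of_apply, Matrix.of_apply, pderiv_tr, pderiv_tr, eval_tr]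
  have hwt : ∀ d : ι →₀ ℕ, Finsupp.weight (fun _ : ι => 1) d = dZ Finset.univ d := by
    intro d
    rw [weight_eq, dZ]
    simp
  have hno : ∀ d ∈ (bind₁ (tr p) f).support, 2 ≤ dZ Finset.univ d := by
    intro d hd
    rw [mem_support_iff] at hd
    by_contra hlt
    push Not at hlt
    rcases Nat.lt_or_ge (dZ Finset.univ d) 1 with h | h
    · apply hd
      have : d = 0 := by
        have h' : dZ Finset.univ d = 0 := by omega
        rw [dZ, Finset.sum_eq_zero_iff] at h'
        ext i
        exact h' i (Finset.mem_univ i)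
      rw [this]
      exact h0
    · obtain ⟨c, -, rfl⟩ := eq_single (Z := Finset.univ) (d := d) (by omega) (by simp [dZ])
      exact hd (h1 c)
  refine sim_of hφ hc (w := fun _ => 1) (D := 2) ?_ 2 le_rfl ?_
  · refine LDF8Aux.main (Z := Finset.univ) (K' := 0) ⟨fun d hd => ⟨fun h => ?_, fun h => ?_⟩, ?_⟩
      (fun _ => le_rfl) (by norm_num) (fun _ _ => rfl) (fun d hd => ⟨?_, fun h => ?_⟩) ?_
    · have := hno d hd
      omega
    · exact Nat.zero_le _
    · rw [HZ, hH]
      exact hdet
    · rw [hwt]
      exact hno d hd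
    · have := hno d hd
      omega
    · intro x hx _
      funext i
      exact hx i (Finset.mem_univ i)
  · simp
    ring

end Pool.Agent.Mono.SP
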