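import Pool.Agent.Work.Monodromy8.T2C8

/-!
# Block T18: corank `1`, type `A`
-/

set_option autoImplicit false
set_option linter.unusedSectionVars false

namespace Pool.Agent.Mono.SP

open MvPolynomial TS RO PC LDF8Aux CHA8 T2C8Aux

namespace T18Aux

variable {ι : Type} [Fintype ι] [DecidableEq ι]

theorem dZc_one {Z : Finset ι} {u : ι} (hZ : Zᶜ = {u}) (d : ι →₀ ℕ) : dZ Zᶜ d = d u := by
  rw [dZ, hZ, Finset.sum_singleton]

theorem notMem_one {Z : Finset ι} {u : ι} (hZ : Zᶜ = {u}) : u ∉ Z := by
  have : u ∈ Zᶜ := by rw [hZ]; exact Finset.mem_singleton_self _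
  simpa using this

theorem eq_one {Z : Finset ι} {u : ι} (hZ : Zᶜ = {u}) {d : ι →₀ ℕ} (h : dZ Z d = 0) :
    d = Finsupp.single u (d u) := by
  rw [dZ, Finset.sum_eq_zero_iff] at h
  ext i
  rw [Finsupp.single_apply]
  by_cases hi : i ∈ Z
  · have h1 : u ≠ i := fun h' => notMem_one hZ (h' ▸ hi)
    rw [if_neg h1, h i hi]
  · have : i ∈ Zᶜ := by simpa using hi
    rw [hZ, Finset.mem_singleton] at this
    rw [if_pos this.symm, this]

/-- `x^j` -/
theorem power_crit {Z : Finset ι} {u : ι} (hZ : Zᶜ = {u}) {G : MvPolynomial ι ℂ} {j : ℕ}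
    (hj : 2 ≤ j) (hne : coeff (Finsupp.single u j) G ≠ 0) (x : ι → ℂ) (hx : ∀ b ∈ Z, x b = 0)
    (h : ∀ a, eval x (pderiv a (ini (fun i => if i ∈ Z then j else 2) (2 * j) G)) = 0) :
    x = 0 := by
  set w : ι → ℕ := fun i => if i ∈ Z then j else 2 with hw
  have hu := notMem_one hZ
  have h1 := h u
  rw [eval_eq_sum hx _ {Finsupp.single u (j - 1)}, Finset.sum_singleton, prod_single_pow,
    coeff_pderiv, ← Finsupp.single_add, Nat.sub_add_cancel (by omega), ini,
    coeff_weightedHomogeneousComponent, if_pos] at h1
  · have h2 : x u = 0 := by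
      rcases mul_eq_zero.1 h1 with h2 | h2
      · exfalso
        rcases mul_eq_zero.1 h2 with h3 | h3
        · exact hne h3
        · exact (Nat.cast_add_one_ne_zero _) h3
      · exact pow_eq_zero_iff (by omega) |>.1 h2
    funext i
    by_cases hi : i ∈ Z
    · exact hx i hi
    · have : i ∈ Zᶜ := by simpa using hi
      rw [hZ, Finset.mem_singleton] at this
      rw [this]
      exact h2
  · rw [Finsupp.weight_single, hw]
    simp only [if_neg hu, smul_eq_mul]
    ring
  · intro d hd h0
    rw [mem_support_iff, coeff_pderiv, ini, coeff_weightedHomogeneousComponent] at hd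
    split_ifs at hd with hwd
    · rw [weight_two, dZ_add, dZ_add, h0, dZ_single_notMem _ hu, dZ_compl_single_notMem _ hu,
        dZc_one hZ] at hwd
      rw [Finset.mem_singleton, eq_one hZ h0]
      congr 1
      omega
    · simp at hd

end T18Aux

open T18Aux

theorem stmt_T18 (hSPL : Stmt_SPL8) : Stmt_T18 := by
  intro ι _ _ f Z a b hcard hb hab
  obtain ⟨φ, hφ⟩ := hSPL ι f Z (b + 1) (by omega)
  have hcZ := card_compl Z
  obtain ⟨u, hZ⟩ : ∃ u, Zᶜ = {u} := Finset.card_eq_one.1 (by omega)
  refine Cov_one φ (fun i => if i ∈ Z then b + 1 else 1) (2 * (b + 1)) (fun i => ?_) (by omega) ?_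
    fun p hp => ?_
  · show 1 ≤ if i ∈ Z then b + 1 else 1
    split_ifs <;> omega
  · rw [sum_two, hZ, Finset.card_singleton]
    have h1 : Z.card * b + b < 2 * a + b := by
      have : (Z.card + 1) * b = Z.card * b + b := by ring
      rw [← this, hcard]
      exact hab
    have h2 : Z.card * b + 1 ≤ 2 * a := by omega
    calc ((b + 1) * Z.card + 1 * 1) * b = (b + 1) * (Z.card * b) + b := by ring
      _ ≤ (b + 1) * (Z.card * b) + (b + 1) * 1 := by omega
      _ = (b + 1) * (Z.card * b + 1) := by ring
      _ ≤ (b + 1) * (2 * a) := Nat.mul_le_mul_left _ h2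
      _ = 2 * (b + 1) * a := by ring
  · obtain ⟨h1, h2⟩ := hφ p hp
    have hc : p ∈ Crit0 f := hp.1
    by_cases hex : ∃ j, j < 2 * (b + 1) ∧
        coeff (Finsupp.single u j) (bind₁ (fun a => sp p (φ a)) f) ≠ 0
    · right
      classical
      set j := Nat.find hex with hjdef
      obtain ⟨hj1, hj2⟩ : j < 2 * (b + 1) ∧
        coeff (Finsupp.single u j) (bind₁ (fun a => sp p (φ a)) f) ≠ 0 := Nat.find_spec hex
      have hmin : ∀ i < j, coeff (Finsupp.single u i) (bind₁ (fun a => sp p (φ a)) f) = 0 := by
        intro i hi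
        by_contra hne
        exact Nat.find_min hex hi ⟨by omega, hne⟩
      have hj3 : 3 ≤ j := by
        have := (h2.1 _ (mem_support_iff.2 hj2)).1 (dZ_single_notMem _ (notMem_one hZ) _)
        rwa [dZ_compl_single_notMem _ (notMem_one hZ)] at this
      refine sim_of h1 hc (w := fun i => if i ∈ Z then j else 2) (D := 2 * j)
        (LDF8Aux.main h2 (fun i => ?_) (by omega) (fun b hb => ?_) (fun d hd => ?_)
          fun x hx h => power_crit hZ (by omega) hj2 x hx h) j (by omega) ?_
      · show 1 ≤ if i ∈ Z then j else 2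
        split_ifs <;> omega
      · show 2 * (if b ∈ Z then j else 2) = 2 * j
        rw [if_pos hb]
      · obtain ⟨h3, h4⟩ := h2.1 d hd
        rw [weight_two]
        rcases Nat.lt_or_ge (dZ Z d) 1 with h | h
        · have h0 : dZ Z d = 0 := by omega
          have hdu : j ≤ d u := by
            by_contra hlt
            push Not at hlt
            have := hmin _ hlt
            rw [← eq_one hZ h0] at this
            exact (mem_support_iff.1 hd) this
          rw [h0, dZc_one hZ]
          omega
        · rcases Nat.lt_or_ge (dZ Z d) 2 with h' | h'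
          · have h5 : dZ Z d = 1 := by omega
            have := h4 h5
            rw [h5]
            omega
          · have : j * 2 ≤ j * dZ Z d := Nat.mul_le_mul_left _ h'
            omega
      · rw [sum_two, hZ, Finset.card_singleton, ← hcard]
        have hj0 : (j : ℚ) ≠ 0 := by
          have : (0 : ℚ) < j := by exact_mod_cast (by omega : 0 < j)
          exact this.ne'
        push_cast
        field_simp
        ring
    · left
      push Not at hex
      refine ⟨h1, fun d hd => ?_⟩
      obtain ⟨h3, h4⟩ := h2.1 d hd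
      rw [weight_two]
      rcases Nat.lt_or_ge (dZ Z d) 1 with h | h
      · have h0 : dZ Z d = 0 := by omega
        have hdu : 2 * (b + 1) ≤ d u := by
          by_contra hlt
          push Not at hlt
          have := hex _ hlt
          rw [← eq_one hZ h0] at this
          exact (mem_support_iff.1 hd) this
        rw [h0, dZc_one hZ]
        omega
      · rcases Nat.lt_or_ge (dZ Z d) 2 with h' | h'
        · have h5 : dZ Z d = 1 := by omega
          have := h4 h5
          rw [h5]
          omega
        · have : (b + 1) * 2 ≤ (b + 1) * dZ Z d := Nat.mul_le_mul_left _ h'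
          omega

end Pool.Agent.Mono.SP
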