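import Pool.Agent.Work.Monodromy8.COV8

/-!
# Block T28: corank 2, assembly (helper49)
-/

set_option autoImplicit false

namespace Pool.Agent.Mono.SP

open MvPolynomial TS RO PC

namespace T28Aux

variable {ι : Type} [Fintype ι] [DecidableEq ι]

theorem famMono {f : MvPolynomial ι ℂ} {S T : Set (ι → ℂ)}
    {Φ : (ι → ℂ) → MvPolynomial ι ℂ → Prop} (h : FamC f T Φ) (hST : S ⊆ T) : FamC f S Φ := by
  obtain ⟨φ, hφ⟩ := h
  exact ⟨φ, fun p hp => hφ p (hST hp)⟩

/-- the weights of the last chart -/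
def wt (Z : Finset ι) (u : ι) (k : ℕ) (i : ι) : ℕ :=
  if i ∈ Z then k - 1 else if i = u then k - 2 else 2

theorem sum_split {Z : Finset ι} {u v : ι} (huv : u ≠ v) (hZ : Zᶜ = {u, v}) (g : ι → ℕ) :
    ∑ i, g i = (∑ i ∈ Z, g i) + (g u + g v) := by
  rw [← Finset.sum_add_sum_compl Z g, hZ, Finset.sum_pair huv]

theorem not_mem {Z : Finset ι} {u v : ι} (hZ : Zᶜ = {u, v}) : u ∉ Z ∧ v ∉ Z := by
  have h1 : u ∈ Zᶜ := by rw [hZ]; simp
  have h2 : v ∈ Zᶜ := by rw [hZ]; simp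
  exact ⟨Finset.mem_compl.1 h1, Finset.mem_compl.1 h2⟩

theorem weight_eq {Z : Finset ι} {u v : ι} (huv : u ≠ v) (hZ : Zᶜ = {u, v}) (k : ℕ)
    (d : ι →₀ ℕ) :
    Finsupp.weight (wt Z u k) d = (k - 1) * dZ Z d + ((k - 2) * d u + 2 * d v) := by
  obtain ⟨hu, hv⟩ := not_mem hZ
  rw [Finsupp.weight_apply, Finsupp.sum_fintype _ _ (by simp), sum_split huv hZ]
  congr 1
  · unfold dZ
    rw [Finset.mul_sum]
    refine Finset.sum_congr rfl fun i hi => ?_
    rw [wt, if_pos hi, smul_eq_mul, mul_comm]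
  · rw [wt, if_neg hu, if_pos rfl, wt, if_neg hv, if_neg huv.symm, smul_eq_mul, smul_eq_mul]
    ring

theorem sum_wt {Z : Finset ι} {u v : ι} (huv : u ≠ v) (hZ : Zᶜ = {u, v}) (k : ℕ) :
    ∑ i, wt Z u k i = Z.card * (k - 1) + ((k - 2) + 2) := by
  obtain ⟨hu, hv⟩ := not_mem hZ
  rw [sum_split huv hZ]
  congr 1
  · rw [Finset.sum_congr rfl (g := fun _ => k - 1), Finset.sum_const, smul_eq_mul]
    intro i hi
    rw [wt, if_pos hi]
  · rw [wt, if_neg hu, if_pos rfl, wt, if_neg hv, if_neg huv.symm]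

/-- the last chart for type `D` -/
theorem weight_ge {Z : Finset ι} {u v : ι} (huv : u ≠ v) (hZ : Zᶜ = {u, v}) {K' k : ℕ}
    (hk : 5 ≤ k) (hkK : k ≤ K') {F : MvPolynomial ι ℂ} (h : DP Z u v K' k F) :
    ∀ d ∈ F.support, 2 * (k - 1) ≤ Finsupp.weight (wt Z u k) d := by
  intro d hd
  rw [weight_eq huv hZ]
  obtain ⟨⟨hs, _⟩, _, hD⟩ := h
  have hc : dZ Zᶜ d = d u + d v := by
    unfold dZ
    rw [hZ, Finset.sum_pair huv]
  rcases Nat.lt_or_ge (dZ Z d) 2 with h2 | h2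
  · rcases Nat.lt_or_ge (dZ Z d) 1 with h1 | h1
    · have h0 : dZ Z d = 0 := by omega
      have hdd : d = Finsupp.single u (d u) + Finsupp.single v (d v) := by
        ext i
        rw [Finsupp.add_apply]
        by_cases hiu : i = u
        · subst hiu
          rw [Finsupp.single_eq_same, Finsupp.single_eq_of_ne huv, add_zero]
        · by_cases hiv : i = v
          · subst hiv
            rw [Finsupp.single_eq_same, Finsupp.single_eq_of_ne hiu, zero_add]
          · rw [Finsupp.single_eq_of_ne hiu, Finsupp.single_eq_of_ne hiv, add_zero]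
            have hi : i ∈ Z := by
              by_contra hi
              have : i ∈ Zᶜ := Finset.mem_compl.2 hi
              rw [hZ] at this
              simp [hiu, hiv] at this
            exact Finset.sum_eq_zero_iff.1 h0 i hi
      have := hD (d u) (d v) (by rw [← hdd]; exact MvPolynomial.mem_support_iff.1 hd)
      rw [h0]
      omega
    · have h1' : dZ Z d = 1 := by omega
      have h3 := (hs d hd).2 h1'
      rw [hc] at h3
      rw [h1']
      have h4 : 2 * d u ≤ (k - 2) * d u := Nat.mul_le_mul_right _ (by omega)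
      omega
  · have : (k - 1) * 2 ≤ (k - 1) * dZ Z d := Nat.mul_le_mul_left _ h2
    omega

/-- the steps of type `D` -/
theorem steps (hE : Stmt_T2E8) {f : MvPolynomial ι ℂ} {Z : Finset ι} {u v : ι} {K' : ℕ}
    {S : Set (ι → ℂ)} (huv : u ≠ v) (hZ : Zᶜ = {u, v}) (hS : S ⊆ Crit0 f)
    (h : FamC f S fun _ F => DP Z u v K' 5 F) : ∀ j : ℕ, 5 + j ≤ K' →
      FamC f {p | p ∈ S ∧ ¬ Sim f p} fun _ F => DP Z u v K' (5 + j) F := by
  intro j
  induction j with
  | zero => intro _; exact famMono h fun p hp => hp.1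
  | succ j ih =>
    intro hj
    have h1 := ih (by omega)
    have h2 := hE ι f Z u v K' (5 + j) {p | p ∈ S ∧ ¬ Sim f p} huv hZ (by omega) (by omega)
      (fun p hp => hS hp.1) h1
    exact famMono h2 fun p hp => ⟨hp, hp.2⟩

theorem typeD (hE : Stmt_T2E8) {f : MvPolynomial ι ℂ} {Z : Finset ι} {u v : ι} {a b : ℕ}
    {S : Set (ι → ℂ)} (huv : u ≠ v) (hZ : Zᶜ = {u, v}) (hS : S ⊆ Crit0 f)
    (hcard : Z.card + 2 = Fintype.card ι) (hn : Fintype.card ι * b < 2 * a + b)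
    (h : FamC f S fun _ F => DP Z u v (b + 5) 5 F) : Cov f a b S := by
  obtain ⟨φ, hφ⟩ := steps hE huv hZ hS h b (by omega)
  refine ⟨[(φ, wt Z u (5 + b), 2 * (4 + b))], ?_, ?_⟩
  · intro c hc
    rw [List.mem_singleton] at hc
    subst hc
    refine ⟨?_, ?_, ?_⟩
    · intro i
      show 1 ≤ wt Z u (5 + b) i
      unfold wt
      split_ifs <;> omega
    · show 1 ≤ 2 * (4 + b)
      omega
    · show (∑ i, wt Z u (5 + b) i) * b ≤ 2 * (4 + b) * a
      rw [sum_wt huv hZ]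
      have e1 : 5 + b - 1 = 4 + b := by omega
      have e2 : 5 + b - 2 + 2 = 4 + b + 1 := by omega
      rw [e1, e2]
      rw [← hcard] at hn
      have h1 : (Z.card + 1) * b + 1 ≤ 2 * a := by nlinarith
      nlinarith [Nat.mul_le_mul_left (4 + b) h1]
  · intro p hp
    by_cases hs : Sim f p
    · exact Or.inr hs
    · refine Or.inl ⟨_, List.mem_singleton.2 rfl, ?_⟩
      obtain ⟨h1, h2⟩ := hφ p ⟨hp, hs⟩
      refine ⟨h1, ?_⟩
      have h3 := weight_ge huv hZ (by omega) (by omega) h2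
      intro d hd
      have h4 := h3 d hd
      have e : 5 + b - 1 = 4 + b := by omega
      rw [e] at h4
      exact h4

end T28Aux

open T28Aux COV8Aux

theorem stmt_T28 (hSPL : Stmt_SPL8) (kA : Stmt_T2A8) (kB : Stmt_T2B8) (kC : Stmt_T2C8)
    (kD : Stmt_T2D8) (kE : Stmt_T2E8) : Stmt_T28 := by
  intro ι _ _ f Z a b hcard hb hn
  have hc : (Zᶜ).card = 2 := by rw [Finset.card_compl]; omega
  obtain ⟨u, v, huv, hZ⟩ := Finset.card_eq_two.1 hc
  obtain ⟨φ, hφ⟩ := hSPL ι f Z (b + 5) (by omega)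
  have hck : Cork2 f Z u v (b + 5) (Rk f Z) φ :=
    ⟨huv, hZ, fun p hp => ⟨hp.1, hφ p hp⟩⟩
  have hZ' : Zᶜ = {v, u} := by rw [hZ, Finset.pair_comm]
  have c1 := kA ι f Z u v (b + 5) (Rk f Z) φ a b (by omega) hck hb hn.le
  have c2 := kB ι f Z u v (b + 5) (Rk f Z) φ a b (by omega) hck hb hn.le
  have c3 : Cov f a b {p | p ∈ Rk f Z ∧
      hB u v (inC f φ p) ^ 2 ≠ 4 * hA u v (inC f φ p) * hC u v (inC f φ p)} :=
    sim fun p hp => kC ι f Z u v (b + 5) (Rk f Z) φ (by omega) hck p hp.1 hp.2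
  obtain ⟨d1, d2⟩ := kD ι f Z u v (b + 5) (Rk f Z) φ (by omega) hck
  have c4 := typeD kE huv hZ (fun p hp => hp.1.1) hcard hn d1
  have c5 := typeD kE huv.symm hZ' (fun p hp => hp.1.1) hcard hn d2
  refine mono (union (union (union c1 c2) c3) (union c4 c5)) ?_
  intro p hp
  by_cases h3 : hB u v (inC f φ p) ^ 2 = 4 * hA u v (inC f φ p) * hC u v (inC f φ p)
  · by_cases hA0 : hA u v (inC f φ p) = 0
    · by_cases hBC : hB u v (inC f φ p) = 0 ∧ hC u v (inC f φ p) = 0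
      · by_cases hcub : ∀ i ≤ 3, cub u v (inC f φ p) i = 0
        · exact Or.inl (Or.inl (Or.inl ⟨hp, hcub⟩))
        · push Not at hcub
          exact Or.inl (Or.inl (Or.inr ⟨hp, hcub, hA0, hBC.1, hBC.2⟩))
      · exact Or.inr (Or.inr ⟨hp, h3, hA0, hBC⟩)
    · exact Or.inr (Or.inl ⟨hp, h3, hA0⟩)
  · exact Or.inl (Or.inr ⟨hp, h3⟩)

end Pool.Agent.Mono.SP
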