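import Pool.Agent.Work.Monodromy8.CHA8

/-!
# Block T2A8: corank `2`, no cubic part
-/

set_option autoImplicit false
set_option linter.unusedSectionVars false

namespace Pool.Agent.Mono.SP

open MvPolynomial TS RO PC LDF8Aux CHA8

namespace T2A8Aux

variable {ι : Type} [Fintype ι] [DecidableEq ι]

theorem dZc_pair {Z : Finset ι} {u v : ι} (huv : u ≠ v) (hZ : Zᶜ = {u, v}) (d : ι →₀ ℕ) :
    dZ Zᶜ d = d u + d v := by
  rw [dZ, hZ, Finset.sum_pair huv]

theorem notMem_u {Z : Finset ι} {u v : ι} (hZ : Zᶜ = {u, v}) : u ∉ Z := by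
  have : u ∈ Zᶜ := by rw [hZ]; exact Finset.mem_insert_self _ _
  simpa using this

theorem notMem_v {Z : Finset ι} {u v : ι} (hZ : Zᶜ = {u, v}) : v ∉ Z := by
  have : v ∈ Zᶜ := by rw [hZ]; exact Finset.mem_insert_of_mem (Finset.mem_singleton_self _)
  simpa using this

theorem eq_pair {Z : Finset ι} {u v : ι} (huv : u ≠ v) (hZ : Zᶜ = {u, v}) {d : ι →₀ ℕ}
    (h : dZ Z d = 0) : d = Finsupp.single u (d u) + Finsupp.single v (d v) := by
  rw [dZ, Finset.sum_eq_zero_iff] at h
  ext i
  rw [Finsupp.add_apply, Finsupp.single_apply, Finsupp.single_apply]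
  by_cases hi : i ∈ Z
  · have h1 : u ≠ i := fun h' => notMem_u hZ (h' ▸ hi)
    have h2 : v ≠ i := fun h' => notMem_v hZ (h' ▸ hi)
    rw [if_neg h1, if_neg h2, h i hi, add_zero]
  · have : i ∈ Zᶜ := by simpa using hi
    rw [hZ, Finset.mem_insert, Finset.mem_singleton] at this
    rcases this with rfl | rfl
    · rw [if_pos rfl, if_neg huv.symm, add_zero]
    · rw [if_pos rfl, if_neg huv, zero_add]

theorem card_pair {Z : Finset ι} {u v : ι} (huv : u ≠ v) (hZ : Zᶜ = {u, v}) :
    Z.card + 2 = Fintype.card ι := by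
  rw [← card_compl Z, hZ, Finset.card_pair huv]

end T2A8Aux

open T2A8Aux

theorem stmt_T2A8 : Stmt_T2A8 := by
  intro ι _ _ f Z u v K' S φ a b hK hC hb hab
  obtain ⟨huv, hZ, hC⟩ := hC
  refine Cov_one φ (fun i => if i ∈ Z then 2 else 1) 4 (fun i => ?_) (by norm_num) ?_
    fun p hp => Or.inl ?_
  · show 1 ≤ if i ∈ Z then 2 else 1
    split_ifs <;> norm_num
  · rw [sum_two, hZ, Finset.card_pair huv]
    have h1 := card_pair huv hZ
    have h2 : 2 * Z.card + 1 * 2 = 2 * (Z.card + 1) := by ring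
    have h3 : (Z.card + 1) * b + b = Fintype.card ι * b := by
      rw [← h1]
      ring
    rw [h2, mul_assoc]
    omega
  · obtain ⟨hpS, hcub⟩ := hp
    obtain ⟨hc, h1, h2, -⟩ := hC p hpS
    refine ⟨h1, fun d hd => ?_⟩
    obtain ⟨h3, h4⟩ := h2 d hd
    rw [weight_two]
    rcases Nat.lt_or_ge (dZ Z d) 1 with h | h
    · have h0 : dZ Z d = 0 := by omega
      have h5 := h3 h0
      rcases Nat.lt_or_ge 3 (dZ Zᶜ d) with h6 | h6
      · omega
      · exfalso
        rw [dZc_pair huv hZ] at h5 h6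
        have h7 := hcub (d v) (by omega)
        rw [cub, inC] at h7
        have h8 : 3 - d v = d u := by omega
        rw [h8, ← eq_pair huv hZ h0] at h7
        exact (mem_support_iff.1 hd) h7
    · rcases Nat.lt_or_ge (dZ Z d) 2 with h' | h'
      · have := h4 (by omega)
        omega
      · omega

end Pool.Agent.Mono.SP
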