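import Pool.Agent.Work.Monodromy.Interface8

/-!
# Monodromy, phase 8: tools for the block T2B8 (helper45)

Two variables outside of `Z`: weights, leading forms, and the types `E6`, `E7`, `E8`.
-/

set_option autoImplicit false

namespace Pool.Agent.Mono.SP
namespace T2BAux

open MvPolynomial TS RO PC Finset

section

variable {ι : Type} [Fintype ι] [DecidableEq ι]

/-- weights: `p` for `y`, `q` for `x`, `c` for the other variables -/
def wt (y x : ι) (c p q : ℕ) (a : ι) : ℕ := if a = y then p else if a = x then q else c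

theorem dZ_compl (Z : Finset ι) (y x : ι) (hne : y ≠ x) (hZ : Zᶜ = {y, x}) (d : ι →₀ ℕ) :
    dZ Zᶜ d = d y + d x := by
  rw [dZ, hZ, Finset.sum_pair hne]

theorem notMem_of (Z : Finset ι) (y x : ι) (hZ : Zᶜ = {y, x}) : y ∉ Z ∧ x ∉ Z := by
  constructor
  · rw [← Finset.mem_compl, hZ]; simp
  · rw [← Finset.mem_compl, hZ]; simp

theorem mem_or (Z : Finset ι) (y x : ι) (hZ : Zᶜ = {y, x}) (a : ι) : a ∈ Z ∨ a = y ∨ a = x := by
  by_cases h : a ∈ Z
  · exact Or.inl h
  · have : a ∈ Zᶜ := Finset.mem_compl.2 h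
    rw [hZ] at this
    right
    simpa using this

theorem weight_wt (Z : Finset ι) (y x : ι) (hne : y ≠ x) (hZ : Zᶜ = {y, x}) (c p q : ℕ)
    (d : ι →₀ ℕ) : Finsupp.weight (wt y x c p q) d = c * dZ Z d + p * d y + q * d x := by
  obtain ⟨hy, hx⟩ := notMem_of Z y x hZ
  rw [Finsupp.weight_apply, Finsupp.sum_fintype _ _ (by simp), ← Finset.sum_add_sum_compl Z, hZ,
    Finset.sum_pair hne]
  have h1 : ∑ a ∈ Z, d a • wt y x c p q a = c * dZ Z d := by
    rw [dZ, Finset.mul_sum]
    refine Finset.sum_congr rfl fun a ha => ?_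
    have h2 : a ≠ y := fun h => hy (h ▸ ha)
    have h3 : a ≠ x := fun h => hx (h ▸ ha)
    simp [wt, h2, h3, mul_comm]
  rw [h1]
  simp only [wt, if_true, if_neg hne.symm, smul_eq_mul]
  ring

theorem sum_wt (Z : Finset ι) (y x : ι) (hne : y ≠ x) (hZ : Zᶜ = {y, x}) (c p q : ℕ) :
    ∑ a, wt y x c p q a = c * Z.card + p + q := by
  obtain ⟨hy, hx⟩ := notMem_of Z y x hZ
  rw [← Finset.sum_add_sum_compl Z, hZ, Finset.sum_pair hne]
  have h1 : ∑ a ∈ Z, wt y x c p q a = c * Z.card := by
    rw [Finset.sum_congr rfl (g := fun _ => c), Finset.sum_const, smul_eq_mul, mul_comm]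
    intro a ha
    have h2 : a ≠ y := fun h => hy (h ▸ ha)
    have h3 : a ≠ x := fun h => hx (h ▸ ha)
    simp [wt, h2, h3]
  rw [h1]
  simp only [wt, if_true, if_neg hne.symm]
  ring

theorem card_eq (Z : Finset ι) (y x : ι) (hne : y ≠ x) (hZ : Zᶜ = {y, x}) :
    Fintype.card ι = Z.card + 2 := by
  have h1 := Finset.card_compl_add_card Z
  rw [hZ, Finset.card_pair hne] at h1
  omega

theorem eq_single (Z : Finset ι) (y x : ι) (hne : y ≠ x) (hZ : Zᶜ = {y, x}) (d : ι →₀ ℕ)
    (h : dZ Z d = 0) : d = Finsupp.single y (d y) + Finsupp.single x (d x) := by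
  have h0 : ∀ a ∈ Z, d a = 0 := by
    intro a ha
    exact Finset.sum_eq_zero_iff.1 h a ha
  ext a
  rcases mem_or Z y x hZ a with h1 | rfl | rfl
  · obtain ⟨hy, hx⟩ := notMem_of Z y x hZ
    have h2 : a ≠ y := fun h => hy (h ▸ h1)
    have h3 : a ≠ x := fun h => hx (h ▸ h1)
    simp [h0 a h1, h2.symm, h3.symm]
  · simp [hne.symm]
  · simp [hne]

theorem single_inj (y x : ι) (hne : y ≠ x) (i j k l : ℕ) :
    (Finsupp.single y i + Finsupp.single x j : ι →₀ ℕ) =
      Finsupp.single y k + Finsupp.single x l ↔ i = k ∧ j = l := by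
  constructor
  · intro h
    have h1 := DFunLike.congr_fun h y
    have h2 := DFunLike.congr_fun h x
    simp [hne, hne.symm] at h1 h2
    exact ⟨h1, h2⟩
  · rintro ⟨rfl, rfl⟩; rfl

theorem single_val (y x : ι) (hne : y ≠ x) (i j : ℕ) :
    (Finsupp.single y i + Finsupp.single x j : ι →₀ ℕ) y = i ∧
      (Finsupp.single y i + Finsupp.single x j : ι →₀ ℕ) x = j := by
  simp [hne, hne.symm]

theorem single_dZ (Z : Finset ι) (y x : ι) (hZ : Zᶜ = {y, x}) (i j : ℕ) :
    dZ Z (Finsupp.single y i + Finsupp.single x j : ι →₀ ℕ) = 0 := by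
  obtain ⟨hy, hx⟩ := notMem_of Z y x hZ
  refine Finset.sum_eq_zero fun a ha => ?_
  have h2 : a ≠ y := fun h => hy (h ▸ ha)
  have h3 : a ≠ x := fun h => hx (h ▸ ha)
  simp [h2.symm, h3.symm]

/-- the gradient at points of `Z = 0` sees only the terms without `z` -/
theorem zgrad (Z : Finset ι) (R : MvPolynomial ι ℂ) (h : ∀ d, dZ Z d = 0 → R.coeff d = 0)
    (a : ι) (ha : a ∉ Z) (t : ι → ℂ) (ht : ∀ b ∈ Z, t b = 0) : eval t (pderiv a R) = 0 := by
  rw [R.as_sum, map_sum, map_sum]
  refine Finset.sum_eq_zero fun d hd => ?_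
  rw [pderiv_monomial, eval_monomial]
  have hdz : dZ Z d ≠ 0 := fun h0 => (mem_support_iff.1 hd) (h d h0)
  obtain ⟨b, hb, hdb⟩ := Finset.exists_ne_zero_of_sum_ne_zero hdz
  have hba : a ≠ b := fun h => ha (h ▸ hb)
  have hval : (d - Finsupp.single a 1 : ι →₀ ℕ) b = d b := by
    simp [hba]
  have : (d - Finsupp.single a 1 : ι →₀ ℕ).prod (fun n e => t n ^ e) = 0 := by
    rw [Finsupp.prod]
    refine Finset.prod_eq_zero (i := b) ?_ ?_
    · rw [Finsupp.mem_support_iff, hval]; exact hdb
    · rw [hval, ht b hb, zero_pow hdb]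
  rw [this, mul_zero]

/-- leading forms in corank `2` -/
theorem sqL (hLDF : Stmt_LDF8) (Z : Finset ι) (y x : ι) (hne : y ≠ x) (hZ : Zᶜ = {y, x})
    (K' : ℕ) (F : MvPolynomial ι ℂ) (hF : Spl Z K' F) (c p q D : ℕ) (hc : 1 ≤ c) (hp : 1 ≤ p)
    (hq : 1 ≤ q) (hD : 2 * c = D) (G0 : MvPolynomial ι ℂ)
    (hsupp : ∀ d ∈ F.support, D ≤ c * dZ Z d + p * d y + q * d x ∧
      (dZ Z d = 1 → D < c * dZ Z d + p * d y + q * d x))
    (hG : ∀ i j : ℕ, G0.coeff (Finsupp.single y i + Finsupp.single x j) =
      if p * i + q * j = D then F.coeff (Finsupp.single y i + Finsupp.single x j) else 0)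
    (hcrit : ∀ t : ι → ℂ, eval t (pderiv y G0) = 0 → eval t (pderiv x G0) = 0 →
      t y = 0 ∧ t x = 0) : SQ (wt y x c p q) D F := by
  obtain ⟨hy, hx⟩ := notMem_of Z y x hZ
  refine hLDF ι Z K' F (wt y x c p q) D hF ?_ (by omega) ?_ ?_ ?_
  · intro b
    unfold wt
    split_ifs
    · exact hp
    · exact hq
    · exact hc
  · intro b hb
    have h2 : b ≠ y := fun h => hy (h ▸ hb)
    have h3 : b ≠ x := fun h => hx (h ▸ hb)
    simp only [wt, if_neg h2, if_neg h3]
    exact hD
  · intro d hd
    rw [weight_wt Z y x hne hZ]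
    exact hsupp d hd
  · intro t ht hgrad
    have hR : ∀ d, dZ Z d = 0 → (ini (wt y x c p q) D F - G0).coeff d = 0 := by
      intro d hd
      have hd' := eq_single Z y x hne hZ d hd
      rw [coeff_sub, sub_eq_zero, ini, coeff_weightedHomogeneousComponent,
        weight_wt Z y x hne hZ, hd, mul_zero, zero_add]
      conv_rhs => rw [hd', hG]
      rw [← hd']
    have key : ∀ a, a ∉ Z → eval t (pderiv a G0) = 0 := by
      intro a ha
      have h1 := zgrad Z _ hR a ha t ht
      rw [map_sub, map_sub, hgrad a, zero_sub, neg_eq_zero] at h1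
      exact h1
    obtain ⟨k1, k2⟩ := hcrit t (key y hy) (key x hx)
    funext a
    rcases mem_or Z y x hZ a with h1 | rfl | rfl
    · exact ht a h1
    · exact k1
    · exact k2

theorem mono_eq (y x : ι) (i j : ℕ) (c : ℂ) :
    (monomial (Finsupp.single y i + Finsupp.single x j)) c =
      (C c * X y ^ i * X x ^ j : MvPolynomial ι ℂ) := by
  rw [C_mul_X_pow_eq_monomial, X_pow_eq_monomial, monomial_mul, mul_one]

theorem eval_py (y x : ι) (hne : y ≠ x) (i j : ℕ) (c : ℂ) (t : ι → ℂ) :
    eval t (pderiv y (C c * X y ^ i * X x ^ j : MvPolynomial ι ℂ)) =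
      c * (i * t y ^ (i - 1)) * t x ^ j := by
  simp [Derivation.leibniz, Derivation.leibniz_pow, pderiv_X_of_ne hne.symm]
  ring

theorem eval_px (y x : ι) (hne : y ≠ x) (i j : ℕ) (c : ℂ) (t : ι → ℂ) :
    eval t (pderiv x (C c * X y ^ i * X x ^ j : MvPolynomial ι ℂ)) =
      c * t y ^ i * (j * t x ^ (j - 1)) := by
  simp [Derivation.leibniz, Derivation.leibniz_pow, pderiv_X_of_ne hne]

/-- the types `E6`, `E7`, `E8` or the chart `(3, 2, 1)` -/
theorem estep (hLDF : Stmt_LDF8) (Z : Finset ι) (y x : ι) (hne : y ≠ x) (hZ : Zᶜ = {y, x})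
    (K' : ℕ) (hK : 3 ≤ K') (F : MvPolynomial ι ℂ) (hF : Spl Z K' F)
    (h30 : F.coeff (Finsupp.single y 3 + Finsupp.single x 0) ≠ 0)
    (h21 : F.coeff (Finsupp.single y 2 + Finsupp.single x 1) = 0)
    (h12 : F.coeff (Finsupp.single y 1 + Finsupp.single x 2) = 0)
    (h03 : F.coeff (Finsupp.single y 0 + Finsupp.single x 3) = 0) :
    (∃ i : ℕ, 2 ≤ i ∧ ∃ (w : ι → ℕ) (D : ℕ), SQ w D F ∧
      ((Fintype.card ι : ℚ) - 1) / 2 + 1 / (i : ℚ) = ((∑ a, w a : ℕ) : ℚ) / (D : ℚ)) ∨
    ∀ d ∈ F.support, 6 ≤ Finsupp.weight (wt y x 3 2 1) d := by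
  have hcard : (Fintype.card ι : ℚ) = (Z.card : ℚ) + 2 := by
    rw [card_eq Z y x hne hZ]; push_cast; ring
  -- the support
  have hs : ∀ d ∈ F.support, (dZ Z d = 0 ∧ 3 ≤ d y + d x ∧ ¬ (d y = 2 ∧ d x = 1) ∧
      ¬ (d y = 1 ∧ d x = 2) ∧ ¬ (d y = 0 ∧ d x = 3) ∧
      F.coeff (Finsupp.single y (d y) + Finsupp.single x (d x)) ≠ 0) ∨
      (dZ Z d = 1 ∧ 3 ≤ d y + d x) ∨ 2 ≤ dZ Z d := by
    intro d hd
    have h := hF.1 d hd
    rw [dZ_compl Z y x hne hZ] at h
    rcases Nat.lt_or_ge (dZ Z d) 2 with h2 | h2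
    · rcases Nat.lt_or_ge (dZ Z d) 1 with h1 | h1
      · have h0 : dZ Z d = 0 := by omega
        have hd' := eq_single Z y x hne hZ d h0
        have hco : F.coeff (Finsupp.single y (d y) + Finsupp.single x (d x)) ≠ 0 := by
          rw [← hd']; exact mem_support_iff.1 hd
        refine Or.inl ⟨h0, h.1 h0, ?_, ?_, ?_, hco⟩
        · rintro ⟨e1, e2⟩; rw [e1, e2] at hco; exact hco h21
        · rintro ⟨e1, e2⟩; rw [e1, e2] at hco; exact hco h12
        · rintro ⟨e1, e2⟩; rw [e1, e2] at hco; exact hco h03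
      · have h0 : dZ Z d = 1 := by omega
        exact Or.inr (Or.inl ⟨h0, le_trans hK (h.2 h0)⟩)
    · exact Or.inr (Or.inr h2)
  by_cases e4 : F.coeff (Finsupp.single y 0 + Finsupp.single x 4) = 0
  · by_cases e31 : F.coeff (Finsupp.single y 1 + Finsupp.single x 3) = 0
    · by_cases e5 : F.coeff (Finsupp.single y 0 + Finsupp.single x 5) = 0
      · -- chart
        right
        intro d hd
        rw [weight_wt Z y x hne hZ]
        rcases hs d hd with ⟨h0, h3, a1, a2, a3, hco⟩ | ⟨h0, h3⟩ | h0
        · have a4 : ¬ (d y = 0 ∧ d x = 4) := by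
            rintro ⟨e1, e2⟩; rw [e1, e2] at hco; exact hco e4
          have a5 : ¬ (d y = 1 ∧ d x = 3) := by
            rintro ⟨e1, e2⟩; rw [e1, e2] at hco; exact hco e31
          have a6 : ¬ (d y = 0 ∧ d x = 5) := by
            rintro ⟨e1, e2⟩; rw [e1, e2] at hco; exact hco e5
          omega
        · omega
        · omega
      · -- E8
        left
        refine ⟨30, by norm_num, wt y x 15 10 6, 30, ?_, ?_⟩
        · refine sqL hLDF Z y x hne hZ K' F hF 15 10 6 30 (by norm_num) (by norm_num)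
            (by norm_num) (by norm_num)
            (monomial (Finsupp.single y 3 + Finsupp.single x 0)
                (F.coeff (Finsupp.single y 3 + Finsupp.single x 0)) +
              monomial (Finsupp.single y 0 + Finsupp.single x 5)
                (F.coeff (Finsupp.single y 0 + Finsupp.single x 5))) ?_ ?_ ?_
          · intro d hd
            rcases hs d hd with ⟨h0, h3, a1, a2, a3, hco⟩ | ⟨h0, h3⟩ | h0
            · have a4 : ¬ (d y = 0 ∧ d x = 4) := by
                rintro ⟨e1, e2⟩; rw [e1, e2] at hco; exact hco e4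
              have a5 : ¬ (d y = 1 ∧ d x = 3) := by
                rintro ⟨e1, e2⟩; rw [e1, e2] at hco; exact hco e31
              omega
            · omega
            · omega
          · intro i j
            rw [coeff_add, coeff_monomial, coeff_monomial]
            simp only [single_inj y x hne]
            by_cases h1 : i = 3 ∧ j = 0
            · obtain ⟨rfl, rfl⟩ := h1; simp
            · by_cases h2 : i = 0 ∧ j = 5
              · obtain ⟨rfl, rfl⟩ := h2; simp
              · rw [if_neg (by omega), if_neg (by omega), if_neg (by omega), add_zero]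
          · intro t h1 h2
            rw [mono_eq, mono_eq, map_add, map_add, eval_py y x hne, eval_py y x hne] at h1
            rw [mono_eq, mono_eq, map_add, map_add, eval_px y x hne, eval_px y x hne] at h2
            generalize F.coeff (Finsupp.single y 3 + Finsupp.single x 0) = α at h1 h2 h30
            generalize F.coeff (Finsupp.single y 0 + Finsupp.single x 5) = β at h1 h2 e5
            simp [h30] at h1
            simp [e5] at h2
            exact ⟨h1, h2⟩
        · rw [sum_wt Z y x hne hZ, hcard]; push_cast; ring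
    · -- E7
      left
      refine ⟨18, by norm_num, wt y x 9 6 4, 18, ?_, ?_⟩
      · refine sqL hLDF Z y x hne hZ K' F hF 9 6 4 18 (by norm_num) (by norm_num)
          (by norm_num) (by norm_num)
          (monomial (Finsupp.single y 3 + Finsupp.single x 0)
              (F.coeff (Finsupp.single y 3 + Finsupp.single x 0)) +
            monomial (Finsupp.single y 1 + Finsupp.single x 3)
              (F.coeff (Finsupp.single y 1 + Finsupp.single x 3))) ?_ ?_ ?_
        · intro d hd
          rcases hs d hd with ⟨h0, h3, a1, a2, a3, hco⟩ | ⟨h0, h3⟩ | h0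
          · have a4 : ¬ (d y = 0 ∧ d x = 4) := by
              rintro ⟨e1, e2⟩; rw [e1, e2] at hco; exact hco e4
            omega
          · omega
          · omega
        · intro i j
          rw [coeff_add, coeff_monomial, coeff_monomial]
          simp only [single_inj y x hne]
          by_cases h1 : i = 3 ∧ j = 0
          · obtain ⟨rfl, rfl⟩ := h1; simp
          · by_cases h2 : i = 1 ∧ j = 3
            · obtain ⟨rfl, rfl⟩ := h2; simp
            · rw [if_neg (by omega), if_neg (by omega), if_neg (by omega), add_zero]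
        · intro t h1 h2
          rw [mono_eq, mono_eq, map_add, map_add, eval_py y x hne, eval_py y x hne] at h1
          rw [mono_eq, mono_eq, map_add, map_add, eval_px y x hne, eval_px y x hne] at h2
          generalize F.coeff (Finsupp.single y 3 + Finsupp.single x 0) = α at h1 h2 h30
          generalize F.coeff (Finsupp.single y 1 + Finsupp.single x 3) = β at h1 h2 e31
          simp at h1
          simp [e31] at h2
          rcases h2 with h2 | h2
          · rw [h2] at h1
            simp [e31] at h1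
            exact ⟨h2, h1⟩
          · rw [h2] at h1
            simp [h30] at h1
            exact ⟨h1, h2⟩
      · rw [sum_wt Z y x hne hZ, hcard]; push_cast; ring
  · -- E6
    left
    refine ⟨12, by norm_num, wt y x 6 4 3, 12, ?_, ?_⟩
    · refine sqL hLDF Z y x hne hZ K' F hF 6 4 3 12 (by norm_num) (by norm_num)
        (by norm_num) (by norm_num)
        (monomial (Finsupp.single y 3 + Finsupp.single x 0)
            (F.coeff (Finsupp.single y 3 + Finsupp.single x 0)) +
          monomial (Finsupp.single y 0 + Finsupp.single x 4)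
            (F.coeff (Finsupp.single y 0 + Finsupp.single x 4))) ?_ ?_ ?_
      · intro d hd
        rcases hs d hd with ⟨h0, h3, a1, a2, a3, hco⟩ | ⟨h0, h3⟩ | h0
        · omega
        · omega
        · omega
      · intro i j
        rw [coeff_add, coeff_monomial, coeff_monomial]
        simp only [single_inj y x hne]
        by_cases h1 : i = 3 ∧ j = 0
        · obtain ⟨rfl, rfl⟩ := h1; simp
        · by_cases h2 : i = 0 ∧ j = 4
          · obtain ⟨rfl, rfl⟩ := h2; simp
          · rw [if_neg (by omega), if_neg (by omega), if_neg (by omega), add_zero]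
      · intro t h1 h2
        rw [mono_eq, mono_eq, map_add, map_add, eval_py y x hne, eval_py y x hne] at h1
        rw [mono_eq, mono_eq, map_add, map_add, eval_px y x hne, eval_px y x hne] at h2
        generalize F.coeff (Finsupp.single y 3 + Finsupp.single x 0) = α at h1 h2 h30
        generalize F.coeff (Finsupp.single y 0 + Finsupp.single x 4) = β at h1 h2 e4
        simp [h30] at h1
        simp [e4] at h2
        exact ⟨h1, h2⟩
    · rw [sum_wt Z y x hne hZ, hcard]; push_cast; ring

end

end T2BAux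
end Pool.Agent.Mono.SP
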