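import Pool.Agent.Work.Monodromy8.T2BA
import Pool.Agent.Work.Monodromy8.T2BB

/-!
# Monodromy, phase 8: block T2B8 (helper45)

Corank `2`, the cubic part is a cube: types `E6`, `E7`, `E8`, or the chart with weights `3, 2, 1`.
-/

set_option autoImplicit false

namespace Pool.Agent.Mono.SP
namespace T2BAux

open MvPolynomial TS RO PC Finset

section

variable {ι : Type} [Fintype ι] [DecidableEq ι]

/-- `u = y_u - s y_v`, `v = t y_v` -/
noncomputable def lin (u v : ι) (s t : ℂ) (a : ι) : MvPolynomial ι ℂ :=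
  if a = u then X u - C s * X v else if a = v then C t * X v else X a

theorem lin_u (u v : ι) (s t : ℂ) : lin u v s t u = X u - C s * X v := by simp [lin]

theorem lin_v (u v : ι) (hne : u ≠ v) (s t : ℂ) : lin u v s t v = C t * X v := by
  simp [lin, hne.symm]

theorem lin_o (u v a : ι) (h1 : a ≠ u) (h2 : a ≠ v) (s t : ℂ) : lin u v s t a = X a := by
  simp [lin, h1, h2]

theorem lin_hom (Z : Finset ι) (u v : ι) (hne : u ≠ v) (hZ : Zᶜ = {u, v}) (s t : ℂ) (a : ι) :
    IsWeightedHomogeneous (om Z) (lin u v s t a) (om Z a) := by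
  obtain ⟨hu, hv⟩ := notMem_of Z u v hZ
  have ou : om Z u = (0, 1) := by simp [om, hu]
  have ov : om Z v = (0, 1) := by simp [om, hv]
  have xu := isWeightedHomogeneous_X ℂ (om Z) u
  have xv := isWeightedHomogeneous_X ℂ (om Z) v
  rw [ou] at xu
  rw [ov] at xv
  by_cases h1 : a = u
  · rw [h1, lin_u, ou]
    exact xu.sub (xv.C_mul s)
  · by_cases h2 : a = v
    · rw [h2, lin_v u v hne, ov]
      exact xv.C_mul t
    · rw [lin_o u v a h1 h2]
      exact isWeightedHomogeneous_X ℂ (om Z) a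

theorem lin_pderiv (Z : Finset ι) (u v : ι) (hne : u ≠ v) (hZ : Zᶜ = {u, v}) (s t : ℂ) (b : ι)
    (hb : b ∈ Z) (a : ι) : pderiv b (lin u v s t a) = if a = b then 1 else 0 := by
  obtain ⟨hu, hv⟩ := notMem_of Z u v hZ
  have hbu : u ≠ b := fun h => hu (h ▸ hb)
  have hbv : v ≠ b := fun h => hv (h ▸ hb)
  by_cases h1 : a = u
  · rw [h1, lin_u, if_neg hbu, map_sub, pderiv_C_mul, pderiv_X_of_ne hbu, pderiv_X_of_ne hbv]
    simp
  · by_cases h2 : a = v
    · rw [h2, lin_v u v hne, if_neg hbv, pderiv_C_mul, pderiv_X_of_ne hbv]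
      simp
    · rw [lin_o u v a h1 h2]
      split_ifs with h
      · rw [h, pderiv_X_self]
      · rw [pderiv_X_of_ne h]

theorem lin_zero (u v : ι) (s t : ℂ) (a : ι) : eval (fun _ => (0 : ℂ)) (lin u v s t a) = 0 := by
  unfold lin
  split_ifs <;> simp

theorem lin_co (u v : ι) (hne : u ≠ v) (s t : ℂ) (ht : t ≠ 0) :
    IsCo (fun _ => 0) (lin u v s t) := by
  refine ⟨lin_zero u v s t, ?_⟩
  intro hdet
  obtain ⟨x, hx0, hx⟩ := Matrix.exists_mulVec_eq_zero_iff.2 hdet
  apply hx0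
  have key : ∀ a, ∑ b, eval (fun _ => (0 : ℂ)) (pderiv b (lin u v s t a)) * x b = 0 := by
    intro a
    have := congrFun hx a
    simpa [Matrix.mulVec, dotProduct] using this
  have hX : ∀ a b : ι, eval (fun _ => (0 : ℂ)) (pderiv b (X a : MvPolynomial ι ℂ)) =
      if a = b then 1 else 0 := by
    intro a b
    split_ifs with h
    · rw [h, pderiv_X_self]; simp
    · rw [pderiv_X_of_ne h]; simp
  have ho : ∀ a, a ≠ u → a ≠ v → x a = 0 := by
    intro a h1 h2
    have := key a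
    rw [lin_o u v a h1 h2] at this
    simp only [hX, ite_mul, one_mul, zero_mul] at this
    simpa using this
  have hv : x v = 0 := by
    have := key v
    rw [lin_v u v hne] at this
    simp only [pderiv_C_mul, map_mul, eval_C, hX, mul_assoc, ite_mul, one_mul, zero_mul] at this
    rw [← Finset.mul_sum] at this
    simpa [ht] using this
  have hu : x u = 0 := by
    have := key u
    rw [lin_u] at this
    simp only [map_sub, pderiv_C_mul, map_mul, eval_C, hX, sub_mul, mul_assoc, ite_mul, one_mul,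
      zero_mul, Finset.sum_sub_distrib] at this
    rw [← Finset.mul_sum] at this
    simpa [hv] using this
  funext a
  by_cases h1 : a = u
  · rw [h1, hu]; rfl
  · by_cases h2 : a = v
    · rw [h2, hv]; rfl
    · exact ho a h1 h2

/-- the cubic part after the change of coordinates -/
theorem cube (Z : Finset ι) (u v : ι) (hne : u ≠ v) (hZ : Zᶜ = {u, v}) (F : MvPolynomial ι ℂ)
    (c0 c1 c2 c3 : ℂ) (k0 : F.coeff (Finsupp.single u 3 + Finsupp.single v 0) = c0)
    (k1 : F.coeff (Finsupp.single u 2 + Finsupp.single v 1) = c1)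
    (k2 : F.coeff (Finsupp.single u 1 + Finsupp.single v 2) = c2)
    (k3 : F.coeff (Finsupp.single u 0 + Finsupp.single v 3) = c3)
    (hA : c1 ^ 2 = 3 * c0 * c2) (hB : c1 * c2 = 9 * c0 * c3) (i j : ℕ) (hij : i + j = 3) :
    (bind₁ (lin u v c1 (3 * c0)) F).coeff (Finsupp.single u i + Finsupp.single v j) =
      if i = 3 ∧ j = 0 then c0 else 0 := by
  obtain ⟨G0, hG0⟩ : ∃ G0 : MvPolynomial ι ℂ, G0 =
      monomial (Finsupp.single u 3 + Finsupp.single v 0) c0 +
      monomial (Finsupp.single u 2 + Finsupp.single v 1) c1 +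
      monomial (Finsupp.single u 1 + Finsupp.single v 2) c2 +
      monomial (Finsupp.single u 0 + Finsupp.single v 3) c3 := ⟨_, rfl⟩
  have hR : ∀ d, dZ Z d = 0 → dZ Zᶜ d = 3 → (F - G0).coeff d = 0 := by
    intro d h1 h2
    have hd := eq_single Z u v hne hZ d h1
    rw [dZ_compl Z u v hne hZ] at h2
    rw [coeff_sub, sub_eq_zero, hG0, coeff_add, coeff_add, coeff_add, coeff_monomial,
      coeff_monomial, coeff_monomial, coeff_monomial, hd]
    simp only [single_inj u v hne]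
    obtain h | h | h | h : (d u = 3 ∧ d v = 0) ∨ (d u = 2 ∧ d v = 1) ∨ (d u = 1 ∧ d v = 2) ∨
        (d u = 0 ∧ d v = 3) := by omega
    · rw [h.1, h.2, k0]; norm_num
    · rw [h.1, h.2, k1]; norm_num
    · rw [h.1, h.2, k2]; norm_num
    · rw [h.1, h.2, k3]; norm_num
  have hbR : (bind₁ (lin u v c1 (3 * c0)) (F - G0)).coeff
      (Finsupp.single u i + Finsupp.single v j) = 0 := by
    by_contra hcon
    obtain ⟨d, hd, h1, h2⟩ := bind_support Z _ (lin_hom Z u v hne hZ c1 (3 * c0)) _ _ hcon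
    rw [single_dZ Z u v hZ] at h1
    rw [dZ_compl Z u v hne hZ (Finsupp.single u i + Finsupp.single v j),
      (single_val u v hne i j).1, (single_val u v hne i j).2, hij] at h2
    exact (mem_support_iff.1 hd) (hR d h1 h2)
  have hbG : bind₁ (lin u v c1 (3 * c0)) G0 =
      monomial (Finsupp.single u 3 + Finsupp.single v 0) c0 := by
    rw [hG0]
    simp only [mono_eq, map_add, map_mul, map_pow, bind₁_C_right, bind₁_X_right, lin_u,
      lin_v u v hne]
    have e1 : (C c1 : MvPolynomial ι ℂ) ^ 2 = 3 * C c0 * C c2 := by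
      rw [← map_pow, hA, map_mul, map_mul, map_ofNat]
    have e2 : (C c1 : MvPolynomial ι ℂ) * C c2 = 9 * C c0 * C c3 := by
      rw [← map_mul, hB, map_mul, map_mul, map_ofNat]
    rw [map_ofNat]
    linear_combination (-3 * C c0 * X u * X v ^ 2 + 2 * C c0 * C c1 * X v ^ 3) * e1 +
      (-3 * C c0 ^ 2 * X v ^ 3) * e2
  have hsplit : bind₁ (lin u v c1 (3 * c0)) F = bind₁ (lin u v c1 (3 * c0)) G0 +
      bind₁ (lin u v c1 (3 * c0)) (F - G0) := by
    rw [← map_add]; congr 1; ring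
  rw [hsplit, coeff_add, hbR, add_zero, hbG, coeff_monomial]
  simp only [single_inj u v hne]
  by_cases h : i = 3 ∧ j = 0
  · rw [if_pos h, if_pos ⟨h.1.symm, h.2.symm⟩]
  · rw [if_neg h, if_neg fun h' => h ⟨h'.1.symm, h'.2.symm⟩]

/-- simple points or a chart -/
theorem point (hLDF : Stmt_LDF8) (f : MvPolynomial ι ℂ) (Z : Finset ι) (y x : ι) (hne : y ≠ x)
    (hZ : Zᶜ = {y, x}) (K' : ℕ) (hK : 3 ≤ K') (χ : ι → MvPolynomial (ι ⊕ ι) ℂ) (p : ι → ℂ)
    (hp : p ∈ Crit0 f) (hco : IsCo p fun a => sp p (χ a)) (F : MvPolynomial ι ℂ)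
    (hF : bind₁ (fun a => sp p (χ a)) f = F) (hS : Spl Z K' F)
    (h30 : F.coeff (Finsupp.single y 3 + Finsupp.single x 0) ≠ 0)
    (h21 : F.coeff (Finsupp.single y 2 + Finsupp.single x 1) = 0)
    (h12 : F.coeff (Finsupp.single y 1 + Finsupp.single x 2) = 0)
    (h03 : F.coeff (Finsupp.single y 0 + Finsupp.single x 3) = 0) :
    p ∈ CZ f χ (wt y x 3 2 1) 6 ∨ Sim f p := by
  rcases estep hLDF Z y x hne hZ K' hK F hS h30 h21 h12 h03 with ⟨i, hi, w, D, hSQ, hr⟩ | h
  · right
    refine ⟨i, hi, w, D, fun a => sp p (χ a), hco.1, hco.2, ?_, hr⟩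
    rw [hp.1, hF, C_0, sub_zero]
    exact hSQ
  · left
    refine ⟨hco, ?_⟩
    rw [hF]
    exact h

theorem sp_bind (p : ι → ℂ) (φ : ι → MvPolynomial (ι ⊕ ι) ℂ) (f : MvPolynomial ι ℂ) :
    sp p (bind₁ φ f) = bind₁ (fun a => sp p (φ a)) f := by
  rw [sp, aeval_bind₁]
  rfl

theorem sp_rename (p : ι → ℂ) (A : MvPolynomial ι ℂ) :
    sp p (rename Sum.inl A : MvPolynomial (ι ⊕ ι) ℂ) = C (eval p A) := by
  rw [sp, aeval_rename]
  induction A using MvPolynomial.induction_on with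
  | C a => simp
  | add p q hp hq => simp only [map_add, hp, hq]
  | mul_X p n hp => simp only [map_mul, hp, aeval_X, eval_X, Function.comp, Sum.elim_inl]

end

end T2BAux

open MvPolynomial TS RO PC Finset T2BAux in
theorem stmt_T2B8 (hCOF : Stmt_COF8) (hCMP : Stmt_CMP8) (hLDF : Stmt_LDF8) : Stmt_T2B8 := by
  intro ι _ _ f Z u v K' S φ a b hK hCk hb hab
  obtain ⟨huv, hZ, hS⟩ := hCk
  have hZ' : Zᶜ = {v, u} := by rw [hZ, Finset.pair_comm]
  obtain ⟨A0, hA0⟩ := hCOF ι ι (bind₁ φ f) (Finsupp.single u 3 + Finsupp.single v 0)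
  obtain ⟨A1, hA1⟩ := hCOF ι ι (bind₁ φ f) (Finsupp.single u 2 + Finsupp.single v 1)
  obtain ⟨ψ, hψ⟩ : ∃ ψ : ι → MvPolynomial (ι ⊕ ι) ℂ, ψ = fun a =>
      if a = u then X (Sum.inr u) - rename Sum.inl A1 * X (Sum.inr v)
      else if a = v then 3 * rename Sum.inl A0 * X (Sum.inr v) else X (Sum.inr a) := ⟨_, rfl⟩
  have hψp : ∀ p, (fun a => sp p (ψ a)) = lin u v (eval p A1) (3 * eval p A0) := by
    intro p
    funext a
    have hXr : ∀ c : ι, sp p (X (Sum.inr c) : MvPolynomial (ι ⊕ ι) ℂ) = X c := by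
      intro c; simp [sp]
    have hm : ∀ P Q : MvPolynomial (ι ⊕ ι) ℂ, sp p (P * Q) = sp p P * sp p Q := by
      intro P Q; simp [sp]
    have hs : ∀ P Q : MvPolynomial (ι ⊕ ι) ℂ, sp p (P - Q) = sp p P - sp p Q := by
      intro P Q; simp [sp]
    have h3 : sp p (3 : MvPolynomial (ι ⊕ ι) ℂ) = 3 := by
      rw [sp]; exact map_ofNat _ 3
    rw [hψ]
    by_cases h1 : a = u
    · simp only [if_pos h1, hs, hm, hXr, sp_rename]
      rw [h1, lin_u]
    · by_cases h2 : a = v
      · simp only [if_neg h1, if_pos h2, hm, hXr, sp_rename, h3]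
        rw [h2, lin_v u v huv, map_mul, map_ofNat]
      · simp only [if_neg h1, if_neg h2, hXr]
        rw [lin_o u v a h1 h2]
  obtain ⟨χ, hχ⟩ := hCMP ι f φ ψ
  have hcard := card_eq Z u v huv hZ
  have hbnd : (3 * Z.card + 2 + 1) * b ≤ 6 * a := by
    rw [hcard] at hab
    nlinarith
  refine ⟨[(χ, wt u v 3 2 1, 6), (φ, wt v u 3 2 1, 6)], ?_, ?_⟩
  · intro c hc
    simp only [List.mem_cons, List.not_mem_nil, or_false] at hc
    rcases hc with rfl | rfl
    · refine ⟨?_, by norm_num, ?_⟩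
      · intro i; simp only [wt]; split_ifs <;> norm_num
      · simp only []
        rw [sum_wt Z u v huv hZ]
        exact hbnd
    · refine ⟨?_, by norm_num, ?_⟩
      · intro i; simp only [wt]; split_ifs <;> norm_num
      · simp only []
        rw [sum_wt Z v u huv.symm hZ']
        exact hbnd
  · rintro p ⟨hp, ⟨i, hi3, hi⟩, hA, hB, hC⟩
    obtain ⟨hcrit, hco, hSpl⟩ := hS p hp
    have hF : inC f φ p = bind₁ (fun a => sp p (φ a)) f := rfl
    obtain ⟨F, hFF⟩ : ∃ F, F = inC f φ p := ⟨_, rfl⟩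
    rw [← hFF] at hi hA hB hC hF
    rw [← hF] at hSpl
    obtain ⟨c0, k0⟩ : ∃ c0, c0 = F.coeff (Finsupp.single u 3 + Finsupp.single v 0) := ⟨_, rfl⟩
    obtain ⟨c1, k1⟩ : ∃ c1, c1 = F.coeff (Finsupp.single u 2 + Finsupp.single v 1) := ⟨_, rfl⟩
    obtain ⟨c2, k2⟩ : ∃ c2, c2 = F.coeff (Finsupp.single u 1 + Finsupp.single v 2) := ⟨_, rfl⟩
    obtain ⟨c3, k3⟩ : ∃ c3, c3 = F.coeff (Finsupp.single u 0 + Finsupp.single v 3) := ⟨_, rfl⟩
    have m0 : cub u v F 0 = c0 := k0.symm
    have m1 : cub u v F 1 = c1 := k1.symm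
    have m2 : cub u v F 2 = c2 := k2.symm
    have m3 : cub u v F 3 = c3 := k3.symm
    rw [SP.hA, m0, m1, m2] at hA
    rw [SP.hB, m0, m1, m2, m3] at hB
    rw [SP.hC, m1, m2, m3] at hC
    by_cases hc0 : c0 = 0
    · -- the cube of `x_v`
      have hc1 : c1 = 0 := by
        rw [hc0] at hA
        simpa using hA
      have hc2 : c2 = 0 := by
        rw [hc1] at hC
        simpa using hC
      have hc3 : c3 ≠ 0 := by
        intro hc3
        apply hi
        interval_cases i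
        · rw [m0, hc0]
        · rw [m1, hc1]
        · rw [m2, hc2]
        · rw [m3, hc3]
      have hpt := point hLDF f Z v u huv.symm hZ' K' hK φ p hcrit hco F hF.symm hSpl
        (by rw [add_comm, ← k3]; exact hc3) (by rw [add_comm, ← k2]; exact hc2)
        (by rw [add_comm, ← k1]; exact hc1) (by rw [add_comm, ← k0]; exact hc0)
      rcases hpt with h | h
      · exact Or.inl ⟨_, List.mem_cons_of_mem _ (List.mem_cons_self), h⟩
      · exact Or.inr h
    · -- the cube of a linear form with `u`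
      have q0 : eval p A0 = c0 := by rw [hA0, sp_bind, ← hF, ← k0]
      have q1 : eval p A1 = c1 := by rw [hA1, sp_bind, ← hF, ← k1]
      have hps := hψp p
      rw [q0, q1] at hps
      obtain ⟨hχ1, hχ2⟩ := hχ p
      rw [hps, ← hF] at hχ1
      rw [hps] at hχ2
      have h3c : (3 : ℂ) * c0 ≠ 0 := mul_ne_zero (by norm_num) hc0
      have hco' := hχ2 hco (lin_co u v huv c1 (3 * c0) h3c)
      have hcube := cube Z u v huv hZ F c0 c1 c2 c3 k0.symm k1.symm k2.symm k3.symm
        (sub_eq_zero.1 hA) (sub_eq_zero.1 hB)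
      have hpt := point hLDF f Z u v huv hZ K' hK χ p hcrit hco' _ hχ1
        (Spl_bind Z K' _ (lin_hom Z u v huv hZ c1 (3 * c0))
          (fun b hb a => lin_pderiv Z u v huv hZ c1 (3 * c0) b hb a)
          (lin_zero u v c1 (3 * c0)) F hSpl)
        (by rw [hcube 3 0 rfl]; simpa using hc0) (by rw [hcube 2 1 rfl]; simp)
        (by rw [hcube 1 2 rfl]; simp) (by rw [hcube 0 3 rfl]; simp)
      rcases hpt with h | h
      · exact Or.inl ⟨_, List.mem_cons_self, h⟩
      · exact Or.inr h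

end Pool.Agent.Mono.SP
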