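import Pool.Agent.Work.Monodromy8.T2A8

/-!
# Block T2C8: corank `2`, three different roots
-/

set_option autoImplicit false
set_option linter.unusedSectionVars false

namespace Pool.Agent.Mono.SP

open MvPolynomial TS RO PC LDF8Aux CHA8 T2A8Aux

namespace T2C8Aux

variable {ι : Type} [Fintype ι] [DecidableEq ι]

theorem eval_eq_sum {Z : Finset ι} {x : ι → ℂ} (hx : ∀ b ∈ Z, x b = 0) (H : MvPolynomial ι ℂ)
    (T : Finset (ι →₀ ℕ)) (hT : ∀ d ∈ H.support, dZ Z d = 0 → d ∈ T) :
    eval x H = ∑ d ∈ T, coeff d H * ∏ i, x i ^ d i := by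
  rw [eval_eq']
  have h1 : ∑ d ∈ H.support, coeff d H * ∏ i, x i ^ d i =
      ∑ d ∈ H.support ∪ T, coeff d H * ∏ i, x i ^ d i := by
    refine Finset.sum_subset Finset.subset_union_left fun d _ hd => ?_
    rw [notMem_support_iff.1 hd, zero_mul]
  have h2 : ∑ d ∈ T, coeff d H * ∏ i, x i ^ d i =
      ∑ d ∈ H.support ∪ T, coeff d H * ∏ i, x i ^ d i := by
    refine Finset.sum_subset Finset.subset_union_right fun d hd hd' => ?_
    have hs : d ∈ H.support := by
      rcases Finset.mem_union.1 hd with h | h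
      · exact h
      · exact absurd h hd'
    have h3 : dZ Z d ≠ 0 := fun h => hd' (hT d hs h)
    obtain ⟨b, hb, hd0⟩ : ∃ b ∈ Z, d b ≠ 0 := by
      by_contra h
      push Not at h
      exact h3 (Finset.sum_eq_zero h)
    rw [Finset.prod_eq_zero (Finset.mem_univ b), mul_zero]
    rw [hx b hb, zero_pow hd0]
  rw [h1, h2]

theorem prod_single_pow (x : ι → ℂ) (u : ι) (k : ℕ) :
    ∏ i, x i ^ (Finsupp.single u k) i = x u ^ k := by
  rw [Finset.prod_eq_single u]
  · simp
  · intro b _ hb
    simp [hb.symm]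
  · intro h
    exact absurd (Finset.mem_univ _) h

theorem prod_pair_pow (x : ι → ℂ) (u v : ι) (k l : ℕ) :
    ∏ i, x i ^ (Finsupp.single u k + Finsupp.single v l) i = x u ^ k * x v ^ l := by
  simp only [Finsupp.add_apply, pow_add, Finset.prod_mul_distrib]
  rw [prod_single_pow, prod_single_pow]

theorem disc_zero {α β γ δ x y : ℂ} (h1 : 3 * α * x ^ 2 + 2 * β * (x * y) + γ * y ^ 2 = 0)
    (h2 : β * x ^ 2 + 2 * γ * (x * y) + 3 * δ * y ^ 2 = 0)
    (hne : (β * γ - 9 * α * δ) ^ 2 ≠ 4 * (β ^ 2 - 3 * α * γ) * (γ ^ 2 - 3 * β * δ)) :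
    x = 0 ∧ y = 0 := by
  have h3 : y * (2 * (β ^ 2 - 3 * α * γ) * x + (β * γ - 9 * α * δ) * y) = 0 := by
    linear_combination β * h1 - 3 * α * h2
  have h4 : x * ((β * γ - 9 * α * δ) * x + 2 * (γ ^ 2 - 3 * β * δ) * y) = 0 := by
    linear_combination γ * h2 - 3 * δ * h1
  by_cases hx : x = 0
  · refine ⟨hx, ?_⟩
    by_contra hy
    subst hx
    have h5 : γ = 0 := by
      have : γ * y ^ 2 = 0 := by linear_combination h1
      rcases mul_eq_zero.1 this with h | h
      · exact h
      · exact absurd (pow_eq_zero_iff (two_ne_zero) |>.1 h) hy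
    have h6 : δ = 0 := by
      have : δ * y ^ 2 = 0 := by linear_combination (1 / 3) * h2
      rcases mul_eq_zero.1 this with h | h
      · exact h
      · exact absurd (pow_eq_zero_iff (two_ne_zero) |>.1 h) hy
    apply hne
    rw [h5, h6]
    ring
  · by_cases hy : y = 0
    · exfalso
      subst hy
      have h5 : α = 0 := by
        have : α * x ^ 2 = 0 := by linear_combination (1 / 3) * h1
        rcases mul_eq_zero.1 this with h | h
        · exact h
        · exact absurd (pow_eq_zero_iff (two_ne_zero) |>.1 h) hx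
      have h6 : β = 0 := by
        have : β * x ^ 2 = 0 := by linear_combination h2
        rcases mul_eq_zero.1 this with h | h
        · exact h
        · exact absurd (pow_eq_zero_iff (two_ne_zero) |>.1 h) hx
      apply hne
      rw [h5, h6]
      ring
    · exfalso
      have h5 := (mul_eq_zero.1 h3).resolve_left hy
      have h6 := (mul_eq_zero.1 h4).resolve_left hx
      apply hne
      have h7 : x * ((β * γ - 9 * α * δ) ^ 2 - 4 * (β ^ 2 - 3 * α * γ) * (γ ^ 2 - 3 * β * δ)) = 0 := by
        linear_combination (β * γ - 9 * α * δ) * h6 - 2 * (γ ^ 2 - 3 * β * δ) * h5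
      exact sub_eq_zero.1 ((mul_eq_zero.1 h7).resolve_left hx)

/-- the critical points of a binary cubic -/
theorem cubic_crit {Z : Finset ι} {u v : ι} (huv : u ≠ v) (hZ : Zᶜ = {u, v})
    {G : MvPolynomial ι ℂ}
    (hne : hB u v G ^ 2 ≠ 4 * hA u v G * hC u v G) (x : ι → ℂ) (hx : ∀ b ∈ Z, x b = 0)
    (h : ∀ a, eval x (pderiv a (ini (fun i => if i ∈ Z then 3 else 2) 6 G)) = 0) : x = 0 := by
  set w : ι → ℕ := fun i => if i ∈ Z then 3 else 2 with hw
  have hinj : ∀ {a b a' b' : ℕ}, Finsupp.single u a + Finsupp.single v b =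
      Finsupp.single u a' + Finsupp.single v b' → b = b' := by
    intro a b a' b' h
    have := DFunLike.congr_fun h v
    simpa [huv] using this
  -- coefficients
  have hco : ∀ a b : ℕ, a + b = 3 → coeff (Finsupp.single u a + Finsupp.single v b) (ini w 6 G) =
      coeff (Finsupp.single u a + Finsupp.single v b) G := by
    intro a b hab
    rw [ini, coeff_weightedHomogeneousComponent, if_pos]
    rw [map_add, Finsupp.weight_single, Finsupp.weight_single, hw]
    simp only [if_neg (notMem_u hZ), if_neg (notMem_v hZ), smul_eq_mul]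
    omega
  have hmon : ∀ (a : ι), a ∉ Z → ∀ d ∈ (pderiv a (ini w 6 G)).support, dZ Z d = 0 → d ∈
      ({Finsupp.single u 2 + Finsupp.single v 0, Finsupp.single u 1 + Finsupp.single v 1,
        Finsupp.single u 0 + Finsupp.single v 2} : Finset (ι →₀ ℕ)) := by
    intro a ha d hd h0
    rw [mem_support_iff, coeff_pderiv, ini, coeff_weightedHomogeneousComponent] at hd
    split_ifs at hd with hwd
    · rw [weight_two, dZ_add, dZ_add, h0, dZ_single_notMem _ ha, dZ_compl_single_notMem _ ha,
        dZc_pair huv hZ] at hwd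
      have h2 : d u + d v = 2 := by omega
      rw [eq_pair huv hZ h0]
      simp only [Finset.mem_insert, Finset.mem_singleton]
      have h3 : (d u = 2 ∧ d v = 0) ∨ (d u = 1 ∧ d v = 1) ∨ (d u = 0 ∧ d v = 2) := by omega
      rcases h3 with ⟨h3, h4⟩ | ⟨h3, h4⟩ | ⟨h3, h4⟩
      · left; rw [h3, h4]
      · right; left; rw [h3, h4]
      · right; right; rw [h3, h4]
    · simp at hd
  have hev : ∀ (a : ι), a ∉ Z →
      coeff (Finsupp.single u 2 + Finsupp.single v 0) (pderiv a (ini w 6 G)) * (x u ^ 2) +
        (coeff (Finsupp.single u 1 + Finsupp.single v 1) (pderiv a (ini w 6 G)) * (x u * x v) +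
        coeff (Finsupp.single u 0 + Finsupp.single v 2) (pderiv a (ini w 6 G)) * (x v ^ 2)) = 0 := by
    intro a ha
    have h1 := h a
    rw [eval_eq_sum hx _ _ (hmon a ha), Finset.sum_insert, Finset.sum_insert,
      Finset.sum_singleton, prod_pair_pow, prod_pair_pow, prod_pair_pow] at h1
    · simpa using h1
    · rw [Finset.mem_singleton]
      intro h
      exact absurd (hinj h) (by norm_num)
    · rw [Finset.mem_insert, Finset.mem_singleton]
      rintro (h | h)
      · exact absurd (hinj h) (by norm_num)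
      · exact absurd (hinj h) (by norm_num)
  have hsu : ∀ a b : ℕ, Finsupp.single u a + Finsupp.single v b + Finsupp.single u 1 =
      Finsupp.single u (a + 1) + Finsupp.single v b := by
    intro a b
    rw [Finsupp.single_add]
    abel
  have hsv : ∀ a b : ℕ, Finsupp.single u a + Finsupp.single v b + Finsupp.single v 1 =
      Finsupp.single u a + Finsupp.single v (b + 1) := by
    intro a b
    rw [Finsupp.single_add]
    abel
  have heu := hev u (notMem_u hZ)
  have hevv := hev v (notMem_v hZ)
  rw [coeff_pderiv, coeff_pderiv, coeff_pderiv, hsu, hsu, hsu, hco _ _ (by norm_num),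
    hco _ _ (by norm_num), hco _ _ (by norm_num)] at heu
  rw [coeff_pderiv, coeff_pderiv, coeff_pderiv, hsv, hsv, hsv, hco _ _ (by norm_num),
    hco _ _ (by norm_num), hco _ _ (by norm_num)] at hevv
  have e1 : ∀ a b : ℕ, (Finsupp.single u a + Finsupp.single v b) u = a := by
    intro a b
    simp [huv.symm]
  have e2 : ∀ a b : ℕ, (Finsupp.single u a + Finsupp.single v b) v = b := by
    intro a b
    simp [huv]
  simp only [e1, e2] at heu hevv
  have c0 : cub u v G 0 = coeff (Finsupp.single u (2 + 1) + Finsupp.single v 0) G := rfl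
  have c1 : cub u v G 1 = coeff (Finsupp.single u (1 + 1) + Finsupp.single v 1) G := rfl
  have c1' : cub u v G 1 = coeff (Finsupp.single u 2 + Finsupp.single v (0 + 1)) G := rfl
  have c2 : cub u v G 2 = coeff (Finsupp.single u (0 + 1) + Finsupp.single v 2) G := rfl
  have c2' : cub u v G 2 = coeff (Finsupp.single u 1 + Finsupp.single v (1 + 1)) G := rfl
  have c3 : cub u v G 3 = coeff (Finsupp.single u 0 + Finsupp.single v (2 + 1)) G := rfl
  rw [← c0, ← c1, ← c2] at heu
  rw [← c1', ← c2', ← c3] at hevv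
  rw [hA, hB, hC] at hne
  obtain ⟨hu, hv⟩ := disc_zero (α := cub u v G 0) (β := cub u v G 1) (γ := cub u v G 2)
    (δ := cub u v G 3) (x := x u) (y := x v) (by push_cast at heu; linear_combination heu)
    (by push_cast at hevv; linear_combination hevv) hne
  funext i
  by_cases hi : i ∈ Z
  · exact hx i hi
  · have : i ∈ Zᶜ := by simpa using hi
    rw [hZ, Finset.mem_insert, Finset.mem_singleton] at this
    rcases this with rfl | rfl
    · exact hu
    · exact hv

end T2C8Aux

open T2C8Aux

theorem stmt_T2C8 : Stmt_T2C8 := by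
  intro ι _ _ f Z u v K' S φ hK hC p hp hne
  obtain ⟨huv, hZ, hC⟩ := hC
  obtain ⟨hc, h1, h2⟩ := hC p hp
  have hcard := card_pair huv hZ
  refine sim_of h1 hc (w := fun i => if i ∈ Z then 3 else 2) (D := 6)
    (LDF8Aux.main h2 (fun i => ?_) (by norm_num) (fun b hb => ?_) (fun d hd => ?_)
      fun x hx h => cubic_crit huv hZ hne x hx h) 6 (by norm_num) ?_
  · show 1 ≤ if i ∈ Z then 3 else 2
    split_ifs <;> norm_num
  · show 2 * (if b ∈ Z then 3 else 2) = 6
    rw [if_pos hb]
  · obtain ⟨h3, h4⟩ := h2.1 d hd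
    rw [weight_two]
    rcases Nat.lt_or_ge (dZ Z d) 1 with h | h
    · have := h3 (by omega)
      omega
    · rcases Nat.lt_or_ge (dZ Z d) 2 with h' | h'
      · have := h4 (by omega)
        omega
      · omega
  · rw [sum_two, hZ, Finset.card_pair huv, ← hcard]
    push_cast
    ring

end Pool.Agent.Mono.SP
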