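import Pool.Agent.Work.Monodromy8.T2B8

/-!
# Monodromy, phase 8: block T2D8 (helper49)

Corank `2`, the cubic part has a double root.  Linear coordinates as in T2B8 (helper45).
-/

set_option autoImplicit false

namespace Pool.Agent.Mono.SP
namespace T2DAux

open MvPolynomial TS RO PC Finset T2BAux

section

variable {ι : Type} [Fintype ι] [DecidableEq ι]

/-- the cubic part after a linear change of coordinates -/
theorem cubic (Z : Finset ι) (u v : ι) (hne : u ≠ v) (hZ : Zᶜ = {u, v}) (F : MvPolynomial ι ℂ)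
    (c0 c1 c2 c3 s t : ℂ) (k0 : F.coeff (Finsupp.single u 3 + Finsupp.single v 0) = c0)
    (k1 : F.coeff (Finsupp.single u 2 + Finsupp.single v 1) = c1)
    (k2 : F.coeff (Finsupp.single u 1 + Finsupp.single v 2) = c2)
    (k3 : F.coeff (Finsupp.single u 0 + Finsupp.single v 3) = c3) :
    (bind₁ (lin u v s t) F).coeff (Finsupp.single u 2 + Finsupp.single v 1) =
        -3 * c0 * s + t * c1 ∧
      (bind₁ (lin u v s t) F).coeff (Finsupp.single u 1 + Finsupp.single v 2) =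
        3 * c0 * s ^ 2 - 2 * c1 * s * t + c2 * t ^ 2 ∧
      (bind₁ (lin u v s t) F).coeff (Finsupp.single u 0 + Finsupp.single v 3) =
        -c0 * s ^ 3 + c1 * s ^ 2 * t - c2 * s * t ^ 2 + c3 * t ^ 3 := by
  obtain ⟨G0, hG0⟩ : ∃ G0 : MvPolynomial ι ℂ, G0 =
      monomial (Finsupp.single u 3 + Finsupp.single v 0) c0 +
      monomial (Finsupp.single u 2 + Finsupp.single v 1) c1 +
      monomial (Finsupp.single u 1 + Finsupp.single v 2) c2 +
      monomial (Finsupp.single u 0 + Finsupp.single v 3) c3 := ⟨_, rfl⟩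
  have hR : ∀ d, dZ Z d = 0 → dZ Zᶜ d = 3 → (F - G0).coeff d = 0 := by
    intro d h1 h2
    have hd := eq_single Z u v hne hZ d h1
    rw [dZ_compl Z u v hne hZ] at h2
    rw [coeff_sub, sub_eq_zero, hG0, coeff_add, coeff_add, coeff_add, coeff_monomial,
      coeff_monomial, coeff_monomial, coeff_monomial, hd]
    simp only [single_inj u v hne]
    obtain h | h | h | h : (d u = 3 ∧ d v = 0) ∨ (d u = 2 ∧ d v = 1) ∨ (d u = 1 ∧ d v = 2) ∨
        (d u = 0 ∧ d v = 3) := by omega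
    · rw [h.1, h.2, k0]; norm_num
    · rw [h.1, h.2, k1]; norm_num
    · rw [h.1, h.2, k2]; norm_num
    · rw [h.1, h.2, k3]; norm_num
  have hbR : ∀ i j : ℕ, i + j = 3 → (bind₁ (lin u v s t) (F - G0)).coeff
      (Finsupp.single u i + Finsupp.single v j) = 0 := by
    intro i j hij
    by_contra hcon
    obtain ⟨d, hd, h1, h2⟩ := bind_support Z _ (lin_hom Z u v hne hZ s t) _ _ hcon
    rw [single_dZ Z u v hZ] at h1
    rw [dZ_compl Z u v hne hZ (Finsupp.single u i + Finsupp.single v j),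
      (single_val u v hne i j).1, (single_val u v hne i j).2, hij] at h2
    exact (mem_support_iff.1 hd) (hR d h1 h2)
  have hbG : bind₁ (lin u v s t) G0 =
      monomial (Finsupp.single u 3 + Finsupp.single v 0) c0 +
      monomial (Finsupp.single u 2 + Finsupp.single v 1) (-3 * c0 * s + t * c1) +
      monomial (Finsupp.single u 1 + Finsupp.single v 2)
        (3 * c0 * s ^ 2 - 2 * c1 * s * t + c2 * t ^ 2) +
      monomial (Finsupp.single u 0 + Finsupp.single v 3)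
        (-c0 * s ^ 3 + c1 * s ^ 2 * t - c2 * s * t ^ 2 + c3 * t ^ 3) := by
    rw [hG0]
    simp only [mono_eq, map_add, map_sub, map_neg, map_mul, map_pow, bind₁_C_right, bind₁_X_right,
      lin_u, lin_v u v hne, map_ofNat]
    ring
  have hsplit : bind₁ (lin u v s t) F = bind₁ (lin u v s t) G0 +
      bind₁ (lin u v s t) (F - G0) := by
    rw [← map_add]; congr 1; ring
  refine ⟨?_, ?_, ?_⟩
  · rw [hsplit, coeff_add, hbR 2 1 rfl, add_zero, hbG, coeff_add, coeff_add, coeff_add,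
      coeff_monomial, coeff_monomial, coeff_monomial, coeff_monomial]
    simp only [single_inj u v hne]
    norm_num
  · rw [hsplit, coeff_add, hbR 1 2 rfl, add_zero, hbG, coeff_add, coeff_add, coeff_add,
      coeff_monomial, coeff_monomial, coeff_monomial, coeff_monomial]
    simp only [single_inj u v hne]
    norm_num
  · rw [hsplit, coeff_add, hbR 0 3 rfl, add_zero, hbG, coeff_add, coeff_add, coeff_add,
      coeff_monomial, coeff_monomial, coeff_monomial, coeff_monomial]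
    simp only [single_inj u v hne]
    norm_num

/-- the weights of type `D_4` and worse -/
theorem dp5 (Z : Finset ι) (u v : ι) (hne : u ≠ v) (hZ : Zᶜ = {u, v}) (K' : ℕ)
    (F : MvPolynomial ι ℂ) (hF : Spl Z K' F)
    (h21 : F.coeff (Finsupp.single u 2 + Finsupp.single v 1) ≠ 0)
    (h12 : F.coeff (Finsupp.single u 1 + Finsupp.single v 2) = 0)
    (h03 : F.coeff (Finsupp.single u 0 + Finsupp.single v 3) = 0) : DP Z u v K' 5 F := by
  refine ⟨hF, h21, ?_⟩
  intro i j hij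
  have h := (hF.1 _ (mem_support_iff.2 hij)).1 (single_dZ Z u v hZ i j)
  rw [dZ_compl Z u v hne hZ, (single_val u v hne i j).1, (single_val u v hne i j).2] at h
  have a1 : ¬ (i = 1 ∧ j = 2) := by
    rintro ⟨rfl, rfl⟩; exact hij h12
  have a2 : ¬ (i = 0 ∧ j = 3) := by
    rintro ⟨rfl, rfl⟩; exact hij h03
  omega

end

end T2DAux

open MvPolynomial TS RO PC Finset T2BAux T2DAux in
theorem stmt_T2D8 (hCOF : Stmt_COF8) (hCMP : Stmt_CMP8) : Stmt_T2D8 := by
  intro ι _ _ f Z u v K' S φ hK hCk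
  obtain ⟨huv, hZ, hS⟩ := hCk
  have hZ' : Zᶜ = {v, u} := by rw [hZ, Finset.pair_comm]
  obtain ⟨A0, hA0⟩ := hCOF ι ι (bind₁ φ f) (Finsupp.single u 3 + Finsupp.single v 0)
  obtain ⟨A1, hA1⟩ := hCOF ι ι (bind₁ φ f) (Finsupp.single u 2 + Finsupp.single v 1)
  obtain ⟨A2, hA2⟩ := hCOF ι ι (bind₁ φ f) (Finsupp.single u 1 + Finsupp.single v 2)
  obtain ⟨A3, hA3⟩ := hCOF ι ι (bind₁ φ f) (Finsupp.single u 0 + Finsupp.single v 3)
  constructor
  · obtain ⟨ψ, hψ⟩ : ∃ ψ : ι → MvPolynomial (ι ⊕ ι) ℂ, ψ = fun a =>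
        if a = u then X (Sum.inr u) - rename Sum.inl (A1 * A2 - 9 * A0 * A3) * X (Sum.inr v)
        else if a = v then rename Sum.inl (2 * (A1 ^ 2 - 3 * A0 * A2)) * X (Sum.inr v)
        else X (Sum.inr a) := ⟨_, rfl⟩
    have hψp : ∀ p, (fun a => sp p (ψ a)) =
        lin u v (eval p (A1 * A2 - 9 * A0 * A3)) (eval p (2 * (A1 ^ 2 - 3 * A0 * A2))) := by
      intro p
      funext a
      have hXr : ∀ c : ι, sp p (X (Sum.inr c) : MvPolynomial (ι ⊕ ι) ℂ) = X c := by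
        intro c; simp [sp]
      have hm : ∀ P Q : MvPolynomial (ι ⊕ ι) ℂ, sp p (P * Q) = sp p P * sp p Q := by
        intro P Q; simp [sp]
      have hs : ∀ P Q : MvPolynomial (ι ⊕ ι) ℂ, sp p (P - Q) = sp p P - sp p Q := by
        intro P Q; simp [sp]
      rw [hψ]
      by_cases h1 : a = u
      · simp only [if_pos h1, hs, hm, hXr, T2BAux.sp_rename]
        rw [h1, lin_u]
      · by_cases h2 : a = v
        · simp only [if_neg h1, if_pos h2, hm, hXr, T2BAux.sp_rename]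
          rw [h2, lin_v u v huv]
        · simp only [if_neg h1, if_neg h2, hXr]
          rw [lin_o u v a h1 h2]
    obtain ⟨χ, hχ⟩ := hCMP ι f φ ψ
    refine ⟨χ, ?_⟩
    rintro p ⟨hp, hdisc, hA⟩
    obtain ⟨hcrit, hco, hSpl⟩ := hS p hp
    have hF : inC f φ p = bind₁ (fun a => sp p (φ a)) f := rfl
    obtain ⟨F, hFF⟩ : ∃ F, F = inC f φ p := ⟨_, rfl⟩
    rw [← hFF] at hdisc hA hF
    rw [← hF] at hSpl
    obtain ⟨c0, k0⟩ : ∃ c0, c0 = F.coeff (Finsupp.single u 3 + Finsupp.single v 0) := ⟨_, rfl⟩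
    obtain ⟨c1, k1⟩ : ∃ c1, c1 = F.coeff (Finsupp.single u 2 + Finsupp.single v 1) := ⟨_, rfl⟩
    obtain ⟨c2, k2⟩ : ∃ c2, c2 = F.coeff (Finsupp.single u 1 + Finsupp.single v 2) := ⟨_, rfl⟩
    obtain ⟨c3, k3⟩ : ∃ c3, c3 = F.coeff (Finsupp.single u 0 + Finsupp.single v 3) := ⟨_, rfl⟩
    have m0 : cub u v F 0 = c0 := k0.symm
    have m1 : cub u v F 1 = c1 := k1.symm
    have m2 : cub u v F 2 = c2 := k2.symm
    have m3 : cub u v F 3 = c3 := k3.symm
    rw [SP.hA, SP.hB, SP.hC, m0, m1, m2, m3] at hdisc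
    rw [SP.hA, m0, m1, m2] at hA
    have q0 : eval p A0 = c0 := by rw [hA0, T2BAux.sp_bind, ← hF, ← k0]
    have q1 : eval p A1 = c1 := by rw [hA1, T2BAux.sp_bind, ← hF, ← k1]
    have q2 : eval p A2 = c2 := by rw [hA2, T2BAux.sp_bind, ← hF, ← k2]
    have q3 : eval p A3 = c3 := by rw [hA3, T2BAux.sp_bind, ← hF, ← k3]
    have hps := hψp p
    have e1 : eval p (A1 * A2 - 9 * A0 * A3) = c1 * c2 - 9 * c0 * c3 := by
      simp only [map_sub, map_mul, map_ofNat, q0, q1, q2, q3]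
    have e2 : eval p (2 * (A1 ^ 2 - 3 * A0 * A2)) = 2 * (c1 ^ 2 - 3 * c0 * c2) := by
      simp only [map_sub, map_mul, map_pow, map_ofNat, q0, q1, q2]
    rw [e1, e2] at hps
    obtain ⟨hχ1, hχ2⟩ := hχ p
    rw [hps, ← hF] at hχ1
    rw [hps] at hχ2
    have ht : (2 : ℂ) * (c1 ^ 2 - 3 * c0 * c2) ≠ 0 := mul_ne_zero (by norm_num) hA
    refine ⟨hχ2 hco (lin_co u v huv _ _ ht), ?_⟩
    rw [hχ1]
    obtain ⟨r1, r2, r3⟩ := cubic Z u v huv hZ F c0 c1 c2 c3 (c1 * c2 - 9 * c0 * c3)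
      (2 * (c1 ^ 2 - 3 * c0 * c2)) k0.symm k1.symm k2.symm k3.symm
    refine dp5 Z u v huv hZ K' _ (Spl_bind Z K' _ (lin_hom Z u v huv hZ _ _)
      (fun b hb a => lin_pderiv Z u v huv hZ _ _ b hb a) (lin_zero u v _ _) F hSpl) ?_ ?_ ?_
    · rw [r1]
      intro h0
      apply hA
      have h1 : 4 * (c1 ^ 2 - 3 * c0 * c2) ^ 3 = 0 := by
        linear_combination (-3 * c0 * (c1 * c2 - 9 * c0 * c3) +
          2 * (c1 ^ 2 - 3 * c0 * c2) * c1) * h0 - 9 * c0 ^ 2 * hdisc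
      have h2 : (c1 ^ 2 - 3 * c0 * c2) ^ 3 = 0 := by
        have := mul_eq_zero.1 h1
        rcases this with h | h
        · norm_num at h
        · exact h
      exact pow_eq_zero_iff (by norm_num) |>.1 h2
    · rw [r2]
      linear_combination 3 * c0 * hdisc
    · rw [r3]
      linear_combination (-c0 * (c1 * c2 - 9 * c0 * c3) +
        (2 / 3) * (c1 ^ 2 - 3 * c0 * c2) * c1) * hdisc
  · refine ⟨φ, ?_⟩
    rintro p ⟨hp, hdisc, hA, hBC⟩
    obtain ⟨hcrit, hco, hSpl⟩ := hS p hp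
    refine ⟨hco, ?_⟩
    have hF : inC f φ p = bind₁ (fun a => sp p (φ a)) f := rfl
    obtain ⟨F, hFF⟩ : ∃ F, F = inC f φ p := ⟨_, rfl⟩
    rw [← hFF] at hdisc hA hBC hF
    rw [← hF] at hSpl ⊢
    obtain ⟨c0, k0⟩ : ∃ c0, c0 = F.coeff (Finsupp.single u 3 + Finsupp.single v 0) := ⟨_, rfl⟩
    obtain ⟨c1, k1⟩ : ∃ c1, c1 = F.coeff (Finsupp.single u 2 + Finsupp.single v 1) := ⟨_, rfl⟩
    obtain ⟨c2, k2⟩ : ∃ c2, c2 = F.coeff (Finsupp.single u 1 + Finsupp.single v 2) := ⟨_, rfl⟩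
    obtain ⟨c3, k3⟩ : ∃ c3, c3 = F.coeff (Finsupp.single u 0 + Finsupp.single v 3) := ⟨_, rfl⟩
    have m0 : cub u v F 0 = c0 := k0.symm
    have m1 : cub u v F 1 = c1 := k1.symm
    have m2 : cub u v F 2 = c2 := k2.symm
    have m3 : cub u v F 3 = c3 := k3.symm
    rw [SP.hA, SP.hB, SP.hC, m0, m1, m2, m3] at hdisc
    rw [SP.hA, m0, m1, m2] at hA
    rw [SP.hB, SP.hC, m0, m1, m2, m3] at hBC
    have hB0 : c1 * c2 - 9 * c0 * c3 = 0 := by
      rw [hA] at hdisc
      simpa using hdisc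
    have hC0 : c2 ^ 2 - 3 * c1 * c3 ≠ 0 := fun h => hBC ⟨hB0, h⟩
    have z0 : c0 = 0 := by
      have : 3 * (c2 ^ 2 - 3 * c1 * c3) * c0 = 0 := by
        linear_combination c1 * hB0 - c2 * hA
      rcases mul_eq_zero.1 this with h | h
      · exact absurd h (mul_ne_zero (by norm_num) hC0)
      · exact h
    have z1 : c1 = 0 := by
      have : (c2 ^ 2 - 3 * c1 * c3) * c1 = 0 := by
        linear_combination c2 * hB0 - 3 * c3 * hA
      rcases mul_eq_zero.1 this with h | h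
      · exact absurd h hC0
      · exact h
    have z2 : c2 ≠ 0 := by
      intro h
      apply hC0
      rw [h, z1]; ring
    refine dp5 Z v u huv.symm hZ' K' F hSpl ?_ ?_ ?_
    · rw [add_comm, ← k2]; exact z2
    · rw [add_comm, ← k1]; exact z1
    · rw [add_comm, ← k0]; exact z0

end Pool.Agent.Mono.SP
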