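import Pool.Agent.Work.Monodromy8.T2B8

/-!
# Monodromy, phase 8: block T2E8 (helper49)

Type `D`: one step of the reduction.  `u = U - s V^m`, `v = t V`.
-/

set_option autoImplicit false

namespace Pool.Agent.Mono.SP
set_option linter.unusedSectionVars false
set_option linter.unusedVariables false

namespace T2EAux

open MvPolynomial TS RO PC Finset T2BAux

section

variable {ι : Type} [Fintype ι] [DecidableEq ι]

/-- `u = y_u - s y_v^m`, `v = t y_v` -/
noncomputable def lnm (u v : ι) (s t : ℂ) (m : ℕ) (a : ι) : MvPolynomial ι ℂ :=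
  if a = u then X u - C s * X v ^ m else if a = v then C t * X v else X a

theorem lnm_u (u v : ι) (s t : ℂ) (m : ℕ) : lnm u v s t m u = X u - C s * X v ^ m := by simp [lnm]

theorem lnm_v (u v : ι) (hne : u ≠ v) (s t : ℂ) (m : ℕ) : lnm u v s t m v = C t * X v := by
  simp [lnm, hne.symm]

theorem lnm_o (u v a : ι) (h1 : a ≠ u) (h2 : a ≠ v) (s t : ℂ) (m : ℕ) :
    lnm u v s t m a = X a := by
  simp [lnm, h1, h2]

/-- the grading: `e_a` for `a ≠ u`, `m e_v` for `u` -/
def gr (u v : ι) (m : ℕ) (a : ι) : ι → ℕ := if a = u then Pi.single v m else Pi.single a 1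

theorem gr_u (u v : ι) (m : ℕ) : gr u v m u = Pi.single v m := by simp [gr]

theorem gr_o (u v : ι) (m : ℕ) (a : ι) (h : a ≠ u) : gr u v m a = Pi.single a 1 := by simp [gr, h]

theorem weight_gr (u v : ι) (m : ℕ) (d : ι →₀ ℕ) (c : ι) :
    Finsupp.weight (gr u v m) d c = ∑ a, d a * gr u v m a c := by
  rw [Finsupp.weight_apply, Finsupp.sum_fintype _ _ (by simp), Finset.sum_apply]
  refine Finset.sum_congr rfl fun a _ => ?_
  simp

theorem weight_gr_v (u v : ι) (hne : u ≠ v) (m : ℕ) (d : ι →₀ ℕ) :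
    Finsupp.weight (gr u v m) d v = d u * m + d v := by
  rw [weight_gr]
  have h : ∀ a, a ∉ ({u, v} : Finset ι) → d a * gr u v m a v = 0 := by
    intro a ha
    simp only [Finset.mem_insert, Finset.mem_singleton, not_or] at ha
    rw [gr_o u v m a ha.1, Pi.single_apply, if_neg (fun h => ha.2 h.symm), mul_zero]
  rw [← Finset.sum_subset (Finset.subset_univ {u, v}) (fun a _ ha => h a ha),
    Finset.sum_pair hne, gr_u, gr_o u v m v hne.symm]
  simp

theorem weight_gr_o (u v : ι) (hne : u ≠ v) (m : ℕ) (d : ι →₀ ℕ) (c : ι) (h1 : c ≠ u)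
    (h2 : c ≠ v) : Finsupp.weight (gr u v m) d c = d c := by
  rw [weight_gr, Finset.sum_eq_single c]
  · rw [gr_o u v m c h1]; simp
  · intro a _ ha
    by_cases hau : a = u
    · rw [hau, gr_u, Pi.single_apply, if_neg h2, mul_zero]
    · rw [gr_o u v m a hau, Pi.single_apply, if_neg ha.symm, mul_zero]
  · intro h; exact absurd (Finset.mem_univ c) h

theorem lnm_hom (u v : ι) (hne : u ≠ v) (s t : ℂ) (m : ℕ) (a : ι) :
    IsWeightedHomogeneous (gr u v m) (lnm u v s t m a) (gr u v m a) := by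
  by_cases h1 : a = u
  · rw [h1, lnm_u, gr_u]
    have xu := isWeightedHomogeneous_X ℂ (gr u v m) u
    rw [gr_u] at xu
    have xv := (isWeightedHomogeneous_X ℂ (gr u v m) v).pow m
    rw [gr_o u v m v hne.symm] at xv
    have e : m • (Pi.single v 1 : ι → ℕ) = Pi.single v m := by
      ext c
      by_cases hc : c = v
      · subst hc; simp
      · simp [Pi.single_apply, hc]
    rw [e] at xv
    exact xu.sub (xv.C_mul s)
  · by_cases h2 : a = v
    · rw [h2, lnm_v u v hne]
      exact (isWeightedHomogeneous_X ℂ (gr u v m) v).C_mul t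
    · rw [lnm_o u v a h1 h2]
      exact isWeightedHomogeneous_X ℂ (gr u v m) a

theorem degreeOf_lnm (u v : ι) (hne : u ≠ v) (s t : ℂ) (m : ℕ) (a : ι) :
    degreeOf u (lnm u v s t m a) ≤ if a = u then 1 else 0 := by
  have hX : ∀ c : ι, degreeOf u (X c : MvPolynomial ι ℂ) ≤ if c = u then 1 else 0 := by
    intro c
    rw [degreeOf_X]
    by_cases h : c = u
    · subst h; simp
    · rw [if_neg (fun hh => h hh.symm)]; exact Nat.zero_le _
  have hC : ∀ (c : ℂ) (P : MvPolynomial ι ℂ), degreeOf u (C c * P) ≤ degreeOf u P := by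
    intro c P
    exact degreeOf_C_mul_le P u c
  by_cases h1 : a = u
  · rw [h1, lnm_u, if_pos rfl]
    refine le_trans (degreeOf_sub_le u _ _) (max_le (by simpa using hX u) ?_)
    refine le_trans (hC _ _) (le_trans (degreeOf_pow_le u _ m) ?_)
    have := hX v
    rw [if_neg hne.symm] at this
    rw [Nat.le_zero.1 this]; simp
  · by_cases h2 : a = v
    · rw [h2, lnm_v u v hne, if_neg hne.symm]
      refine le_trans (hC _ _) ?_
      simpa [hne.symm] using hX v
    · rw [lnm_o u v a h1 h2]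
      exact hX a

/-- the monomials after the substitution -/
theorem supp (u v : ι) (hne : u ≠ v) (s t : ℂ) (m : ℕ) (F : MvPolynomial ι ℂ) (e : ι →₀ ℕ)
    (he : (bind₁ (lnm u v s t m) F).coeff e ≠ 0) :
    ∃ d ∈ F.support, (∀ a, a ≠ u → a ≠ v → d a = e a) ∧ e u ≤ d u ∧
      d u * m + d v = e u * m + e v := by
  classical
  rw [F.as_sum, map_sum, coeff_sum] at he
  obtain ⟨d, hd, hcoe⟩ := Finset.exists_ne_zero_of_sum_ne_zero he
  refine ⟨d, hd, ?_⟩
  have hw : IsWeightedHomogeneous (gr u v m) (bind₁ (lnm u v s t m) (monomial d (F.coeff d)))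
      (Finsupp.weight (gr u v m) d) := by
    rw [bind₁_monomial, Finsupp.weight_apply]
    refine IsWeightedHomogeneous.C_mul ?_ _
    exact IsWeightedHomogeneous.prod _ _ _ fun i _ => (lnm_hom u v hne s t m i).pow _
  have h := hw hcoe
  refine ⟨?_, ?_, ?_⟩
  · intro a h1 h2
    have := congrFun h a
    rw [weight_gr_o u v hne m e a h1 h2, weight_gr_o u v hne m d a h1 h2] at this
    exact this.symm
  · have h1 : e u ≤ degreeOf u (bind₁ (lnm u v s t m) (monomial d (F.coeff d))) :=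
      monomial_le_degreeOf u (mem_support_iff.2 hcoe)
    refine le_trans h1 ?_
    rw [bind₁_monomial]
    refine le_trans (degreeOf_C_mul_le _ u _) ?_
    refine le_trans (degreeOf_prod_le u _ _) ?_
    refine le_trans (Finset.sum_le_sum fun a _ => le_trans (degreeOf_pow_le u _ _)
      (Nat.mul_le_mul_left _ (degreeOf_lnm u v hne s t m a))) ?_
    simp only [mul_ite, mul_one, mul_zero]
    rw [Finset.sum_ite_eq']
    split_ifs
    · exact le_rfl
    · exact Nat.zero_le _
  · have := congrFun h v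
    rw [weight_gr_v u v hne m e, weight_gr_v u v hne m d] at this
    exact this.symm

theorem lnm_pderiv (Z : Finset ι) (u v : ι) (hne : u ≠ v) (hZ : Zᶜ = {u, v}) (s t : ℂ) (m : ℕ)
    (b : ι) (hb : b ∈ Z) (a : ι) : pderiv b (lnm u v s t m a) = if a = b then 1 else 0 := by
  obtain ⟨hu, hv⟩ := notMem_of Z u v hZ
  have hbu : u ≠ b := fun h => hu (h ▸ hb)
  have hbv : v ≠ b := fun h => hv (h ▸ hb)
  by_cases h1 : a = u
  · rw [h1, lnm_u, if_neg hbu, map_sub, pderiv_C_mul, pderiv_X_of_ne hbu, pderiv_pow,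
      pderiv_X_of_ne hbv]
    simp
  · by_cases h2 : a = v
    · rw [h2, lnm_v u v hne, if_neg hbv, pderiv_C_mul, pderiv_X_of_ne hbv]
      simp
    · rw [lnm_o u v a h1 h2]
      split_ifs with h
      · rw [h, pderiv_X_self]
      · rw [pderiv_X_of_ne h]

theorem lnm_zero (u v : ι) (s t : ℂ) (m : ℕ) (hm : 2 ≤ m) (a : ι) :
    eval (fun _ => (0 : ℂ)) (lnm u v s t m a) = 0 := by
  unfold lnm
  split_ifs
  · simp; right; omega
  · simp
  · simp

theorem lnm_co (u v : ι) (hne : u ≠ v) (s t : ℂ) (ht : t ≠ 0) (m : ℕ) (hm : 2 ≤ m) :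
    IsCo (fun _ => 0) (lnm u v s t m) := by
  refine ⟨lnm_zero u v s t m hm, ?_⟩
  have h := (lin_co u v hne 0 t ht).2
  have e : (Matrix.of fun a b => eval (fun _ => (0 : ℂ)) (pderiv b (lnm u v s t m a))) =
      Matrix.of fun a b => eval (fun _ => (0 : ℂ)) (pderiv b (lin u v 0 t a)) := by
    ext a b
    rw [Matrix.of_apply, Matrix.of_apply]
    by_cases h1 : a = u
    · rw [h1, lnm_u, lin_u, map_sub, map_sub, map_sub, map_sub, pderiv_C_mul, pderiv_pow]
      have hz : (0 : ℂ) ^ (m - 1) = 0 := zero_pow (by omega)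
      simp only [map_mul, map_pow, eval_X, hz, C_0, zero_mul, map_zero, mul_zero, map_natCast]
    · by_cases h2 : a = v
      · rw [h2, lnm_v u v hne, lin_v u v hne]
      · rw [lnm_o u v a h1 h2, lin_o u v a h1 h2]
  rw [e]
  exact h

theorem Spl_lnm (Z : Finset ι) (u v : ι) (hne : u ≠ v) (hZ : Zᶜ = {u, v}) (K' : ℕ) (s t : ℂ)
    (m : ℕ) (hm : 2 ≤ m) (F : MvPolynomial ι ℂ) (hF : Spl Z K' F) :
    Spl Z K' (bind₁ (lnm u v s t m) F) := by
  obtain ⟨hu, hv⟩ := notMem_of Z u v hZ
  refine ⟨?_, ?_⟩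
  · intro e he
    obtain ⟨d, hd, h1, h2, h3⟩ := supp u v hne s t m F e (mem_support_iff.1 he)
    have hz : dZ Z d = dZ Z e := by
      refine Finset.sum_congr rfl fun a ha => h1 a ?_ ?_
      · exact fun h => hu (h ▸ ha)
      · exact fun h => hv (h ▸ ha)
    have hc : dZ Zᶜ d ≤ dZ Zᶜ e := by
      rw [dZ_compl Z u v hne hZ, dZ_compl Z u v hne hZ]
      obtain ⟨j, hj⟩ := Nat.exists_eq_add_of_le h2
      rw [hj] at h3 ⊢
      nlinarith [Nat.zero_le j]
    have h := hF.1 d hd
    rw [hz] at h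
    exact ⟨fun h0 => le_trans (h.1 h0) hc, fun h0 => le_trans (h.2 h0) hc⟩
  · rw [HZ_bind Z _ (fun b hb a => lnm_pderiv Z u v hne hZ s t m b hb a) (lnm_zero u v s t m hm)]
    exact hF.2

/-- no monomials of small weight -/
theorem low (Z : Finset ι) (u v : ι) (hne : u ≠ v) (hZ : Zᶜ = {u, v}) (k m : ℕ)
    (hm : k ≤ 2 * m + 2) (s t : ℂ) (R : MvPolynomial ι ℂ) (N : ℕ)
    (hR : ∀ d, dZ Z d = 0 → (k - 2) * d u + 2 * d v ≤ N → R.coeff d = 0) (i j : ℕ)
    (hij : (k - 2) * i + 2 * j ≤ N) :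
    (bind₁ (lnm u v s t m) R).coeff (Finsupp.single u i + Finsupp.single v j) = 0 := by
  obtain ⟨hu, hv⟩ := notMem_of Z u v hZ
  by_contra hcon
  obtain ⟨d, hd, h1, h2, h3⟩ := supp u v hne s t m R _ hcon
  rw [(single_val u v hne i j).1] at h2 h3
  rw [(single_val u v hne i j).2] at h3
  apply mem_support_iff.1 hd
  apply hR d
  · rw [← single_dZ Z u v hZ i j]
    refine Finset.sum_congr rfl fun a ha => h1 a ?_ ?_
    · exact fun h => hu (h ▸ ha)
    · exact fun h => hv (h ▸ ha)
  · refine le_trans ?_ hij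
    obtain ⟨r, hr⟩ := Nat.exists_eq_add_of_le h2
    rw [hr] at h3 ⊢
    have h4 : j = d v + r * m := by
      have : (i + r) * m + d v = i * m + (r * m + d v) := by ring
      omega
    have h5 : (k - 2) * r ≤ 2 * m * r := Nat.mul_le_mul_right _ (by omega)
    rw [h4]
    calc (k - 2) * (i + r) + 2 * d v = (k - 2) * i + (k - 2) * r + 2 * d v := by ring
      _ ≤ (k - 2) * i + 2 * m * r + 2 * d v := by omega
      _ = (k - 2) * i + 2 * (d v + r * m) := by ring

/-- the leading form after the substitution -/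
theorem lead (u v : ι) (hne : u ≠ v) (k m : ℕ) (hm1 : 1 ≤ m) (μ b a : ℂ)
    (hkm : k = 2 * m + 2 ∨ (k = 2 * m + 1 ∧ b = 0)) :
    bind₁ (lnm u v (b * (2 * μ) ^ (m - 1)) (2 * μ) m)
      (monomial (Finsupp.single u 2 + Finsupp.single v 1) μ +
        monomial (Finsupp.single u 1 + Finsupp.single v (m + 1)) b +
        monomial (Finsupp.single u 0 + Finsupp.single v (k - 1)) a : MvPolynomial ι ℂ) =
      monomial (Finsupp.single u 2 + Finsupp.single v 1) (2 * μ ^ 2) +
        monomial (Finsupp.single u 0 + Finsupp.single v (k - 1))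
          (a * (2 * μ) ^ (k - 1) - 2 * μ ^ 2 * (b * (2 * μ) ^ (m - 1)) ^ 2) := by
  obtain ⟨n, rfl⟩ : ∃ n, m = n + 1 := ⟨m - 1, by omega⟩
  simp only [mono_eq, map_add, map_sub, map_mul, map_pow, bind₁_C_right, bind₁_X_right,
    lnm_u, lnm_v u v hne, map_ofNat, Nat.add_sub_cancel]
  obtain ⟨T, hT⟩ : ∃ T : MvPolynomial ι ℂ, T = 2 * C μ := ⟨_, rfl⟩
  rw [← hT]
  rcases hkm with hk | ⟨hk, hb⟩
  · have e : k - 1 = 2 * n + 3 := by omega
    rw [e]
    linear_combination (C μ * X u ^ 2 * X v + T * (C b * T ^ n) * X u * X v ^ (n + 2) -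
      (C b * T ^ n) ^ 2 * (T + C μ) * X v ^ (2 * n + 3)) * hT
  · rw [hb, C_0]
    have e : k - 1 = 2 * n + 2 := by omega
    rw [e]
    linear_combination (C μ * X u ^ 2 * X v) * hT

/-- one step at a point -/
theorem step (hLDF : Stmt_LDF8) (Z : Finset ι) (u v : ι) (hne : u ≠ v) (hZ : Zᶜ = {u, v})
    (K' k m : ℕ) (hk : 5 ≤ k) (hkK : k ≤ K') (F : MvPolynomial ι ℂ) (hD : DP Z u v K' k F)
    (μ b a : ℂ) (hμ : F.coeff (Finsupp.single u 2 + Finsupp.single v 1) = μ)
    (ha : F.coeff (Finsupp.single u 0 + Finsupp.single v (k - 1)) = a)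
    (hkm : (k = 2 * m + 2 ∧ F.coeff (Finsupp.single u 1 + Finsupp.single v (m + 1)) = b) ∨
      (k = 2 * m + 1 ∧ b = 0)) :
    (∃ i : ℕ, 2 ≤ i ∧ ∃ (w : ι → ℕ) (D : ℕ),
      SQ w D (bind₁ (lnm u v (b * (2 * μ) ^ (m - 1)) (2 * μ) m) F) ∧
      ((Fintype.card ι : ℚ) - 1) / 2 + 1 / (i : ℚ) = ((∑ a, w a : ℕ) : ℚ) / (D : ℚ)) ∨
    DP Z u v K' (k + 1) (bind₁ (lnm u v (b * (2 * μ) ^ (m - 1)) (2 * μ) m) F) := by
  obtain ⟨hS, h21, hW⟩ := hD
  rw [hμ] at h21
  have hm2 : 2 ≤ m := by omega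
  have hkm2 : k ≤ 2 * m + 2 := by omega
  have hkm' : k = 2 * m + 2 ∨ (k = 2 * m + 1 ∧ b = 0) := by
    rcases hkm with h | h
    · exact Or.inl h.1
    · exact Or.inr h
  obtain ⟨s, hs⟩ : ∃ s, s = b * (2 * μ) ^ (m - 1) := ⟨_, rfl⟩
  obtain ⟨G0, hG0⟩ : ∃ G0 : MvPolynomial ι ℂ, G0 =
      monomial (Finsupp.single u 2 + Finsupp.single v 1) μ +
        monomial (Finsupp.single u 1 + Finsupp.single v (m + 1)) b +
        monomial (Finsupp.single u 0 + Finsupp.single v (k - 1)) a := ⟨_, rfl⟩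
  have hlead := lead u v hne k m (by omega) μ b a hkm'
  rw [← hs, ← hG0] at hlead
  rw [← hs]
  obtain ⟨a', ha'⟩ : ∃ a', a' = a * (2 * μ) ^ (k - 1) - 2 * μ ^ 2 * s ^ 2 := ⟨_, rfl⟩
  rw [← ha'] at hlead
  -- the terms of small weight
  have hR : ∀ d, dZ Z d = 0 → (k - 2) * d u + 2 * d v ≤ 2 * (k - 1) → (F - G0).coeff d = 0 := by
    intro d hd0 hdw
    have hd := eq_single Z u v hne hZ d hd0
    generalize d u = i at hd hdw
    generalize d v = j at hd hdw
    rw [hd, coeff_sub, sub_eq_zero, hG0, coeff_add, coeff_add, coeff_monomial, coeff_monomial,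
      coeff_monomial]
    simp only [single_inj u v hne]
    rcases Nat.lt_or_ge ((k - 2) * i + 2 * j) (2 * (k - 1)) with hlt | hge
    · have h0 : F.coeff (Finsupp.single u i + Finsupp.single v j) = 0 := by
        by_contra hcon
        have := hW i j hcon
        omega
      rw [h0]
      have n1 : ¬ (2 = i ∧ 1 = j) := by rintro ⟨rfl, rfl⟩; omega
      have n3 : ¬ (0 = i ∧ k - 1 = j) := by rintro ⟨rfl, rfl⟩; omega
      rw [if_neg n1, if_neg n3, zero_add, add_zero]
      rcases hkm with h | h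
      · have n2 : ¬ (1 = i ∧ m + 1 = j) := by rintro ⟨rfl, rfl⟩; omega
        rw [if_neg n2]
      · rw [h.2, ite_self]
    · have heq : (k - 2) * i + 2 * j = 2 * (k - 1) := le_antisymm hdw hge
      have hi : i ≤ 2 := by
        by_contra hcon
        have : (k - 2) * 3 ≤ (k - 2) * i := Nat.mul_le_mul_left _ (by omega)
        omega
      interval_cases i
      · have : j = k - 1 := by omega
        subst this
        rw [ha]; simp
      · rcases hkm with h | h
        · have : j = m + 1 := by omega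
          subst this
          rw [h.2]; simp
        · omega
      · have : j = 1 := by omega
        subst this
        rw [hμ]; simp
  have hsplit : bind₁ (lnm u v s (2 * μ) m) F = bind₁ (lnm u v s (2 * μ) m) G0 +
      bind₁ (lnm u v s (2 * μ) m) (F - G0) := by
    rw [← map_add]; congr 1; ring
  have hlow : ∀ i j : ℕ, (k - 2) * i + 2 * j ≤ 2 * (k - 1) →
      (bind₁ (lnm u v s (2 * μ) m) F).coeff (Finsupp.single u i + Finsupp.single v j) =
      (monomial (Finsupp.single u 2 + Finsupp.single v 1) (2 * μ ^ 2) +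
        monomial (Finsupp.single u 0 + Finsupp.single v (k - 1)) a' : MvPolynomial ι ℂ).coeff
          (Finsupp.single u i + Finsupp.single v j) := by
    intro i j hij
    rw [hsplit, coeff_add, low Z u v hne hZ k m hkm2 s (2 * μ) (F - G0) (2 * (k - 1)) hR i j hij,
      add_zero, hlead]
  obtain ⟨F', hF'⟩ : ∃ F', F' = bind₁ (lnm u v s (2 * μ) m) F := ⟨_, rfl⟩
  have hS' : Spl Z K' F' := by
    rw [hF']; exact Spl_lnm Z u v hne hZ K' s (2 * μ) m hm2 F hS
  rw [← hF'] at hlow ⊢
  have hmu2 : (2 : ℂ) * μ ^ 2 ≠ 0 := mul_ne_zero (by norm_num) (pow_ne_zero 2 h21)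
  have hW' : ∀ i j : ℕ, F'.coeff (Finsupp.single u i + Finsupp.single v j) ≠ 0 →
      2 * (k - 1) ≤ (k - 2) * i + 2 * j := by
    intro i j hij
    by_contra hcon
    apply hij
    rw [hlow i j (by omega), coeff_add, coeff_monomial, coeff_monomial]
    simp only [single_inj u v hne]
    have n1 : ¬ (2 = i ∧ 1 = j) := by rintro ⟨rfl, rfl⟩; omega
    have n3 : ¬ (0 = i ∧ k - 1 = j) := by rintro ⟨rfl, rfl⟩; omega
    rw [if_neg n1, if_neg n3, add_zero]
  by_cases ha0 : a' = 0
  · right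
    refine ⟨hS', ?_, ?_⟩
    · rw [hlow 2 1 (by omega), coeff_add, coeff_monomial, coeff_monomial]
      simp only [single_inj u v hne]
      simpa using h21
    · intro i j hij
      have h1 := hW' i j hij
      rcases Nat.lt_or_ge (2 * (k - 1)) ((k - 2) * i + 2 * j) with hlt | hge
      · have e1 : k + 1 - 1 = k := by omega
        have e2 : k + 1 - 2 = (k - 2) + 1 := by omega
        rw [e1, e2, add_mul, one_mul]
        rcases Nat.lt_or_ge i 2 with hi | hi
        · interval_cases i <;> omega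
        · omega
      · have h2 := hlow i j hge
        rw [coeff_add, coeff_monomial, coeff_monomial, ha0] at h2
        simp only [single_inj u v hne, ite_self, add_zero] at h2
        by_cases h3 : 2 = i ∧ 1 = j
        · obtain ⟨rfl, rfl⟩ := h3
          omega
        · rw [if_neg h3] at h2
          exact absurd h2 hij
  · left
    refine ⟨2 * (k - 1), by omega, wt u v (k - 1) (k - 2) 2, 2 * (k - 1), ?_, ?_⟩
    · refine sqL hLDF Z u v hne hZ K' F' hS' (k - 1) (k - 2) 2 (2 * (k - 1)) (by omega) (by omega)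
        (by norm_num) rfl
        (monomial (Finsupp.single u 2 + Finsupp.single v 1) (2 * μ ^ 2) +
          monomial (Finsupp.single u 0 + Finsupp.single v (k - 1)) a') ?_ ?_ ?_
      · intro d hd
        have h := hS'.1 d hd
        rw [dZ_compl Z u v hne hZ] at h
        rcases Nat.lt_or_ge (dZ Z d) 2 with h2 | h2
        · rcases Nat.lt_or_ge (dZ Z d) 1 with h1 | h1
          · have h0 : dZ Z d = 0 := by omega
            have hd' := eq_single Z u v hne hZ d h0
            have hco : F'.coeff (Finsupp.single u (d u) + Finsupp.single v (d v)) ≠ 0 := by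
              rw [← hd']; exact mem_support_iff.1 hd
            have := hW' _ _ hco
            rw [h0]
            constructor
            · omega
            · intro h; omega
          · have h0 : dZ Z d = 1 := by omega
            have h4 := h.2 h0
            have h5 : 2 * d u ≤ (k - 2) * d u := Nat.mul_le_mul_right _ (by omega)
            rw [h0, mul_one]
            constructor
            · omega
            · intro _; omega
        · have h4 : (k - 1) * 2 ≤ (k - 1) * dZ Z d := Nat.mul_le_mul_left _ h2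
          constructor
          · omega
          · intro h; omega
      · intro i j
        split_ifs with hw
        · exact (hlow i j (le_of_eq hw)).symm
        · rw [coeff_add, coeff_monomial, coeff_monomial]
          simp only [single_inj u v hne]
          have n1 : ¬ (2 = i ∧ 1 = j) := by rintro ⟨rfl, rfl⟩; omega
          have n3 : ¬ (0 = i ∧ k - 1 = j) := by rintro ⟨rfl, rfl⟩; omega
          rw [if_neg n1, if_neg n3, add_zero]
      · intro x h1 h2
        rw [mono_eq, mono_eq, map_add, map_add, eval_py u v hne, eval_py u v hne] at h1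
        rw [mono_eq, mono_eq, map_add, map_add, eval_px u v hne, eval_px u v hne] at h2
        have hk1 : ((k - 1 : ℕ) : ℂ) ≠ 0 := Nat.cast_ne_zero.2 (by omega)
        have h1' : x u * x v = 0 := by
          have : (2 * μ ^ 2) * 2 * (x u * x v) = 0 := by
            rw [← h1]; simp; ring
          rcases mul_eq_zero.1 this with h | h
          · exact absurd h (mul_ne_zero hmu2 (by norm_num))
          · exact h
        have h2' : (2 * μ ^ 2) * x u ^ 2 + a' * ((k - 1 : ℕ) : ℂ) * x v ^ (k - 1 - 1) = 0 := by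
          rw [← h2]; simp; ring
        rcases mul_eq_zero.1 h1' with h | h
        · refine ⟨h, ?_⟩
          rw [h] at h2'
          have h3 : x v ^ (k - 1 - 1) = 0 := by
            have : a' * ((k - 1 : ℕ) : ℂ) * x v ^ (k - 1 - 1) = 0 := by simpa using h2'
            rcases mul_eq_zero.1 this with h | h
            · exact absurd h (mul_ne_zero ha0 hk1)
            · exact h
          exact pow_eq_zero_iff (by omega) |>.1 h3
        · refine ⟨?_, h⟩
          rw [h, zero_pow (by omega)] at h2'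
          have h3 : x u ^ 2 = 0 := by
            have : (2 * μ ^ 2) * x u ^ 2 = 0 := by simpa using h2'
            rcases mul_eq_zero.1 this with h | h
            · exact absurd h hmu2
            · exact h
          exact pow_eq_zero_iff (by norm_num) |>.1 h3
    · have hcard : (Fintype.card ι : ℚ) = (Z.card : ℚ) + 2 := by
        rw [card_eq Z u v hne hZ]; push_cast; ring
      rw [sum_wt Z u v hne hZ, hcard]
      obtain ⟨r, rfl⟩ : ∃ r, k = r + 2 := ⟨k - 2, by omega⟩
      have e1 : r + 2 - 1 = r + 1 := by omega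
      have e2 : r + 2 - 2 = r := by omega
      rw [e1, e2]
      push_cast
      have hr : ((r : ℚ) + 1) ≠ 0 := by positivity
      field_simp
      ring

end

end T2EAux

open MvPolynomial TS RO PC Finset T2BAux T2EAux in
theorem stmt_T2E8 (hCOF : Stmt_COF8) (hCMP : Stmt_CMP8) (hLDF : Stmt_LDF8) : Stmt_T2E8 := by
  intro ι _ _ f Z u v K' k S huv hZ hk hkK hSf hfam
  obtain ⟨φ, hφ⟩ := hfam
  obtain ⟨Am, hAm⟩ := hCOF ι ι (bind₁ φ f) (Finsupp.single u 2 + Finsupp.single v 1)
  obtain ⟨m, hm⟩ : ∃ m, m = (k - 1) / 2 := ⟨_, rfl⟩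
  obtain ⟨Ab0, hAb0⟩ := hCOF ι ι (bind₁ φ f) (Finsupp.single u 1 + Finsupp.single v (m + 1))
  obtain ⟨Ab, hAb⟩ : ∃ Ab, Ab = if k = 2 * m + 2 then Ab0 else 0 := ⟨_, rfl⟩
  obtain ⟨ψ, hψ⟩ : ∃ ψ : ι → MvPolynomial (ι ⊕ ι) ℂ, ψ = fun a =>
      if a = u then X (Sum.inr u) - rename Sum.inl (Ab * (2 * Am) ^ (m - 1)) * X (Sum.inr v) ^ m
      else if a = v then rename Sum.inl (2 * Am) * X (Sum.inr v) else X (Sum.inr a) := ⟨_, rfl⟩
  have hψp : ∀ p, (fun a => sp p (ψ a)) =
      lnm u v (eval p (Ab * (2 * Am) ^ (m - 1))) (eval p (2 * Am)) m := by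
    intro p
    funext a
    have hXr : ∀ c : ι, sp p (X (Sum.inr c) : MvPolynomial (ι ⊕ ι) ℂ) = X c := by
      intro c; simp [sp]
    have hmu : ∀ P Q : MvPolynomial (ι ⊕ ι) ℂ, sp p (P * Q) = sp p P * sp p Q := by
      intro P Q; simp [sp]
    have hpo : ∀ (P : MvPolynomial (ι ⊕ ι) ℂ) (n : ℕ), sp p (P ^ n) = sp p P ^ n := by
      intro P n; simp [sp]
    have hs : ∀ P Q : MvPolynomial (ι ⊕ ι) ℂ, sp p (P - Q) = sp p P - sp p Q := by
      intro P Q; simp [sp]
    rw [hψ]
    by_cases h1 : a = u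
    · simp only [if_pos h1, hs, hmu, hpo, hXr, T2BAux.sp_rename]
      rw [h1, lnm_u]
    · by_cases h2 : a = v
      · simp only [if_neg h1, if_pos h2, hmu, hXr, T2BAux.sp_rename]
        rw [h2, lnm_v u v huv]
      · simp only [if_neg h1, if_neg h2, hXr]
        rw [lnm_o u v a h1 h2]
  obtain ⟨χ, hχ⟩ := hCMP ι f φ ψ
  refine ⟨χ, ?_⟩
  rintro p ⟨hp, hsim⟩
  obtain ⟨hco, hDP⟩ := hφ p hp
  obtain ⟨F, hF⟩ : ∃ F, F = bind₁ (fun a => sp p (φ a)) f := ⟨_, rfl⟩
  rw [← hF] at hDP
  obtain ⟨μ, hμ⟩ : ∃ μ, μ = F.coeff (Finsupp.single u 2 + Finsupp.single v 1) := ⟨_, rfl⟩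
  obtain ⟨b, hb⟩ : ∃ b, b = eval p Ab := ⟨_, rfl⟩
  have q1 : eval p Am = μ := by rw [hAm, T2BAux.sp_bind, ← hF, ← hμ]
  have q2 : eval p Ab0 = F.coeff (Finsupp.single u 1 + Finsupp.single v (m + 1)) := by
    rw [hAb0, T2BAux.sp_bind, ← hF]
  have hps := hψp p
  have e1 : eval p (Ab * (2 * Am) ^ (m - 1)) = b * (2 * μ) ^ (m - 1) := by
    simp only [map_mul, map_pow, map_ofNat, q1, ← hb]
  have e2 : eval p (2 * Am) = 2 * μ := by
    simp only [map_mul, map_ofNat, q1]
  rw [e1, e2] at hps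
  obtain ⟨hχ1, hχ2⟩ := hχ p
  rw [hps, ← hF] at hχ1
  rw [hps] at hχ2
  have hmu0 : μ ≠ 0 := by rw [hμ]; exact hDP.2.1
  have ht : (2 : ℂ) * μ ≠ 0 := mul_ne_zero (by norm_num) hmu0
  have hm2 : 2 ≤ m := by omega
  have hco' := hχ2 hco (lnm_co u v huv _ _ ht m hm2)
  refine ⟨hco', ?_⟩
  have hkm : (k = 2 * m + 2 ∧ F.coeff (Finsupp.single u 1 + Finsupp.single v (m + 1)) = b) ∨
      (k = 2 * m + 1 ∧ b = 0) := by
    by_cases h : k = 2 * m + 2
    · left
      refine ⟨h, ?_⟩
      rw [hb, hAb, if_pos h, q2]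
    · right
      refine ⟨by omega, ?_⟩
      rw [hb, hAb, if_neg h, map_zero]
  rcases step hLDF Z u v huv hZ K' k m hk hkK F hDP μ b _ hμ.symm rfl hkm with
    ⟨i, hi, w, D, hSQ, hr⟩ | h
  · exfalso
    apply hsim
    refine ⟨i, hi, w, D, fun a => sp p (χ a), hco'.1, hco'.2, ?_, hr⟩
    rw [(hSf hp).1, hχ1, C_0, sub_zero]
    exact hSQ
  · rw [hχ1]
    exact h

end Pool.Agent.Mono.SP
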