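import Pool.Agent.Work.Monodromy8.CHA8

/-!
# Block T38: corank at least `3`
-/

set_option autoImplicit false

namespace Pool.Agent.Mono.SP

open MvPolynomial TS RO PC LDF8Aux CHA8

theorem stmt_T38 (hSPL : Stmt_SPL8) : Stmt_T38 := by
  intro ι _ _ f Z a b hZ hb hab
  obtain ⟨φ, hφ⟩ := hSPL ι f Z 2 le_rfl
  refine Cov_one φ (fun i => if i ∈ Z then 3 else 2) 6 (fun i => ?_) (by norm_num) ?_
    fun p hp => Or.inl ?_
  · show 1 ≤ if i ∈ Z then 3 else 2
    split_ifs <;> norm_num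
  · rw [sum_two]
    have h1 := card_compl Z
    have h2 : 3 * Z.card + 2 * Zᶜ.card ≤ 3 * (Fintype.card ι - 1) := by omega
    have h3 : (3 * Z.card + 2 * Zᶜ.card) * b ≤ 3 * (Fintype.card ι - 1) * b :=
      Nat.mul_le_mul_right _ h2
    have h4 : (Fintype.card ι - 1) * b + b = Fintype.card ι * b := by
      obtain ⟨n, hn⟩ : ∃ n, Fintype.card ι = n + 1 := ⟨Fintype.card ι - 1, by omega⟩
      rw [hn, Nat.add_sub_cancel]
      ring
    rw [mul_assoc] at h3
    omega
  · obtain ⟨h1, h2, -⟩ := hφ p hp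
    refine ⟨h1, fun d hd => ?_⟩
    obtain ⟨h3, h4⟩ := h2 d hd
    rw [weight_two]
    rcases Nat.lt_or_ge (dZ Z d) 1 with h | h
    · have := h3 (by omega)
      omega
    · rcases Nat.lt_or_ge (dZ Z d) 2 with h' | h'
      · have := h4 (by omega)
        omega
      · omega

end Pool.Agent.Mono.SP
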