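import Pool.Agent.Work.Monodromy8.VOAux
import Pool.Agent.Work.Monodromy8.I08

/-!
# Block WP8: arcs of weighted order `κ`
-/

set_option autoImplicit false
set_option linter.unusedSectionVars false

namespace Pool.Agent.Mono.SP

open MvPolynomial TS RO PC RO.VGAux BV.TAAux

namespace WP8Aux

open VOAux

variable {E ι : Type}

/-- the parameters of the new family -/
def gmap [DecidableEq ι] (a : ι) : E ⊕ (Unit ⊕ ι) → (E ⊕ Unit) ⊕ (Unit ⊕ {b : ι // b ≠ a}) :=
  Sum.elim (fun e => Sum.inl (Sum.inl e)) (Sum.elim (fun _ => Sum.inr (Sum.inl ()))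
    fun b => if h : b = a then Sum.inl (Sum.inr ()) else Sum.inr (Sum.inr ⟨b, h⟩))

/-- `F(p; c t^k, t^L y') = t^N H(p, c; t, y')` -/
theorem exists_H [Finite E] [Fintype ι] [DecidableEq ι] (F : MvPolynomial (E ⊕ ι) ℂ) (a : ι)
    (L : ι → ℕ) (k N : ℕ)
    (h : ∀ d ∈ F.support, N ≤ ∑ b, (if b = a then k else L b) * d (Sum.inr b)) :
    ∃ H : MvPolynomial ((E ⊕ Unit) ⊕ (Unit ⊕ {b : ι // b ≠ a})) ℂ,
      ∀ (p : E ⊕ Unit → ℂ) (y : {b : ι // b ≠ a} → PowerSeries ℂ),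
        evF F (fun e => p (Sum.inl e)) (ext1 a (p (Sum.inr ())) k fun b =>
          PowerSeries.X ^ L b * y b) = PowerSeries.X ^ N * evH H p y := by
  obtain ⟨G, hG⟩ := mono_sub F (fun b => if b = a then k else L b) N h
  refine ⟨rename (gmap a) G, fun p y => ?_⟩
  have h1 := hG (PowerSeries ℂ) (fun e => PowerSeries.C (p (Sum.inl e))) PowerSeries.X
    fun b => if hb : b = a then PowerSeries.C (p (Sum.inr ())) else y ⟨b, hb⟩
  have e1 : (ext1 a (p (Sum.inr ())) k fun b => PowerSeries.X ^ L b * y b) =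
      fun b => PowerSeries.X ^ (if b = a then k else L b) *
        (if hb : b = a then PowerSeries.C (p (Sum.inr ())) else y ⟨b, hb⟩) := by
    funext b
    unfold ext1
    by_cases hb : b = a
    · rw [dif_pos hb, dif_pos hb, if_pos hb, mul_comm]
    · rw [dif_neg hb, dif_neg hb, if_neg hb]
  rw [evF, e1, h1, evH, aeval_rename]
  congr 3
  funext s
  rcases s with e | u | b
  · rfl
  · rfl
  · simp only [Sum.elim_inr, Function.comp_apply, gmap]
    by_cases hb : b = a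
    · rw [dif_pos hb, dif_pos hb]
      rfl
    · rw [dif_neg hb, dif_neg hb]
      rfl

/-- the new leading coefficients -/
def QN (Q : Set (E ⊕ Unit → ℂ)) : Set ((E ⊕ Unit) ⊕ Unit → ℂ) :=
  {u | u (Sum.inl (Sum.inr ())) ≠ 0 ∧
    (Sum.elim (fun e => u (Sum.inl (Sum.inl e))) fun _ => u (Sum.inr ())) ∈ Q}

theorem qu_QN {Q : Set (E ⊕ Unit → ℂ)} (hQ : QU Q) : QU (QN Q) := by
  constructor
  · have h1 := Constructible.ne (X (Sum.inl (Sum.inr ())) : MvPolynomial ((E ⊕ Unit) ⊕ Unit) ℂ)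
    simp only [eval_X] at h1
    have h2 := Constructible.comap (fun s : E ⊕ Unit =>
      (Sum.elim (fun e => Sum.inl (Sum.inl e)) (fun _ => Sum.inr ()) s : (E ⊕ Unit) ⊕ Unit)) hQ.1
    refine Constructible.and h1 ?_
    convert h2 using 2
    ext u
    have e : (Sum.elim (fun e => u (Sum.inl (Sum.inl e))) (fun _ => u (Sum.inr ())) :
        E ⊕ Unit → ℂ) = fun s => u (Sum.elim (fun e => Sum.inl (Sum.inl e))
          (fun _ => Sum.inr ()) s) := by
      funext s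
      rcases s with s | s <;> rfl
    change (Sum.elim (fun e => u (Sum.inl (Sum.inl e))) (fun _ => u (Sum.inr ())) :
      E ⊕ Unit → ℂ) ∈ Q ↔ _
    rw [e]
  · rintro u ⟨-, hu⟩
    exact hQ.2 _ hu

theorem lead_QN (Q : Set (E ⊕ Unit → ℂ)) (m : ℕ) (p : E ⊕ Unit → ℂ) (G : PowerSeries ℂ) :
    Lead (QN Q) m p G ↔ p (Sum.inr ()) ≠ 0 ∧ Lead Q m (fun e => p (Sum.inl e)) G := by
  unfold Lead QN
  simp only [Set.mem_ofPred_eq, Sum.elim_inl, Sum.elim_inr]
  tauto

end WP8Aux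

open WP8Aux VOAux

theorem stmt_WP8_of (hREP : Stmt_REP8) (hSCL : Stmt_SCL8) (hSM : Stmt_SM8) : Stmt_WP8 := by
  intro P E ι _ _ _ F w D hw hD hF hn Q hQ a L κ k m hL hLk hk V
  obtain ⟨-, r2, -, -, -, r6⟩ := stmt_I08
  have hk1 : 1 ≤ k := (hL a).2.2.trans hLk
  -- the weights
  have hdeg : ∀ d ∈ F.support, D * κ ≤ ∑ b, (if b = a then k else L b) * d (Sum.inr b) := by
    intro d hd
    have h1 := Nat.mul_le_mul_left κ (hF d hd)
    rw [mul_comm, Finset.mul_sum] at h1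
    refine h1.trans (Finset.sum_le_sum fun b _ => ?_)
    rw [← mul_assoc]
    refine Nat.mul_le_mul_right _ ?_
    rw [mul_comm]
    split_ifs with hb
    · rw [hb]
      exact (hL a).1.trans hLk
    · exact (hL b).1
  obtain ⟨H, hH⟩ := exists_H F a L k (D * κ) hdeg
  -- reparametrisation
  have e1 : V = xq ^ (k + 1) * vol P.rat xq {z : (E ⊕ Unit → ℂ) ×
      ({b : ι // b ≠ a} → PowerSeries ℂ) | z.1 (Sum.inr ()) ≠ 0 ∧
        (∀ b : {b : ι // b ≠ a}, ∀ j < L b, PowerSeries.coeff j (z.2 b) = 0) ∧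
        Lead Q m (fun e => z.1 (Sum.inl e))
          (evF F (fun e => z.1 (Sum.inl e)) (ext1 a (z.1 (Sum.inr ())) k z.2))} :=
    hREP P E ι F Q hQ a L k m hk1 hLk
  -- scaling
  set C1 : Set ((E ⊕ Unit → ℂ) × ({b : ι // b ≠ a} → PowerSeries ℂ)) :=
    {z | z.1 (Sum.inr ()) ≠ 0 ∧ Lead Q m (fun e => z.1 (Sum.inl e))
          (evF F (fun e => z.1 (Sum.inl e)) (ext1 a (z.1 (Sum.inr ())) k z.2))} with hC1
  have cyC1 : Cy C1 := by
    refine Cy.and (Cy.not (Cy.zero (RF.par (Sum.inr ())))) ?_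
    refine cy_lead hQ.1 m (φ := fun e z => z.1 (Sum.inl e)) (fun e => RF.par _) ?_
    have h1 := rs_evF F (φ := fun e (z : (E ⊕ Unit → ℂ) × ({b : ι // b ≠ a} → PowerSeries ℂ)) =>
      z.1 (Sum.inl e)) (fun e => RF.par _)
      (y := fun b z => ext1 a (z.1 (Sum.inr ())) k z.2 b) ?_
    · exact h1
    · intro b
      by_cases hb : b = a
      · simp only [ext1, dif_pos hb]
        intro l
        simp only [PowerSeries.coeff_C_mul, PowerSeries.coeff_X_pow]
        exact RF.mul (RF.par _) (RF.const _)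
      · simp only [ext1, dif_neg hb]
        exact RS.arc _
  obtain ⟨n0, hn0⟩ := cyC1
  have e2 := hSCL P (E ⊕ Unit) {b : ι // b ≠ a} C1 n0 (fun b => L b) (hn0 n0 le_rfl)
  have e3 : {z : (E ⊕ Unit → ℂ) × ({b : ι // b ≠ a} → PowerSeries ℂ) |
      z.1 (Sum.inr ()) ≠ 0 ∧
        (∀ b : {b : ι // b ≠ a}, ∀ j < L b, PowerSeries.coeff j (z.2 b) = 0) ∧
        Lead Q m (fun e => z.1 (Sum.inl e))
          (evF F (fun e => z.1 (Sum.inl e)) (ext1 a (z.1 (Sum.inr ())) k z.2))} =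
      {z | (∀ b : {b : ι // b ≠ a}, ∀ j < L b, PowerSeries.coeff j (z.2 b) = 0) ∧ z ∈ C1} := by
    ext z
    simp only [hC1, Set.mem_ofPred_eq]
    tauto
  have e4 : ∀ z : (E ⊕ Unit → ℂ) × ({b : ι // b ≠ a} → PowerSeries ℂ),
      (z.1, fun b : {b : ι // b ≠ a} => PowerSeries.X ^ L b * z.2 b) ∈ C1 ↔
        D * κ ≤ m ∧ z ∈ HS H (QN Q) (m - D * κ) := by
    intro z
    simp only [hC1, HS, Set.mem_ofPred_eq]
    rw [hH z.1 z.2, lead_X hQ, lead_QN]
    tauto
  rw [e3, e2] at e1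
  simp only [e4] at e1
  constructor
  · intro hm
    have h1 : {z : (E ⊕ Unit → ℂ) × ({b : ι // b ≠ a} → PowerSeries ℂ) |
        D * κ ≤ m ∧ z ∈ HS H (QN Q) (m - D * κ)} = ∅ := by
      ext z
      simp only [Set.mem_ofPred_eq, Set.mem_empty_iff_false, iff_false]
      omega
    rw [e1, h1, vol_empty, mul_zero, mul_zero]
    exact TS.VAAux.L_mul P
  · intro N hm hN
    have h1 : {z : (E ⊕ Unit → ℂ) × ({b : ι // b ≠ a} → PowerSeries ℂ) |
        D * κ ≤ m ∧ z ∈ HS H (QN Q) (m - D * κ)} = HS H (QN Q) (m - D * κ) := by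
      ext z
      simp only [Set.mem_ofPred_eq, hm, true_and]
    rw [h1] at e1
    have hcard : Fintype.card {b : ι // b ≠ a} = Fintype.card ι - 1 := by
      rw [Fintype.card_subtype_compl, Fintype.card_subtype_eq]
    have h2 := hSM P (E ⊕ Unit) {b : ι // b ≠ a} H (QN Q) (qu_QN hQ) (by rw [hcard]; omega)
      (m - D * κ) N (by
        rw [hcard, Nat.sub_mul, one_mul]
        omega)
    rw [e1, ← mul_assoc, ← pow_add]
    have h3 := (r6 (N + Fintype.card {b : ι // b ≠ a}) (k + 1 + ∑ b : {b : ι // b ≠ a}, L b)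
      (vol P.rat xq (HS H (QN Q) (m - D * κ)))).2 h2
    refine r2 _ _ _ ?_ h3
    rw [hcard]
    have h4 : ∑ b, w b = w a + ∑ b : {b : ι // b ≠ a}, w b :=
      Fintype.sum_eq_add_sum_subtype_ne w a
    have h5 : ∑ b : {b : ι // b ≠ a}, L b ≤ (∑ b : {b : ι // b ≠ a}, w b) * (κ + 1) := by
      rw [Finset.sum_mul]
      exact Finset.sum_le_sum fun b _ => (hL b).2.1
    rw [h4, add_mul]
    omega

end Pool.Agent.Mono.SP
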