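import Pool.Agent.Work.Monodromy8.CVF8
import Pool.Agent.Work.Monodromy8.CZC8
import Pool.Agent.Work.Monodromy8.I08
import Pool.Agent.Work.Monodromy7.VL7

/-!
# Block ZB8: the volumes over a chart zone
-/

set_option autoImplicit false
set_option linter.unusedSectionVars false

namespace Pool.Agent.Mono.SP

open MvPolynomial TS RO PC TS.VAAux TS.VPAux TS.VSAux RO.VGAux RO.CVSQAux EVF CZC8Aux

namespace ZB8Aux

section

variable {E ι κ : Type}

/-- the condition on the leading coefficient defines a cylinder -/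
theorem cy_lead0 [Finite E] [Fintype ι] {Q : Set (E ⊕ Unit → ℂ)} (hQ : Constructible Q) (m : ℕ)
    (f : MvPolynomial ι ℂ) :
    Cy {z : (E → ℂ) × (ι → PowerSeries ℂ) | Lead Q m z.1 (aeval z.2 f)} :=
  Pool.Agent.Mono.BV.VL7.cy_lead hQ m (fun e => RF.par e) fun l => RF.coef f l

theorem evF_bind (φ : κ → MvPolynomial (ι ⊕ ι) ℂ) (f : MvPolynomial κ ℂ) (p : ι → ℂ)
    (y : ι → PowerSeries ℂ) : aeval (fun a => evF (φ a) p y) f = evF (bind₁ φ f) p y := by
  have h := MvPolynomial.comp_aeval (R := ℂ) φ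
    (MvPolynomial.aeval (Sum.elim (fun e => PowerSeries.C (p e)) y) :
      MvPolynomial (ι ⊕ ι) ℂ →ₐ[ℂ] PowerSeries ℂ)
  exact (DFunLike.congr_fun h f).symm

theorem evF_rename (F : MvPolynomial (ι ⊕ κ) ℂ) (p : E ⊕ ι → ℂ) (y : κ → PowerSeries ℂ) :
    evF (rename (Sum.map Sum.inr id) F : MvPolynomial ((E ⊕ ι) ⊕ κ) ℂ) p y =
      evF F (fun a => p (Sum.inr a)) y := by
  rw [evF, aeval_rename, evF]
  congr 2
  funext s
  rcases s with s | s <;> rfl

/-- the part of weight at least `D` -/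
noncomputable def hi [Fintype κ] (w : κ → ℕ) (D : ℕ) (G : MvPolynomial (ι ⊕ κ) ℂ) :
    MvPolynomial (ι ⊕ κ) ℂ :=
  ∑ e ∈ G.support.filter (fun e => D ≤ ∑ b, w b * e (Sum.inr b)), monomial e (G.coeff e)

theorem hiW_hi [Fintype κ] (w : κ → ℕ) (D : ℕ) (G : MvPolynomial (ι ⊕ κ) ℂ) :
    HiW w D (hi w D G) := by
  classical
  intro d hd
  rw [mem_support_iff, hi, coeff_sum] at hd
  obtain ⟨e, he, h⟩ := Finset.exists_ne_zero_of_sum_ne_zero hd
  rw [coeff_monomial] at h
  have h1 : e = d := by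
    by_contra h2
    rw [if_neg h2] at h
    exact h rfl
  subst h1
  exact (Finset.mem_filter.1 he).2

theorem weight_rs [Fintype κ] (w : κ → ℕ) (e : ι ⊕ κ →₀ ℕ) :
    Finsupp.weight w (rs e) = ∑ b, w b * e (Sum.inr b) := by
  rw [Finsupp.weight_apply]
  rw [Finsupp.sum_fintype (rs e) (fun i c => c • w i) (fun i => zero_smul _ _)]
  exact Finset.sum_congr rfl fun b _ => by rw [smul_eq_mul, mul_comm]; rfl

theorem sp_hi [Fintype ι] [Fintype κ] (w : κ → ℕ) (D : ℕ) (G : MvPolynomial (ι ⊕ κ) ℂ)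
    (p : ι → ℂ) (h : ∀ d ∈ (sp p G).support, D ≤ Finsupp.weight w d) :
    sp p (hi w D G) = sp p G := by
  classical
  set lo : MvPolynomial (ι ⊕ κ) ℂ :=
    ∑ e ∈ G.support.filter (fun e => ¬ D ≤ ∑ b, w b * e (Sum.inr b)), monomial e (G.coeff e)
    with hlo
  have h1 : G = hi w D G + lo := by
    conv_lhs => rw [G.as_sum]
    rw [hi, hlo, Finset.sum_filter_add_sum_filter_not]
  have h2 : sp p G = sp p (hi w D G) + sp p lo := by
    conv_lhs => rw [h1]
    rw [sp_add]
  have h3 : ∀ d, D ≤ Finsupp.weight w d → (sp p lo).coeff d = 0 := by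
    intro d hd
    by_contra h4
    obtain ⟨e, he, rfl⟩ := support_sp p lo d h4
    rw [mem_support_iff, hlo, coeff_sum] at he
    obtain ⟨e', he', h5⟩ := Finset.exists_ne_zero_of_sum_ne_zero he
    rw [coeff_monomial] at h5
    have h6 : e' = e := by
      by_contra h7
      rw [if_neg h7] at h5
      exact h5 rfl
    subst h6
    rw [weight_rs] at hd
    exact (Finset.mem_filter.1 he').2 hd
  have h4 : ∀ d, ¬ D ≤ Finsupp.weight w d → (sp p (hi w D G)).coeff d = 0 := by
    intro d hd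
    by_contra h5
    obtain ⟨e, he, rfl⟩ := support_sp p (hi w D G) d h5
    apply hd
    rw [weight_rs]
    exact hiW_hi w D G e he
  have h5 : sp p lo = 0 := by
    ext d
    rw [coeff_zero]
    by_cases hd : D ≤ Finsupp.weight w d
    · exact h3 d hd
    · have h6 : (sp p G).coeff d = 0 := by
        by_contra h7
        exact hd (h d (mem_support_iff.2 h7))
      rw [h2, coeff_add, h4 d hd, zero_add] at h6
      exact h6
  rw [h2, h5, add_zero]

end

end ZB8Aux

open ZB8Aux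

theorem stmt_ZB8 (hW : Stmt_WB8) : Stmt_ZB8 := by
  intro P ι _ _ f φ w D a b hw hD h3 hb hab hwD S' hS' hcS
  refine ⟨(∑ i, w i) + Fintype.card ι + 1, fun E _ Q hQ m N hmN => ?_⟩
  classical
  set G : MvPolynomial (ι ⊕ ι) ℂ := bind₁ φ f with hG
  set F : MvPolynomial (ι ⊕ ι) ℂ := hi w D G with hF
  set F' : MvPolynomial ((E ⊕ ι) ⊕ ι) ℂ := rename (Sum.map Sum.inr id) F with hF'
  set Q' : Set ((E ⊕ ι) ⊕ Unit → ℂ) := {v | (fun a => v (Sum.inl (Sum.inr a))) ∈ S' ∧
    (Sum.elim (fun e => v (Sum.inl (Sum.inl e))) fun _ => v (Sum.inr ())) ∈ Q} with hQ'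
  have hQ'U : QU Q' := by
    constructor
    · refine Constructible.and ?_ ?_
      · have h1 := Constructible.preimage (fun a : ι => (X (Sum.inl (Sum.inr a)) :
          MvPolynomial ((E ⊕ ι) ⊕ Unit) ℂ)) hcS
        simpa only [eval_X] using h1
      · have h1 := Constructible.preimage (Sum.elim (fun e : E => (X (Sum.inl (Sum.inl e)) :
          MvPolynomial ((E ⊕ ι) ⊕ Unit) ℂ)) fun _ : Unit => X (Sum.inr ())) hQ.1
        convert h1 using 2
        ext v
        have e1 : (Sum.elim (fun e => v (Sum.inl (Sum.inl e))) fun _ => v (Sum.inr ())) =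
            fun j : E ⊕ Unit => eval v ((Sum.elim (fun e : E => (X (Sum.inl (Sum.inl e)) :
              MvPolynomial ((E ⊕ ι) ⊕ Unit) ℂ)) fun _ : Unit => X (Sum.inr ())) j) := by
          funext j
          rcases j with j | j
          · simp only [Sum.elim_inl, eval_X]
          · simp only [Sum.elim_inr, eval_X]
        rw [e1]
    · rintro v ⟨-, hv⟩
      exact hQ.2 _ hv
  have hcard : Fintype.card ι * m ≤ 2 * N + m := by
    have h1 : b * (Fintype.card ι * m) ≤ b * (2 * N + m) := by nlinarith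
    exact Nat.le_of_mul_le_mul_left h1 hb
  have hww : (∑ i, w i) * m ≤ D * N := by
    have h1 : b * ((∑ i, w i) * m) ≤ b * (D * N) := by
      calc b * ((∑ i, w i) * m) = ((∑ i, w i) * b) * m := by ring
        _ ≤ (D * a) * m := Nat.mul_le_mul_right m hwD
        _ = D * (a * m) := by ring
        _ ≤ D * (b * N) := Nat.mul_le_mul_left D hmN
        _ = b * (D * N) := by ring
    exact Nat.le_of_mul_le_mul_left h1 hb
  have key := hW P (E ⊕ ι) ι F' w D hw hD ?_ h3 Q' hQ'U m N hww hcard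
  · -- the level
    obtain ⟨n, hn⟩ := cy_lead0 (E := E) hQ.1 m f
    have h4 := stmt_CVF8 P E ι φ S' hcS (fun p hp => (hS' hp).1)
      {z : (E → ℂ) × (ι → PowerSeries ℂ) | Lead Q m z.1 (aeval z.2 f)} n (hn n le_rfl)
    have h5 : ZL f S' Q m = {z : (E → ℂ) × (ι → PowerSeries ℂ) |
        (fun a => PowerSeries.coeff 0 (z.2 a)) ∈ S' ∧
          z ∈ {z : (E → ℂ) × (ι → PowerSeries ℂ) | Lead Q m z.1 (aeval z.2 f)}} := rfl
    rw [h5, h4]
    have h6 : {z : (E ⊕ ι → ℂ) × (ι → PowerSeries ℂ) |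
        (fun a => z.1 (Sum.inr a)) ∈ S' ∧ (∀ a, PowerSeries.coeff 0 (z.2 a) = 0) ∧
        ((fun e => z.1 (Sum.inl e)), fun a => evF (φ a) (fun b => z.1 (Sum.inr b)) z.2) ∈
          {z : (E → ℂ) × (ι → PowerSeries ℂ) | Lead Q m z.1 (aeval z.2 f)}} =
        {z : (E ⊕ ι → ℂ) × (ι → PowerSeries ℂ) | (∀ b, PowerSeries.coeff 0 (z.2 b) = 0) ∧
            Lead Q' m z.1 (evF F' z.1 z.2)} := by
      ext ⟨p, y⟩
      have e1 : (fun a => p (Sum.inr a)) ∈ S' → evF F' p y =
          aeval (fun a => evF (φ a) (fun b => p (Sum.inr b)) y) f := by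
        intro hp
        rw [hF', evF_rename, evF_bind, evF_sp, evF_sp, hF, sp_hi w D G _ ?_]
        intro d hd
        refine (hS' hp).2 d ?_
        rw [sp_bind]
        exact hd
      constructor
      · rintro ⟨h7, h8, h9, h10⟩
        refine ⟨h8, ?_, ?_⟩
        · dsimp only
          rw [e1 h7]
          exact h9
        · refine ⟨h7, ?_⟩
          dsimp only [Sum.elim_inl, Sum.elim_inr]
          rw [e1 h7]
          exact h10
      · rintro ⟨h8, h9, h7, h10⟩
        have h7' : (fun a => p (Sum.inr a)) ∈ S' := h7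
        dsimp only at h9
        rw [e1 h7'] at h9
        dsimp only [Sum.elim_inl, Sum.elim_inr] at h10
        rw [e1 h7'] at h10
        exact ⟨h7', h8, h9, h10⟩
    rw [h6]
    have h7 : N + ((∑ i, w i) + Fintype.card ι + 1) = N + (∑ b, w b) + Fintype.card ι + 1 := by
      ring
    rw [h7]
    exact key
  · intro d hd
    rw [hF', mem_support_iff] at hd
    obtain ⟨u, hu, hu2⟩ := coeff_rename_ne_zero _ _ _ hd
    have h8 := hiW_hi w D G u (mem_support_iff.2 hu2)
    refine le_trans h8 (Finset.sum_le_sum fun b _ => ?_)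
    rw [← hu]
    have hinj : Function.Injective (Sum.map Sum.inr id : ι ⊕ ι → (E ⊕ ι) ⊕ ι) :=
      Function.Injective.sumMap Sum.inr_injective Function.injective_id
    have h9 : Finsupp.mapDomain (Sum.map Sum.inr id : ι ⊕ ι → (E ⊕ ι) ⊕ ι) u (Sum.inr b) =
        u (Sum.inr b) := Finsupp.mapDomain_apply hinj u (Sum.inr b)
    rw [h9]

end Pool.Agent.Mono.SP
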