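import Pool.Agent.Work.Monodromy8.AN8
import Pool.Agent.Work.Monodromy8.CMP8
import Pool.Agent.Work.Monodromy8.COF8
import Pool.Agent.Work.Monodromy8.COV8
import Pool.Agent.Work.Monodromy8.CZC8
import Pool.Agent.Work.Monodromy8.DL8
import Pool.Agent.Work.Monodromy8.EIGS8
import Pool.Agent.Work.Monodromy8.FIN8
import Pool.Agent.Work.Monodromy8.I08
import Pool.Agent.Work.Monodromy8.ISO8
import Pool.Agent.Work.Monodromy8.LDF8
import Pool.Agent.Work.Monodromy8.MAIN8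
import Pool.Agent.Work.Monodromy8.POL8
import Pool.Agent.Work.Monodromy8.REP8
import Pool.Agent.Work.Monodromy8.RNK8
import Pool.Agent.Work.Monodromy8.SCL8
import Pool.Agent.Work.Monodromy8.SHF8
import Pool.Agent.Work.Monodromy8.SM8
import Pool.Agent.Work.Monodromy8.SMS8
import Pool.Agent.Work.Monodromy8.SMZ8
import Pool.Agent.Work.Monodromy8.SPA8
import Pool.Agent.Work.Monodromy8.SPB8
import Pool.Agent.Work.Monodromy8.SPL8
import Pool.Agent.Work.Monodromy8.SQV8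
import Pool.Agent.Work.Monodromy8.T08
import Pool.Agent.Work.Monodromy8.T18
import Pool.Agent.Work.Monodromy8.T28
import Pool.Agent.Work.Monodromy8.T2A8
import Pool.Agent.Work.Monodromy8.T2B8
import Pool.Agent.Work.Monodromy8.T2C8
import Pool.Agent.Work.Monodromy8.T2D8
import Pool.Agent.Work.Monodromy8.T2E8
import Pool.Agent.Work.Monodromy8.T38
import Pool.Agent.Work.Monodromy8.WB8
import Pool.Agent.Work.Monodromy8.WP8
import Pool.Agent.Work.Monodromy8.ZB8
import Pool.Agent.Work.Monodromy8.Final8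

/-!
# Phase 8: the smallest poles
-/

set_option autoImplicit false

namespace Pool.Agent.Mono.SP

theorem spl8 : Stmt_SPL8 := stmt_SPL8 stmt_SPA8 stmt_SPB8 stmt_CMP8

theorem t2e8 : Stmt_T2E8 := stmt_T2E8 stmt_COF8 stmt_CMP8 stmt_LDF8

theorem t28 : Stmt_T28 :=
  stmt_T28 spl8 stmt_T2A8 (stmt_T2B8 stmt_COF8 stmt_CMP8 stmt_LDF8) stmt_T2C8
    (stmt_T2D8 stmt_COF8 stmt_CMP8) t2e8

theorem cov8 : Stmt_COV8 :=
  stmt_COV8 stmt_RNK8 stmt_T08 (stmt_T18 spl8) t28 (stmt_T38 spl8)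

theorem sm8 : Stmt_SM8 := stmt_SM8_of (stmt_SMS8_of stmt_SHF8) stmt_SHF8

theorem zb8 : Stmt_ZB8 := stmt_ZB8 (stmt_WB8_of (stmt_WP8_of stmt_REP8 stmt_SCL8 sm8))

theorem main8 : Stmt_MAIN8 :=
  stmt_MAIN8 stmt_I08 (stmt_CZC8 stmt_COF8) zb8 stmt_SQV8 stmt_SMZ8 (stmt_FIN8 stmt_ISO8) cov8

theorem pol8 : Stmt_POL8 := stmt_POL8 stmt_I08 stmt_AN8 stmt_DL8 main8

theorem eigs8 : Stmt_EIGS8 := fun _ _ _ f hf r hr b hb => root_of_ExpS f hf r hr b hb

/-- the smallest poles of the topological zeta function -/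
theorem mc_small (P : HodgeMeasure) {ι : Type} [Fintype ι] (f : MvPolynomial ι ℂ)
    (hf : f.totalDegree ≠ 0) (hn : 3 ≤ Fintype.card ι) (R : RatFunc ℚ)
    (hR : IsTopologicalZetaDL P f R) : LowP f R :=
  small_top pol8 eigs8 P f hf hn R hR

/-- the smallest poles of the twisted topological zeta functions -/
theorem mc_small_tw (P : HodgeMeasure) {ι : Type} [Fintype ι] (f : MvPolynomial ι ℂ)
    (hf : f.totalDegree ≠ 0) (hn : 3 ≤ Fintype.card ι) (e : ℕ) (he : 1 ≤ e) (R : RatFunc ℚ)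
    (hR : IsTwTopZetaDL P f e R) : LowP f R :=
  small_tw pol8 eigs8 P f hf hn e he R hR

end Pool.Agent.Mono.SP
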