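import Pool.Agent.Work.Monodromy8.LDF8
import Pool.Agent.Work.Monodromy6.WB

/-!
# Charts: lemmas (helper83)
-/

set_option autoImplicit false
set_option linter.unusedSectionVars false

namespace Pool.Agent.Mono.SP

open MvPolynomial TS RO PC

namespace CHA8

open LDF8Aux

variable {ι : Type} [Fintype ι] [DecidableEq ι]

/-- translation -/
noncomputable def tr (p : ι → ℂ) (a : ι) : MvPolynomial ι ℂ := X a + C (p a)

theorem isCo_tr (p : ι → ℂ) : IsCo p (tr p) := by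
  constructor
  · intro a
    simp [tr]
  · have : (Matrix.of fun a b => eval (fun _ => (0 : ℂ)) (pderiv b (tr p a))) = 1 := by
      ext a b
      rw [Matrix.of_apply, tr, map_add, pderiv_C, add_zero, pderiv_X, Matrix.one_apply,
        Pi.single_apply]
      by_cases h : a = b
      · rw [if_pos h, if_pos h, map_one]
      · rw [if_neg h, if_neg h, map_zero]
    rw [this, Matrix.det_one]
    exact one_ne_zero

theorem pderiv_tr (p : ι → ℂ) (g : MvPolynomial ι ℂ) (b : ι) :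
    pderiv b (bind₁ (tr p) g) = bind₁ (tr p) (pderiv b g) := by
  rw [WBAux.chain, Finset.sum_eq_single b]
  · simp [tr]
  · intro a _ hab
    rw [tr, map_add, pderiv_C, add_zero, pderiv_X_of_ne hab, mul_zero]
  · intro h
    exact absurd (Finset.mem_univ _) h

theorem eval_tr (p : ι → ℂ) (g : MvPolynomial ι ℂ) :
    eval (fun _ => (0 : ℂ)) (bind₁ (tr p) g) = eval p g :=
  WBAux.eval_bind _ _ _ fun a => by simp [tr]

theorem coeff_zero_of {f : MvPolynomial ι ℂ} {p : ι → ℂ} {φ : ι → MvPolynomial ι ℂ}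
    (hφ : IsCo p φ) (hp : p ∈ Crit0 f) : coeff 0 (bind₁ φ f) = 0 := by
  rw [← eval_zero_eq, WBAux.eval_bind φ f p hφ.1]
  exact hp.1

theorem coeff_single_of {f : MvPolynomial ι ℂ} {p : ι → ℂ} {φ : ι → MvPolynomial ι ℂ}
    (hφ : IsCo p φ) (hp : p ∈ Crit0 f) (b : ι) :
    coeff (Finsupp.single b 1) (bind₁ φ f) = 0 := by
  have h : eval (fun _ => (0 : ℂ)) (pderiv b (bind₁ φ f)) = 0 := by
    rw [WBAux.chain, map_sum]
    refine Finset.sum_eq_zero fun a _ => ?_
    rw [map_mul, WBAux.eval_bind φ _ p hφ.1, hp.2 a, zero_mul]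
  rw [eval_zero_eq, coeff_pderiv, zero_add] at h
  simpa using h

theorem sim_of {f : MvPolynomial ι ℂ} {p : ι → ℂ} {φ : ι → MvPolynomial ι ℂ} {w : ι → ℕ}
    {D : ℕ} (hφ : IsCo p φ) (hp : p ∈ Crit0 f) (hS : SQ w D (bind₁ φ f)) (i : ℕ) (hi : 2 ≤ i)
    (hr : ((Fintype.card ι : ℚ) - 1) / 2 + 1 / (i : ℚ) = ((∑ a, w a : ℕ) : ℚ) / (D : ℚ)) :
    Sim f p := by
  refine ⟨i, hi, w, D, φ, hφ.1, hφ.2, ?_, hr⟩
  rw [hp.1, C_0, sub_zero]
  exact hS

theorem Cov_one {f : MvPolynomial ι ℂ} {a b : ℕ} {T : Set (ι → ℂ)}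
    (φ : ι → MvPolynomial (ι ⊕ ι) ℂ) (w : ι → ℕ) (D : ℕ) (hw : ∀ i, 1 ≤ w i) (hD : 1 ≤ D)
    (h : (∑ i, w i) * b ≤ D * a) (hT : ∀ p ∈ T, p ∈ CZ f φ w D ∨ Sim f p) : Cov f a b T := by
  refine ⟨[(φ, w, D)], fun c hc => ?_, fun p hp => ?_⟩
  · rw [List.mem_singleton] at hc
    subst hc
    exact ⟨hw, hD, h⟩
  · rcases hT p hp with h | h
    · exact Or.inl ⟨_, List.mem_singleton.2 rfl, h⟩
    · exact Or.inr h

theorem Cov_nil {f : MvPolynomial ι ℂ} {a b : ℕ} {T : Set (ι → ℂ)} (hT : ∀ p ∈ T, Sim f p) :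
    Cov f a b T :=
  ⟨[], fun _ hc => absurd hc List.not_mem_nil, fun p hp => Or.inr (hT p hp)⟩

theorem Cov_union {f : MvPolynomial ι ℂ} {a b : ℕ} {S T U : Set (ι → ℂ)} (hS : Cov f a b S)
    (hT : Cov f a b T) (h : U ⊆ S ∪ T) : Cov f a b U := by
  obtain ⟨L, hL, hL'⟩ := hS
  obtain ⟨M, hM, hM'⟩ := hT
  refine ⟨L ++ M, fun c hc => ?_, fun p hp => ?_⟩
  · rcases List.mem_append.1 hc with h | h
    · exact hL c h
    · exact hM c h
  · rcases h hp with h | h
    · rcases hL' p h with ⟨c, hc, h'⟩ | h'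
      · exact Or.inl ⟨c, List.mem_append_left _ hc, h'⟩
      · exact Or.inr h'
    · rcases hM' p h with ⟨c, hc, h'⟩ | h'
      · exact Or.inl ⟨c, List.mem_append_right _ hc, h'⟩
      · exact Or.inr h'

theorem Cov_mono {f : MvPolynomial ι ℂ} {a b : ℕ} {S T : Set (ι → ℂ)} (hT : Cov f a b T)
    (h : S ⊆ T) : Cov f a b S := by
  obtain ⟨L, hL, hL'⟩ := hT
  exact ⟨L, hL, fun p hp => hL' p (h hp)⟩

/-- finitely many pieces -/
theorem Cov_iUnion {f : MvPolynomial ι ℂ} {a b : ℕ} {A : Type} [DecidableEq A] (s : Finset A)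
    (T : A → Set (ι → ℂ)) (h : ∀ x ∈ s, Cov f a b (T x)) :
    Cov f a b {p | ∃ x ∈ s, p ∈ T x} := by
  induction s using Finset.induction_on with
  | empty => exact Cov_nil fun p hp => by simp at hp
  | insert x s hx ih =>
    refine Cov_union (h x (Finset.mem_insert_self _ _))
      (ih fun y hy => h y (Finset.mem_insert_of_mem hy)) ?_
    rintro p ⟨y, hy, hp⟩
    rcases Finset.mem_insert.1 hy with rfl | hy
    · exact Or.inl hp
    · exact Or.inr ⟨y, hy, hp⟩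

theorem sum_two (α β : ℕ) (Z : Finset ι) :
    ∑ i, (if i ∈ Z then α else β) = α * Z.card + β * Zᶜ.card := by
  rw [← Finset.sum_add_sum_compl Z]
  congr 1
  · rw [Finset.sum_congr rfl fun i hi => if_pos hi, Finset.sum_const, smul_eq_mul, mul_comm]
  · rw [Finset.sum_congr rfl fun i hi => if_neg (by simpa using hi), Finset.sum_const,
      smul_eq_mul, mul_comm]

theorem card_compl (Z : Finset ι) : Z.card + Zᶜ.card = Fintype.card ι :=
  Finset.card_add_card_compl Z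

end CHA8

end Pool.Agent.Mono.SP
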