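import Pool.Agent.Work.Monodromy8.CHX

/-!
# Phase 8, charts: orders and coefficients (helper75)
-/

set_option autoImplicit false

namespace Pool.Agent.Mono.SP

open MvPolynomial TS RO PC

namespace CHY

section ge

variable {ι κ : Type} [Fintype ι] [Fintype κ]

/-- weight of an exponent -/
def wt (w : ι → ℕ) (d : ι →₀ ℕ) : ℕ := ∑ a, w a * d a

/-- all monomials of `F` have weight at least `N` -/
def GE (w : ι → ℕ) (N : ℕ) (F : MvPolynomial ι ℂ) : Prop := ∀ d, coeff d F ≠ 0 → N ≤ wt w d

theorem wt_add (w : ι → ℕ) (d e : ι →₀ ℕ) : wt w (d + e) = wt w d + wt w e := by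
  simp only [wt, Finsupp.add_apply, mul_add, Finset.sum_add_distrib]

theorem wt_zero (w : ι → ℕ) : wt w 0 = 0 := by simp [wt]

theorem wt_single [DecidableEq ι] (w : ι → ℕ) (a : ι) (n : ℕ) :
    wt w (Finsupp.single a n) = w a * n := by
  unfold wt
  rw [Finset.sum_eq_single a]
  · rw [Finsupp.single_eq_same]
  · intro b _ hb
    rw [Finsupp.single_eq_of_ne hb, mul_zero]
  · intro h
    exact absurd (Finset.mem_univ a) h

theorem wt_weight (w : ι → ℕ) (d : ι →₀ ℕ) : Finsupp.weight w d = wt w d := by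
  rw [Finsupp.weight_apply, Finsupp.sum_fintype _ _ (fun a => by simp)]
  unfold wt
  refine Finset.sum_congr rfl fun a _ => ?_
  rw [smul_eq_mul, mul_comm]

theorem GE.mono {w : ι → ℕ} {N M : ℕ} {F : MvPolynomial ι ℂ} (h : GE w N F) (hM : M ≤ N) :
    GE w M F := fun d hd => hM.trans (h d hd)

theorem GE_zero (w : ι → ℕ) (N : ℕ) : GE w N 0 := fun d hd => absurd (coeff_zero d) hd

theorem GE_any (w : ι → ℕ) (F : MvPolynomial ι ℂ) : GE w 0 F := fun _ _ => Nat.zero_le _

theorem GE_monomial {w : ι → ℕ} {N : ℕ} {d : ι →₀ ℕ} (h : N ≤ wt w d) (c : ℂ) :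
    GE w N (monomial d c) := by
  classical
  intro e he
  rw [coeff_monomial] at he
  split_ifs at he with h1
  · rw [← h1]; exact h
  · exact absurd rfl he

theorem GE_X [DecidableEq ι] (w : ι → ℕ) (a : ι) : GE w (w a) (X a) := by
  have : wt w (Finsupp.single a 1) = w a := by rw [wt_single, mul_one]
  exact GE_monomial this.ge 1

theorem GE.add {w : ι → ℕ} {N : ℕ} {F G : MvPolynomial ι ℂ} (hF : GE w N F) (hG : GE w N G) :
    GE w N (F + G) := by
  intro d hd
  rw [coeff_add] at hd
  by_cases h : coeff d F = 0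
  · rw [h, zero_add] at hd
    exact hG d hd
  · exact hF d h

theorem GE.neg {w : ι → ℕ} {N : ℕ} {F : MvPolynomial ι ℂ} (hF : GE w N F) : GE w N (-F) := by
  intro d hd
  rw [coeff_neg] at hd
  exact hF d (fun h => hd (by rw [h, neg_zero]))

theorem GE.sub {w : ι → ℕ} {N : ℕ} {F G : MvPolynomial ι ℂ} (hF : GE w N F) (hG : GE w N G) :
    GE w N (F - G) := by
  rw [sub_eq_add_neg]
  exact hF.add hG.neg

theorem GE.sum {w : ι → ℕ} {N : ℕ} {T : Type*} (s : Finset T) {F : T → MvPolynomial ι ℂ}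
    (h : ∀ t ∈ s, GE w N (F t)) : GE w N (∑ t ∈ s, F t) := by
  classical
  induction s using Finset.induction_on with
  | empty => rw [Finset.sum_empty]; exact GE_zero w N
  | insert a s ha ih =>
    rw [Finset.sum_insert ha]
    exact (h a (Finset.mem_insert_self _ _)).add
      (ih fun t ht => h t (Finset.mem_insert_of_mem ht))

theorem GE.mul {w : ι → ℕ} {N M : ℕ} {F G : MvPolynomial ι ℂ} (hF : GE w N F) (hG : GE w M G) :
    GE w (N + M) (F * G) := by
  classical
  intro d hd
  rw [coeff_mul] at hd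
  obtain ⟨x, hx, hx'⟩ := Finset.exists_ne_zero_of_sum_ne_zero hd
  rw [Finset.HasAntidiagonal.mem_antidiagonal] at hx
  rw [← hx, wt_add]
  exact Nat.add_le_add (hF _ (left_ne_zero_of_mul hx')) (hG _ (right_ne_zero_of_mul hx'))

theorem GE.C_mul {w : ι → ℕ} {N : ℕ} {F : MvPolynomial ι ℂ} (hF : GE w N F) (c : ℂ) :
    GE w N (C c * F) := by
  have := (GE_any w (C c)).mul hF
  rwa [zero_add] at this

theorem GE.pow {w : ι → ℕ} {N : ℕ} {F : MvPolynomial ι ℂ} (hF : GE w N F) (n : ℕ) :
    GE w (N * n) (F ^ n) := by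
  induction n with
  | zero => rw [mul_zero]; exact GE_any w _
  | succ n ih =>
    rw [pow_succ, mul_add, mul_one]
    exact ih.mul hF

theorem GE.prod {w : ι → ℕ} {T : Type*} (s : Finset T) {F : T → MvPolynomial ι ℂ} {N : T → ℕ}
    (h : ∀ t ∈ s, GE w (N t) (F t)) : GE w (∑ t ∈ s, N t) (∏ t ∈ s, F t) := by
  classical
  induction s using Finset.induction_on with
  | empty => rw [Finset.prod_empty, Finset.sum_empty]; exact GE_any w _
  | insert a s ha ih =>
    rw [Finset.prod_insert ha, Finset.sum_insert ha]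
    exact (h a (Finset.mem_insert_self _ _)).mul
      (ih fun t ht => h t (Finset.mem_insert_of_mem ht))

/-- substitution -/
theorem GE.bind {w : ι → ℕ} {v : κ → ℕ} {N : ℕ} {F : MvPolynomial κ ℂ} (hF : GE v N F)
    {ψ : κ → MvPolynomial ι ℂ} (hψ : ∀ a, GE w (v a) (ψ a)) : GE w N (bind₁ ψ F) := by
  classical
  rw [← F.support_sum_monomial_coeff, map_sum]
  refine GE.sum _ fun d hd => ?_
  rw [bind₁_monomial]
  refine GE.C_mul ?_ _
  have h1 : GE w (∑ a ∈ d.support, v a * d a) (∏ a ∈ d.support, ψ a ^ d a) :=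
    GE.prod _ fun a _ => (hψ a).pow (d a)
  refine h1.mono ?_
  refine (hF d (mem_support_iff.1 hd)).trans (le_of_eq ?_)
  unfold wt
  symm
  refine Finset.sum_subset (Finset.subset_univ _) fun a _ ha => ?_
  rw [Finsupp.notMem_support_iff.1 ha, mul_zero]

end ge

section rho

variable {ι : Type} [Fintype ι] [DecidableEq ι] (Z : Finset ι)

/-- restriction to `z = 0` -/
noncomputable def rho : MvPolynomial ι ℂ →ₐ[ℂ] MvPolynomial ι ℂ :=
  bind₁ (fun a => if a ∈ Z then 0 else X a)

omit [Fintype ι] [DecidableEq ι] in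
theorem dZ_zero : dZ Z (0 : ι →₀ ℕ) = 0 := by simp [dZ]

omit [Fintype ι] [DecidableEq ι] in
theorem dZ_add (d e : ι →₀ ℕ) : dZ Z (d + e) = dZ Z d + dZ Z e := by
  simp [dZ, Finset.sum_add_distrib]

omit [Fintype ι] in
theorem dZ_single (a : ι) (n : ℕ) : dZ Z (Finsupp.single a n) = if a ∈ Z then n else 0 := by
  unfold dZ
  split_ifs with h
  · rw [Finset.sum_eq_single a]
    · rw [Finsupp.single_eq_same]
    · intro b _ hb
      rw [Finsupp.single_eq_of_ne hb]
    · intro h'
      exact absurd h h'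
  · refine Finset.sum_eq_zero fun b hb => ?_
    rw [Finsupp.single_eq_of_ne]
    rintro rfl
    exact h hb

omit [Fintype ι] [DecidableEq ι] in
theorem dZ_eq_zero {d : ι →₀ ℕ} : dZ Z d = 0 ↔ ∀ a ∈ Z, d a = 0 := by
  unfold dZ
  rw [Finset.sum_eq_zero_iff]

omit [Fintype ι] in
theorem rho_monomial (d : ι →₀ ℕ) (c : ℂ) :
    rho Z (monomial d c) = if dZ Z d = 0 then monomial d c else 0 := by
  rw [rho, bind₁_monomial]
  split_ifs with h
  · rw [dZ_eq_zero] at h
    rw [monomial_eq, Finsupp.prod]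
    congr 1
    refine Finset.prod_congr rfl fun a ha => ?_
    rw [if_neg]
    intro haZ
    exact (Finsupp.mem_support_iff.1 ha) (h a haZ)
  · rw [dZ_eq_zero] at h
    push Not at h
    obtain ⟨a, haZ, ha⟩ := h
    rw [Finset.prod_eq_zero (Finsupp.mem_support_iff.2 ha), mul_zero]
    rw [if_pos haZ, zero_pow ha]

omit [Fintype ι] in
theorem coeff_rho (d : ι →₀ ℕ) (F : MvPolynomial ι ℂ) :
    coeff d (rho Z F) = if dZ Z d = 0 then coeff d F else 0 := by
  induction F using MvPolynomial.induction_on' with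
  | monomial e c =>
    rw [rho_monomial, coeff_monomial]
    by_cases h : dZ Z e = 0
    · rw [if_pos h, coeff_monomial]
      split_ifs with h1 h2 h2
      · rfl
      · subst h1; exact absurd h h2
      · rfl
      · rfl
    · rw [if_neg h, coeff_zero]
      split_ifs with h1 h2
      · subst h2; exact absurd h1 h
      · rfl
      · rfl
  | add p q hp hq =>
    rw [map_add, coeff_add, hp, hq, coeff_add]
    split_ifs
    · rfl
    · rw [add_zero]

omit [Fintype ι] [DecidableEq ι] in
/-- second derivatives at the origin -/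
theorem hess_coeff (a b : ι) (F : MvPolynomial ι ℂ) :
    eval (fun _ => 0) (pderiv a (pderiv b F)) =
      coeff (Finsupp.single a 1 + Finsupp.single b 1) F * ((Finsupp.single a 1 b : ℕ) + 1) := by
  rw [CHX.eval_zero_eq, coeff_pderiv, coeff_pderiv]
  simp

omit [Fintype ι] [DecidableEq ι] in
/-- first derivatives at the origin -/
theorem grad_coeff (a : ι) (F : MvPolynomial ι ℂ) :
    eval (fun _ => 0) (pderiv a F) = coeff (Finsupp.single a 1) F := by
  rw [CHX.eval_zero_eq, coeff_pderiv]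
  simp

end rho

end CHY

end Pool.Agent.Mono.SP
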