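import Pool.Agent.Work.Monodromy8.EVF

/-!
# Block CVF8: change of variables in families
-/

set_option autoImplicit false
set_option linter.unusedSectionVars false

namespace Pool.Agent.Mono.SP

open MvPolynomial TS RO PC TS.VAAux TS.VPAux TS.VSAux RO.VGAux RO.CVSQAux EVF

theorem stmt_CVF8 : Stmt_CVF8 := by
  intro P E ι _ _ _ φ S hS hco T n hT
  set S1 : Set ((E → ℂ) × (ι → PowerSeries ℂ)) :=
    {z | (fun a => PowerSeries.coeff 0 (z.2 a)) ∈ S ∧ z ∈ T} with hS1
  set τ : (E ⊕ ι → ℂ) × (ι → PowerSeries ℂ) → (E → ℂ) × (ι → PowerSeries ℂ) := fun z =>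
    ((fun e => z.1 (Sum.inl e)), fun a => evF (φ a) (fun b => z.1 (Sum.inr b)) z.2) with hτ
  set S2 : Set ((E ⊕ ι → ℂ) × (ι → PowerSeries ℂ)) :=
    {z | (fun a => z.1 (Sum.inr a)) ∈ S ∧ (∀ a, PowerSeries.coeff 0 (z.2 a) = 0) ∧ τ z ∈ T}
    with hS2
  change vol P.rat xq S1 = vol P.rat xq S2
  have hr : ∀ i l, RF fun z : (E ⊕ ι → ℂ) × (ι → PowerSeries ℂ) =>
      PowerSeries.coeff l ((τ z).2 i) := fun i l =>
    RF_evF (φ i) (g := fun b z => z.1 (Sum.inr b)) (fun b => RF.par _)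
      (y := fun b z => z.2 b) (fun b l => RF.arc b l) l
  have hc : ∀ (p : E ⊕ ι → ℂ) (x y : ι → PowerSeries ℂ) (N : ℕ),
      (∀ i, ∀ l < N, PowerSeries.coeff l (x i) = PowerSeries.coeff l (y i)) →
      ∀ i, ∀ l < N, PowerSeries.coeff l ((τ (p, x)).2 i) = PowerSeries.coeff l ((τ (p, y)).2 i) :=
    fun p x y N h i => evF_congr (φ i) _ x y N h
  -- levels
  obtain ⟨N1, hN1⟩ := Cy.mem hS (fun a => RF.arc (E := E) (ι := ι) a 0)
  obtain ⟨N2, hN2⟩ := Cy.mem hS (fun a => RF.par (E := E ⊕ ι) (ι := ι) (Sum.inr a))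
  obtain ⟨N3, hN3⟩ := Cy_ctr (E := E ⊕ ι) (ι := ι) fun _ => 0
  set M := max (max n N1) (max (max N2 N3) 1) with hM
  have hTM : IsCyl (fun _ => M) T := IsCyl.mono (fun _ => by omega) hT
  have hc1 : IsCyl (fun _ => M) S1 := (hN1 M (by omega)).inter hTM
  have hpre := cyl_preG hTM (E' := E ⊕ ι) (κ := ι) (fun p e => p (Sum.inl e))
    (fun e => ⟨X (Sum.inl e), fun p => by rw [eval_X]⟩) (fun p x => (τ (p, x)).2) hr hc
  have hc2 : IsCyl (fun _ => M) S2 := (hN2 M (by omega)).inter ((hN3 M (by omega)).inter hpre)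
  have hA : ∀ s : (Σ _ : ι, Fin M), ∃ A : MvPolynomial ((E ⊕ ι) ⊕ (Σ _ : ι, Fin M)) ℂ, ∀ p x,
      PowerSeries.coeff (s.2 : ℕ) ((τ (p, x)).2 s.1) = eval (CV.trd (fun _ => M) p x) A :=
    fun s => PC.VSHAux.level (hr s.1 s.2) M fun p x y h => hc p x y M h s.1 s.2 s.2.2
  choose A hAe using hA
  -- the centre
  have hctr : ∀ (p : ι → ℂ), p ∈ S → ∀ x : ι → PowerSeries ℂ,
      (∀ a, PowerSeries.coeff 0 (x a) = 0) → ∀ a, PowerSeries.coeff 0 (evF (φ a) p x) = p a := by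
    intro p hp x hx a
    rw [coeff_zero_evF _ _ _ hx]
    exact (hco p hp).1 a
  -- division by t
  have hdiv : ∀ x : ι → PowerSeries ℂ, (∀ a, PowerSeries.coeff 0 (x a) = 0) →
      ∃ z : ι → PowerSeries ℂ, x = fun a => PowerSeries.X * z a := by
    intro x hx
    have h1 : ∀ a, ∃ z : PowerSeries ℂ, x a = PowerSeries.X * z := by
      intro a
      have h2 := hx a
      rw [PowerSeries.coeff_zero_eq_constantCoeff_apply] at h2
      exact PowerSeries.X_dvd_iff.2 h2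
    choose z hz using h1
    exact ⟨z, funext hz⟩
  -- the inverse function theorem
  have hJ : ∀ p ∈ S, (Matrix.of fun i j => MvPowerSeries.coeff (Finsupp.single j 1)
      ((sp p (φ i) : MvPolynomial ι ℂ) : MvPowerSeries ι ℂ)).det ≠ 0 := by
    intro p hp
    have h1 : (Matrix.of fun i j => MvPowerSeries.coeff (Finsupp.single j 1)
        ((sp p (φ i) : MvPolynomial ι ℂ) : MvPowerSeries ι ℂ)) =
        Matrix.of fun a b => eval (fun _ => (0 : ℂ)) (pderiv b (sp p (φ a))) := by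
      ext i j
      simp only [Matrix.of_apply, MvPolynomial.coeff_coe]
      exact coeff_single _ _
    rw [h1]
    exact (hco p hp).2
  have key := CV.vol_cvp P hc1 hc2 τ (Sum.elim (fun e => X (Sum.inl (Sum.inl e))) A) ?_ ?_ ?_ ?_
  · have hx : xq ≠ 0 := by
      rw [xq]
      exact inv_ne_zero RatFunc.X_ne_zero
    exact mul_right_cancel₀ (pow_ne_zero _ hx) key
  · rintro ⟨p, x⟩ -
    funext a
    rcases a with a | a
    · simp only [Sum.elim_inl, eval_X]
      rfl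
    · exact hAe a p x
  · rintro ⟨p, x⟩ ⟨h1, h2, h3⟩
    refine ⟨?_, h3⟩
    have h4 : (fun a => PowerSeries.coeff 0 ((τ (p, x)).2 a)) = fun a => p (Sum.inr a) :=
      funext fun a => hctr _ h1 x h2 a
    rw [h4]
    exact h1
  · rintro ⟨p, x⟩ ⟨h1, h2, h3⟩ ⟨p', x'⟩ ⟨h1', h2', h3'⟩ h
    dsimp only at h1 h2 h1' h2' h
    have e1 : ∀ e, p (Sum.inl e) = p' (Sum.inl e) := fun e => congrFun h (Sum.inl e)
    have e0 : ∀ i, ∀ l < M, PowerSeries.coeff l (evF (φ i) (fun b => p (Sum.inr b)) x) =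
        PowerSeries.coeff l (evF (φ i) (fun b => p' (Sum.inr b)) x') := fun i l hl =>
      congrFun h (Sum.inr ⟨i, ⟨l, hl⟩⟩)
    have e2 : ∀ a, p (Sum.inr a) = p' (Sum.inr a) := by
      intro a
      have h5 := e0 a 0 (by omega)
      rw [hctr _ h1 x h2, hctr _ h1' x' h2'] at h5
      exact h5
    have e3 : p = p' := by
      funext s
      rcases s with s | s
      · exact e1 s
      · exact e2 s
    subst e3
    obtain ⟨z, rfl⟩ := hdiv x h2
    obtain ⟨z', rfl⟩ := hdiv x' h2'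
    have h3 := ZLAux.inj_arc (fun i => ((sp (fun b => p (Sum.inr b)) (φ i) : MvPolynomial ι ℂ) :
      MvPowerSeries ι ℂ)) (hJ _ h1) z z' (M - 1) fun i l hl => by
        rw [ZLAux.sv_coe, ZLAux.sv_coe]
        have h5 := e0 i l (by omega)
        rw [evF_sp, evF_sp] at h5
        exact h5
    funext s
    rcases s with s | s
    · rfl
    · change PowerSeries.coeff (s.2 : ℕ) (PowerSeries.X * z s.1) =
        PowerSeries.coeff (s.2 : ℕ) (PowerSeries.X * z' s.1)
      rcases Nat.eq_zero_or_pos (s.2 : ℕ) with h0 | h0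
      · rw [h0]
        simp
      · obtain ⟨l', hl'⟩ : ∃ l', (s.2 : ℕ) = l' + 1 := ⟨(s.2 : ℕ) - 1, by omega⟩
        rw [hl', PowerSeries.coeff_succ_X_mul, PowerSeries.coeff_succ_X_mul]
        exact h3 s.1 l' (by have := s.2.2; omega)
  · rintro ⟨q, y⟩ ⟨hy, hyT⟩
    dsimp only at hy
    set p : ι → ℂ := fun a => PowerSeries.coeff 0 (y a) with hp
    obtain ⟨z, hz⟩ := ZLAux.surj_arc (fun i => ((sp p (φ i) : MvPolynomial ι ℂ) :
      MvPowerSeries ι ℂ)) (hJ p hy) y M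
    have hx0 : ∀ a, PowerSeries.coeff 0 ((fun a => PowerSeries.X * z a) a) = 0 := by
      intro a
      simp
    have hag : ∀ i, ∀ l < M, PowerSeries.coeff l (evF (φ i) p fun a => PowerSeries.X * z a) =
        PowerSeries.coeff l (y i) := by
      intro i l hl
      rcases Nat.eq_zero_or_pos l with h0 | h0
      · subst h0
        exact hctr p hy _ hx0 i
      · obtain ⟨l', rfl⟩ : ∃ l', l = l' + 1 := ⟨l - 1, by omega⟩
        have h3 := hz i l' (by omega)
        rw [ZLAux.sv_coe] at h3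
        rw [evF_sp]
        exact h3
    refine ⟨(Sum.elim q p, fun a => PowerSeries.X * z a), ⟨hy, hx0, ?_⟩, ?_⟩
    · exact (hTM.1 q _ _ hag).2 hyT
    · funext s
      rcases s with s | s
      · rfl
      · exact hag s.1 s.2 s.2.2

end Pool.Agent.Mono.SP
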