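import Pool.Agent.Work.Monodromy.Interface8
import Pool.Agent.Work.Monodromy6.CVSQ
import Pool.Agent.Work.Monodromy6.PL

/-!
# Tools for `evF`, `sp` and cylinders (helper63)
-/

set_option autoImplicit false
set_option linter.unusedSectionVars false

namespace Pool.Agent.Mono.SP

open MvPolynomial TS RO PC TS.VAAux TS.VPAux TS.VSAux RO.VGAux

namespace EVF

section

variable {E E' ι κ : Type}

/-- `F(p, y) = F_p(y)` -/
theorem evF_sp (F : MvPolynomial (ι ⊕ κ) ℂ) (p : ι → ℂ) (y : κ → PowerSeries ℂ) :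
    evF F p y = aeval y (sp p F) := by
  have h := MvPolynomial.comp_aeval (R := ℂ) (Sum.elim (fun a => C (p a)) X :
    ι ⊕ κ → MvPolynomial κ ℂ) (MvPolynomial.aeval y : MvPolynomial κ ℂ →ₐ[ℂ] PowerSeries ℂ)
  have h2 := DFunLike.congr_fun h F
  rw [AlgHom.comp_apply] at h2
  rw [sp, h2, evF]
  congr 2
  funext s
  rcases s with s | s
  · simp only [Sum.elim_inl, aeval_C]
    rfl
  · simp only [Sum.elim_inr, aeval_X]

theorem evF_congr [Fintype κ] (F : MvPolynomial (ι ⊕ κ) ℂ) (p : ι → ℂ)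
    (x y : κ → PowerSeries ℂ) (N : ℕ)
    (h : ∀ i, ∀ l < N, PowerSeries.coeff l (x i) = PowerSeries.coeff l (y i)) :
    ∀ l < N, PowerSeries.coeff l (evF F p x) = PowerSeries.coeff l (evF F p y) := by
  classical
  rw [evF_sp, evF_sp]
  exact GJetAux.aeval_congr (sp p F) N x y h

/-- the constant term of `F(p, y)` if `y(0) = 0` -/
theorem coeff_zero_evF [Fintype κ] (F : MvPolynomial (ι ⊕ κ) ℂ) (p : ι → ℂ)
    (y : κ → PowerSeries ℂ) (hy : ∀ b, PowerSeries.coeff 0 (y b) = 0) :
    PowerSeries.coeff 0 (evF F p y) = eval (fun _ => 0) (sp p F) := by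
  classical
  rw [evF_sp, PowerSeries.coeff_zero_eq_constantCoeff_apply, GJetAux.constantCoeff_aeval]
  have h1 : (fun i => PowerSeries.constantCoeff (y i)) = fun _ => (0 : ℂ) := by
    funext b
    have := hy b
    rwa [PowerSeries.coeff_zero_eq_constantCoeff_apply] at this
  rw [h1]

/-- the coefficients of `F(p, y)` are regular -/
theorem RF_evF (F : MvPolynomial (E ⊕ κ) ℂ) {g : E → (E' → ℂ) × (ι → PowerSeries ℂ) → ℂ}
    (hg : ∀ e, RF (g e)) {y : κ → (E' → ℂ) × (ι → PowerSeries ℂ) → PowerSeries ℂ}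
    (hy : ∀ b l, RF fun z => PowerSeries.coeff l (y b z)) (l : ℕ) :
    RF fun z => PowerSeries.coeff l (evF F (fun e => g e z) fun b => y b z) := by
  have h := PL.RF.aeval (E := E') (ι := ι)
    (u := fun (s : E ⊕ κ) z => Sum.elim (fun e => PowerSeries.C (g e z)) (fun b => y b z) s) ?_ F l
  · exact h
  · intro s l
    rcases s with s | s
    · simp only [Sum.elim_inl, PowerSeries.coeff_C]
      exact RF.ite _ (hg s) (RF.const 0)
    · simp only [Sum.elim_inr]
      exact hy s l

/-- preimages of cylinders under polynomial maps of the parameters and maps of arcs with regular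
coefficients -/
theorem cyl_preG {M : ℕ} {S : Set ((E → ℂ) × (ι → PowerSeries ℂ))} (hS : IsCyl (fun _ => M) S)
    (π : (E' → ℂ) → E → ℂ) (hπ : ∀ e, ∃ A : MvPolynomial E' ℂ, ∀ p, π p e = eval p A)
    (τ : (E' → ℂ) → (κ → PowerSeries ℂ) → ι → PowerSeries ℂ)
    (hr : ∀ i l, RF fun z : (E' → ℂ) × (κ → PowerSeries ℂ) => PowerSeries.coeff l (τ z.1 z.2 i))
    (hc : ∀ p x y (N : ℕ), (∀ i, ∀ l < N, PowerSeries.coeff l (x i) = PowerSeries.coeff l (y i)) →
      ∀ i, ∀ l < N, PowerSeries.coeff l (τ p x i) = PowerSeries.coeff l (τ p y i)) :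
    IsCyl (fun _ => M) {z : (E' → ℂ) × (κ → PowerSeries ℂ) | (π z.1, τ z.1 z.2) ∈ S} := by
  have hA : ∀ s : (Σ _ : ι, Fin M), ∃ A : MvPolynomial (E' ⊕ (Σ _ : κ, Fin M)) ℂ, ∀ p x,
      PowerSeries.coeff (s.2 : ℕ) (τ p x s.1) = eval (CV.trd (fun _ => M) p x) A := fun s =>
    PC.VSHAux.level (hr s.1 s.2) M fun p x y h => hc p x y M h s.1 s.2 s.2.2
  choose φ hφ using hA
  choose B hB using hπ
  constructor
  · intro p x y h
    exact hS.1 _ _ _ (hc p x y M h)
  · have h1 : sec (fun _ => M) {z : (E' → ℂ) × (κ → PowerSeries ℂ) | (π z.1, τ z.1 z.2) ∈ S} =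
        {v | (fun a => eval v (Sum.elim (fun e => rename Sum.inl (B e)) φ a)) ∈
          sec (fun _ => M) S} := by
      ext v
      change (π (fun p => v (Sum.inl p)), τ (fun p => v (Sum.inl p))
        (toArc (fun _ => M) fun s => v (Sum.inr s))) ∈ S ↔ _
      rw [← PC.VREPAux.mem_sec_trd hS]
      have h2 : CV.trd (fun _ => M) (π fun p => v (Sum.inl p)) (τ (fun p => v (Sum.inl p))
          (toArc (fun _ => M) fun s => v (Sum.inr s))) =
          fun a => eval v (Sum.elim (fun e => rename Sum.inl (B e)) φ a) := by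
        funext a
        rcases a with a | a
        · simp only [Sum.elim_inl, eval_rename]
          exact hB a _
        · have h3 := hφ a (fun p => v (Sum.inl p)) (toArc (fun _ => M) fun s => v (Sum.inr s))
          rw [CV.trd_toArc] at h3
          exact h3
      rw [h2]
      exact Iff.rfl
    rw [h1]
    exact Constructible.preimage _ hS.2

end

end EVF

end Pool.Agent.Mono.SP
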