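import Pool.Agent.Work.Monodromy.Statement8
import Pool.Agent.Work.Monodromy.Interface8
import Pool.Agent.Work.Monodromy.Final1
import Pool.Agent.Work.Monodromy.FinalB

/-!
# Phase 8: the smallest poles, final form
-/

set_option autoImplicit false

namespace Pool.Agent.Mono.SP

open MvPolynomial TS RO PC

theorem isDenefLoeser_iff (Z : PowerSeries (RatFunc ℚ)) (R : RatFunc ℚ) :
    IsDenefLoeser Z R ↔ IsDL Z R := Iff.rfl

theorem topDL_iff {ι : Type} [Fintype ι] (P : HodgeMeasure) (f : MvPolynomial ι ℂ)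
    (R : RatFunc ℚ) : IsTopologicalZetaDL P f R ↔ IsDL (zetaSer P.rat xq f 1) R := by
  have h : (PowerSeries.mk fun k => toRat (P.val (contactJets f k)) *
      (RatFunc.X)⁻¹ ^ (k * Fintype.card ι)) = zetaSer P.rat xq f 1 := by
    ext k
    rw [zetaSer, PowerSeries.coeff_mk, PowerSeries.coeff_mk, val_jetSet_one]
    rfl
  rw [IsTopologicalZetaDL, h, isDenefLoeser_iff]

/-- the elements of `ExpS f` are negatives of roots of all Bernstein polynomials -/
def Stmt_EIGS8 : Prop :=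
  ∀ (ι : Type) [Fintype ι] [DecidableEq ι] (f : MvPolynomial ι ℂ), f.totalDegree ≠ 0 →
    ∀ r ∈ ExpS f, ∀ b : Polynomial ℂ, IsBernstein f b → b.eval (-(r : ℂ)) = 0

/-- all poles `s < -(n-1)/2` are of the form `-(n-1)/2 - 1/i` and roots of all Bernstein
polynomials -/
def LowP {ι : Type} [Fintype ι] (f : MvPolynomial ι ℂ) (R : RatFunc ℚ) : Prop :=
  ∀ s : ℂ, Polynomial.aeval s R.denom = 0 → s.re < -((Fintype.card ι : ℝ) - 1) / 2 →
    (∃ i : ℕ, 2 ≤ i ∧ s = -((Fintype.card ι : ℂ) - 1) / 2 - 1 / (i : ℂ)) ∧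
      ∀ b : Polynomial ℂ, IsBernstein f b → b.eval s = 0

theorem lowP_root {ι : Type} [Finite ι] {f : MvPolynomial ι ℂ} {s : ℂ}
    (h : ∀ b : Polynomial ℂ, IsBernstein f b → b.eval s = 0) :
    (∃ b : Polynomial ℂ, IsBernsteinSato f b ∧ b.eval s = 0) ∧
      IsMonodromyEigenvalue f (Complex.exp (2 * Real.pi * Complex.I * s)) := by
  obtain ⟨b, hb⟩ := exists_bernsteinSato f
  have h1 : b.eval s = 0 := h b ((hb.2 b).2 dvd_rfl)
  exact ⟨⟨b, hb, h1⟩, b, hb, s, h1, rfl⟩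

theorem lowP_of (hP : Stmt_POL8) (hE : Stmt_EIGS8) (P : HodgeMeasure) {ι : Type} [Fintype ι]
    [DecidableEq ι] (f : MvPolynomial ι ℂ) (hf : f.totalDegree ≠ 0) (hn : 3 ≤ Fintype.card ι)
    (e : ℕ) (R : K) (he : 1 ≤ e)
    (hR : IsDL (zetaSer P.rat xq f e) R ∨ IsDL (zetaSer1 P.rat xq f e) R) : LowP f R := by
  intro s hs hlt
  obtain ⟨r, hr, rfl⟩ := hP P ι f hn e R he hR s hs hlt
  refine ⟨?_, hE ι f hf r hr⟩
  obtain ⟨i, hi, hri, _⟩ := hr
  refine ⟨i, hi, ?_⟩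
  rw [hri]
  push_cast
  ring

theorem lowP_add {ι : Type} [Fintype ι] {f : MvPolynomial ι ℂ} {R R' : RatFunc ℚ}
    (h : LowP f R) (h' : LowP f R') : LowP f (R + R') := by
  intro s hs
  rcases pole_add hs with h3 | h3
  · exact h s h3
  · exact h' s h3

theorem lowP_C {ι : Type} [Fintype ι] {f : MvPolynomial ι ℂ} (q : ℚ) :
    LowP f (RatFunc.C q) := by
  intro s hs
  rw [RatFunc.denom_C] at hs
  simp at hs

theorem lowP_mul {ι : Type} [Fintype ι] {f : MvPolynomial ι ℂ} {R R' : RatFunc ℚ}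
    (h : LowP f R) (h' : LowP f R') : LowP f (R * R') := by
  intro s hs
  rcases pole_mul hs with h3 | h3
  · exact h s h3
  · exact h' s h3

theorem lowP_sum {ι : Type} [Fintype ι] {f : MvPolynomial ι ℂ} {α : Type*} (s : Finset α)
    (R : α → RatFunc ℚ) (h : ∀ a ∈ s, LowP f (R a)) : LowP f (∑ a ∈ s, R a) := by
  classical
  induction s using Finset.induction_on with
  | empty =>
    rw [Finset.sum_empty, ← map_zero (RatFunc.C : ℚ →+* RatFunc ℚ)]
    exact lowP_C 0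
  | insert a s ha ih =>
    rw [Finset.sum_insert ha]
    exact lowP_add (h a (Finset.mem_insert_self a s))
      (ih fun b hb => h b (Finset.mem_insert_of_mem hb))

theorem small_top (hP : Stmt_POL8) (hE : Stmt_EIGS8) (P : HodgeMeasure) {ι : Type} [Fintype ι]
    (f : MvPolynomial ι ℂ) (hf : f.totalDegree ≠ 0) (hn : 3 ≤ Fintype.card ι) (R : RatFunc ℚ)
    (hR : IsTopologicalZetaDL P f R) : LowP f R := by
  classical
  exact lowP_of hP hE P f hf hn 1 R le_rfl (Or.inl ((topDL_iff P f R).1 hR))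

theorem small_tw (hP : Stmt_POL8) (hE : Stmt_EIGS8) (P : HodgeMeasure) {ι : Type} [Fintype ι]
    (f : MvPolynomial ι ℂ) (hf : f.totalDegree ≠ 0) (hn : 3 ≤ Fintype.card ι) (e : ℕ)
    (he : 1 ≤ e) (R : RatFunc ℚ) (hR : IsTwTopZetaDL P f e R) : LowP f R := by
  classical
  obtain ⟨r, hr, hR'⟩ := hR
  have hpos : ∀ d ∈ e.divisors, 1 ≤ d := fun d hd => Nat.pos_of_mem_divisors hd
  have hg : ∀ d ∈ e.divisors, LowP f (r d) := fun d hd =>
    lowP_of hP hE P f hf hn d (r d) (hpos d hd) (Or.inr (hr d hd))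
  have htot : ((e.totient : ℚ)) ≠ 0 := by exact_mod_cast (Nat.totient_pos.2 he).ne'
  have h3 : R = RatFunc.C ((e.totient : ℚ)⁻¹) * (RatFunc.C (e.totient : ℚ) * R) := by
    rw [← mul_assoc, ← map_mul, inv_mul_cancel₀ htot, map_one, one_mul]
  rw [h3, hR']
  refine lowP_mul (lowP_C _) (lowP_sum _ _ fun d hd => ?_)
  exact lowP_mul (lowP_C _) (hg d hd)

end Pool.Agent.Mono.SP
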