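import Pool.Agent.Work.Monodromy.Interface8
import Pool.Agent.Work.Monodromy6.LE
import Pool.Agent.Work.Monodromy6.LA
import Pool.Agent.Work.Monodromy6.LB
import Pool.Agent.Work.Monodromy6.LC
import Pool.Agent.Work.Monodromy6.LD
import Pool.Agent.Work.Monodromy6.CVSQ
import Pool.Agent.Work.Monodromy4.Q1

/-!
# Block SQV8 (helper2): simple points
-/

set_option autoImplicit false
set_option linter.unusedSectionVars false

namespace Pool.Agent.Mono.SP

open MvPolynomial TS RO PC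

namespace SQV8Aux

open RO.VGAux RO.LEAux

section

variable {E ι : Type} [Fintype ι] [DecidableEq ι]

theorem cy_lead [Finite E] (f : MvPolynomial ι ℂ) {Q : Set (E ⊕ Unit → ℂ)}
    (hQ : Constructible Q) (m : ℕ) :
    Cy {z : (E → ℂ) × (ι → PowerSeries ℂ) | Lead Q m z.1 (aeval z.2 f)} := by
  refine Cy.and (Cy.all_lt m fun j _ => Cy.zero (RF.coef f j)) (Cy.mem hQ fun s => ?_)
  rcases s with s | s
  · exact RF.par s
  · exact RF.coef f m

theorem phi_zero (f : MvPolynomial ι ℂ) (φ : ι → MvPolynomial ι ℂ) {c : ℂ} (hc : c = 0)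
    (y : ι → PowerSeries ℂ) :
    aeval (fun a => aeval y (φ a)) f = aeval y (bind₁ φ f - C c) := by
  rw [aeval_phi f φ c y, hc, map_zero, map_zero, add_zero]

theorem eseq_sumF (Λ : Set ℚ) {α : Type} (s : Finset α) (g : α → ℕ → K)
    (h : ∀ a ∈ s, ESeq Λ (g a)) : ESeq Λ fun m => ∑ a ∈ s, g a m := by
  classical
  induction s using Finset.induction_on with
  | empty =>
    simp only [Finset.sum_empty]
    exact stmt_Q1.2.2.2.1 Λ (fun _ => 0) 0 (fun _ _ => rfl)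
  | insert a s ha ih =>
    simp only [Finset.sum_insert ha]
    exact stmt_Q1.2.1 Λ _ _ (h a (Finset.mem_insert_self a s))
      (ih fun b hb => h b (Finset.mem_insert_of_mem hb))

theorem eseq_one {Λ : Set ℚ} (h : (1 : ℚ) ∈ Λ) (α : K) : ESeq Λ fun m => α * xq ^ m := by
  refine stmt_Q1.2.2.1 Λ _ α ?_
  have h1 := stmt_Q1.2.2.2.2.1 Λ 1 1 le_rfl (by simpa using h)
  simpa using h1

end

end SQV8Aux

open SQV8Aux RO.LEAux in
theorem stmt_SQV8_of (hCV : RO.Stmt_CV) (hLC : RO.Stmt_LC) (hLD : RO.Stmt_LD) : Stmt_SQV8 := by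
  classical
  intro P ι _ _ hne f p r hp h E _ Q hQ
  obtain ⟨w, D, φ, hφ, hJ, hSQ, hr⟩ := h
  have hp0 : eval p f = 0 := hp.1
  obtain ⟨M, hM⟩ : ∃ M, M = ∏ a, w a := ⟨_, rfl⟩
  obtain ⟨m, hm⟩ : ∃ m : ι → ℕ, m = fun a => M / w a := ⟨_, rfl⟩
  have hw := hSQ.1
  have hD : 1 ≤ D := hSQ.2.1
  have hwM : ∀ a, w a ∣ M := fun a => by rw [hM]; exact Finset.dvd_prod_of_mem w (Finset.mem_univ a)
  have hwm : ∀ a, w a * m a = M := fun a => by rw [hm]; exact Nat.mul_div_cancel' (hwM a)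
  have hM1 : 1 ≤ M := by
    rw [hM]
    exact Nat.succ_le_of_lt (Finset.prod_pos fun a _ => lt_of_lt_of_le Nat.zero_lt_one (hw a))
  have hmM : ∀ a, m a ∣ M := fun a => ⟨w a, by rw [mul_comm]; exact (hwm a).symm⟩
  have hpos : 0 < ((∑ a, w a : ℕ) : ℚ) / (D : ℚ) := by
    have h1 : 0 < ∑ a, w a := Finset.sum_pos (fun a _ => hw a) ⟨hne.some, Finset.mem_univ _⟩
    have h2 : (0 : ℚ) < ((∑ a, w a : ℕ) : ℚ) := by exact_mod_cast h1
    have h3 : (0 : ℚ) < (D : ℚ) := by exact_mod_cast hD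
    exact div_pos h2 h3
  obtain ⟨F, hF⟩ : ∃ F, F = bind₁ φ f - C (eval p f) := ⟨_, rfl⟩
  rw [← hF] at hSQ
  obtain ⟨hl1, a, hl2, -⟩ := hLD P ι w m M D F hSQ hM1 hwm ({1, r} : Set ℚ)
    (by rw [← hr]; exact Set.mem_insert_of_mem _ rfl) hpos
  have key : ∀ i : ℕ, 1 ≤ i → vol P.rat xq (ZL f {p} Q i) =
      (∑ i0 ∈ Finset.range D, lc0 P w m D F (M * i0 / D) Q *
        (if i % D = i0 ∧ D ∣ M * i then xq ^ (∑ a, (M * i / D / m a + 1)) else 0)) +
      (P.rat.val Q * ((∑ r ∈ Finset.Ico 1 (M * i + 1), if r * D < M * i then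
          xq ^ (∑ a, (r / m a + 1) + (i - r * D / M)) * zc P w m D F r else 0) - a * xq ^ i) +
        P.rat.val Q * a * xq ^ i) := by
    intro i hi
    obtain ⟨N, hN⟩ := cy_lead (E := E) f hQ.1 i
    have h1 := hCV P ι p φ hφ hJ E _ (max N 1) (le_max_right _ _) (hN _ (le_max_left _ _))
    have e1 : ZL f {p} Q i = {z : (E → ℂ) × (ι → PowerSeries ℂ) |
        (∀ a, PowerSeries.coeff 0 (z.2 a) = p a) ∧
        z ∈ {z : (E → ℂ) × (ι → PowerSeries ℂ) | Lead Q i z.1 (aeval z.2 f)}} := by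
      ext z
      constructor
      · rintro ⟨h1, h2⟩
        exact ⟨fun a => congrFun h1 a, h2⟩
      · rintro ⟨h1, h2⟩
        exact ⟨funext h1, h2⟩
    have e2 : {z : (E → ℂ) × (ι → PowerSeries ℂ) | (∀ a, PowerSeries.coeff 0 (z.2 a) = 0) ∧
        (z.1, fun a => aeval z.2 (φ a)) ∈
          {z : (E → ℂ) × (ι → PowerSeries ℂ) | Lead Q i z.1 (aeval z.2 f)}} = EXl F i Q := by
      ext z
      have e3 := phi_zero f φ hp0 z.2
      rw [← hF] at e3
      constructor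
      · rintro ⟨h0, h2⟩
        have h3 : Lead Q i z.1 (aeval (fun a => aeval z.2 (φ a)) f) := h2
        rw [e3] at h3
        exact ⟨h0, h3.1, h3.2⟩
      · rintro ⟨h0, h2, h3⟩
        refine ⟨h0, ?_⟩
        change Lead Q i z.1 (aeval (fun a => aeval z.2 (φ a)) f)
        rw [e3]
        exact ⟨h2, h3⟩
    rw [e1, h1, e2, (hLC P ι w m M D F hSQ hM1 hwm E).1 Q hQ.1 hQ.2 i hi]
    have e4 : (∑ i0 ∈ Finset.range D, lc0 P w m D F (M * i0 / D) Q *
        (if i % D = i0 ∧ D ∣ M * i then xq ^ (∑ a, (M * i / D / m a + 1)) else 0)) =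
        if D ∣ M * i then xq ^ (∑ a, (M * i / D / m a + 1)) * lc0 P w m D F (M * i / D) Q else 0 := by
      rw [Finset.sum_eq_single (i % D)]
      · have e5 : lc0 P w m D F (M * (i % D) / D) Q = lc0 P w m D F (M * i / D) Q := by
          unfold lc0
          congr 1
          ext u
          constructor
          · rintro ⟨h1, h2⟩
            exact ⟨(off_mod hD hmM _).1 h1, h2⟩
          · rintro ⟨h1, h2⟩
            exact ⟨(off_mod hD hmM _).2 h1, h2⟩
        by_cases hd : D ∣ M * i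
        · rw [if_pos ⟨rfl, hd⟩, if_pos hd, e5, mul_comm]
        · rw [if_neg (fun hh => hd hh.2), if_neg hd, mul_zero]
      · intro x _ hx
        rw [if_neg (fun hh => hx hh.1.symm), mul_zero]
      · intro hx
        exact absurd (Finset.mem_range.2 (Nat.mod_lt i hD)) hx
    rw [e4]
    ring
  obtain ⟨G, hG⟩ : ∃ G : ℕ → K, G = fun i => (∑ i0 ∈ Finset.range D, lc0 P w m D F (M * i0 / D) Q *
        (if i % D = i0 ∧ D ∣ M * i then xq ^ (∑ a, (M * i / D / m a + 1)) else 0)) +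
      (P.rat.val Q * ((∑ r ∈ Finset.Ico 1 (M * i + 1), if r * D < M * i then
          xq ^ (∑ a, (r / m a + 1) + (i - r * D / M)) * zc P w m D F r else 0) - a * xq ^ i) +
        P.rat.val Q * a * xq ^ i) := ⟨_, rfl⟩
  have hGE : ESeq ({1, r} : Set ℚ) G := by
    rw [hG]
    refine stmt_Q1.2.1 _ _ _ ?_ (stmt_Q1.2.1 _ _ _ ?_ ?_)
    · exact eseq_sumF _ _ _ fun i0 _ => stmt_Q1.2.2.1 _ _ _ (hl1 i0)
    · exact stmt_Q1.2.2.1 _ _ _ hl2
    · exact eseq_one (Set.mem_insert _ _) _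
  have hdiff : ESeq ({1, r} : Set ℚ) fun i => vol P.rat xq (ZL f {p} Q i) - G i := by
    refine stmt_Q1.2.2.2.1 _ _ 1 fun i hi => ?_
    rw [key i hi, hG]
    ring
  have h3 := stmt_Q1.2.1 _ _ _ hGE hdiff
  refine (congrArg (ESeq ({1, r} : Set ℚ)) (funext fun i => ?_)).mp h3
  ring

theorem stmt_SQV8 : Stmt_SQV8 :=
  stmt_SQV8_of stmt_CVSQ (stmt_LC stmt_LA stmt_LB) stmt_LD

end Pool.Agent.Mono.SP
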