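import Pool.Agent.Work.Monodromy.Interface8

/-!
# Monodromy, phase 8: tools for the block T2B8 (helper45)

Linear changes of coordinates outside of `Z` and the bidegree.
-/

set_option autoImplicit false

namespace Pool.Agent.Mono.SP
namespace T2BAux

open MvPolynomial TS RO PC Finset

section

variable {ι : Type} [Fintype ι] [DecidableEq ι]

/-- the bidegree -/
def om (Z : Finset ι) (a : ι) : ℕ × ℕ := if a ∈ Z then (1, 0) else (0, 1)

theorem weight_om (Z : Finset ι) (d : ι →₀ ℕ) :
    Finsupp.weight (om Z) d = (dZ Z d, dZ Zᶜ d) := by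
  have h0 : Finsupp.weight (om Z) d = ∑ a, d a • om Z a := by
    rw [Finsupp.weight_apply, Finsupp.sum_fintype _ _ (by simp)]
  rw [h0]
  refine Prod.ext ?_ ?_
  · rw [Prod.fst_sum]
    simp only [dZ]
    rw [← Finset.sum_subset (Finset.subset_univ Z)]
    · refine Finset.sum_congr rfl fun a ha => ?_
      simp [om, ha]
    · intro a _ ha
      simp [om, ha]
  · rw [Prod.snd_sum]
    simp only [dZ]
    rw [← Finset.sum_subset (Finset.subset_univ Zᶜ)]
    · refine Finset.sum_congr rfl fun a ha => ?_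
      have : a ∉ Z := Finset.mem_compl.1 ha
      simp [om, this]
    · intro a _ ha
      have : a ∈ Z := by
        by_contra h; exact ha (Finset.mem_compl.2 h)
      simp [om, this]

theorem bind_support (Z : Finset ι) (l : ι → MvPolynomial ι ℂ)
    (hl : ∀ a, IsWeightedHomogeneous (om Z) (l a) (om Z a)) (F : MvPolynomial ι ℂ) (e : ι →₀ ℕ)
    (he : (bind₁ l F).coeff e ≠ 0) :
    ∃ d ∈ F.support, dZ Z d = dZ Z e ∧ dZ Zᶜ d = dZ Zᶜ e := by
  classical
  rw [F.as_sum, map_sum, coeff_sum] at he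
  obtain ⟨d, hd, hne⟩ := Finset.exists_ne_zero_of_sum_ne_zero he
  refine ⟨d, hd, ?_⟩
  have hw : IsWeightedHomogeneous (om Z) (bind₁ l (monomial d (F.coeff d)))
      (Finsupp.weight (om Z) d) := by
    rw [bind₁_monomial, Finsupp.weight_apply]
    refine IsWeightedHomogeneous.C_mul ?_ _
    exact IsWeightedHomogeneous.prod _ _ _ fun i _ => (hl i).pow _
  have h := hw hne
  rw [weight_om, weight_om] at h
  exact ⟨(congrArg Prod.fst h).symm, (congrArg Prod.snd h).symm⟩

theorem pderiv_bind (l : ι → MvPolynomial ι ℂ) (b : ι)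
    (h : ∀ a, pderiv b (l a) = if a = b then 1 else 0) (F : MvPolynomial ι ℂ) :
    pderiv b (bind₁ l F) = bind₁ l (pderiv b F) := by
  induction F using MvPolynomial.induction_on with
  | C a => simp
  | add p q hp hq => simp only [map_add, hp, hq]
  | mul_X p n hp =>
    simp only [map_mul, Derivation.leibniz, smul_eq_mul, map_add, bind₁_X_right, hp, h, pderiv_X,
      Pi.single_apply]
    split_ifs <;> simp

theorem eval_bind (g : ι → ℂ) (l : ι → MvPolynomial ι ℂ) (F : MvPolynomial ι ℂ) :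
    eval g (bind₁ l F) = eval (fun i => eval g (l i)) F := by
  induction F using MvPolynomial.induction_on with
  | C a => simp
  | add p q hp hq => simp only [map_add, hp, hq]
  | mul_X p n hp => simp only [map_mul, bind₁_X_right, hp, eval_X]

theorem HZ_bind (Z : Finset ι) (l : ι → MvPolynomial ι ℂ)
    (h : ∀ b ∈ Z, ∀ a, pderiv b (l a) = if a = b then 1 else 0)
    (h0 : ∀ a, eval (fun _ => (0 : ℂ)) (l a) = 0) (F : MvPolynomial ι ℂ) :
    HZ (bind₁ l F) Z (fun _ => 0) = HZ F Z fun _ => 0 := by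
  ext ⟨a, ha⟩ ⟨b, hb⟩
  simp only [HZ, Hs, Matrix.submatrix_apply, Matrix.of_apply]
  rw [pderiv_bind l b (h b hb), pderiv_bind l a (h a ha), eval_bind]
  simp only [h0]

/-- linear changes of coordinates preserve the split form -/
theorem Spl_bind (Z : Finset ι) (K' : ℕ) (l : ι → MvPolynomial ι ℂ)
    (hl : ∀ a, IsWeightedHomogeneous (om Z) (l a) (om Z a))
    (h : ∀ b ∈ Z, ∀ a, pderiv b (l a) = if a = b then 1 else 0)
    (h0 : ∀ a, eval (fun _ => (0 : ℂ)) (l a) = 0) (F : MvPolynomial ι ℂ) (hF : Spl Z K' F) :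
    Spl Z K' (bind₁ l F) := by
  refine ⟨?_, ?_⟩
  · intro e he
    obtain ⟨d, hd, h1, h2⟩ := bind_support Z l hl F e (mem_support_iff.1 he)
    rw [← h1, ← h2]
    exact hF.1 d hd
  · rw [HZ_bind Z l h h0]
    exact hF.2

end

end T2BAux
end Pool.Agent.Mono.SP
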