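import Pool.Agent.Work.Monodromy8.I08
import Pool.Agent.Work.Monodromy.YK
import Pool.Agent.Work.Monodromy4.T0

/-!
# Block VB8: volumes of cylinders
-/

set_option autoImplicit false

namespace Pool.Agent.Mono.SP

open MvPolynomial TS RO PC

theorem stmt_VB8 : Stmt_VB8 := by
  intro P E ι _ _ k C hC
  rw [stmt_YV K P.rat xq (VKAux.L_xq P) E ι k C hC]
  have h1 : P.rat.val (sec k C) = toRat (P.val (sec k C)) := rfl
  rw [h1, mul_comm]
  have h2 := (stmt_I08.2.2.2.2.2 0 (∑ i, k i) (toRat (P.val (sec k C)))).2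
    (stmt_I08.2.2.2.2.1 _)
  rwa [Nat.zero_add] at h2

end Pool.Agent.Mono.SP
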