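import Pool.Agent.Work.Monodromy.Interface8
import Pool.Agent.Work.Monodromy7.TAAux

/-!
# Phase 8, blocks SMS8, SM8, WP8, WB8 (helper31): tools
-/

set_option autoImplicit false
set_option linter.unusedSectionVars false

namespace Pool.Agent.Mono.SP

open MvPolynomial TS RO PC RO.VGAux BV.TAAux

namespace VOAux

/-! ## Polynomials -/

/-- substitution of `t^{L_b} y_b` -/
theorem mono_sub {E ι : Type} [Finite E] [Fintype ι] (F : MvPolynomial (E ⊕ ι) ℂ) (L : ι → ℕ)
    (N : ℕ) (h : ∀ d ∈ F.support, N ≤ ∑ b, L b * d (Sum.inr b)) :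
    ∃ G : MvPolynomial (E ⊕ (Unit ⊕ ι)) ℂ, ∀ (A : Type) [CommRing A] [Algebra ℂ A] (p : E → A)
      (t : A) (y : ι → A), aeval (Sum.elim p fun b => t ^ L b * y b) F =
        t ^ N * aeval (Sum.elim p (Sum.elim (fun _ => t) y)) G := by
  classical
  have := Fintype.ofFinite E
  let g : E ⊕ ι → E ⊕ (Unit ⊕ ι) := Sum.elim (fun e => Sum.inl e) fun b => Sum.inr (Sum.inr b)
  refine ⟨∑ d ∈ F.support, C (coeff d F) * (∏ i ∈ d.support, X (g i) ^ d i) *
    X (Sum.inr (Sum.inl ())) ^ ((∑ b, L b * d (Sum.inr b)) - N), ?_⟩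
  intro A _ _ p t y
  rw [aeval_def, eval₂_eq, map_sum, Finset.mul_sum]
  refine Finset.sum_congr rfl fun d hd => ?_
  have e1 : ∀ i : E ⊕ ι, (Sum.elim p (fun b => t ^ L b * y b) : E ⊕ ι → A) i =
      t ^ (Sum.elim (fun _ => 0) L : E ⊕ ι → ℕ) i *
        (Sum.elim p (Sum.elim (fun _ => t) y) : E ⊕ (Unit ⊕ ι) → A) (g i) := by
    rintro (e | b)
    · simp [g]
    · simp [g]
  have e2 : ∏ i ∈ d.support, (Sum.elim p (fun b => t ^ L b * y b) : E ⊕ ι → A) i ^ d i =
      t ^ (∑ b, L b * d (Sum.inr b)) * ∏ i ∈ d.support,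
        (Sum.elim p (Sum.elim (fun _ => t) y) : E ⊕ (Unit ⊕ ι) → A) (g i) ^ d i := by
    have e3 : ∑ b, L b * d (Sum.inr b) =
        ∑ i ∈ d.support, (Sum.elim (fun _ => 0) L : E ⊕ ι → ℕ) i * d i := by
      rw [Finset.sum_subset (Finset.subset_univ d.support) (f := fun i =>
        (Sum.elim (fun _ => 0) L : E ⊕ ι → ℕ) i * d i)]
      · rw [Fintype.sum_sum_type]
        simp
      · intro i _ hi
        rw [Finsupp.notMem_support_iff.1 hi, mul_zero]
    rw [e3, ← Finset.prod_pow_eq_pow_sum, ← Finset.prod_mul_distrib]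
    refine Finset.prod_congr rfl fun i _ => ?_
    rw [e1 i, mul_pow, pow_mul]
  rw [e2, map_mul, map_mul, map_prod, algHom_C, map_pow, aeval_X]
  simp only [map_pow, aeval_X, Sum.elim_inr, Sum.elim_inl]
  have e4 : t ^ (∑ b, L b * d (Sum.inr b)) =
      t ^ N * t ^ ((∑ b, L b * d (Sum.inr b)) - N) := by
    rw [← pow_add, Nat.add_sub_cancel' (h d hd)]
  rw [e4]
  ring

/-- the expansion up to the order two -/
theorem taylor2 {E τ : Type} [Fintype τ] [DecidableEq τ] (H : MvPolynomial (E ⊕ τ) ℂ) :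
    ∃ R : MvPolynomial (E ⊕ ((τ ⊕ τ) ⊕ Unit)) ℂ, ∀ (A : Type) [CommRing A] [Algebra ℂ A]
      (p : E → A) (x v : τ → A) (t : A), aeval (Sum.elim p fun i => x i + t * v i) H =
        aeval (Sum.elim p x) H +
          t * ∑ i, v i * aeval (Sum.elim p x) (pderiv (Sum.inr i) H) +
          t ^ 2 * aeval (Sum.elim p (Sum.elim (Sum.elim x v) fun _ => t)) R := by
  classical
  induction H using MvPolynomial.induction_on with
  | C a =>
    refine ⟨0, fun A _ _ p x v t => ?_⟩
    simp
  | add H₁ H₂ h₁ h₂ =>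
    obtain ⟨R₁, h₁⟩ := h₁
    obtain ⟨R₂, h₂⟩ := h₂
    refine ⟨R₁ + R₂, fun A _ _ p x v t => ?_⟩
    simp only [map_add, h₁, h₂, mul_add, Finset.sum_add_distrib]
    ring
  | mul_X H j h =>
    obtain ⟨R, h⟩ := h
    rcases j with e | j
    · refine ⟨R * X (Sum.inl e), fun A _ _ p x v t => ?_⟩
      have h1 : ∀ i : τ, pderiv (Sum.inr i : E ⊕ τ) (H * X (Sum.inl e)) =
          X (Sum.inl e) * pderiv (Sum.inr i) H := fun i => by
        rw [Derivation.leibniz, pderiv_X, Pi.single_eq_of_ne (by simp)]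
        simp
      have h2 : ∑ i, v i * aeval (Sum.elim p x) (pderiv (Sum.inr i : E ⊕ τ)
          (H * X (Sum.inl e))) =
          p e * ∑ i, v i * aeval (Sum.elim p x) (pderiv (Sum.inr i) H) := by
        rw [Finset.mul_sum]
        refine Finset.sum_congr rfl fun i _ => ?_
        rw [h1, map_mul, aeval_X, Sum.elim_inl]
        ring
      rw [h2]
      simp only [map_mul, h, aeval_X, Sum.elim_inl]
      ring
    · refine ⟨(∑ i, X (Sum.inr (Sum.inl (Sum.inr i))) *
        rename (Sum.elim Sum.inl fun i => Sum.inr (Sum.inl (Sum.inl i)))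
          (pderiv (Sum.inr i) H)) * X (Sum.inr (Sum.inl (Sum.inr j))) +
        R * X (Sum.inr (Sum.inl (Sum.inl j))) +
        X (Sum.inr (Sum.inr ())) * R * X (Sum.inr (Sum.inl (Sum.inr j))),
        fun A _ _ p x v t => ?_⟩
      have h1 : ∀ i : τ, pderiv (Sum.inr i : E ⊕ τ) (H * X (Sum.inr j)) =
          X (Sum.inr j) * pderiv (Sum.inr i) H + if i = j then H else 0 := fun i => by
        rw [Derivation.leibniz, pderiv_X]
        by_cases hij : i = j
        · subst hij
          simp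
          ring
        · rw [Pi.single_eq_of_ne (by simpa using fun h => hij h.symm), if_neg hij]
          simp
      have h2 : ∑ i, v i * aeval (Sum.elim p x) (pderiv (Sum.inr i : E ⊕ τ) (H * X (Sum.inr j))) =
          x j * (∑ i, v i * aeval (Sum.elim p x) (pderiv (Sum.inr i) H)) +
            v j * aeval (Sum.elim p x) H := by
        have h3 : ∀ i, v i * aeval (Sum.elim p x) (pderiv (Sum.inr i : E ⊕ τ) (H * X (Sum.inr j))) =
            x j * (v i * aeval (Sum.elim p x) (pderiv (Sum.inr i) H)) +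
              if i = j then v i * aeval (Sum.elim p x) H else 0 := by
          intro i
          rw [h1]
          split_ifs
          · simp only [map_add, map_mul, aeval_X, Sum.elim_inr]
            ring
          · simp only [map_add, map_mul, aeval_X, Sum.elim_inr, map_zero]
            ring
        rw [Finset.sum_congr rfl fun i _ => h3 i, Finset.sum_add_distrib, ← Finset.mul_sum,
          Finset.sum_ite_eq' Finset.univ j]
        simp
      have h4 : ∀ i : τ, aeval (Sum.elim p (Sum.elim (Sum.elim x v) fun _ => t) :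
          E ⊕ ((τ ⊕ τ) ⊕ Unit) → A) (rename (Sum.elim Sum.inl fun i =>
            Sum.inr (Sum.inl (Sum.inl i))) (pderiv (Sum.inr i) H)) =
          aeval (Sum.elim p x) (pderiv (Sum.inr i) H) := by
        intro i
        rw [aeval_rename]
        congr 2
        funext s
        rcases s with s | s <;> rfl
      rw [map_mul, h, h2]
      simp only [map_add, map_mul, map_sum, aeval_X, Sum.elim_inr, Sum.elim_inl, h4]
      ring

/-! ## Leading coefficients -/

section

variable {E E' ι : Type}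

theorem lead_X {Q : Set (E ⊕ Unit → ℂ)} (hQ : QU Q) (N m : ℕ) (p : E → ℂ) (G : PowerSeries ℂ) :
    Lead Q m p (PowerSeries.X ^ N * G) ↔ N ≤ m ∧ Lead Q (m - N) p G := by
  unfold Lead
  simp only [PowerSeries.coeff_X_pow_mul']
  constructor
  · rintro ⟨h1, h2⟩
    by_cases hN : N ≤ m
    · rw [if_pos hN] at h2
      refine ⟨hN, fun j hj => ?_, h2⟩
      have h3 := h1 (j + N) (by omega)
      rwa [if_pos (by omega), Nat.add_sub_cancel] at h3
    · rw [if_neg hN] at h2
      exact absurd rfl (hQ.2 _ h2)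
  · rintro ⟨hN, h1, h2⟩
    refine ⟨fun j hj => ?_, ?_⟩
    · split_ifs with h
      · exact h1 _ (by omega)
      · rfl
    · rw [if_pos hN]
      exact h2

theorem lead_congr {Q : Set (E ⊕ Unit → ℂ)} {m : ℕ} {p : E → ℂ} {G G' : PowerSeries ℂ}
    (h : ∀ j ≤ m, PowerSeries.coeff j G = PowerSeries.coeff j G') :
    Lead Q m p G ↔ Lead Q m p G' := by
  unfold Lead
  rw [h m le_rfl]
  refine and_congr ⟨fun h1 j hj => ?_, fun h1 j hj => ?_⟩ Iff.rfl
  · rw [← h j hj.le]
    exact h1 j hj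
  · rw [h j hj.le]
    exact h1 j hj

theorem cy_lead [Finite E] [Finite E'] {Q : Set (E ⊕ Unit → ℂ)} (hQ : Constructible Q) (m : ℕ)
    {φ : E → (E' → ℂ) × (ι → PowerSeries ℂ) → ℂ} (hφ : ∀ s, RF (φ s))
    {s : (E' → ℂ) × (ι → PowerSeries ℂ) → PowerSeries ℂ} (hs : RS s) :
    Cy {z | Lead Q m (fun e => φ e z) (s z)} := by
  unfold Lead
  refine Cy.and (Cy.all_lt m fun j _ => Cy.zero (hs j)) ?_
  have h1 := Cy.mem hQ (φ := (Sum.elim φ fun _ z => PowerSeries.coeff m (s z) :
    E ⊕ Unit → (E' → ℂ) × (ι → PowerSeries ℂ) → ℂ)) (by rintro (e | u); exacts [hφ e, hs m])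
  convert h1 using 2
  ext z
  have e : (Sum.elim (fun e => φ e z) fun _ => PowerSeries.coeff m (s z) : E ⊕ Unit → ℂ) =
      fun a => (Sum.elim φ fun _ z => PowerSeries.coeff m (s z) :
        E ⊕ Unit → (E' → ℂ) × (ι → PowerSeries ℂ) → ℂ) a z := by
    funext a
    rcases a with a | a <;> rfl
  rw [e]

/-- `H(p, t, y(t))` is regular -/
theorem rs_evH {κ : Type} (H : MvPolynomial (E ⊕ (Unit ⊕ κ)) ℂ)
    {φ : E → (E' → ℂ) × (ι → PowerSeries ℂ) → ℂ} (hφ : ∀ s, RF (φ s))
    {y : κ → (E' → ℂ) × (ι → PowerSeries ℂ) → PowerSeries ℂ} (hy : ∀ i, RS (y i)) :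
    RS fun z => evH H (fun e => φ e z) fun i => y i z := by
  set u : E ⊕ (Unit ⊕ κ) → (E' → ℂ) × (ι → PowerSeries ℂ) → PowerSeries ℂ :=
    Sum.elim (fun e z => PowerSeries.C (φ e z)) (Sum.elim (fun _ _ => PowerSeries.X) y) with hu
  have h0 : ∀ i, RS (u i) := by
    rintro (e | v | i)
    · exact RS.C (hφ e)
    · intro l
      exact RF.const _
    · exact hy i
  have h1 := RS.aeval h0 H
  have e : ∀ z, evH H (fun e => φ e z) (fun i => y i z) = aeval (fun a => u a z) H := by
    intro z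
    have e2 : (Sum.elim (fun e => PowerSeries.C (φ e z)) (Sum.elim (fun _ => PowerSeries.X)
        fun i => y i z) : E ⊕ (Unit ⊕ κ) → PowerSeries ℂ) = fun a => u a z := by
      funext a
      rcases a with e | v | i <;> rfl
    rw [evH, e2]
  simp only [e]
  exact h1

/-- `F(p, y(t))` is regular -/
theorem rs_evF {κ : Type} (F : MvPolynomial (E ⊕ κ) ℂ)
    {φ : E → (E' → ℂ) × (ι → PowerSeries ℂ) → ℂ} (hφ : ∀ s, RF (φ s))
    {y : κ → (E' → ℂ) × (ι → PowerSeries ℂ) → PowerSeries ℂ} (hy : ∀ i, RS (y i)) :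
    RS fun z => evF F (fun e => φ e z) fun i => y i z := by
  set u : E ⊕ κ → (E' → ℂ) × (ι → PowerSeries ℂ) → PowerSeries ℂ :=
    Sum.elim (fun e z => PowerSeries.C (φ e z)) y with hu
  have h0 : ∀ i, RS (u i) := by
    rintro (e | i)
    · exact RS.C (hφ e)
    · exact hy i
  have h1 := RS.aeval h0 F
  have e : ∀ z, evF F (fun e => φ e z) (fun i => y i z) = aeval (fun a => u a z) F := by
    intro z
    have e2 : (Sum.elim (fun e => PowerSeries.C (φ e z)) (fun i => y i z) :
        E ⊕ κ → PowerSeries ℂ) = fun a => u a z := by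
      funext a
      rcases a with e | i <;> rfl
    rw [evF, e2]
  simp only [e]
  exact h1

end

end VOAux

end Pool.Agent.Mono.SP
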