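import Pool.Agent.Work.Monodromy8.VOAux
import Pool.Agent.Work.Monodromy8.VB8

/-!
# Phase 8, blocks SMS8, SM8 (helper31): the expansion at `t = 0`
-/

set_option autoImplicit false
set_option linter.unusedSectionVars false

namespace Pool.Agent.Mono.SP

open MvPolynomial TS RO PC RO.VGAux BV.TAAux

namespace VOAux

section

variable {E ι : Type}

/-- the value at `(p, 0, q)` -/
noncomputable def ev0 (G : MvPolynomial (E ⊕ (Unit ⊕ ι)) ℂ) (p : E → ℂ) (q : ι → ℂ) : ℂ :=
  eval (Sum.elim p (Sum.elim (fun _ => 0) q)) G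

theorem sm_iff (H : MvPolynomial (E ⊕ (Unit ⊕ ι)) ℂ) (p : E → ℂ) (q : ι → ℂ) :
    Sm H p q ↔ ∃ b : ι, ev0 (pderiv (Sum.inr (Sum.inr b)) H) p q ≠ 0 := Iff.rfl

theorem aeval_const {σ : Type} (c : σ → ℂ) (G : MvPolynomial σ ℂ) :
    aeval (fun s => (PowerSeries.C (c s) : PowerSeries ℂ)) G = PowerSeries.C (eval c G) := by
  induction G using MvPolynomial.induction_on with
  | C a => simp
  | add f g hf hg => simp only [map_add, hf, hg]
  | mul_X f i hf => simp only [map_mul, hf, aeval_X, eval_X]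

/-- the expansion of `H(p, t, q + t y')` -/
theorem expH [Fintype ι] [DecidableEq ι] (H : MvPolynomial (E ⊕ (Unit ⊕ ι)) ℂ) :
    ∃ R : MvPolynomial ((E ⊕ ι) ⊕ (Unit ⊕ ι)) ℂ, ∀ (p : E → ℂ) (q : ι → ℂ)
      (y : ι → PowerSeries ℂ), evH H p (fun b => PowerSeries.C (q b) + PowerSeries.X * y b) =
        PowerSeries.C (ev0 H p q) + PowerSeries.X *
          (PowerSeries.C (ev0 (pderiv (Sum.inr (Sum.inl ())) H) p q) +
            ∑ b, PowerSeries.C (ev0 (pderiv (Sum.inr (Sum.inr b)) H) p q) * y b) +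
          PowerSeries.X ^ 2 * evH R (Sum.elim p q) y := by
  obtain ⟨R, hR⟩ := taylor2 H
  let g : E ⊕ (((Unit ⊕ ι) ⊕ (Unit ⊕ ι)) ⊕ Unit) → MvPolynomial ((E ⊕ ι) ⊕ (Unit ⊕ ι)) ℂ :=
    Sum.elim (fun e => X (Sum.inl (Sum.inl e)))
      (Sum.elim (Sum.elim (Sum.elim (fun _ => 0) fun b => X (Sum.inl (Sum.inr b)))
        (Sum.elim (fun _ => 1) fun b => X (Sum.inr (Sum.inr b))))
        fun _ => X (Sum.inr (Sum.inl ())))
  refine ⟨bind₁ g R, fun p q y => ?_⟩
  have h1 := hR (PowerSeries ℂ) (fun e => PowerSeries.C (p e))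
    (Sum.elim (fun _ => 0) fun b => PowerSeries.C (q b)) (Sum.elim (fun _ => 1) y)
    PowerSeries.X
  have e1 : (fun i : Unit ⊕ ι => (Sum.elim (fun _ => 0) (fun b => PowerSeries.C (q b)) :
      Unit ⊕ ι → PowerSeries ℂ) i + PowerSeries.X *
        (Sum.elim (fun _ => 1) y : Unit ⊕ ι → PowerSeries ℂ) i) =
      Sum.elim (fun _ => PowerSeries.X) fun b => PowerSeries.C (q b) + PowerSeries.X * y b := by
    funext i
    rcases i with i | i
    · simp
    · rfl
  have e2 : (Sum.elim (fun e => PowerSeries.C (p e)) (Sum.elim (fun _ => 0)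
      fun b => PowerSeries.C (q b)) : E ⊕ (Unit ⊕ ι) → PowerSeries ℂ) =
      fun s => PowerSeries.C ((Sum.elim p (Sum.elim (fun _ => 0) q) : E ⊕ (Unit ⊕ ι) → ℂ) s) := by
    funext s
    rcases s with s | s | s
    · rfl
    · simp
    · rfl
  have e3 : aeval (Sum.elim (fun e => PowerSeries.C (p e)) (Sum.elim (Sum.elim
      (Sum.elim (fun _ => 0) fun b => PowerSeries.C (q b)) (Sum.elim (fun _ => 1) y))
      fun _ => PowerSeries.X) : E ⊕ (((Unit ⊕ ι) ⊕ (Unit ⊕ ι)) ⊕ Unit) → PowerSeries ℂ) R =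
      evH (bind₁ g R) (Sum.elim p q) y := by
    rw [evH, aeval_bind₁]
    congr 2
    funext s
    rcases s with s | ((s | s) | (s | s)) | s
    · simp [g]
    · simp [g]
    · simp [g]
    · simp [g]
    · simp [g]
    · simp [g]
  rw [e1, e3, Fintype.sum_sum_type] at h1
  simp only [e2, aeval_const, Sum.elim_inl, Sum.elim_inr, Finset.univ_unique,
    PUnit.default_eq_unit, Finset.sum_singleton, one_mul] at h1
  rw [evH, h1]
  congr 3
  refine congrArg₂ (· + ·) rfl ?_
  exact Finset.sum_congr rfl fun b _ => mul_comm _ _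

/-- an arc -/
theorem arc_eq (y : PowerSeries ℂ) : y = PowerSeries.C (PowerSeries.coeff 0 y) +
    PowerSeries.X * PowerSeries.mk fun n => PowerSeries.coeff (n + 1) y := by
  ext n
  rcases n with _ | n
  · simp
  · simp [PowerSeries.coeff_succ_X_mul]

theorem evH_congr [Finite E] [Fintype ι] (H : MvPolynomial (E ⊕ (Unit ⊕ ι)) ℂ) (p : E → ℂ)
    (n : ℕ) (x y : ι → PowerSeries ℂ)
    (h : ∀ i, ∀ l < n, PowerSeries.coeff l (x i) = PowerSeries.coeff l (y i)) :
    ∀ l < n, PowerSeries.coeff l (evH H p x) = PowerSeries.coeff l (evH H p y) := by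
  classical
  have := Fintype.ofFinite E
  refine GJetAux.aeval_congr H n _ _ ?_
  rintro (i | i | i) l hl
  · rfl
  · rfl
  · exact h i l hl

/-- the coefficients of order `0` and `1` -/
theorem coeff01 [Fintype ι] [DecidableEq ι] (H : MvPolynomial (E ⊕ (Unit ⊕ ι)) ℂ) (p : E → ℂ)
    (y : ι → PowerSeries ℂ) :
    PowerSeries.coeff 0 (evH H p y) = ev0 H p (fun b => PowerSeries.coeff 0 (y b)) ∧
    PowerSeries.coeff 1 (evH H p y) =
      ev0 (pderiv (Sum.inr (Sum.inl ())) H) p (fun b => PowerSeries.coeff 0 (y b)) +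
      ∑ b, ev0 (pderiv (Sum.inr (Sum.inr b)) H) p (fun b => PowerSeries.coeff 0 (y b)) *
        PowerSeries.coeff 1 (y b) := by
  obtain ⟨R, hR⟩ := expH H
  have h1 := hR p (fun b => PowerSeries.coeff 0 (y b))
    fun b => PowerSeries.mk fun n => PowerSeries.coeff (n + 1) (y b)
  have e : y = fun b => PowerSeries.C (PowerSeries.coeff 0 (y b)) +
      PowerSeries.X * PowerSeries.mk fun n => PowerSeries.coeff (n + 1) (y b) :=
    funext fun b => arc_eq (y b)
  rw [← e] at h1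
  rw [h1]
  constructor
  · simp
  · rw [map_add, map_add, show (1 : ℕ) = 0 + 1 from rfl, PowerSeries.coeff_succ_X_mul, pow_two,
      mul_assoc, PowerSeries.coeff_succ_X_mul, PowerSeries.coeff_zero_X_mul, map_add, map_sum]
    simp [PowerSeries.coeff_C]

end

end VOAux

end Pool.Agent.Mono.SP
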